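import Pool.Agent.Helper86.LK.SB
import Pool.Agent.Helper60.LT.GD

/-!
# LK-IND: the induction step (after LT/G2)

`T₀ = √(Δ₀/y₀)`, `H₀ = K/T₀`, `T₀' = T₀ y₀²`, `G₀ = K y₀² = H₀ T₀'`. Scaling `y₀ → y₀/D²`: `T₀ → T₀ D`, `H₀ → H₀/D`, `T₀' → T₀'/D³`, `FF (H/D) (T/D³) = FF H T/D^12` (as `BB_scale`), so `Rh` (with `FF`) scales by `D^(-(10+e))` as before.
`q = K^δ₂`, `κ = K^δ`, `δ = min (η/8) δ₂`.
(a) `K ≤ K₀` or `H₀ ≤ q^16`: `triv` (`160 δ₂ ≤ a`). (b) `H₀ > q^16`, `T₀' ≤ q^50`: `base_int` (LK/BI), `H₀^17 T₀'^5 = H₀^17 T₀'^(-5/3) T₀'^(20/3) ≤ q^334 FF`, `(1 + log K)^10 ≤ C K^η`.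
(c) else `G₀ > q^66`: `stepA` as in G2 (conditions hold a fortiori); its children `w = M^m ∈ [q², ..)`: the new condition `1 ≤ √(Δ₀/(y₀/w)) (y₀/w)² = T₀'/w^(3/2)`: by definition of `lvA M q` (`M^m ≤ C q^c`; if necessary, replace `q^50` by a
larger power in (b), `ha` by a larger multiple of `δ₂`).
`lvC`: `d = 2^i ≤ 4 q`, state `(y₀/d²)`, `S' = 2 q⁻³`: `stepB'` with `T₀'/d³ ≥ 1`, `G₀/d⁴ ≥ C κ^11`. Its children `ρ = S'/2^j`, `D = d/ρ`: `1 ≤ T₀'/d³ ρ³` by `stepB'`. termB: `d^22 wB(e/2, κ, G₀/d⁴, ρ) D^(-(10+e))`: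
 * old: `d^(12-e) ρ^(5+e/2) ≤ 4^12·32` as in G2;
 * new 1: `d^(12-e) ρ^(2+e/2)`, `ρ ≤ κ (G₀/d⁴)^(-1/8)`: `ρ² ≤ κ² d G₀^(-1/4)`, so `≤ κ² (4q)^13 q^(-66/4) ≤ 4^13` (`κ ≤ q`);
 * new 2: `d^(12-e) ρ^(-3+e/2) d⁴/G₀ ≤ d^16 ρ^(-3)/G₀ ≤ d^13 T₀'/G₀ = d^13/H₀ ≤ 4^13` (`ρ^(-3) ≤ T₀'/d³`).
termBad: `κ^20 (1 + log K)^21 (4q)^12 ≤ ..` as before. Powers of `κ` lost in one step: `κ²` (stepA) times `κ³` (stepB'): `κ^5`, `δ ≤ η/10` is enough with the logarithms in `K^(η/3)`.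
-/

open MeasureTheory Real Set Filter Topology

set_option autoImplicit false

namespace Pool.Agent.Helper86.LK

open Pool.Agent.Helper60.LT

private theorem FF_scale {H T D : ℝ} (_hH : 0 < H) (hT : 0 < T) (hD : 0 < D) : FF (H / D) (T / D ^ 3) = FF H T / D ^ 12 := by
  unfold FF
  have e1 : (D ^ 3) ^ (-(5 / 3) : ℝ) = (D ^ 5)⁻¹ := by
    rw [← Real.rpow_natCast, ← Real.rpow_mul hD.le, ← Real.rpow_natCast, ← Real.rpow_neg hD.le]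
    congr 1
    norm_num
  rw [Real.div_rpow hT.le (by positivity), e1]
  field_simp

private theorem FF_pos {H T : ℝ} (hH : 0 < H) (hT : 0 < T) : 0 < FF H T ∧ H ^ 12 ≤ FF H T ∧ H ^ 17 * T ^ (-(5 / 3) : ℝ) ≤ FF H T := by
  unfold FF
  have h1 : 0 < H ^ 12 := by positivity
  have h2 : 0 < H ^ 17 * T ^ (-(5 / 3) : ℝ) := mul_pos (by positivity) (Real.rpow_pos_of_pos hT _)
  refine ⟨?_, ?_, ?_⟩ <;> linarith

/-- the right side of the bound -/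
private noncomputable def Rh (e K Δ₀ y₀ : ℝ) : ℝ :=
  (K / √(Δ₀ / y₀)) ^ e * (Δ₀ ^ 2 / y₀) * FF (K / √(Δ₀ / y₀)) (√(Δ₀ / y₀) * y₀ ^ 2)

private theorem T_scale {Δ₀ y₀ D : ℝ} (hΔ : 0 < Δ₀) (hy : 0 < y₀) (hD : 0 < D) : √(Δ₀ / (y₀ / D ^ 2)) = √(Δ₀ / y₀) * D := by
  have e : Δ₀ / (y₀ / D ^ 2) = Δ₀ / y₀ * D ^ 2 := by field_simp
  rw [e, Real.sqrt_mul (by positivity), Real.sqrt_sq hD.le]

private theorem Rh_scale {e K Δ₀ y₀ D : ℝ} (hΔ : 0 < Δ₀) (hy : 0 < y₀) (hK : 0 < K) (hD : 0 < D) :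
    Rh e K Δ₀ (y₀ / D ^ 2) = D ^ (-(10 + e)) * Rh e K Δ₀ y₀ := by
  unfold Rh
  rw [T_scale hΔ hy hD]
  have hT : 0 < √(Δ₀ / y₀) := Real.sqrt_pos.2 (by positivity)
  have e1 : K / (√(Δ₀ / y₀) * D) = K / √(Δ₀ / y₀) / D := by rw [div_div]
  have e2 : √(Δ₀ / y₀) * D * (y₀ / D ^ 2) ^ 2 = √(Δ₀ / y₀) * y₀ ^ 2 / D ^ 3 := by field_simp
  have e3 : Δ₀ ^ 2 / (y₀ / D ^ 2) = Δ₀ ^ 2 / y₀ * D ^ 2 := by field_simp
  rw [e1, e2, e3, FF_scale (by positivity) (by positivity) hD, Real.div_rpow (by positivity) hD.le]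
  have e4 : D ^ (-(10 + e)) = D ^ 2 / (D ^ e * D ^ 12) := by
    rw [Real.rpow_neg hD.le, Real.rpow_add hD, show (10 : ℝ) = ((10 : ℕ) : ℝ) by norm_num, Real.rpow_natCast]
    have : 0 < D ^ e := Real.rpow_pos_of_pos hD e
    field_simp
  rw [e4]
  have : 0 < D ^ e := Real.rpow_pos_of_pos hD e
  field_simp

private theorem Rh_pos {e K Δ₀ y₀ : ℝ} (hΔ : 0 < Δ₀) (hy : 0 < y₀) (hK : 0 < K) : 0 < Rh e K Δ₀ y₀ := by
  unfold Rh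
  have hT : 0 < √(Δ₀ / y₀) := Real.sqrt_pos.2 (by positivity)
  have := (FF_pos (H := K / √(Δ₀ / y₀)) (T := √(Δ₀ / y₀) * y₀ ^ 2) (by positivity) (by positivity)).1
  have h2 : 0 < (K / √(Δ₀ / y₀)) ^ e := Real.rpow_pos_of_pos (by positivity) e
  positivity

/-- `V ≤ R` and `V FF ≤ R` if `H ≥ 1` -/
private theorem Rh_ge {e K Δ₀ y₀ : ℝ} (he : 0 < e) (hΔ : 0 < Δ₀) (hy : 0 < y₀) (hK : 0 < K) (hH : 1 ≤ K / √(Δ₀ / y₀)) :
    Δ₀ ^ 2 / y₀ ≤ Rh e K Δ₀ y₀ ∧ Δ₀ ^ 2 / y₀ * FF (K / √(Δ₀ / y₀)) (√(Δ₀ / y₀) * y₀ ^ 2) ≤ Rh e K Δ₀ y₀ := by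
  have hT : 0 < √(Δ₀ / y₀) := Real.sqrt_pos.2 (by positivity)
  obtain ⟨h1, h2, -⟩ := FF_pos (H := K / √(Δ₀ / y₀)) (T := √(Δ₀ / y₀) * y₀ ^ 2) (by positivity) (by positivity)
  have h3 : 1 ≤ (K / √(Δ₀ / y₀)) ^ e := Real.one_le_rpow hH he.le
  have h4 : 1 ≤ (K / √(Δ₀ / y₀)) ^ 12 := one_le_pow₀ hH
  have h5 : 0 < Δ₀ ^ 2 / y₀ := by positivity
  unfold Rh
  obtain ⟨b, hb⟩ : ∃ b, b = FF (K / √(Δ₀ / y₀)) (√(Δ₀ / y₀) * y₀ ^ 2) := ⟨_, rfl⟩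
  obtain ⟨x, hx⟩ : ∃ x, x = (K / √(Δ₀ / y₀)) ^ e := ⟨_, rfl⟩
  obtain ⟨v, hv⟩ : ∃ v, v = Δ₀ ^ 2 / y₀ := ⟨_, rfl⟩
  rw [← hb] at h1 h2 ⊢
  rw [← hx] at h3 ⊢
  rw [← hv] at h5 ⊢
  have hb1 : 1 ≤ b := h4.trans h2
  have hxv : v ≤ x * v := by nlinarith
  constructor
  · nlinarith
  · nlinarith

/-- terms of stage A -/
private theorem termA {e a C K Δ₀ y₀ Mm : ℝ} {J : ENNReal} (hΔ : 0 < Δ₀) (hy : 0 < y₀) (hK : 0 < K) (hM : 0 < Mm) 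
    (hJ : J ≤ ENNReal.ofReal (C * K ^ a * Rh e K Δ₀ (y₀ / Mm))) :
    ENNReal.ofReal (Mm ^ (5 + e / 2)) * J ≤ ENNReal.ofReal (C * K ^ a * Rh e K Δ₀ y₀) := by
  have hD : 0 < √Mm := Real.sqrt_pos.2 hM
  have hD2 : √Mm ^ 2 = Mm := Real.sq_sqrt hM.le
  have e1 := Rh_scale (e := e) hΔ hy hK hD
  rw [hD2] at e1
  rw [e1] at hJ
  calc ENNReal.ofReal (Mm ^ (5 + e / 2)) * J ≤ ENNReal.ofReal (Mm ^ (5 + e / 2)) * ENNReal.ofReal (C * K ^ a * (√Mm ^ (-(10 + e)) * Rh e K Δ₀ y₀)) := by gcongr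
    _ = ENNReal.ofReal (Mm ^ (5 + e / 2) * (C * K ^ a * (√Mm ^ (-(10 + e)) * Rh e K Δ₀ y₀))) :=
        (ENNReal.ofReal_mul (by positivity)).symm
    _ = _ := by
        congr 1
        have e2 : √Mm ^ (-(10 + e)) = (Mm ^ (5 + e / 2))⁻¹ := by
          rw [Real.sqrt_eq_rpow, ← Real.rpow_mul hM.le, ← Real.rpow_neg hM.le]
          congr 1
          ring
        rw [e2]
        have : 0 < Mm ^ (5 + e / 2) := Real.rpow_pos_of_pos hM _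
        field_simp

/-- the cost of a shell against the gain of the scaling -/
private theorem keyB {e K y₀ d ρ q κ T₀ : ℝ} (he : 0 < e) (hy : 0 < y₀) (hK : 0 < K) (hT₀ : 0 < T₀) (hd : 1 ≤ d) (hq : 20 ≤ q) (hdq : d ≤ 4 * q)
    (hρ : 0 < ρ) (hρq : ρ ≤ 2 * q⁻¹ ^ 3) (hκ0 : 0 < κ) (hκ : κ ≤ q) (hG : q ^ 66 ≤ K * y₀ ^ 2) (hH : q ^ 16 ≤ K / T₀)
    (hT : 1 ≤ T₀ * y₀ ^ 2 / d ^ 3 * ρ ^ 3) :
    d ^ 22 * (wB (e / 2) κ (K * (y₀ / d ^ 2) ^ 2) ρ * (d / ρ) ^ (-(10 + e))) ≤ 4 ^ 15 := by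
  have hd0 : 0 < d := by linarith
  have hq0 : 0 < q := by linarith
  have hq1 : 1 ≤ q := by linarith
  have hρ1 : ρ ≤ 1 := by
    refine hρq.trans ?_
    rw [inv_pow, ← div_eq_mul_inv, div_le_one (by positivity)]
    have : (20 : ℝ) ^ 3 ≤ q ^ 3 := pow_le_pow_left₀ (by norm_num) hq 3
    linarith
  have e4 : (d / ρ) ^ (-(10 + e)) = d ^ (-(10 + e)) * ρ ^ (10 + e) := by
    rw [Real.div_rpow hd0.le hρ.le, Real.rpow_neg hρ.le, div_inv_eq_mul]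
  have e5 : ∀ s : ℝ, d ^ 22 * (ρ ^ (-s) * (d / ρ) ^ (-(10 + e))) = d ^ (12 - e) * ρ ^ (10 + e - s) := by
    intro s
    rw [e4, ← Real.rpow_natCast d 22]
    have e3 : d ^ ((22 : ℕ) : ℝ) * (ρ ^ (-s) * (d ^ (-(10 + e)) * ρ ^ (10 + e))) =
        (d ^ ((22 : ℕ) : ℝ) * d ^ (-(10 + e))) * (ρ ^ (-s) * ρ ^ (10 + e)) := by ring
    rw [e3, ← Real.rpow_add hd0, ← Real.rpow_add hρ]
    congr 2
    · push_cast
      ring
    · ring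
  have h1' : d ^ (12 - e) ≤ d ^ 12 := by
    calc d ^ (12 - e) ≤ d ^ (12 : ℝ) := Real.rpow_le_rpow_of_exponent_le hd (by linarith)
      _ = d ^ 12 := by rw [show (12 : ℝ) = ((12 : ℕ) : ℝ) by norm_num, Real.rpow_natCast]
  have h1 : d ^ (12 - e) ≤ (4 * q) ^ 12 := h1'.trans (pow_le_pow_left₀ hd0.le hdq 12)
  have hde : 0 < d ^ (12 - e) := Real.rpow_pos_of_pos hd0 _
  have hqi : q⁻¹ ^ 3 ≤ 1 := pow_le_one₀ (by positivity) (inv_le_one_of_one_le₀ (by linarith))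
  unfold wB
  split_ifs with hcase
  · rw [e5, show 10 + e - (5 + e / 2) = 5 + e / 2 by ring]
    have h2 : ρ ^ (5 + e / 2) ≤ (2 * q⁻¹ ^ 3) ^ 5 := by
      calc ρ ^ (5 + e / 2) ≤ ρ ^ (5 : ℝ) := Real.rpow_le_rpow_of_exponent_ge hρ hρ1 (by linarith)
        _ = ρ ^ 5 := by rw [show (5 : ℝ) = ((5 : ℕ) : ℝ) by norm_num, Real.rpow_natCast]
        _ ≤ _ := pow_le_pow_left₀ hρ.le hρq 5
    calc d ^ (12 - e) * ρ ^ (5 + e / 2) ≤ (4 * q) ^ 12 * (2 * q⁻¹ ^ 3) ^ 5 := mul_le_mul h1 h2 (by positivity) (by positivity)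
      _ = 4 ^ 12 * 32 * (q⁻¹ ^ 3) := by
          field_simp
          ring
      _ ≤ 4 ^ 12 * 32 * 1 := by gcongr
      _ ≤ _ := by norm_num
  · obtain ⟨G, hGd⟩ : ∃ G, G = K * (y₀ / d ^ 2) ^ 2 := ⟨_, rfl⟩
    rw [← hGd] at hcase ⊢
    have hGe : G = K * y₀ ^ 2 / d ^ 4 := by
      rw [hGd]
      field_simp
    have hG0 : 0 < G := by
      rw [hGe]
      positivity
    rw [not_lt] at hcase
    -- the first new term
    have n1 : d ^ 12 * ρ ^ 2 ≤ 4 ^ 13 := by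
      have h8 : ρ ^ 8 * G ≤ q ^ 8 := by
        have h9 : ρ ^ 8 ≤ (κ * G ^ (-(1 / 8) : ℝ)) ^ 8 := pow_le_pow_left₀ hρ.le hcase 8
        have h10 : (G ^ (-(1 / 8) : ℝ)) ^ 8 * G = 1 := by
          rw [← Real.rpow_natCast (G ^ (-(1 / 8) : ℝ)) 8, ← Real.rpow_mul hG0.le]
          nth_rewrite 2 [← Real.rpow_one G]
          rw [← Real.rpow_add hG0]
          norm_num
        calc ρ ^ 8 * G ≤ (κ * G ^ (-(1 / 8) : ℝ)) ^ 8 * G := by gcongr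
          _ = κ ^ 8 * ((G ^ (-(1 / 8) : ℝ)) ^ 8 * G) := by ring
          _ = κ ^ 8 := by rw [h10, mul_one]
          _ ≤ q ^ 8 := pow_le_pow_left₀ hκ0.le hκ 8
      have h11 : q ^ 62 ≤ 4 ^ 4 * G := by
        rw [hGe, mul_div_assoc', le_div_iff₀ (by positivity)]
        calc q ^ 62 * d ^ 4 ≤ q ^ 62 * (4 * q) ^ 4 := by gcongr
          _ = 4 ^ 4 * q ^ 66 := by ring
          _ ≤ 4 ^ 4 * (K * y₀ ^ 2) := by gcongr
      have h12 : ρ ^ 8 * q ^ 54 ≤ 4 ^ 4 := by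
        have h13 : ρ ^ 8 * q ^ 54 * q ^ 8 ≤ 4 ^ 4 * q ^ 8 := by
          calc ρ ^ 8 * q ^ 54 * q ^ 8 = ρ ^ 8 * q ^ 62 := by ring
            _ ≤ ρ ^ 8 * (4 ^ 4 * G) := by gcongr
            _ = 4 ^ 4 * (ρ ^ 8 * G) := by ring
            _ ≤ 4 ^ 4 * q ^ 8 := by gcongr
        exact le_of_mul_le_mul_right h13 (by positivity)
      have h14 : (d ^ 12 * ρ ^ 2) ^ 4 ≤ (4 ^ 13) ^ 4 := by
        calc (d ^ 12 * ρ ^ 2) ^ 4 = d ^ 48 * ρ ^ 8 := by ring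
          _ ≤ (4 * q) ^ 48 * ρ ^ 8 := by gcongr
          _ = 4 ^ 48 * (ρ ^ 8 * q ^ 48) := by ring
          _ ≤ 4 ^ 48 * (ρ ^ 8 * q ^ 54) := by
              have : q ^ 48 ≤ q ^ 54 := pow_le_pow_right₀ hq1 (by norm_num)
              gcongr
          _ ≤ 4 ^ 48 * 4 ^ 4 := by gcongr
          _ = _ := by norm_num
      exact le_of_pow_le_pow_left₀ (by norm_num) (by norm_num) h14
    -- the second new term
    have n2 : d ^ 12 * ((ρ ^ 3)⁻¹ / G) ≤ 4 ^ 13 := by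
      have h15 : (ρ ^ 3)⁻¹ ≤ T₀ * y₀ ^ 2 / d ^ 3 := by
        rw [inv_le_iff_one_le_mul₀ (by positivity)]
        exact hT
      have h16 : T₀ * y₀ ^ 2 / d ^ 3 / G = d / (K / T₀) := by
        rw [hGe]
        field_simp
      calc d ^ 12 * ((ρ ^ 3)⁻¹ / G) ≤ d ^ 12 * (T₀ * y₀ ^ 2 / d ^ 3 / G) := by gcongr
        _ = d ^ 13 / (K / T₀) := by
            rw [h16]
            ring
        _ ≤ d ^ 13 / q ^ 16 := by gcongr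
        _ ≤ (4 * q) ^ 13 / q ^ 16 := by gcongr
        _ ≤ 4 ^ 13 := by
            rw [div_le_iff₀ (by positivity)]
            calc (4 * q) ^ 13 = 4 ^ 13 * q ^ 13 := by ring
              _ ≤ 4 ^ 13 * q ^ 16 := by
                have : q ^ 13 ≤ q ^ 16 := pow_le_pow_right₀ hq1 (by norm_num)
                gcongr
    have e6 : d ^ 22 * ((ρ ^ (-(8 + e / 2)) + ρ ^ (-(13 + e / 2)) / G) * (d / ρ) ^ (-(10 + e))) =
        d ^ (12 - e) * ρ ^ (10 + e - (8 + e / 2)) + d ^ (12 - e) * ρ ^ (10 + e - (13 + e / 2)) / G := by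
      rw [← e5, ← e5]
      ring
    have r1 : ρ ^ (10 + e - (8 + e / 2)) ≤ ρ ^ 2 := by
      calc ρ ^ (10 + e - (8 + e / 2)) ≤ ρ ^ (2 : ℝ) := Real.rpow_le_rpow_of_exponent_ge hρ hρ1 (by linarith)
        _ = ρ ^ 2 := by rw [show (2 : ℝ) = ((2 : ℕ) : ℝ) by norm_num, Real.rpow_natCast]
    have r2 : ρ ^ (10 + e - (13 + e / 2)) ≤ (ρ ^ 3)⁻¹ := by
      calc ρ ^ (10 + e - (13 + e / 2)) ≤ ρ ^ (-3 : ℝ) := Real.rpow_le_rpow_of_exponent_ge hρ hρ1 (by linarith)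
        _ = (ρ ^ 3)⁻¹ := by rw [Real.rpow_neg hρ.le, show (3 : ℝ) = ((3 : ℕ) : ℝ) by norm_num, Real.rpow_natCast]
    rw [e6]
    calc d ^ (12 - e) * ρ ^ (10 + e - (8 + e / 2)) + d ^ (12 - e) * ρ ^ (10 + e - (13 + e / 2)) / G
        ≤ d ^ 12 * ρ ^ 2 + d ^ 12 * (ρ ^ 3)⁻¹ / G := by gcongr
      _ = d ^ 12 * ρ ^ 2 + d ^ 12 * ((ρ ^ 3)⁻¹ / G) := by ring
      _ ≤ 4 ^ 13 + 4 ^ 13 := add_le_add n1 n2
      _ ≤ _ := by norm_num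

/-- terms of stage B -/
private theorem termB {e a C K Δ₀ y₀ d ρ q κ : ℝ} {J : ENNReal} (he : 0 < e) (hΔ : 0 < Δ₀) (hy : 0 < y₀) (hK : 0 < K) (hC : 0 ≤ C) (hd : 1 ≤ d) (hq : 20 ≤ q) (hdq : d ≤ 4 * q)
    (hρ : 0 < ρ) (hρq : ρ ≤ 2 * q⁻¹ ^ 3) (hκ0 : 0 < κ) (hκ : κ ≤ q) (hG : q ^ 66 ≤ K * y₀ ^ 2) (hH : q ^ 16 ≤ K / √(Δ₀ / y₀))
    (hT : 1 ≤ √(Δ₀ / y₀) * y₀ ^ 2 / d ^ 3 * ρ ^ 3) (hJ : J ≤ ENNReal.ofReal (C * K ^ a * Rh e K Δ₀ (y₀ / d ^ 2 * ρ ^ 2))) :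
    ENNReal.ofReal (d ^ 22) * (ENNReal.ofReal (wB (e / 2) κ (K * (y₀ / d ^ 2) ^ 2) ρ) * J) ≤ ENNReal.ofReal (4 ^ 15 * C * K ^ a * Rh e K Δ₀ y₀) := by
  have hd0 : 0 < d := by linarith
  have hD : 0 < d / ρ := by positivity
  have e1 := Rh_scale (e := e) hΔ hy hK hD
  have e0 : y₀ / (d / ρ) ^ 2 = y₀ / d ^ 2 * ρ ^ 2 := by field_simp
  rw [e0] at e1
  rw [e1] at hJ
  have hkey := keyB he hy hK (Real.sqrt_pos.2 (by positivity : 0 < Δ₀ / y₀)) hd hq hdq hρ hρq hκ0 hκ hG hH hT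
  have hR := Rh_pos (e := e) hΔ hy hK
  have hKa : 0 < K ^ a := Real.rpow_pos_of_pos hK a
  obtain ⟨w, hw⟩ : ∃ w, w = wB (e / 2) κ (K * (y₀ / d ^ 2) ^ 2) ρ := ⟨_, rfl⟩
  have hw0 : 0 ≤ w := by
    rw [hw]
    unfold wB
    split_ifs <;> positivity
  rw [← hw] at hkey ⊢
  calc ENNReal.ofReal (d ^ 22) * (ENNReal.ofReal w * J)
      ≤ ENNReal.ofReal (d ^ 22) * (ENNReal.ofReal w * ENNReal.ofReal (C * K ^ a * ((d / ρ) ^ (-(10 + e)) * Rh e K Δ₀ y₀))) := by gcongr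
    _ = ENNReal.ofReal (d ^ 22 * (w * (C * K ^ a * ((d / ρ) ^ (-(10 + e)) * Rh e K Δ₀ y₀)))) := by
        rw [ENNReal.ofReal_mul (p := d ^ 22) (by positivity), ENNReal.ofReal_mul (p := w) hw0]
    _ ≤ _ := by
        apply ENNReal.ofReal_le_ofReal
        calc d ^ 22 * (w * (C * K ^ a * ((d / ρ) ^ (-(10 + e)) * Rh e K Δ₀ y₀)))
            = (d ^ 22 * (w * (d / ρ) ^ (-(10 + e)))) * (C * K ^ a * Rh e K Δ₀ y₀) := by ring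
          _ ≤ 4 ^ 15 * (C * K ^ a * Rh e K Δ₀ y₀) := mul_le_mul_of_nonneg_right hkey (by positivity)
          _ = _ := by ring


/-- the trivial bound for bounded `H` -/
private theorem caseT {e K Δ₀ y₀ P : ℝ} (he : 0 < e) (he1 : e ≤ 1) (hΔ : 0 < Δ₀) (hy : 0 < y₀) (hK : 0 < K) (hP : 1 ≤ P) (hH : K / √(Δ₀ / y₀) ≤ P) :
    Δ₀ ^ 2 / y₀ * (K / √(Δ₀ / y₀)) ^ 22 ≤ P ^ 10 * Rh e K Δ₀ y₀ := by
  have hT : 0 < √(Δ₀ / y₀) := Real.sqrt_pos.2 (by positivity)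
  have hH0 : 0 < K / √(Δ₀ / y₀) := by positivity
  obtain ⟨h1, h2, -⟩ := FF_pos (H := K / √(Δ₀ / y₀)) (T := √(Δ₀ / y₀) * y₀ ^ 2) hH0 (by positivity)
  unfold Rh
  obtain ⟨b, hb⟩ : ∃ b, b = FF (K / √(Δ₀ / y₀)) (√(Δ₀ / y₀) * y₀ ^ 2) := ⟨_, rfl⟩
  obtain ⟨H, hHd⟩ : ∃ H, H = K / √(Δ₀ / y₀) := ⟨_, rfl⟩
  obtain ⟨v, hv⟩ : ∃ v, v = Δ₀ ^ 2 / y₀ := ⟨_, rfl⟩
  have hv0 : 0 < v := by rw [hv]; positivity
  rw [← hb] at h1 h2 ⊢
  rw [← hHd] at h2 hH hH0 ⊢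
  rw [← hv]
  have e1 : H ^ 22 = H ^ e * H ^ 12 * H ^ (10 - e) := by
    have e2 : H ^ e * H ^ 12 * H ^ (10 - e) = (H ^ e * H ^ (10 - e)) * H ^ 12 := by ring
    rw [e2, ← Real.rpow_add hH0, show e + (10 - e) = ((10 : ℕ) : ℝ) by push_cast; ring, Real.rpow_natCast]
    ring
  have h3 : H ^ (10 - e) ≤ P ^ 10 := by
    calc H ^ (10 - e) ≤ P ^ (10 - e) := Real.rpow_le_rpow hH0.le hH (by linarith)
      _ ≤ P ^ (10 : ℝ) := Real.rpow_le_rpow_of_exponent_le hP (by linarith)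
      _ = P ^ 10 := by rw [show (10 : ℝ) = ((10 : ℕ) : ℝ) by norm_num, Real.rpow_natCast]
  have h4 : 0 < H ^ e := Real.rpow_pos_of_pos hH0 e
  rw [e1]
  calc v * (H ^ e * H ^ 12 * H ^ (10 - e)) ≤ v * (H ^ e * b * P ^ 10) := by gcongr
    _ = _ := by ring

/-- the base case -/
private theorem caseG {e K Δ₀ y₀ P : ℝ} (he : 0 < e) (hΔ : 0 < Δ₀) (hy : 0 < y₀) (hK : 0 < K) (hH : 1 ≤ K / √(Δ₀ / y₀)) (hP : 1 ≤ P)
    (hG : √(Δ₀ / y₀) * y₀ ^ 2 ≤ P) :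
    Δ₀ ^ 2 / y₀ * (K / √(Δ₀ / y₀)) ^ 17 * (√(Δ₀ / y₀) * y₀ ^ 2) ^ 5 ≤ P ^ 7 * Rh e K Δ₀ y₀ := by
  have hT : 0 < √(Δ₀ / y₀) := Real.sqrt_pos.2 (by positivity)
  have hG0 : 0 < √(Δ₀ / y₀) * y₀ ^ 2 := by positivity
  obtain ⟨h1, -, h2⟩ := FF_pos (H := K / √(Δ₀ / y₀)) (T := √(Δ₀ / y₀) * y₀ ^ 2) (by positivity) hG0
  have h5 := (Rh_ge he hΔ hy hK hH).2
  obtain ⟨T, hTd⟩ : ∃ T, T = √(Δ₀ / y₀) * y₀ ^ 2 := ⟨_, rfl⟩
  obtain ⟨H, hHd⟩ : ∃ H, H = K / √(Δ₀ / y₀) := ⟨_, rfl⟩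
  rw [← hTd] at hG hG0 h1 h2 h5 ⊢
  rw [← hHd] at h1 h2 h5 ⊢
  have h3 : T ^ (20 / 3 : ℝ) ≤ P ^ 7 := by
    calc T ^ (20 / 3 : ℝ) ≤ P ^ (20 / 3 : ℝ) := Real.rpow_le_rpow hG0.le hG (by norm_num)
      _ ≤ P ^ (7 : ℝ) := Real.rpow_le_rpow_of_exponent_le hP (by norm_num)
      _ = P ^ 7 := by rw [show (7 : ℝ) = ((7 : ℕ) : ℝ) by norm_num, Real.rpow_natCast]
  have h4 : T ^ 5 = T ^ (-(5 / 3) : ℝ) * T ^ (20 / 3 : ℝ) := by
    rw [← Real.rpow_add hG0, ← Real.rpow_natCast T 5]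
    congr 1
    norm_num
  have hH0 : 0 < H := by
    rw [hHd]
    positivity
  have h6 : H ^ 17 * T ^ 5 ≤ P ^ 7 * FF H T := by
    rw [h4]
    calc H ^ 17 * (T ^ (-(5 / 3) : ℝ) * T ^ (20 / 3 : ℝ)) = T ^ (20 / 3 : ℝ) * (H ^ 17 * T ^ (-(5 / 3) : ℝ)) := by ring
      _ ≤ P ^ 7 * FF H T := by gcongr
  have hv : 0 < Δ₀ ^ 2 / y₀ := by positivity
  calc Δ₀ ^ 2 / y₀ * H ^ 17 * T ^ 5 = Δ₀ ^ 2 / y₀ * (H ^ 17 * T ^ 5) := by ring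
    _ ≤ Δ₀ ^ 2 / y₀ * (P ^ 7 * FF H T) := by gcongr
    _ = P ^ 7 * (Δ₀ ^ 2 / y₀ * FF H T) := by ring
    _ ≤ _ := by gcongr

/-- eventually a constant is below a power -/
private theorem big {δ : ℝ} (hδ : 0 < δ) (c : ℝ) : ∃ K₀ : ℝ, 1 ≤ K₀ ∧ ∀ K : ℝ, K₀ ≤ K → c ≤ K ^ δ := by
  obtain ⟨K₀, h1, h2⟩ := log_le (C := c) hδ 0
  exact ⟨K₀, h1, fun K hK => by simpa using h2 K hK⟩

private theorem sum_const_le {ι : Type} (s : Finset ι) (f : ι → ENNReal) (x c : ℝ) (hx : 0 ≤ x) (hc : (s.card : ℝ) ≤ c) (h : ∀ i ∈ s, f i ≤ ENNReal.ofReal x) :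
    ∑ i ∈ s, f i ≤ ENNReal.ofReal (c * x) := by
  calc ∑ i ∈ s, f i ≤ ∑ _i ∈ s, ENNReal.ofReal x := Finset.sum_le_sum h
    _ = ENNReal.ofReal (s.card * x) := by
        rw [Finset.sum_const, nsmul_eq_mul, ENNReal.ofReal_mul (by positivity)]
        simp
    _ ≤ _ := ENNReal.ofReal_le_ofReal (mul_le_mul_of_nonneg_right hc hx)

/-- the second term of stage B -/
private theorem termBad {e K Δ₀ y₀ d q C κ Lg : ℝ} (he : 0 < e) (hΔ : 0 < Δ₀) (hy : 0 < y₀) (hK : 0 < K) (hC : 0 ≤ C) (_hκ : 0 ≤ κ) (hLg : 0 ≤ Lg) (hd : 0 < d) (hdq : d ≤ 4 * q)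
    (hH : 1 ≤ K / √(Δ₀ / y₀)) :
    ENNReal.ofReal (d ^ 22) * ENNReal.ofReal (C * κ ^ 20 * Lg * (Δ₀ ^ 2 / (y₀ / d ^ 2)) * FF (K / √(Δ₀ / (y₀ / d ^ 2))) (√(Δ₀ / (y₀ / d ^ 2)) * (y₀ / d ^ 2) ^ 2)) ≤
      ENNReal.ofReal (C * κ ^ 20 * Lg * (4 * q) ^ 12 * Rh e K Δ₀ y₀) := by
  have hT : 0 < √(Δ₀ / y₀) := Real.sqrt_pos.2 (by positivity)
  rw [T_scale hΔ hy hd]
  have e1 : K / (√(Δ₀ / y₀) * d) = K / √(Δ₀ / y₀) / d := by rw [div_div]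
  have e2 : √(Δ₀ / y₀) * d * (y₀ / d ^ 2) ^ 2 = √(Δ₀ / y₀) * y₀ ^ 2 / d ^ 3 := by field_simp
  have e3 : Δ₀ ^ 2 / (y₀ / d ^ 2) = Δ₀ ^ 2 / y₀ * d ^ 2 := by field_simp
  rw [e1, e2, e3, FF_scale (by positivity) (by positivity) hd, ← ENNReal.ofReal_mul (by positivity)]
  apply ENNReal.ofReal_le_ofReal
  have h5 := (Rh_ge he hΔ hy hK hH).2
  obtain ⟨h1, -, -⟩ := FF_pos (H := K / √(Δ₀ / y₀)) (T := √(Δ₀ / y₀) * y₀ ^ 2) (by positivity) (by positivity)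
  have h6 : d ^ 12 ≤ (4 * q) ^ 12 := pow_le_pow_left₀ hd.le hdq 12
  calc d ^ 22 * (C * κ ^ 20 * Lg * (Δ₀ ^ 2 / y₀ * d ^ 2) * (FF (K / √(Δ₀ / y₀)) (√(Δ₀ / y₀) * y₀ ^ 2) / d ^ 12))
      = C * κ ^ 20 * Lg * d ^ 12 * (Δ₀ ^ 2 / y₀ * FF (K / √(Δ₀ / y₀)) (√(Δ₀ / y₀) * y₀ ^ 2)) := by
        field_simp
    _ ≤ _ := by gcongr


/-- the tails -/
private theorem tail_le {K κ q d V E Lg : ℝ} {n : ℕ} (hK : 1 ≤ K) (hκ0 : 0 < κ) (hκK : κ ≤ K) (hq : q ^ 24 ≤ K) (hd : 0 ≤ d) (hdq : d ≤ 4 * q) (hV : 0 ≤ V) (hE : 0 ≤ E)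
    (hLg : 0 ≤ Lg) (hn : K ^ 400 ≤ κ ^ n) :
    d ^ 22 * (E * κ * Lg * (V * d ^ 2) * K ^ 200 * κ⁻¹ ^ n) ≤ 4 ^ 24 * E * Lg * V := by
  have h1 : κ⁻¹ ^ n * K ^ 400 ≤ 1 := by
    rw [inv_pow, inv_mul_le_iff₀ (by positivity), mul_one]
    exact hn
  have h2 : d ^ 24 ≤ 4 ^ 24 * K := by
    calc d ^ 24 ≤ (4 * q) ^ 24 := pow_le_pow_left₀ hd hdq 24
      _ = 4 ^ 24 * q ^ 24 := by ring
      _ ≤ _ := by gcongr
  have hκi : 0 ≤ κ⁻¹ ^ n := by positivity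
  have h3 : K * K * K ^ 200 * κ⁻¹ ^ n ≤ 1 := by
    refine le_trans ?_ h1
    have h4 : K * K * K ^ 200 ≤ K ^ 400 := by
      have : K * K * K ^ 200 = K ^ 202 := by ring
      rw [this]
      exact pow_le_pow_right₀ hK (by norm_num)
    nlinarith
  calc d ^ 22 * (E * κ * Lg * (V * d ^ 2) * K ^ 200 * κ⁻¹ ^ n) = d ^ 24 * κ * (E * Lg * V) * K ^ 200 * κ⁻¹ ^ n := by ring
    _ ≤ (4 ^ 24 * K) * K * (E * Lg * V) * K ^ 200 * κ⁻¹ ^ n := by gcongr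
    _ = 4 ^ 24 * (E * Lg * V) * (K * K * K ^ 200 * κ⁻¹ ^ n) := by ring
    _ ≤ 4 ^ 24 * (E * Lg * V) * 1 := by gcongr
    _ = _ := by ring

private theorem comb {ι : Type} (x A T1 T2 : ENNReal) (s : Finset ι) (f : ι → ENNReal) :
    x * (A * ∑ i ∈ s, f i + T1 + T2) = A * ∑ i ∈ s, x * f i + x * T1 + x * T2 := by
  rw [mul_add, mul_add, ← mul_assoc, mul_comm x A, mul_assoc, Finset.mul_sum]

theorem bndF_step {c₁ B a e b δ₂ η : ℝ} (hc : 0 < c₁) (hc1 : c₁ ≤ 1) (hB : 1 ≤ B) (he : 0 < e) (he1 : e ≤ 1 / 2) (hδ : 0 < δ₂) (hδ1 : δ₂ ≤ 1 / 1000) (hη : 0 < η)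
    (ha : 400 * δ₂ + e ≤ a) (_hb : 0 ≤ b) (h : BndF c₁ B a e b) : BndF c₁ B (a + η) e (b + δ₂) := by
  intro L β Y s₀ hL hβ hY hs
  have hk0 : 0 < k₀ c₁ B := by
    unfold k₀
    positivity
  obtain ⟨δ, hδd⟩ : ∃ δ, δ = min (η / 8) δ₂ := ⟨_, rfl⟩
  have hδ0 : 0 < δ := by
    rw [hδd]
    exact lt_min (by positivity) hδ
  have hδη : δ ≤ η / 8 := by
    rw [hδd]
    exact min_le_left _ _
  have hδδ : δ ≤ δ₂ := by
    rw [hδd]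
    exact min_le_right _ _
  obtain ⟨n, hn⟩ : ∃ n : ℕ, 400 / δ ≤ n := exists_nat_ge _
  obtain ⟨M, hM, CA, βA, EA, hCA, hβA, hEA, hA⟩ := stepA (ε := e / 2) (by positivity) (by linarith) hc hc1 hB hL hβ n
  obtain ⟨CB, βB, EB, hCB, hβB, hEB, hBB⟩ := stepB' (ε := e / 2) (by positivity) (by linarith) hc hc1 hB (L := 6 * L) (by linarith) (β := βA) hβA n
  obtain ⟨C1, hC1, h1⟩ := h (6 * L) βA Y 3 (by linarith) hβA hY (by norm_num)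
  obtain ⟨C2, hC2, h2⟩ := h (6 * (6 * L)) βB Y 3 (by linarith) hβB hY (by norm_num)
  obtain ⟨Ct, hCt, htr⟩ := triv hL hβ
  obtain ⟨Cz, hCz, hbase⟩ := base_int hc hc1 hB hL hβ
  obtain ⟨Ca, hCa, hca⟩ := lvA_card M hM
  obtain ⟨Cc, hCc, hcc⟩ := lvC_card
  obtain ⟨c, hcd⟩ : ∃ c, c = 20 + β + 40 * β / s₀ ^ 2 + CA + 4 * βA * Y / k₀ c₁ B + β * Y + βA * Y + 4 * βA + CB * 256 + 4 * βB * Y / k₀ c₁ B + 200 * M := ⟨_, rfl⟩
  have p1 : 0 ≤ 40 * β / s₀ ^ 2 := by positivity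
  have p2 : 0 ≤ 4 * βA * Y / k₀ c₁ B := by positivity
  have p3 : 0 ≤ β * Y := by positivity
  have p4 : 0 ≤ βA * Y := by positivity
  have p5 : 0 ≤ CB * 256 := by positivity
  have p7 : (0 : ℝ) ≤ 200 * M := by positivity
  have p6 : 0 ≤ 4 * βB * Y / k₀ c₁ B := by positivity
  obtain ⟨K₀, hK₀, hbig⟩ := big hδ0 c
  obtain ⟨K₁, hK₁, hlog⟩ := log_le (C := 1) (η := η / 3) (by positivity) 40
  obtain ⟨K₂, hK₂d⟩ : ∃ K₂, K₂ = max K₀ K₁ := ⟨_, rfl⟩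
  have hK₂ : 1 ≤ K₂ := by
    rw [hK₂d]
    exact hK₀.trans (le_max_left _ _)
  obtain ⟨Ctot, hCtot⟩ : ∃ Ctot, Ctot = CA * (Ca * C1 + Cc * (CB * CB * (4 ^ 15 * C2) + CB * 4 ^ 12 + EB * 4 ^ 24)) + EA := ⟨_, rfl⟩
  have hCtot0 : 0 ≤ Ctot := by
    rw [hCtot]
    positivity
  refine ⟨Ct * K₂ ^ 10 + Ct + Cz + Ctot, ?_, ?_⟩
  · have : 1 ≤ K₂ ^ 10 := one_le_pow₀ hK₂
    nlinarith
  intro h' Δ₀ y₀ K S hh hΔ hy hyY hT hT1 hsS hS3 hsm hK1 hHb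
  have hK0 : 0 < K := by linarith
  have hR := Rh_pos (e := e) hΔ hy hK0
  have hgoal : (Ct * K₂ ^ 10 + Ct + Cz + Ctot) * K ^ (a + η) * (K / √(Δ₀ / y₀)) ^ e * (Δ₀ ^ 2 / y₀) * FF (K / √(Δ₀ / y₀)) (√(Δ₀ / y₀) * y₀ ^ 2) =
      (Ct * K₂ ^ 10 + Ct + Cz + Ctot) * K ^ (a + η) * Rh e K Δ₀ y₀ := by
    unfold Rh
    ring
  rw [hgoal]
  have hT0 : 0 < √(Δ₀ / y₀) := by linarith
  have hHK : K / √(Δ₀ / y₀) ≤ K := div_le_self hK0.le hT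
  have ht := htr h' Δ₀ y₀ K S hΔ hy hK0 (by linarith) hS3
  have hKaη : 1 ≤ K ^ (a + η) := Real.one_le_rpow hK1 (by linarith)
  have hCt0 : 0 ≤ Ct * K₂ ^ 10 := by positivity
  -- small `K`
  rcases le_or_gt K K₂ with hKs | hKs
  · refine ht.trans (ENNReal.ofReal_le_ofReal ?_)
    have h3 := caseT (P := K₂) he (by linarith) hΔ hy hK0 hK₂ (hHK.trans hKs)
    calc Ct * (Δ₀ ^ 2 / y₀) * (K / √(Δ₀ / y₀)) ^ 22 = Ct * (Δ₀ ^ 2 / y₀ * (K / √(Δ₀ / y₀)) ^ 22) := by ring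
      _ ≤ Ct * (K₂ ^ 10 * Rh e K Δ₀ y₀) := by gcongr
      _ = Ct * K₂ ^ 10 * 1 * Rh e K Δ₀ y₀ := by ring
      _ ≤ (Ct * K₂ ^ 10 + Ct + Cz + Ctot) * K ^ (a + η) * Rh e K Δ₀ y₀ := by
          gcongr
          linarith
  -- the parameters
  obtain ⟨q, hqd⟩ : ∃ q, q = K ^ δ₂ := ⟨_, rfl⟩
  obtain ⟨κ, hκd⟩ : ∃ κ, κ = K ^ δ := ⟨_, rfl⟩
  have hκq : κ ≤ q := by
    rw [hκd, hqd]
    exact Real.rpow_le_rpow_of_exponent_le hK1 hδδ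
  have hcκ : c ≤ κ := by
    rw [hκd]
    refine hbig K (le_trans ?_ hKs.le)
    rw [hK₂d]
    exact le_max_left _ _
  have hlogK : (1 + log K) ^ 40 ≤ K ^ (η / 3) := by
    have := hlog K (le_trans (by rw [hK₂d]; exact le_max_right _ _) hKs.le)
    rwa [one_mul] at this
  have hqK : q ≤ K := by
    rw [hqd]
    calc K ^ δ₂ ≤ K ^ (1 : ℝ) := Real.rpow_le_rpow_of_exponent_le hK1 (by linarith)
      _ = K := Real.rpow_one K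
  have hκ20 : 20 ≤ κ := by
    refine le_trans ?_ hcκ
    rw [hcd]
    linarith
  have hq20 : 20 ≤ q := hκ20.trans hκq
  have hq0 : 0 < q := by linarith
  have hκ0 : 0 < κ := by linarith
  have hq1 : 1 ≤ q := by linarith
  obtain ⟨Lg, hLgd⟩ : ∃ Lg, Lg = 1 + log K := ⟨_, rfl⟩
  have hLg1 : 1 ≤ Lg := by
    rw [hLgd]
    linarith [Real.log_nonneg hK1]
  have hcβ : β ≤ κ := by
    refine le_trans ?_ hcκ
    rw [hcd]
    linarith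
  have hqpow : ∀ k : ℕ, (k : ℝ) * δ₂ ≤ a → q ^ k ≤ K ^ (a + η / 2) := by
    intro k hk
    rw [hqd, ← Real.rpow_natCast, ← Real.rpow_mul hK0.le]
    refine Real.rpow_le_rpow_of_exponent_le hK1 ?_
    have : δ₂ * (k : ℝ) = k * δ₂ := mul_comm _ _
    linarith
  have hKh : K ^ (a + η / 2) ≤ K ^ (a + η) := Real.rpow_le_rpow_of_exponent_le hK1 (by linarith)
  -- small `H`
  rcases le_or_gt (K / √(Δ₀ / y₀)) (q ^ 16) with hHs | hHs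
  · refine ht.trans (ENNReal.ofReal_le_ofReal ?_)
    have h3 := caseT (P := q ^ 16) he (by linarith) hΔ hy hK0 (one_le_pow₀ hq1) hHs
    have h4 : (q ^ 16) ^ 10 ≤ K ^ (a + η) := by
      rw [← pow_mul]
      refine (hqpow 160 (by push_cast; linarith)).trans hKh
    calc Ct * (Δ₀ ^ 2 / y₀) * (K / √(Δ₀ / y₀)) ^ 22 = Ct * (Δ₀ ^ 2 / y₀ * (K / √(Δ₀ / y₀)) ^ 22) := by ring
      _ ≤ Ct * ((q ^ 16) ^ 10 * Rh e K Δ₀ y₀) := by gcongr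
      _ ≤ Ct * (K ^ (a + η) * Rh e K Δ₀ y₀) := by gcongr
      _ = Ct * K ^ (a + η) * Rh e K Δ₀ y₀ := by ring
      _ ≤ (Ct * K₂ ^ 10 + Ct + Cz + Ctot) * K ^ (a + η) * Rh e K Δ₀ y₀ := by
          gcongr
          linarith
  have hH1 : 1 ≤ K / √(Δ₀ / y₀) := (one_le_pow₀ hq1).trans hHs.le
  have hH2 : q ^ 2 < K / √(Δ₀ / y₀) := lt_of_le_of_lt (pow_le_pow_right₀ hq1 (by norm_num)) hHs
  have hβc : β ≤ K / √(Δ₀ / y₀) := (hcβ.trans hκq).trans ((le_self_pow₀ hq1 (by norm_num)).trans hH2.le)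
  have hβK1 : β ≤ K * √(Δ₀ / y₀) := by
    calc β ≤ K := (hcβ.trans hκq).trans hqK
      _ = K * 1 := (mul_one K).symm
      _ ≤ _ := by gcongr
  have hβK2 : β * √(Δ₀ / y₀) ≤ K := by
    rw [le_div_iff₀ hT0] at hβc
    exact hβc
  -- the base case
  rcases le_or_gt (√(Δ₀ / y₀) * y₀ ^ 2) (q ^ 50) with hGs | hGs
  · have hb1 := hbase h' Δ₀ y₀ K S hh hΔ hy (by linarith) hS3 (by
      have : 0 ≤ β * y₀ * S := by
        have : 0 ≤ S := by linarith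
        positivity
      linarith) hβK1 hβK2 hT1 hK1
    refine hb1.trans (ENNReal.ofReal_le_ofReal ?_)
    have h3 := caseG (P := q ^ 50) he hΔ hy hK0 hH1 (one_le_pow₀ hq1) hGs
    have h4 : (q ^ 50) ^ 7 ≤ K ^ (a + η / 2) := by
      rw [← pow_mul]
      exact hqpow 350 (by push_cast; linarith)
    have h5 : (1 + log K) ^ 10 ≤ K ^ (η / 3) := by
      rw [← hLgd] at hlogK ⊢
      exact (pow_le_pow_right₀ hLg1 (by norm_num)).trans hlogK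
    have h6 : K ^ (η / 3) * K ^ (a + η / 2) ≤ K ^ (a + η) := by
      rw [← Real.rpow_add hK0]
      exact Real.rpow_le_rpow_of_exponent_le hK1 (by linarith)
    calc Cz * (1 + log K) ^ 10 * (Δ₀ ^ 2 / y₀) * (K / √(Δ₀ / y₀)) ^ 17 * (√(Δ₀ / y₀) * y₀ ^ 2) ^ 5
        = Cz * (1 + log K) ^ 10 * (Δ₀ ^ 2 / y₀ * (K / √(Δ₀ / y₀)) ^ 17 * (√(Δ₀ / y₀) * y₀ ^ 2) ^ 5) := by ring
      _ ≤ Cz * K ^ (η / 3) * ((q ^ 50) ^ 7 * Rh e K Δ₀ y₀) := by gcongr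
      _ ≤ Cz * K ^ (η / 3) * (K ^ (a + η / 2) * Rh e K Δ₀ y₀) := by gcongr
      _ = Cz * (K ^ (η / 3) * K ^ (a + η / 2)) * Rh e K Δ₀ y₀ := by ring
      _ ≤ Cz * K ^ (a + η) * Rh e K Δ₀ y₀ := by gcongr
      _ ≤ (Ct * K₂ ^ 10 + Ct + Cz + Ctot) * K ^ (a + η) * Rh e K Δ₀ y₀ := by
          gcongr
          linarith
  -- the main case
  clear hgoal ht hKh hqpow
  have hG66 : q ^ 66 ≤ K * y₀ ^ 2 := by
    have e7 : K * y₀ ^ 2 = K / √(Δ₀ / y₀) * (√(Δ₀ / y₀) * y₀ ^ 2) := by field_simp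
    rw [e7]
    calc q ^ 66 = q ^ 16 * q ^ 50 := by ring
      _ ≤ _ := mul_le_mul hHs.le hGs.le (by positivity) (by positivity)
  have hG60 : q ^ 60 < K * y₀ ^ 2 := lt_of_lt_of_le (pow_lt_pow_right₀ (by linarith) (by norm_num)) hG66
  have hG30 : q ^ 30 ≤ √(K * y₀ ^ 2) := by
    apply Real.le_sqrt_of_sq_le
    calc (q ^ 30) ^ 2 = q ^ 60 := by ring
      _ ≤ _ := hG60.le
  have hq24K : q ^ 24 ≤ K := by
    rw [hqd, ← Real.rpow_natCast, ← Real.rpow_mul hK0.le]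
    calc K ^ (δ₂ * ((24 : ℕ) : ℝ)) ≤ K ^ (1 : ℝ) := by
          refine Real.rpow_le_rpow_of_exponent_le hK1 ?_
          push_cast
          linarith
      _ = K := Real.rpow_one K
  have hκn : K ^ 400 ≤ κ ^ n := by
    rw [hκd, ← Real.rpow_natCast, ← Real.rpow_natCast (K ^ δ), ← Real.rpow_mul hK0.le]
    refine Real.rpow_le_rpow_of_exponent_le hK1 ?_
    rw [div_le_iff₀ hδ0] at hn
    push_cast
    linarith
  have hκK : κ ≤ K := hκq.trans hqK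
  have hlogq : 1 + log q ≤ Lg := by
    rw [hLgd]
    linarith [Real.log_le_log hq0 hqK]
  have hlogq0 : 0 ≤ 1 + log q := by linarith [Real.log_nonneg hq1]
  rw [← hLgd] at hlogK
  have hS0 : 0 < S := by linarith
  have stA := hA h' Δ₀ y₀ K κ q S hh hΔ hy hS0 hS3 hsm (by
      calc β * y₀ ≤ β * Y := by gcongr
        _ ≤ κ := by
          refine le_trans ?_ hcκ
          rw [hcd]
          linarith
        _ ≤ q := hκq) hq20 hqK hβK1 hβK2 (by linarith) (by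
      have h3 : 40 * β / s₀ ^ 2 ≤ κ := by
        refine le_trans ?_ hcκ
        rw [hcd]
        linarith
      rw [div_le_iff₀ (by positivity)] at h3
      calc 40 * β ≤ κ * s₀ ^ 2 := h3
        _ ≤ q ^ 30 * S ^ 2 := by
          have h4 : κ ≤ q ^ 30 := hκq.trans (le_self_pow₀ hq1 (by norm_num))
          have h5 : s₀ ^ 2 ≤ S ^ 2 := pow_le_pow_left₀ hs.le hsS 2
          gcongr
        _ = S ^ 2 * q ^ 30 := by ring
        _ ≤ _ := by gcongr) (by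
      have h3 : CA ≤ q := by
        refine le_trans ?_ (hcκ.trans hκq)
        rw [hcd]
        linarith
      calc CA * κ * q ^ 24 ≤ q * q * q ^ 24 := by gcongr
        _ = q ^ 26 := by ring
        _ ≤ q ^ 30 := pow_le_pow_right₀ hq1 (by norm_num)
        _ ≤ _ := hG30)
  -- terms of stage A
  have tA : ∀ m ∈ lvA M q, ENNReal.ofReal (((M : ℝ) ^ m) ^ (5 + e / 2)) * (∫⁻ f in EE Δ₀ (y₀ / (M : ℝ) ^ m) βA, PP h' (6 * L) 3 K f) ≤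
      ENNReal.ofReal (C1 * K ^ a * Rh e K Δ₀ y₀) := by
    intro m hm
    have hm2 : q ^ 2 ≤ (M : ℝ) ^ m := by
      unfold lvA at hm
      exact (Finset.mem_filter.1 hm).2.1
    obtain ⟨w, hw⟩ : ∃ w, w = (M : ℝ) ^ m := ⟨_, rfl⟩
    rw [← hw] at hm2 ⊢
    have hw0 : 0 < w := lt_of_lt_of_le (by positivity) hm2
    have hqw : q ≤ √w := Real.le_sqrt_of_sq_le hm2
    have hw1 : 1 ≤ w := (one_le_pow₀ hq1).trans hm2
    have hqw' : q ≤ w := (le_self_pow₀ hq1 (by norm_num)).trans hm2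
    have hsw : 1 ≤ √w := hq1.trans hqw
    have hD : 0 < √w := Real.sqrt_pos.2 hw0
    have hTw : √(Δ₀ / (y₀ / w)) = √(Δ₀ / y₀) * √w := by
      have := T_scale hΔ hy hD
      rwa [Real.sq_sqrt hw0.le] at this
    have hyw : y₀ / w ≤ y₀ := div_le_self hy.le hw1
    have hwq : √w ≤ q ^ 9 := by
      have h8 : 200 * (M : ℝ) ≤ q := by
        refine le_trans ?_ (hcκ.trans hκq)
        rw [hcd]
        linarith
      have h9 : w ≤ 200 * M * q ^ 8 := by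
        rw [hw]
        unfold lvA at hm
        exact (Finset.mem_filter.1 hm).2.2
      calc √w ≤ w := Real.sqrt_le_iff.2 ⟨hw0.le, le_self_pow₀ hw1 (by norm_num)⟩
        _ ≤ 200 * M * q ^ 8 := h9
        _ ≤ q * q ^ 8 := by gcongr
        _ = q ^ 9 := by ring
    have h3 := h1 h' Δ₀ (y₀ / w) K 3 hh hΔ (by positivity) (hyw.trans hyY) (by
        rw [hTw]
        exact one_le_mul_of_one_le_of_one_le hT hsw) (by
        have e8 : √(Δ₀ / y₀) * √w * (y₀ / w) ^ 2 = √(Δ₀ / y₀) * y₀ ^ 2 / √w ^ 3 := by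
          rw [eq_div_iff (by positivity)]
          calc √(Δ₀ / y₀) * √w * (y₀ / w) ^ 2 * √w ^ 3 = √(Δ₀ / y₀) * y₀ ^ 2 * (√w ^ 2) ^ 2 / w ^ 2 := by ring
            _ = _ := by
              rw [Real.sq_sqrt hw0.le]
              field_simp
        rw [hTw, e8, le_div_iff₀ (by positivity), one_mul]
        calc √w ^ 3 ≤ (q ^ 9) ^ 3 := pow_le_pow_left₀ hD.le hwq 3
          _ = q ^ 27 := by ring
          _ ≤ q ^ 50 := pow_le_pow_right₀ hq1 (by norm_num)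
          _ ≤ _ := hGs.le) le_rfl le_rfl (by
        have h4 : y₀ / w ≤ Y / q := by
          rw [div_le_div_iff₀ hw0 hq0]
          gcongr
        have h5 : 4 * βA * Y / k₀ c₁ B ≤ q := by
          refine le_trans ?_ (hcκ.trans hκq)
          rw [hcd]
          linarith
        rw [div_le_iff₀ hk0] at h5
        calc 11 / 10 * (βA * (y₀ / w) * 3) = 33 / 10 * βA * (y₀ / w) := by ring
          _ ≤ 4 * βA * (Y / q) := by gcongr; norm_num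
          _ = 4 * βA * Y / q := by ring
          _ ≤ k₀ c₁ B := by
            rw [div_le_iff₀ hq0]
            linarith) hK1 (by
        rw [hTw, ← div_div, div_le_iff₀ hD]
        calc K / √(Δ₀ / y₀) ≤ K ^ (b + δ₂) := hHb
          _ = K ^ b * q := by rw [Real.rpow_add hK0, hqd]
          _ ≤ K ^ b * √w := by gcongr)
    refine termA hΔ hy hK0 hw0 (h3.trans (ENNReal.ofReal_le_ofReal (le_of_eq ?_)))
    unfold Rh
    ring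
  -- terms of stage B
  have tB : ∀ i ∈ lvC q, ENNReal.ofReal ((2 : ℝ) ^ (22 * i)) * (∫⁻ f in EE Δ₀ (y₀ / 4 ^ i) βA, PP h' (6 * L) (2 * q⁻¹ ^ 3) K f) ≤
      ENNReal.ofReal (CB * κ ^ 3 * Lg ^ 11 * (CB * Lg * (4 ^ 15 * C2 * K ^ a * Rh e K Δ₀ y₀)) +
        CB * κ ^ 20 * Lg ^ 21 * (4 * q) ^ 12 * Rh e K Δ₀ y₀ + 4 ^ 24 * EB * Lg ^ 12 * (Δ₀ ^ 2 / y₀)) := by
    intro i hi
    have hi2 : (2 : ℝ) ^ i ≤ 4 * q := by
      unfold lvC at hi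
      exact (Finset.mem_filter.1 hi).2
    have e22 : (2 : ℝ) ^ (22 * i) = ((2 : ℝ) ^ i) ^ 22 := by rw [← pow_mul, mul_comm]
    have e4 : (4 : ℝ) ^ i = ((2 : ℝ) ^ i) ^ 2 := by
      rw [← pow_mul, mul_comm, pow_mul]
      norm_num
    have hd1 : (1 : ℝ) ≤ 2 ^ i := one_le_pow₀ (by norm_num)
    rw [e22, e4]
    obtain ⟨d, hd⟩ : ∃ d, d = (2 : ℝ) ^ i := ⟨_, rfl⟩
    rw [← hd] at hi2 hd1 ⊢
    have hd0 : 0 < d := by linarith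
    have hyd : y₀ / d ^ 2 ≤ y₀ := div_le_self hy.le (one_le_pow₀ hd1)
    have hTd := T_scale hΔ hy hd0
    have hS' : 0 < 2 * q⁻¹ ^ 3 := by positivity
    have hS'q : 2 * q⁻¹ ^ 3 ≤ 1 / q := by
      have : 2 * q⁻¹ ^ 3 = 1 / q * (2 / q ^ 2) := by field_simp
      rw [this]
      have h3 : 2 / q ^ 2 ≤ 1 := by
        rw [div_le_one (by positivity)]
        exact le_trans (by linarith) (le_self_pow₀ hq1 (by norm_num : (2 : ℕ) ≠ 0))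
      have h4 : 0 < 1 / q := by positivity
      exact mul_le_of_le_one_right h4.le h3
    have hq20' : 1 / q ≤ 1 / 20 := one_div_le_one_div_of_le (by norm_num) hq20
    have hd3 : √(Δ₀ / y₀) * d * (y₀ / d ^ 2) ^ 2 = √(Δ₀ / y₀) * y₀ ^ 2 / d ^ 3 := by field_simp
    obtain ⟨N, hN, hNT, hst⟩ := hBB h' Δ₀ (y₀ / d ^ 2) K κ (2 * q⁻¹ ^ 3) hh hΔ (by positivity) hS' (hS'q.trans hq20') (by
        have h5 : 4 * βA * Y / k₀ c₁ B ≤ q := by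
          refine le_trans ?_ (hcκ.trans hκq)
          rw [hcd]
          linarith
        rw [div_le_iff₀ hk0] at h5
        calc 11 / 10 * (βA * (y₀ / d ^ 2) * (2 * q⁻¹ ^ 3)) ≤ 4 * (βA * Y * (1 / q)) := by
              have : y₀ / d ^ 2 ≤ Y := hyd.trans hyY
              gcongr
              norm_num
          _ = 4 * βA * Y / q := by ring
          _ ≤ k₀ c₁ B := by
            rw [div_le_iff₀ hq0]
            linarith) (by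
        calc βA * (y₀ / d ^ 2) ≤ βA * Y := by
              have : y₀ / d ^ 2 ≤ Y := hyd.trans hyY
              gcongr
          _ ≤ κ := by
            refine le_trans ?_ hcκ
            rw [hcd]
            linarith
          _ ≤ K := hκK) (by linarith) (by
        rw [hTd]
        have h3 : βA ≤ κ := by
          refine le_trans ?_ hcκ
          rw [hcd]
          linarith
        have h4 : 1 ≤ √(Δ₀ / y₀) * d := one_le_mul_of_one_le_of_one_le hT hd1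
        calc βA ≤ K := h3.trans hκK
          _ = K * 1 := (mul_one K).symm
          _ ≤ _ := by gcongr) (by
        rw [hTd]
        have h3 : 4 * βA ≤ q := by
          refine le_trans ?_ (hcκ.trans hκq)
          rw [hcd]
          linarith
        have h4 : βA * d ≤ K / √(Δ₀ / y₀) := by
          calc βA * d ≤ βA * (4 * q) := by gcongr
            _ = 4 * βA * q := by ring
            _ ≤ q * q := by gcongr
            _ = q ^ 2 := by ring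
            _ ≤ _ := hH2.le
        rw [le_div_iff₀ hT0] at h4
        calc βA * (√(Δ₀ / y₀) * d) = βA * d * √(Δ₀ / y₀) := by ring
          _ ≤ K := h4) (by
        refine le_trans ?_ hcκ
        rw [hcd]
        linarith) (by
        have e5 : K * (y₀ / d ^ 2) ^ 2 = K * y₀ ^ 2 / d ^ 4 := by field_simp
        rw [e5, le_div_iff₀ (by positivity)]
        have h3 : CB * 256 ≤ q := by
          refine le_trans ?_ (hcκ.trans hκq)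
          rw [hcd]
          linarith
        calc CB * κ ^ 11 * d ^ 4 ≤ CB * q ^ 11 * (4 * q) ^ 4 := by gcongr
          _ = (CB * 256) * q ^ 15 := by ring
          _ ≤ q * q ^ 15 := by gcongr
          _ = q ^ 16 := by ring
          _ ≤ q ^ 66 := pow_le_pow_right₀ hq1 (by norm_num)
          _ ≤ _ := hG66) (by
        rw [hTd, hd3, le_div_iff₀ (by positivity), one_mul]
        calc d ^ 3 ≤ (4 * q) ^ 3 := pow_le_pow_left₀ hd0.le hi2 3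
          _ = 64 * q ^ 3 := by ring
          _ ≤ (20 * 20) * q ^ 3 := by gcongr; norm_num
          _ ≤ (q * q) * q ^ 3 := by gcongr
          _ = q ^ 5 := by ring
          _ ≤ q ^ 50 := pow_le_pow_right₀ hq1 (by norm_num)
          _ ≤ _ := hGs.le)
    rw [← hLgd] at hN hst
    rw [hTd, hd3] at hNT
    have hJ : ∀ j ∈ Finset.range N, ENNReal.ofReal (d ^ 22) * (ENNReal.ofReal (wB (e / 2) κ (K * (y₀ / d ^ 2) ^ 2) (2 * q⁻¹ ^ 3 / 2 ^ j)) *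
        ∫⁻ f in EE Δ₀ (y₀ / d ^ 2 * (2 * q⁻¹ ^ 3 / 2 ^ j) ^ 2) βB, PP h' (6 * (6 * L)) 3 K f) ≤ ENNReal.ofReal (4 ^ 15 * C2 * K ^ a * Rh e K Δ₀ y₀) := by
      intro j hjN
      have hTj := hNT j (Finset.mem_range.1 hjN)
      have hj1 : (1 : ℝ) ≤ 2 ^ j := one_le_pow₀ (by norm_num)
      obtain ⟨ρ, hρ⟩ : ∃ ρ, ρ = 2 * q⁻¹ ^ 3 / 2 ^ j := ⟨_, rfl⟩
      have hρ0 : 0 < ρ := by
        rw [hρ]
        positivity
      have hρS : ρ ≤ 2 * q⁻¹ ^ 3 := by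
        rw [hρ]
        exact div_le_self hS'.le hj1
      rw [← hρ] at hTj ⊢
      have hρq : ρ ≤ 1 / q := hρS.trans hS'q
      have hρ1 : ρ ≤ 1 := hρq.trans (by rw [div_le_one hq0]; exact hq1)
      have hDρ : 0 < d / ρ := by positivity
      have e6 : y₀ / d ^ 2 * ρ ^ 2 = y₀ / (d / ρ) ^ 2 := by field_simp
      have hqD : q ≤ d / ρ := by
        rw [le_div_iff₀ hρ0]
        calc q * ρ ≤ q * (1 / q) := by gcongr
          _ = 1 := by field_simp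
          _ ≤ d := hd1
      have hyρ : y₀ / d ^ 2 * ρ ^ 2 ≤ Y / q := by
        have h5 : y₀ / d ^ 2 ≤ Y := hyd.trans hyY
        have h6 : ρ ^ 2 ≤ 1 / q := by
          calc ρ ^ 2 = ρ * ρ := by ring
            _ ≤ 1 * (1 / q) := by gcongr
            _ = 1 / q := one_mul _
        calc y₀ / d ^ 2 * ρ ^ 2 ≤ Y * (1 / q) := by gcongr
          _ = Y / q := by ring
      have hTρ := T_scale hΔ hy hDρ
      have h3 := h2 h' Δ₀ (y₀ / d ^ 2 * ρ ^ 2) K 3 hh hΔ (by positivity) (hyρ.trans (div_le_self hY.le hq1)) (by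
          rw [e6, hTρ]
          exact one_le_mul_of_one_le_of_one_le hT (hq1.trans hqD)) (by
          refine hTj.trans (le_of_eq ?_)
          rw [e6, hTρ]
          field_simp) le_rfl le_rfl (by
          have h5 : 4 * βB * Y / k₀ c₁ B ≤ q := by
            refine le_trans ?_ (hcκ.trans hκq)
            rw [hcd]
            linarith
          rw [div_le_iff₀ hk0] at h5
          calc 11 / 10 * (βB * (y₀ / d ^ 2 * ρ ^ 2) * 3) ≤ 11 / 10 * (βB * (Y / q) * 3) := by gcongr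
            _ ≤ 4 * βB * Y / q := by
              have : 0 ≤ βB * Y / q := by positivity
              have e7 : 11 / 10 * (βB * (Y / q) * 3) = 33 / 10 * (βB * Y / q) := by ring
              have e8 : 4 * βB * Y / q = 4 * (βB * Y / q) := by ring
              rw [e7, e8]
              linarith
            _ ≤ k₀ c₁ B := by
              rw [div_le_iff₀ hq0]
              linarith) hK1 (by
          rw [e6, hTρ, ← div_div, div_le_iff₀ hDρ]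
          calc K / √(Δ₀ / y₀) ≤ K ^ (b + δ₂) := hHb
            _ = K ^ b * q := by rw [Real.rpow_add hK0, hqd]
            _ ≤ K ^ b * (d / ρ) := by gcongr)
      refine termB he hΔ hy hK0 (by linarith) hd1 hq20 hi2 hρ0 hρS hκ0 hκq hG66 hHs.le hTj (h3.trans (ENNReal.ofReal_le_ofReal (le_of_eq ?_)))
      unfold Rh
      ring
    refine (mul_le_mul_right hst _).trans ?_
    rw [comb]
    have hN0 : 0 ≤ 4 ^ 15 * C2 * K ^ a * Rh e K Δ₀ y₀ := by positivity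
    have s1 := sum_const_le (Finset.range N) _ _ (CB * Lg) hN0 (by simpa using hN) hJ
    have s2 := termBad (C := CB) (κ := κ) (Lg := Lg ^ 21) he hΔ hy hK0 (by linarith) hκ0.le (by positivity) hd0 hi2 hH1
    have e9 : Δ₀ ^ 2 / (y₀ / d ^ 2) = Δ₀ ^ 2 / y₀ * d ^ 2 := by field_simp
    have s3 : ENNReal.ofReal (d ^ 22) * ENNReal.ofReal (EB * κ * Lg ^ 12 * (Δ₀ ^ 2 / (y₀ / d ^ 2)) * K ^ 200 * κ⁻¹ ^ n) ≤ ENNReal.ofReal (4 ^ 24 * EB * Lg ^ 12 * (Δ₀ ^ 2 / y₀)) := by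
      rw [e9, ← ENNReal.ofReal_mul (by positivity)]
      exact ENNReal.ofReal_le_ofReal (tail_le hK1 hκ0 hκK hq24K hd0.le hi2 (by positivity) (by linarith) (by positivity) hκn)
    rw [ENNReal.ofReal_add (by positivity) (by positivity), ENNReal.ofReal_add (by positivity) (by positivity),
      ENNReal.ofReal_mul (p := CB * κ ^ 3 * Lg ^ 11) (by positivity)]
    gcongr
  -- the sum
  have hV : 0 < Δ₀ ^ 2 / y₀ := by positivity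
  obtain ⟨hVR, -⟩ := Rh_ge he hΔ hy hK0 hH1
  have hKa : 1 ≤ K ^ a := Real.one_le_rpow hK1 (by linarith)
  have hκ1 : 1 ≤ κ := by linarith
  have hRn : (Ct * K₂ ^ 10 + Ct + Cz + Ctot) * K ^ (a + η) * Rh e K Δ₀ y₀ = (Ct * K₂ ^ 10 + Ct + Cz) * K ^ (a + η) * Rh e K Δ₀ y₀ + Ctot * K ^ (a + η) * Rh e K Δ₀ y₀ := by ring
  rw [hRn]
  have hexp : κ ^ 5 * Lg ^ 40 * K ^ a ≤ K ^ (a + η) := by
    have h3 : κ ^ 5 ≤ K ^ (2 * η / 3) := by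
      rw [hκd, ← Real.rpow_natCast, ← Real.rpow_mul hK0.le]
      refine Real.rpow_le_rpow_of_exponent_le hK1 ?_
      push_cast
      linarith
    calc κ ^ 5 * Lg ^ 40 * K ^ a ≤ K ^ (2 * η / 3) * K ^ (η / 3) * K ^ a := by gcongr
      _ = K ^ (a + η) := by
        rw [← Real.rpow_add hK0, ← Real.rpow_add hK0]
        congr 1
        ring
  have hbadexp : κ ^ 20 * q ^ 12 ≤ K ^ a := by
    calc κ ^ 20 * q ^ 12 ≤ q ^ 20 * q ^ 12 := by gcongr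
      _ = q ^ 32 := by ring
      _ = K ^ (32 * δ₂) := by
        rw [hqd, ← Real.rpow_natCast (K ^ δ₂), ← Real.rpow_mul hK0.le]
        congr 1
        push_cast
        ring
      _ ≤ K ^ a := Real.rpow_le_rpow_of_exponent_le hK1 (by linarith)
  have htailA : EA * κ * (Δ₀ ^ 2 / y₀) * K ^ 200 * κ⁻¹ ^ n ≤ EA * Rh e K Δ₀ y₀ := by
    have h1' : κ⁻¹ ^ n * K ^ 400 ≤ 1 := by
      rw [inv_pow, inv_mul_le_iff₀ (by positivity), mul_one]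
      exact hκn
    have h4 : κ * K ^ 200 ≤ K ^ 400 := by
      calc κ * K ^ 200 ≤ K * K ^ 200 := by gcongr
        _ = K ^ 201 := by ring
        _ ≤ K ^ 400 := pow_le_pow_right₀ hK1 (by norm_num)
    have hκi : 0 ≤ κ⁻¹ ^ n := by positivity
    calc EA * κ * (Δ₀ ^ 2 / y₀) * K ^ 200 * κ⁻¹ ^ n = EA * (Δ₀ ^ 2 / y₀) * (κ⁻¹ ^ n * (κ * K ^ 200)) := by ring
      _ ≤ EA * (Δ₀ ^ 2 / y₀) * (κ⁻¹ ^ n * K ^ 400) := by gcongr
      _ ≤ EA * (Δ₀ ^ 2 / y₀) * 1 := by gcongr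
      _ ≤ EA * Rh e K Δ₀ y₀ * 1 := by gcongr
      _ = _ := mul_one _
  clear hG60 hG30 hκn hq24K
  obtain ⟨R, hRd⟩ : ∃ R, R = Rh e K Δ₀ y₀ := ⟨_, rfl⟩
  obtain ⟨V, hVd⟩ : ∃ V, V = Δ₀ ^ 2 / y₀ := ⟨_, rfl⟩
  obtain ⟨Ka, hKad⟩ : ∃ Ka, Ka = K ^ a := ⟨_, rfl⟩
  rw [← hKad] at hKa tA tB hexp hbadexp
  rw [← hRd] at hR tA tB hVR htailA ⊢
  rw [← hVd] at tB hVR hV
  obtain ⟨c₃, hc₃⟩ : ∃ c₃, c₃ = CB * CB * (4 ^ 15 * C2) + CB * 4 ^ 12 + EB * 4 ^ 24 := ⟨_, rfl⟩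
  have hc₃0 : 0 ≤ c₃ := by
    rw [hc₃]
    positivity
  have hκ3 : 1 ≤ κ ^ 3 := one_le_pow₀ hκ1
  have hXle : CB * κ ^ 3 * Lg ^ 11 * (CB * Lg * (4 ^ 15 * C2 * Ka * R)) + CB * κ ^ 20 * Lg ^ 21 * (4 * q) ^ 12 * R + 4 ^ 24 * EB * Lg ^ 12 * V ≤
      κ ^ 3 * Lg ^ 21 * Ka * R * c₃ := by
    have h12 : Lg ^ 12 ≤ Lg ^ 21 := pow_le_pow_right₀ hLg1 (by norm_num)
    have t2 : CB * κ ^ 20 * Lg ^ 21 * (4 * q) ^ 12 * R ≤ κ ^ 3 * Lg ^ 21 * Ka * R * (CB * 4 ^ 12) := by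
      calc CB * κ ^ 20 * Lg ^ 21 * (4 * q) ^ 12 * R = CB * 4 ^ 12 * Lg ^ 21 * R * (κ ^ 20 * q ^ 12) := by ring
        _ ≤ CB * 4 ^ 12 * Lg ^ 21 * R * Ka := by gcongr
        _ = 1 * (Lg ^ 21 * Ka * R * (CB * 4 ^ 12)) := by ring
        _ ≤ κ ^ 3 * (Lg ^ 21 * Ka * R * (CB * 4 ^ 12)) := by gcongr
        _ = _ := by ring
    have t3 : 4 ^ 24 * EB * Lg ^ 12 * V ≤ κ ^ 3 * Lg ^ 21 * Ka * R * (EB * 4 ^ 24) := by
      calc 4 ^ 24 * EB * Lg ^ 12 * V ≤ 4 ^ 24 * EB * Lg ^ 21 * R := by gcongr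
        _ = 1 * 1 * (Lg ^ 21 * R * (EB * 4 ^ 24)) := by ring
        _ ≤ κ ^ 3 * Ka * (Lg ^ 21 * R * (EB * 4 ^ 24)) := by gcongr
        _ = _ := by ring
    have t1 : CB * κ ^ 3 * Lg ^ 11 * (CB * Lg * (4 ^ 15 * C2 * Ka * R)) ≤ κ ^ 3 * Lg ^ 21 * Ka * R * (CB * CB * (4 ^ 15 * C2)) := by
      calc CB * κ ^ 3 * Lg ^ 11 * (CB * Lg * (4 ^ 15 * C2 * Ka * R)) = κ ^ 3 * Lg ^ 12 * Ka * R * (CB * CB * (4 ^ 15 * C2)) := by ring
        _ ≤ _ := by gcongr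
    rw [hc₃, mul_add, mul_add]
    linarith
  have sA := sum_const_le (lvA M q) _ _ (Ca * Lg) (by positivity) ((hca q hq1).trans (by gcongr)) tA
  have sB := sum_const_le (lvC q) _ _ (Cc * Lg) (by positivity) ((hcc q hq1).trans (by gcongr)) (fun i hi => (tB i hi).trans (ENNReal.ofReal_le_ofReal hXle))
  refine stA.trans ?_
  refine (add_le_add (mul_le_mul_right (add_le_add sA sB) _) le_rfl).trans ?_
  rw [← ENNReal.ofReal_add (by positivity) (by positivity), ← ENNReal.ofReal_mul (by positivity), ← ENNReal.ofReal_add (by positivity) (by positivity)]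
  apply ENNReal.ofReal_le_ofReal
  have hlast : CA * κ ^ 2 * (1 + log q) ^ 12 * (Ca * Lg * (C1 * Ka * R) + Cc * Lg * (κ ^ 3 * Lg ^ 21 * Ka * R * c₃)) ≤ κ ^ 5 * Lg ^ 40 * Ka * (CA * (Ca * C1 + Cc * c₃)) * R := by
    have h3 : Lg ^ 13 ≤ Lg ^ 40 := pow_le_pow_right₀ hLg1 (by norm_num)
    have h4 : Lg ^ 34 ≤ Lg ^ 40 := pow_le_pow_right₀ hLg1 (by norm_num)
    have h5 : κ ^ 2 ≤ κ ^ 5 := pow_le_pow_right₀ hκ1 (by norm_num)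
    calc CA * κ ^ 2 * (1 + log q) ^ 12 * (Ca * Lg * (C1 * Ka * R) + Cc * Lg * (κ ^ 3 * Lg ^ 21 * Ka * R * c₃))
        ≤ CA * κ ^ 2 * Lg ^ 12 * (Ca * Lg * (C1 * Ka * R) + Cc * Lg * (κ ^ 3 * Lg ^ 21 * Ka * R * c₃)) := by gcongr
      _ = κ ^ 2 * Lg ^ 13 * (CA * Ca * C1 * Ka * R) + κ ^ 5 * Lg ^ 34 * (CA * Cc * c₃ * Ka * R) := by ring
      _ ≤ κ ^ 5 * Lg ^ 40 * (CA * Ca * C1 * Ka * R) + κ ^ 5 * Lg ^ 40 * (CA * Cc * c₃ * Ka * R) := by gcongr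
      _ = _ := by ring
  have hlast2 : κ ^ 5 * Lg ^ 40 * Ka * (CA * (Ca * C1 + Cc * c₃)) * R + EA * R ≤ K ^ (a + η) * Ctot * R := by
    calc κ ^ 5 * Lg ^ 40 * Ka * (CA * (Ca * C1 + Cc * c₃)) * R + EA * R
        ≤ K ^ (a + η) * (CA * (Ca * C1 + Cc * c₃)) * R + K ^ (a + η) * EA * R := by
          have h3 : EA * R ≤ K ^ (a + η) * EA * R := by
            calc EA * R = 1 * (EA * R) := (one_mul _).symm
              _ ≤ K ^ (a + η) * (EA * R) := by gcongr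
              _ = _ := by ring
          have h4 : κ ^ 5 * Lg ^ 40 * Ka * (CA * (Ca * C1 + Cc * c₃)) * R ≤ K ^ (a + η) * (CA * (Ca * C1 + Cc * c₃)) * R := by gcongr
          linarith
      _ = K ^ (a + η) * Ctot * R := by
        rw [hCtot, hc₃]
        ring
  have h5 : 0 ≤ (Ct * K₂ ^ 10 + Ct + Cz) * K ^ (a + η) * R := by positivity
  have h6 : Ctot * K ^ (a + η) * R = K ^ (a + η) * Ctot * R := by ring
  rw [h6]
  linarith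

end Pool.Agent.Helper86.LK
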