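import Pool.Agent.Helper86.LK.DefB
import Pool.Agent.Helper60.LT.GD

/-!
# LK-IND1: the start of the induction, and the moment bound from the induction step

As LT/GD and LT/G6 with `BndF` and `FF`.
-/

open MeasureTheory Real Set Filter Topology

set_option autoImplicit false

namespace Pool.Agent.Helper86.LK

open Pool.Agent.Helper60.LT

private theorem FF_pos54 {H T : ℝ} (hH : 0 < H) (hT : 0 < T) : 0 < FF H T ∧ H ^ 12 ≤ FF H T := by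
  unfold FF
  have h1 : 0 < T ^ (-(5 / 3) : ℝ) := rpow_pos_of_pos hT _
  have h2 : 0 < H ^ 12 := by positivity
  have h3 : 0 < H ^ 17 * T ^ (-(5 / 3) : ℝ) := by positivity
  exact ⟨by linarith, by linarith⟩

theorem bndF_zero {c₁ B a e : ℝ} (ha : 0 ≤ a) (he : 0 < e) (he1 : e ≤ 1) : BndF c₁ B a e 0 := by
  intro L β Y s₀ hL hβ _ _
  obtain ⟨C, hC, hT⟩ := triv hL hβ
  refine ⟨C, hC, fun h Δ₀ y₀ K S _ hΔ hy _ _ _ hs hS _ hK hH => ?_⟩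
  have hK0 : 0 < K := by linarith
  have hS0 : 0 ≤ S := by linarith
  refine (hT h Δ₀ y₀ K S hΔ hy hK0 hS0 hS).trans (ENNReal.ofReal_le_ofReal ?_)
  have hT0 : 0 < √(Δ₀ / y₀) := sqrt_pos.mpr (by positivity)
  rw [rpow_zero] at hH
  set H := K / √(Δ₀ / y₀) with hHd
  have hH0 : 0 < H := by positivity
  have hG : 0 < √(Δ₀ / y₀) * y₀ ^ 2 := by positivity
  have hB := (FF_pos54 hH0 hG).2
  have hKa : 1 ≤ K ^ a := one_le_rpow hK ha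
  have hHe : 0 < H ^ e := rpow_pos_of_pos hH0 _
  have h1 : H ≤ H ^ e := by
    have := rpow_le_rpow_of_exponent_ge hH0 hH he1
    rwa [rpow_one] at this
  have h2 : H ^ 10 ≤ H := by
    have := pow_le_pow_of_le_one hH0.le hH (show 1 ≤ 10 by norm_num)
    rwa [pow_one] at this
  have h3 : H ^ 22 ≤ H ^ e * FF H (√(Δ₀ / y₀) * y₀ ^ 2) := by
    calc H ^ 22 = H ^ 10 * H ^ 12 := by ring
      _ ≤ H ^ e * FF H (√(Δ₀ / y₀) * y₀ ^ 2) := mul_le_mul (h2.trans h1) hB (by positivity) hHe.le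
  have h4 : 0 ≤ C * (Δ₀ ^ 2 / y₀) := by positivity
  have h5 : 0 ≤ C * (Δ₀ ^ 2 / y₀) * (H ^ e * FF H (√(Δ₀ / y₀) * y₀ ^ 2)) :=
    (mul_nonneg h4 (by positivity : (0:ℝ) ≤ H ^ 22)).trans (mul_le_mul_of_nonneg_left h3 h4)
  calc C * (Δ₀ ^ 2 / y₀) * H ^ 22 ≤ C * (Δ₀ ^ 2 / y₀) * (H ^ e * FF H (√(Δ₀ / y₀) * y₀ ^ 2)) :=
        mul_le_mul_of_nonneg_left h3 h4
    _ ≤ K ^ a * (C * (Δ₀ ^ 2 / y₀) * (H ^ e * FF H (√(Δ₀ / y₀) * y₀ ^ 2))) := le_mul_of_one_le_left h5 hKa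
    _ = C * K ^ a * H ^ e * (Δ₀ ^ 2 / y₀) * FF H (√(Δ₀ / y₀) * y₀ ^ 2) := by ring

/-- the moment bound from the induction step (`bndF_step` of LK/IND) -/
theorem momS_of_step {c₁ B : ℝ}
    (hstep : ∀ {a e b δ₂ η : ℝ}, 0 < e → e ≤ 1 / 2 → 0 < δ₂ → δ₂ ≤ 1 / 1000 → 0 < η →
      400 * δ₂ + e ≤ a → 0 ≤ b → BndF c₁ B a e b → BndF c₁ B (a + η) e (b + δ₂)) : MomS c₁ B := by
  intro ε L β Y s₀ hε hε1 hL hβ hY hs
  have hδ : 0 < ε / 6400 := by positivity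
  have hJ0 : (0 : ℝ) < ⌈1 / (ε / 6400)⌉₊ := by
    have : 0 < ⌈1 / (ε / 6400)⌉₊ := Nat.ceil_pos.mpr (by positivity)
    exact_mod_cast this
  have hJ1 : 1 / (ε / 6400) ≤ (⌈1 / (ε / 6400)⌉₊ : ℝ) := Nat.le_ceil _
  set J := ⌈1 / (ε / 6400)⌉₊ with hJ
  have hη : 0 < ε / (8 * J) := by positivity
  have hind : ∀ j : ℕ, BndF c₁ B (ε / 16 + ε / 8 + j * (ε / (8 * J))) (ε / 8) (j * (ε / 6400)) := by
    intro j
    induction j with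
    | zero =>
      have := bndF_zero (c₁ := c₁) (B := B) (a := ε / 16 + ε / 8) (e := ε / 8) (by positivity) (by positivity) (by linarith)
      simpa using this
    | succ j ih =>
      have h1 : 0 ≤ (j : ℝ) * (ε / (8 * J)) := by positivity
      have := hstep (η := ε / (8 * J)) (by positivity : 0 < ε / 8) (by linarith) hδ (by linarith) hη
        (by linarith) (by positivity) ih
      convert this using 1
      · push_cast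
        ring
      · push_cast
        ring
  have hJη : (J : ℝ) * (ε / (8 * J)) = ε / 8 := by field_simp
  have hJδ : 1 ≤ (J : ℝ) * (ε / 6400) := by
    rw [div_le_iff₀ hδ] at hJ1
    exact hJ1
  obtain ⟨C, hC, hT⟩ := hind J L β Y s₀ hL hβ hY hs
  refine ⟨C, hC, fun h Δ₀ y₀ K S hh hΔ hy hyY hT1 hT1' hsS hS3 hk hK => ?_⟩
  have hK0 : 0 < K := by linarith
  have hT0 : 0 < √(Δ₀ / y₀) := by linarith
  have hHK : K / √(Δ₀ / y₀) ≤ K := div_le_self hK0.le hT1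
  have hH0 : 0 < K / √(Δ₀ / y₀) := by positivity
  have hKJ : K ≤ K ^ ((J : ℝ) * (ε / 6400)) := by
    have := rpow_le_rpow_of_exponent_le hK hJδ
    rwa [rpow_one] at this
  refine (hT h Δ₀ y₀ K S hh hΔ hy hyY hT1 hT1' hsS hS3 hk hK (hHK.trans hKJ)).trans (ENNReal.ofReal_le_ofReal ?_)
  have hFF := (FF_pos54 hH0 (by positivity : 0 < √(Δ₀ / y₀) * y₀ ^ 2)).1
  have h1 : (K / √(Δ₀ / y₀)) ^ (ε / 8) ≤ K ^ (ε / 8) := rpow_le_rpow hH0.le hHK (by positivity)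
  have h2 : K ^ (ε / 16 + ε / 8 + J * (ε / (8 * J))) * (K / √(Δ₀ / y₀)) ^ (ε / 8) ≤ K ^ ε := by
    calc K ^ (ε / 16 + ε / 8 + J * (ε / (8 * J))) * (K / √(Δ₀ / y₀)) ^ (ε / 8)
        ≤ K ^ (ε / 16 + ε / 8 + J * (ε / (8 * J))) * K ^ (ε / 8) := mul_le_mul_of_nonneg_left h1 (rpow_nonneg hK0.le _)
      _ = K ^ (ε / 16 + ε / 8 + J * (ε / (8 * J)) + ε / 8) := (rpow_add hK0 _ _).symm
      _ ≤ K ^ ε := rpow_le_rpow_of_exponent_le hK (by rw [hJη]; linarith)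
  have h3 : 0 ≤ C * ((Δ₀ ^ 2 / y₀) * FF (K / √(Δ₀ / y₀)) (√(Δ₀ / y₀) * y₀ ^ 2)) := by positivity
  calc C * K ^ (ε / 16 + ε / 8 + J * (ε / (8 * J))) * (K / √(Δ₀ / y₀)) ^ (ε / 8) * (Δ₀ ^ 2 / y₀) * FF (K / √(Δ₀ / y₀)) (√(Δ₀ / y₀) * y₀ ^ 2)
      = (K ^ (ε / 16 + ε / 8 + J * (ε / (8 * J))) * (K / √(Δ₀ / y₀)) ^ (ε / 8)) * (C * ((Δ₀ ^ 2 / y₀) * FF (K / √(Δ₀ / y₀)) (√(Δ₀ / y₀) * y₀ ^ 2))) := by ring
    _ ≤ K ^ ε * (C * ((Δ₀ ^ 2 / y₀) * FF (K / √(Δ₀ / y₀)) (√(Δ₀ / y₀) * y₀ ^ 2))) := mul_le_mul_of_nonneg_right h2 h3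
    _ = C * K ^ ε * (Δ₀ ^ 2 / y₀) * FF (K / √(Δ₀ / y₀)) (√(Δ₀ / y₀) * y₀ ^ 2) := by ring

end Pool.Agent.Helper86.LK
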