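import Pool.Agent.Helper86.LK.Defs
import Pool.Agent.Helper60.LT.G5
import Pool.Agent.Helper75.TW.Fin

/-!
# LK-M: from the states to the moment theorem on compact sets of frames

A copy of LT-G5 (`G5.lean`) with `FF` instead of `BB`. For the frame scaled by `r` (`X/4 ≤ r ≤ 8 X`) the state has
`H = X N/(r √(d₀/y₀)) ≤ (4/√(d₀/y₀)) N` and `T = r √(d₀/y₀) y₀² ≥ (√(d₀/y₀) y₀²/4) X`, so `FF H T ≤ C FF N X`.
-/

open MeasureTheory Real Set Filter Topology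

set_option autoImplicit false

namespace Pool.Agent.Helper86.LK

open Pool.Agent.Helper60.LT
open Pool.Agent.Helper22.AE
open Pool.Agent.Helper92.GC (dt tp Tq uu tt arc gs dd sqa)
open Pool.Agent.Helper92.DT (m12 IsMul12)

private lemma vf_scl38 (r : ℝ) (f : Fr) (k : ℤ × ℤ) :
    vf (scl r f) k = (r * (vf f k).1, r * (vf f k).2) := by
  unfold vf scl
  refine Prod.ext ?_ ?_
  · change (k.1 : ℝ) * (r * f.1.1) + k.2 * (r * f.2.1) = r * (k.1 * f.1.1 + k.2 * f.2.1)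
    ring
  · change (k.1 : ℝ) * (r * f.1.2) + k.2 * (r * f.2.2) = r * (k.1 * f.1.2 + k.2 * f.2.2)
    ring

private lemma hom_scl38 {c₁ B : ℝ} {h : ℝ × ℝ → ℝ} (hh : Hom c₁ B h) {r : ℝ} (hr : 0 < r) (f : Fr)
    (k : ℤ × ℤ) : h (vf (scl r f) k) = r * h (vf f k) := by
  rw [vf_scl38]
  exact hh.hom r (vf f k) hr

private lemma ac_scl38 (r : ℝ) (f : Fr) (n n' : ℤ × ℤ) : ac n n' (scl r f) = scl r (ac n n' f) := by
  unfold ac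
  rw [vf_scl38, vf_scl38]
  rfl

private lemma Tf_scl38 {r : ℝ} (hr : 0 < r) (f : Fr) : Tf (scl r f) = r * Tf f := by
  unfold Tf scl
  change √((r * f.1.1) ^ 2 + (r * f.1.2) ^ 2) = _
  rw [show (r * f.1.1) ^ 2 + (r * f.1.2) ^ 2 = r ^ 2 * (f.1.1 ^ 2 + f.1.2 ^ 2) by ring,
    Real.sqrt_mul (sq_nonneg r), Real.sqrt_sq hr.le]

private lemma xf_scl38 {r : ℝ} (hr : 0 < r) (f : Fr) : xf (scl r f) = xf f := by
  unfold xf scl
  change (r * f.1.1 * (r * f.2.1) + r * f.1.2 * (r * f.2.2)) / ((r * f.1.1) ^ 2 + (r * f.1.2) ^ 2) = _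
  rw [show r * f.1.1 * (r * f.2.1) + r * f.1.2 * (r * f.2.2) = r ^ 2 * (f.1.1 * f.2.1 + f.1.2 * f.2.2) by ring,
    show (r * f.1.1) ^ 2 + (r * f.1.2) ^ 2 = r ^ 2 * (f.1.1 ^ 2 + f.1.2 ^ 2) by ring,
    mul_div_mul_left _ _ (by positivity)]

private lemma df_scl38 (r : ℝ) (f : Fr) : df (scl r f) = r ^ 2 * df f := by
  unfold df scl
  change r * f.1.1 * (r * f.2.2) - r * f.1.2 * (r * f.2.1) = _
  ring

private lemma yf_scl38 {r : ℝ} (hr : 0 < r) (f : Fr) : yf (scl r f) = yf f := by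
  unfold yf
  rw [df_scl38]
  unfold scl
  change r ^ 2 * df f / ((r * f.1.1) ^ 2 + (r * f.1.2) ^ 2) = _
  rw [show (r * f.1.1) ^ 2 + (r * f.1.2) ^ 2 = r ^ 2 * (f.1.1 ^ 2 + f.1.2 ^ 2) by ring,
    mul_div_mul_left _ _ (by positivity)]

private lemma df_ac38 {n : ℤ × ℤ} (hn : IsCoprime n.1 n.2) (f : Fr) : df (ac n (co n) f) = df f := by
  have h1 : ((n.1 : ℝ) * ((co n).2 : ℝ) - (n.2 : ℝ) * ((co n).1 : ℝ)) = 1 := by
    exact_mod_cast co_spec hn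
  have h2 : df (ac n (co n) f) =
      ((n.1 : ℝ) * ((co n).2 : ℝ) - (n.2 : ℝ) * ((co n).1 : ℝ)) * df f := by
    unfold df ac vf
    ring
  rw [h2, h1, one_mul]

private lemma m12_nonneg38 (S : Finset (ℤ × ℤ)) (a : ℤ × ℤ → ℂ) : 0 ≤ m12 S a :=
  integral_nonneg fun c => by positivity

/-- `FF` is monotone in `H` -/
private lemma FF_mono38 {H H' T : ℝ} (hH : 0 ≤ H) (h : H ≤ H') (hT : 0 < T) : FF H T ≤ FF H' T := by
  unfold FF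
  have h1 : 0 ≤ T ^ (-(5 / 3) : ℝ) := Real.rpow_nonneg hT.le _
  have h3 := pow_le_pow_left₀ hH h 12
  have h4 := mul_le_mul_of_nonneg_right (pow_le_pow_left₀ hH h 17) h1
  linarith

private lemma FF_nonneg38 {H T : ℝ} (_hH : 0 ≤ H) (hT : 0 ≤ T) : 0 ≤ FF H T := by
  unfold FF
  have h1 : 0 ≤ T ^ (-(5 / 3) : ℝ) := Real.rpow_nonneg hT _
  positivity

/-- `FF` under scaling -/
private lemma FF_scale38 {c c' : ℝ} (_hc : 0 ≤ c) (hc' : 0 < c') {H T X : ℝ} (_hH : 0 ≤ H) (hX : 0 < X)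
    (hT : c' * X ≤ T) : FF (c * H) T ≤ (c ^ 12 + c ^ 17 * c' ^ (-(5 / 3) : ℝ)) * FF H X := by
  have hT1 : T ^ (-(5 / 3) : ℝ) ≤ c' ^ (-(5 / 3) : ℝ) * X ^ (-(5 / 3) : ℝ) := by
    rw [← Real.mul_rpow hc'.le hX.le]
    exact Real.rpow_le_rpow_of_nonpos (by positivity) hT (by norm_num)
  unfold FF
  rw [mul_pow, mul_pow]
  obtain ⟨t, ht⟩ : ∃ g, g = T ^ (-(5 / 3) : ℝ) := ⟨_, rfl⟩
  obtain ⟨g, hg⟩ : ∃ g, g = X ^ (-(5 / 3) : ℝ) := ⟨_, rfl⟩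
  obtain ⟨k, hk⟩ : ∃ g, g = c' ^ (-(5 / 3) : ℝ) := ⟨_, rfl⟩
  have e1 : 0 ≤ g := by rw [hg]; exact Real.rpow_nonneg hX.le _
  have e3 : 0 ≤ k := by rw [hk]; exact Real.rpow_nonneg hc'.le _
  rw [← ht, ← hg, ← hk] at hT1
  rw [← ht, ← hg, ← hk]
  have p1 : 0 ≤ c ^ 12 := by positivity
  have p2 : 0 ≤ c ^ 17 * k := by positivity
  have q1 : 0 ≤ H ^ 12 := by positivity
  have q2 : 0 ≤ H ^ 17 * g := by positivity
  have r1 : c ^ 17 * H ^ 17 * t ≤ c ^ 17 * k * (H ^ 17 * g) := by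
    have r2 : 0 ≤ c ^ 17 * H ^ 17 := by positivity
    calc c ^ 17 * H ^ 17 * t ≤ c ^ 17 * H ^ 17 * (k * g) := mul_le_mul_of_nonneg_left hT1 r2
      _ = _ := by ring
  have r3 := mul_nonneg p1 q2
  have r4 := mul_nonneg p2 q1
  have r5 : (c ^ 12 + c ^ 17 * k) * (H ^ 12 + H ^ 17 * g) =
      c ^ 12 * H ^ 12 + c ^ 12 * (H ^ 17 * g) + c ^ 17 * k * H ^ 12 + c ^ 17 * k * (H ^ 17 * g) := by ring
  rw [r5]
  linarith

/-- the numbers -/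
private lemma num38 {ε C₃ M d₀ y₀ : ℝ} (hε : 0 < ε) (hC : 0 ≤ C₃) (hM : 0 ≤ M) (hd : 0 < d₀) (hy : 0 < y₀)
    {X N r : ℝ} (hX : 1 ≤ X) (hN : 1 ≤ N) (hNX : N ≤ X) (hr : X / 4 ≤ r) :
    r⁻¹ ^ 4 * (M * (C₃ * (X * N) ^ (ε / 4) * ((r ^ 2 * d₀) ^ 2 / y₀) *
      FF (X * N / √(r ^ 2 * d₀ / y₀)) (√(r ^ 2 * d₀ / y₀) * y₀ ^ 2))) ≤
    (M * C₃ * (d₀ ^ 2 / y₀) * ((4 / √(d₀ / y₀)) ^ 12 + (4 / √(d₀ / y₀)) ^ 17 *
      (√(d₀ / y₀) * y₀ ^ 2 / 4) ^ (-(5 / 3) : ℝ))) * (X ^ (ε / 2) * FF N X) := by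
  have hX0 : 0 < X := by linarith
  have hN0 : 0 < N := by linarith
  have hr0 : 0 < r := by linarith
  have hq : 0 < √(d₀ / y₀) := Real.sqrt_pos.2 (by positivity)
  have h1 : √(r ^ 2 * d₀ / y₀) = r * √(d₀ / y₀) := by
    rw [mul_div_assoc, Real.sqrt_mul (sq_nonneg r), Real.sqrt_sq hr0.le]
  have h2 : X * N / √(r ^ 2 * d₀ / y₀) ≤ 4 / √(d₀ / y₀) * N := by
    rw [h1, div_mul_eq_mul_div, div_le_div_iff₀ (by positivity) hq]
    have h3 : X ≤ 4 * r := by linarith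
    have h4 : 0 ≤ N * √(d₀ / y₀) := by positivity
    nlinarith
  have h2' : √(d₀ / y₀) * y₀ ^ 2 / 4 * X ≤ √(r ^ 2 * d₀ / y₀) * y₀ ^ 2 := by
    rw [h1]
    have h4 : 0 ≤ √(d₀ / y₀) * y₀ ^ 2 := by positivity
    have h3 := mul_le_mul_of_nonneg_left hr h4
    linarith
  have h5 : FF (X * N / √(r ^ 2 * d₀ / y₀)) (√(r ^ 2 * d₀ / y₀) * y₀ ^ 2) ≤
      ((4 / √(d₀ / y₀)) ^ 12 + (4 / √(d₀ / y₀)) ^ 17 * (√(d₀ / y₀) * y₀ ^ 2 / 4) ^ (-(5 / 3) : ℝ)) * FF N X := by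
    refine (FF_mono38 (by positivity) h2 (by rw [h1]; positivity)).trans ?_
    exact FF_scale38 (by positivity) (by positivity) hN0.le hX0 h2'
  have h6 : (X * N) ^ (ε / 4) ≤ X ^ (ε / 2) := by
    have h7 : X * N ≤ X ^ (2 : ℝ) := by
      rw [Real.rpow_two]
      nlinarith
    have h8 := Real.rpow_le_rpow (by positivity) h7 (by positivity : 0 ≤ ε / 4)
    rw [← Real.rpow_mul hX0.le] at h8
    rwa [show (2 : ℝ) * (ε / 4) = ε / 2 by ring] at h8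
  obtain ⟨T, hT⟩ : ∃ T, T = (4 / √(d₀ / y₀)) ^ 12 + (4 / √(d₀ / y₀)) ^ 17 *
      (√(d₀ / y₀) * y₀ ^ 2 / 4) ^ (-(5 / 3) : ℝ) := ⟨_, rfl⟩
  rw [← hT] at h5 ⊢
  have hBB : 0 ≤ FF (X * N / √(r ^ 2 * d₀ / y₀)) (√(r ^ 2 * d₀ / y₀) * y₀ ^ 2) :=
    FF_nonneg38 (by positivity) (by positivity)
  have h9 : (X * N) ^ (ε / 4) * FF (X * N / √(r ^ 2 * d₀ / y₀)) (√(r ^ 2 * d₀ / y₀) * y₀ ^ 2) ≤
      X ^ (ε / 2) * (T * FF N X) :=
    mul_le_mul h6 h5 hBB (Real.rpow_nonneg hX0.le _)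
  have h10 : 0 ≤ M * C₃ * (d₀ ^ 2 / y₀) := by positivity
  have h11 := mul_le_mul_of_nonneg_left h9 h10
  have h12 : r⁻¹ ^ 4 * (M * (C₃ * (X * N) ^ (ε / 4) * ((r ^ 2 * d₀) ^ 2 / y₀) *
      FF (X * N / √(r ^ 2 * d₀ / y₀)) (√(r ^ 2 * d₀ / y₀) * y₀ ^ 2))) =
      M * C₃ * (d₀ ^ 2 / y₀) * ((X * N) ^ (ε / 4) *
        FF (X * N / √(r ^ 2 * d₀ / y₀)) (√(r ^ 2 * d₀ / y₀) * y₀ ^ 2)) := by
    obtain ⟨b, hb⟩ : ∃ b, b = FF (X * N / √(r ^ 2 * d₀ / y₀)) (√(r ^ 2 * d₀ / y₀) * y₀ ^ 2) := ⟨_, rfl⟩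
    rw [← hb]
    field_simp
  rw [h12]
  refine h11.trans (le_of_eq ?_)
  ring

/-- the data of `cover` -/
private structure Cov38 (κ : ℝ) (f₀ : Fr) (V : Set Fr) (L : ℝ) (m : ℕ) (n : Fin m → ℤ × ℤ)
    (S y₀ : Fin m → ℝ) (α : Fin m → (ℝ × ℝ) × (ℝ × ℝ)) : Prop where
  op : IsOpen V
  hL : 1 ≤ L
  d0 : 0 < df f₀
  par : ∀ i, IsCoprime (n i).1 (n i).2 ∧ 0 < S i ∧ S i ≤ 3 ∧ 0 < y₀ i ∧ y₀ i * S i ≤ κ
  ex : ∀ k : ℤ × ℤ, k ≠ 0 → ∃ i, InC (α i) k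
  un : ∀ (k : ℤ × ℤ) (i j : Fin m), k ≠ 0 → InC (α i) k → InC (α j) k → i = j
  loc : ∀ f ∈ V, df f₀ ≤ 2 * df f ∧ df f ≤ 2 * df f₀ ∧ ∀ i, 1 / L ≤ Tf (ac (n i) (co (n i)) f) ∧ Tf (ac (n i) (co (n i)) f) ≤ L ∧
        |xf (ac (n i) (co (n i)) f)| ≤ L ∧ y₀ i ≤ 2 * yf (ac (n i) (co (n i)) f) ∧ yf (ac (n i) (co (n i)) f) ≤ 2 * y₀ i ∧
        ∀ k : ℤ × ℤ, k ≠ 0 → InC (α i) k → (|(k.1 : ℝ)| + |(k.2 : ℝ)|) / L ≤ uu (xf (ac (n i) (co (n i)) f)) (kp (n i) k) ∧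
          uu (xf (ac (n i) (co (n i)) f)) (kp (n i) k) ≤ L * (|(k.1 : ℝ)| + |(k.2 : ℝ)|) ∧
          |((kp (n i) k).2 : ℝ)| ≤ S i * uu (xf (ac (n i) (co (n i)) f)) (kp (n i) k)

private lemma sqa38 {N : ℕ} (hN : 1 ≤ N) {k : ℤ × ℤ} (hk : k ∈ sqa N) :
    k ≠ 0 ∧ (N : ℝ) ≤ |(k.1 : ℝ)| + |(k.2 : ℝ)| ∧ |(k.1 : ℝ)| + |(k.2 : ℝ)| ≤ 4 * N := by
  unfold sqa at hk
  rw [Finset.mem_filter] at hk
  obtain ⟨-, h1, h2, h3⟩ := hk
  have c1 : |(k.1 : ℝ)| < 2 * N := by exact_mod_cast h2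
  have c2 : |(k.2 : ℝ)| < 2 * N := by exact_mod_cast h3
  have c3 : (N : ℝ) ≤ |(k.1 : ℝ)| ∨ (N : ℝ) ≤ |(k.2 : ℝ)| := by
    rcases h1 with h1 | h1
    · left
      exact_mod_cast h1
    · right
      exact_mod_cast h1
  have a1 := abs_nonneg (k.1 : ℝ)
  have a2 := abs_nonneg (k.2 : ℝ)
  refine ⟨?_, ?_, by linarith⟩
  · rintro rfl
    rcases h1 with h1 | h1
    · simp at h1
      omega
    · simp at h1
      omega
  · rcases c3 with c3 | c3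
    · linarith
    · linarith

open Classical in
private lemma ptw38 {κ c₁ B : ℝ} {f₀ : Fr} {V : Set Fr} {L : ℝ} {m : ℕ} {n : Fin m → ℤ × ℤ}
    {S y₀ : Fin m → ℝ} {α : Fin m → (ℝ × ℝ) × (ℝ × ℝ)} (D : Cov38 κ f₀ V L m n S y₀ α)
    {h : ℝ × ℝ → ℝ} (hh : Hom c₁ B h) {f : Fr} (hf : f ∈ V) {X r : ℝ} {N : ℕ} (hN : 1 ≤ N)
    (hX : 1 ≤ X) (hr1 : X / 4 ≤ r) (hr2 : r ≤ 8 * X) :
    ENNReal.ofReal (m12 (sqa N) (fun k => ee (r * h (vf f k)))) ≤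
      ENNReal.ofReal ((m : ℝ) ^ 11) * ∑ i, ENNReal.ofReal ((2 * 24 ^ 6) ^ 12) *
        PP h (32 * L ^ 2) (S i) (X * N) (ac (n i) (co (n i)) (scl r f)) := by
  have hX0 : 0 < X := by linarith
  have hr0 : 0 < r := by linarith
  have hN0 : (0 : ℝ) < N := by exact_mod_cast hN
  have hL := D.hL
  have hL0 : 0 < L := by linarith
  have e : (fun k => ee (r * h (vf f k))) = fun k => ee (h (vf (scl r f) k)) := by
    funext k
    rw [hom_scl38 hh hr0]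
  rw [e]
  have h1 := m12_union Finset.univ (fun i => (sqa N).filter (fun k => InC (α i) k)) (sqa N)
    (fun k => ee (h (vf (scl r f) k)))
    (fun i _ j _ hij => by
      rw [Finset.disjoint_left]
      intro k hk hk'
      rw [Finset.mem_filter] at hk hk'
      exact hij (D.un k i j (sqa38 hN hk.1).1 hk.2 hk'.2))
    (fun k => by
      constructor
      · intro hk
        obtain ⟨i, hi⟩ := D.ex k (sqa38 hN hk).1
        exact ⟨i, Finset.mem_univ _, Finset.mem_filter.2 ⟨hk, hi⟩⟩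
      · rintro ⟨i, -, hi⟩
        exact (Finset.mem_filter.1 hi).1)
  refine (ENNReal.ofReal_le_ofReal h1).trans ?_
  rw [ENNReal.ofReal_mul (by positivity), ENNReal.ofReal_sum_of_nonneg (fun i _ => m12_nonneg38 _ _),
    Finset.card_univ, Fintype.card_fin]
  refine mul_le_mul_right (Finset.sum_le_sum fun i _ => ?_) _
  obtain ⟨hn, hS0, hS3, hy0, hyS⟩ := D.par i
  obtain ⟨-, -, hloc⟩ := D.loc f hf
  obtain ⟨t1, t2, -, -, -, t6⟩ := hloc i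
  have t0 : 0 < Tf (ac (n i) (co (n i)) f) := lt_of_lt_of_le (by positivity) t1
  have eT : Tf (ac (n i) (co (n i)) (scl r f)) = r * Tf (ac (n i) (co (n i)) f) := by
    rw [ac_scl38, Tf_scl38 hr0]
  have ex : xf (ac (n i) (co (n i)) (scl r f)) = xf (ac (n i) (co (n i)) f) := by
    rw [ac_scl38, xf_scl38 hr0]
  refine transfer0 (h := h) (L := 32 * L ^ 2) (S := S i) (K := X * N) (C := 2 * 24 ^ 6)
    (by positivity) hS0.le (by positivity) hn (by rw [eT]; positivity) (sqa_cut N (α i)) ?_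
  intro k hk
  rw [Finset.mem_filter] at hk
  obtain ⟨s1, s2, s3⟩ := sqa38 hN hk.1
  obtain ⟨u1, u2, u3⟩ := t6 k s1 hk.2
  rw [eT, ex]
  obtain ⟨T, hT⟩ : ∃ T, T = Tf (ac (n i) (co (n i)) f) := ⟨_, rfl⟩
  obtain ⟨u, hu⟩ : ∃ u, u = uu (xf (ac (n i) (co (n i)) f)) (kp (n i) k) := ⟨_, rfl⟩
  rw [← hT] at t0 t1 t2 ⊢
  rw [← hu] at u1 u2 u3 ⊢
  have v1 : (N : ℝ) / L ≤ u := le_trans (by gcongr) u1
  have v2 : u ≤ L * (4 * N) := u2.trans (by gcongr)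
  have v0 : 0 < u := lt_of_lt_of_le (by positivity) v1
  refine ⟨?_, ?_, u3⟩
  · have w1 : X / 4 * (1 / L) * (N / L) ≤ r * T * u := by gcongr
    have w2 : X / 4 * (1 / L) * (N / L) = X * N / (4 * L ^ 2) := by
      field_simp
    rw [w2, div_le_iff₀ (by positivity)] at w1
    have w3 : 0 ≤ r * T * u * L ^ 2 := by positivity
    nlinarith
  · have w1 : r * T * u ≤ 8 * X * L * (L * (4 * N)) := by gcongr
    have w2 : 8 * X * L * (L * (4 * N)) = 32 * L ^ 2 * (X * N) := by ring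
    rw [w2] at w1
    exact w1

private lemma Tf_meas38b : Measurable Tf := by
  unfold Tf
  fun_prop

private lemma xf_meas38b : Measurable xf := by
  unfold xf
  fun_prop

private lemma df_meas38b : Measurable df := by
  unfold df
  fun_prop

private lemma yf_meas38b : Measurable yf := by
  unfold yf df
  fun_prop

private lemma E_meas38 (Δ₀ y₀ β : ℝ) (m : ℕ) : MeasurableSet {f : Fr | 0 < Tf f ∧ -(m : ℝ) ≤ xf f ∧
    xf f < m ∧ Δ₀ ≤ β * df f ∧ df f ≤ β * Δ₀ ∧ y₀ ≤ β * yf f ∧ yf f ≤ β * y₀} :=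
  (measurableSet_lt measurable_const Tf_meas38b).inter
    ((measurableSet_le measurable_const xf_meas38b).inter
    ((measurableSet_lt xf_meas38b measurable_const).inter
    ((measurableSet_le measurable_const (measurable_const.mul df_meas38b)).inter
    ((measurableSet_le df_meas38b measurable_const).inter
    ((measurableSet_le measurable_const (measurable_const.mul yf_meas38b)).inter
    (measurableSet_le yf_meas38b measurable_const))))))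

private lemma fix38 {κ c₁ B ε C₃ Y s₀ : ℝ} {f₀ : Fr} {V : Set Fr} {L : ℝ} {m : ℕ} {n : Fin m → ℤ × ℤ}
    {S y₀ : Fin m → ℝ} {α : Fin m → (ℝ × ℝ) × (ℝ × ℝ)} (D : Cov38 κ f₀ V L m n S y₀ α)
    (hκ : 11 / 5 * κ ≤ k₀ c₁ B)
    (hmom : ∀ (h : ℝ × ℝ → ℝ) (Δ₀ y₀ K S : ℝ), Hom c₁ B h → 0 < Δ₀ → 0 < y₀ → y₀ ≤ Y →
      1 ≤ √(Δ₀ / y₀) → 1 ≤ √(Δ₀ / y₀) * y₀ ^ 2 → s₀ ≤ S → S ≤ 3 → 11 / 10 * (2 * y₀ * S) ≤ k₀ c₁ B → 1 ≤ K →
      ∫⁻ f in EE Δ₀ y₀ 2, PP h (32 * L ^ 2) S K f ≤ ENNReal.ofReal (C₃ * K ^ (ε / 4) * (Δ₀ ^ 2 / y₀) *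
        FF (K / √(Δ₀ / y₀)) (√(Δ₀ / y₀) * y₀ ^ 2)))
    (hY : ∀ i, y₀ i ≤ Y) (hs : ∀ i, s₀ ≤ S i)
    {h : ℝ × ℝ → ℝ} (hh : Hom c₁ B h) (i : Fin m) {X r : ℝ} {N : ℕ} (hN : 1 ≤ N)
    (hX : 1 ≤ X) (hr1 : X / 4 ≤ r) (hr3 : 1 ≤ √(r ^ 2 * df f₀ / y₀ i))
    (hr4 : 1 ≤ √(r ^ 2 * df f₀ / y₀ i) * (y₀ i) ^ 2) :
    ∫⁻ f in V, PP h (32 * L ^ 2) (S i) (X * N) (ac (n i) (co (n i)) (scl r f)) ≤
      ENNReal.ofReal (r⁻¹ ^ 4 * (2 * ((⌈L⌉₊ + 1 : ℕ) : ℝ) * (C₃ * (X * N) ^ (ε / 4) *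
        ((r ^ 2 * df f₀) ^ 2 / y₀ i) * FF (X * N / √(r ^ 2 * df f₀ / y₀ i))
          (√(r ^ 2 * df f₀ / y₀ i) * (y₀ i) ^ 2)))) := by
  have hX0 : 0 < X := by linarith
  have hr0 : 0 < r := by linarith
  have hN1 : (1 : ℝ) ≤ N := by exact_mod_cast hN
  have hN0 : (0 : ℝ) < N := by linarith
  have hL := D.hL
  have hL0 : 0 < L := by linarith
  have hd := D.d0
  obtain ⟨hn, hS0, hS3, hy0, hyS⟩ := D.par i
  have h1 := int_scl (F := PP h (32 * L ^ 2) (S i) (X * N)) (PP_meas hh.cont _ _ _) hr0 hn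
    D.op.measurableSet (E_meas38 (r ^ 2 * df f₀) (y₀ i) 2 (⌈L⌉₊ + 1)) (fun f hf => by
      obtain ⟨l1, l2, hloc⟩ := D.loc f hf
      obtain ⟨t1, t2, t3, t4, t5, -⟩ := hloc i
      have t0 : 0 < Tf (ac (n i) (co (n i)) f) := lt_of_lt_of_le (by positivity) t1
      have hr2 : 0 < r ^ 2 := by positivity
      have hLc : L ≤ (⌈L⌉₊ : ℝ) := Nat.le_ceil _
      rw [abs_le] at t3
      rw [ac_scl38]
      refine ⟨?_, ?_, ?_, ?_, ?_, ?_, ?_⟩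
      · rw [Tf_scl38 hr0]
        positivity
      · rw [xf_scl38 hr0]
        push_cast
        linarith
      · rw [xf_scl38 hr0]
        push_cast
        linarith
      · rw [df_scl38, df_ac38 hn]
        nlinarith
      · rw [df_scl38, df_ac38 hn]
        nlinarith
      · rw [yf_scl38 hr0]
        exact t4
      · rw [yf_scl38 hr0]
        exact t5)
  have h2 := shear_red (Φ := PP h (32 * L ^ 2) (S i) (X * N)) (PP_meas hh.cont _ _ _)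
    (fun f hf => PP_shear (by positivity) (by positivity) hS0.le f hf) (r ^ 2 * df f₀) (y₀ i) 2 (⌈L⌉₊ + 1)
  have h3 := hmom h (r ^ 2 * df f₀) (y₀ i) (X * N) (S i) hh (by positivity) hy0 (hY i) hr3 hr4 (hs i) hS3
    (by nlinarith) (by nlinarith)
  refine h1.trans ?_
  rw [ENNReal.ofReal_mul (by positivity), ENNReal.ofReal_mul (by positivity)]
  exact mul_le_mul_right (h2.trans (mul_le_mul_right h3 _)) _

private lemma G_cont38 {h : ℝ × ℝ → ℝ} (hh : Continuous h) (S : Finset (ℤ × ℤ)) :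
    Continuous (fun q : Fr × ℝ => m12 S (fun k => ee (q.2 * h (vf q.1 k)))) := by
  have hcomp : IsCompact Tq := isCompact_Icc.prod isCompact_Icc
  unfold m12
  refine continuous_parametric_integral_of_continuous
    (f := fun (q : Fr × ℝ) (c : ℝ × ℝ) => ‖tp S (fun k => ee (q.2 * h (vf q.1 k))) c‖ ^ 12) ?_ hcomp
  have h1 : Continuous (fun q : (Fr × ℝ) × (ℝ × ℝ) => tp S (fun k => ee (q.1.2 * h (vf q.1.1 k))) q.2) := by
    unfold tp dt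
    refine continuous_finsetSum _ fun k _ => ?_
    have hv : Continuous (fun q : (Fr × ℝ) × (ℝ × ℝ) => vf q.1.1 k) := by
      unfold vf
      fun_prop
    exact Continuous.mul (ee_cont.comp ((continuous_snd.comp continuous_fst).mul (hh.comp hv)))
      (ee_cont.comp (by fun_prop))
  exact h1.norm.pow 12

private lemma G_nonneg38 {h : ℝ × ℝ → ℝ} (S : Finset (ℤ × ℤ)) (f : Fr) (r : ℝ) :
    0 ≤ m12 S (fun k => ee (r * h (vf f k))) := m12_nonneg38 _ _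

private lemma PPac_meas38 {h : ℝ × ℝ → ℝ} (hh : Continuous h) (L S K r : ℝ) (n n' : ℤ × ℤ) :
    Measurable (fun f => PP h L S K (ac n n' (scl r f))) := by
  refine (PP_meas hh L S K).comp (Continuous.measurable ?_)
  unfold ac vf scl
  fun_prop

private lemma large38 {κ c₁ B ε C₃ Y s₀ : ℝ} (hε : 0 < ε) (hC₃ : 0 ≤ C₃) {f₀ : Fr} {V : Set Fr} {L : ℝ} {m : ℕ}
    {n : Fin m → ℤ × ℤ} {S y₀ : Fin m → ℝ} {α : Fin m → (ℝ × ℝ) × (ℝ × ℝ)}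
    (D : Cov38 κ f₀ V L m n S y₀ α) (hκ : 11 / 5 * κ ≤ k₀ c₁ B)
    (hmom : ∀ (h : ℝ × ℝ → ℝ) (Δ₀ y₀ K S : ℝ), Hom c₁ B h → 0 < Δ₀ → 0 < y₀ → y₀ ≤ Y →
      1 ≤ √(Δ₀ / y₀) → 1 ≤ √(Δ₀ / y₀) * y₀ ^ 2 → s₀ ≤ S → S ≤ 3 → 11 / 10 * (2 * y₀ * S) ≤ k₀ c₁ B → 1 ≤ K →
      ∫⁻ f in EE Δ₀ y₀ 2, PP h (32 * L ^ 2) S K f ≤ ENNReal.ofReal (C₃ * K ^ (ε / 4) * (Δ₀ ^ 2 / y₀) *
        FF (K / √(Δ₀ / y₀)) (√(Δ₀ / y₀) * y₀ ^ 2)))
    (hY : ∀ i, y₀ i ≤ Y) (hs : ∀ i, s₀ ≤ S i) : ∃ C X₀ : ℝ, 0 < C ∧ 1 ≤ X₀ ∧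
    ∀ h : ℝ × ℝ → ℝ, Hom c₁ B h → ∀ (X : ℝ) (ν : ℕ), X₀ ≤ X → (2 : ℝ) ^ ν ≤ X →
      ∫⁻ f in V, ∫⁻ r in Icc (X / 4) (8 * X), ENNReal.ofReal (m12 (sqa (2 ^ ν)) (fun k => ee (r * h (vf f k)))) ≤
        ENNReal.ofReal (C * X ^ (1 + ε) * FF ((2 : ℝ) ^ ν) X) := by
  have hd := D.d0
  obtain ⟨E, hE⟩ : ∃ E : Fin m → ℝ, ∀ i, E i = 2 * ((⌈L⌉₊ + 1 : ℕ) : ℝ) * C₃ * (df f₀ ^ 2 / y₀ i) *
      ((4 / √(df f₀ / y₀ i)) ^ 12 + (4 / √(df f₀ / y₀ i)) ^ 17 *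
        (√(df f₀ / y₀ i) * (y₀ i) ^ 2 / 4) ^ (-(5 / 3) : ℝ)) := ⟨_, fun i => rfl⟩
  have hE0 : ∀ i, 0 ≤ E i := by
    intro i
    obtain ⟨-, -, -, hy0, -⟩ := D.par i
    rw [hE]
    have g1 : 0 ≤ (√(df f₀ / y₀ i) * (y₀ i) ^ 2 / 4) ^ (-(5 / 3) : ℝ) := Real.rpow_nonneg (by positivity) _
    positivity
  obtain ⟨A, hA⟩ : ∃ A : ℝ, A = (m : ℝ) ^ 11 * ∑ i, (2 * 24 ^ 6) ^ 12 * E i := ⟨_, rfl⟩
  have hA0 : 0 ≤ A := by
    rw [hA]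
    refine mul_nonneg (by positivity) (Finset.sum_nonneg fun i _ => mul_nonneg (by positivity) (hE0 i))
  obtain ⟨X₀, hX₀⟩ : ∃ X₀ : ℝ, X₀ = 1 + 4 * ∑ i, √(y₀ i / df f₀) + 4 * ∑ i, (√(df f₀ / y₀ i) * (y₀ i) ^ 2)⁻¹ :=
    ⟨_, rfl⟩
  have hs1 : 0 ≤ ∑ i, √(y₀ i / df f₀) := Finset.sum_nonneg fun i _ => Real.sqrt_nonneg _
  have hs2 : 0 ≤ ∑ i, (√(df f₀ / y₀ i) * (y₀ i) ^ 2)⁻¹ := Finset.sum_nonneg fun i _ => by positivity
  have hX₀1 : 1 ≤ X₀ := by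
    rw [hX₀]
    linarith
  refine ⟨8 * A + 1, X₀, by positivity, hX₀1, ?_⟩
  intro h hh X ν hX hν
  have hX1 : 1 ≤ X := hX₀1.trans hX
  have hX0 : 0 < X := by linarith
  have hN1 : (1 : ℝ) ≤ 2 ^ ν := one_le_pow₀ (by norm_num)
  have hNn : 1 ≤ 2 ^ ν := Nat.one_le_two_pow
  obtain ⟨Z, hZ⟩ : ∃ Z, Z = X ^ (ε / 2) * FF ((2 : ℝ) ^ ν) X := ⟨_, rfl⟩
  have hBB : 0 ≤ FF ((2 : ℝ) ^ ν) X := FF_nonneg38 (by positivity) (by positivity)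
  have hZ0 : 0 ≤ Z := by
    rw [hZ]
    exact mul_nonneg (Real.rpow_nonneg hX0.le _) hBB
  -- the bound for fixed `r`
  have hfix : ∀ r ∈ Icc (X / 4) (8 * X), ∫⁻ f in V, ENNReal.ofReal (m12 (sqa (2 ^ ν)) (fun k => ee (r * h (vf f k)))) ≤
      ENNReal.ofReal (A * Z) := by
    rintro r ⟨hr1, hr2⟩
    have hr0 : 0 < r := by linarith
    have h1 : ∫⁻ f in V, ENNReal.ofReal (m12 (sqa (2 ^ ν)) (fun k => ee (r * h (vf f k)))) ≤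
        ∫⁻ f in V, ENNReal.ofReal ((m : ℝ) ^ 11) * ∑ i, ENNReal.ofReal ((2 * 24 ^ 6) ^ 12) *
        PP h (32 * L ^ 2) (S i) (X * (2 ^ ν : ℕ)) (ac (n i) (co (n i)) (scl r f)) :=
      setLIntegral_mono' D.op.measurableSet fun f hf => ptw38 D hh hf hNn hX1 hr1 hr2
    refine h1.trans ?_
    rw [lintegral_const_mul _ (Finset.measurable_fun_sum _ fun i _ =>
      (PPac_meas38 hh.cont _ _ _ _ _ _).const_mul _),
      lintegral_finsetSum _ (fun i _ => (PPac_meas38 hh.cont _ _ _ _ _ _).const_mul _)]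
    rw [hA, mul_assoc, ENNReal.ofReal_mul (by positivity), Finset.sum_mul,
      ENNReal.ofReal_sum_of_nonneg (fun i _ => mul_nonneg (mul_nonneg (by positivity) (hE0 i)) hZ0)]
    refine mul_le_mul_right (Finset.sum_le_sum fun i _ => ?_) _
    rw [lintegral_const_mul _ (PPac_meas38 hh.cont _ _ _ _ _ _), mul_assoc,
      ENNReal.ofReal_mul (by positivity)]
    refine mul_le_mul_right ?_ _
    obtain ⟨hn, hS0, hS3, hy0, hyS⟩ := D.par i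
    have hr3 : 1 ≤ √(r ^ 2 * df f₀ / y₀ i) := by
      rw [Real.one_le_sqrt, le_div_iff₀ hy0, one_mul]
      have g1 : √(y₀ i / df f₀) ≤ ∑ j, √(y₀ j / df f₀) :=
        Finset.single_le_sum (f := fun j => √(y₀ j / df f₀)) (fun j _ => Real.sqrt_nonneg _) (Finset.mem_univ i)
      have g2 : √(y₀ i / df f₀) ≤ r := by
        rw [hX₀] at hX
        linarith
      have g3 : y₀ i / df f₀ ≤ r ^ 2 := by
        have g4 := pow_le_pow_left₀ (Real.sqrt_nonneg _) g2 2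
        rwa [Real.sq_sqrt (by positivity)] at g4
      rwa [div_le_iff₀ hd] at g3
    have hr4 : 1 ≤ √(r ^ 2 * df f₀ / y₀ i) * (y₀ i) ^ 2 := by
      have hq : 0 < √(df f₀ / y₀ i) := Real.sqrt_pos.2 (by positivity)
      have g1 : (√(df f₀ / y₀ i) * (y₀ i) ^ 2)⁻¹ ≤ ∑ j, (√(df f₀ / y₀ j) * (y₀ j) ^ 2)⁻¹ :=
        Finset.single_le_sum (f := fun j => (√(df f₀ / y₀ j) * (y₀ j) ^ 2)⁻¹) (fun j _ => by positivity)
          (Finset.mem_univ i)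
      have g2 : (√(df f₀ / y₀ i) * (y₀ i) ^ 2)⁻¹ ≤ r := by
        rw [hX₀] at hX
        linarith
      have g3 : 1 ≤ r * (√(df f₀ / y₀ i) * (y₀ i) ^ 2) := by
        have g4 : 0 < √(df f₀ / y₀ i) * (y₀ i) ^ 2 := by positivity
        have g5 := mul_le_mul_of_nonneg_right g2 g4.le
        rwa [inv_mul_cancel₀ g4.ne'] at g5
      rw [mul_div_assoc, Real.sqrt_mul (sq_nonneg r), Real.sqrt_sq hr0.le, mul_assoc]
      exact g3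
    refine (fix38 D hκ hmom hY hs hh i hNn hX1 hr1 hr3 hr4).trans (ENNReal.ofReal_le_ofReal ?_)
    have g5 := num38 (N := ((2 ^ ν : ℕ) : ℝ)) hε hC₃ (show 0 ≤ 2 * ((⌈L⌉₊ + 1 : ℕ) : ℝ) by positivity) hd hy0 hX1
      (by exact_mod_cast hNn) (by push_cast; exact hν) hr1
    rw [← hE i] at g5
    refine g5.trans (le_of_eq ?_)
    rw [hZ]
    push_cast
    rfl
  -- exchange
  have hsw : ∫⁻ f in V, ∫⁻ r in Icc (X / 4) (8 * X), ENNReal.ofReal (m12 (sqa (2 ^ ν)) (fun k => ee (r * h (vf f k)))) =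
      ∫⁻ r in Icc (X / 4) (8 * X), ∫⁻ f in V, ENNReal.ofReal (m12 (sqa (2 ^ ν)) (fun k => ee (r * h (vf f k)))) := by
    refine lintegral_lintegral_swap ?_
    exact (ENNReal.measurable_ofReal.comp (G_cont38 hh.cont (sqa (2 ^ ν))).measurable).aemeasurable
  rw [hsw]
  refine (setLIntegral_mono' measurableSet_Icc hfix).trans ?_
  rw [setLIntegral_const, Real.volume_Icc, ← ENNReal.ofReal_mul (by positivity)]
  refine ENNReal.ofReal_le_ofReal ?_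
  have q1 : X ^ (ε / 2) * X ≤ X ^ (1 + ε) := by
    have q2 : X ^ (ε / 2) * X = X ^ (ε / 2 + 1) := by
      rw [Real.rpow_add hX0, Real.rpow_one]
    rw [q2]
    exact Real.rpow_le_rpow_of_exponent_le hX1 (by linarith)
  have q3 : Z * X ≤ X ^ (1 + ε) * FF ((2 : ℝ) ^ ν) X := by
    rw [hZ]
    calc X ^ (ε / 2) * FF ((2 : ℝ) ^ ν) X * X = X ^ (ε / 2) * X * FF ((2 : ℝ) ^ ν) X := by ring
      _ ≤ _ := mul_le_mul_of_nonneg_right q1 hBB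
  have q4 : 0 ≤ X ^ (1 + ε) * FF ((2 : ℝ) ^ ν) X := mul_nonneg (Real.rpow_nonneg hX0.le _) hBB
  have q5 : A * Z * (8 * X - X / 4) ≤ 8 * A * (Z * X) := by
    have : 0 ≤ A * Z * (X / 4) := by positivity
    nlinarith
  have q6 := mul_le_mul_of_nonneg_left q3 (show 0 ≤ 8 * A by positivity)
  calc A * Z * (8 * X - X / 4) ≤ 8 * A * (Z * X) := q5
    _ ≤ 8 * A * (X ^ (1 + ε) * FF ((2 : ℝ) ^ ν) X) := q6
    _ ≤ (8 * A + 1) * (X ^ (1 + ε) * FF ((2 : ℝ) ^ ν) X) := by linarith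
    _ = _ := by ring

private lemma FF_one38 {H G : ℝ} (hH : 1 ≤ H) (hG : 0 < G) : 1 ≤ FF H G := by
  unfold FF
  have h1 : 0 ≤ G ^ (-(5 / 3) : ℝ) := Real.rpow_nonneg hG.le _
  have h3 : 1 ≤ H ^ 12 := one_le_pow₀ hH
  have h4 : 0 ≤ H ^ 17 * G ^ (-(5 / 3) : ℝ) := by positivity
  linarith

private lemma sqa_card38 (N : ℕ) : ((sqa N).card : ℝ) ≤ (4 * N + 1) ^ 2 := by
  have h1 : (sqa N).card ≤ (box (2 * N)).card := by
    unfold sqa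
    exact Finset.card_filter_le _ _
  have h2 : (box (2 * N)).card = (4 * N + 1) ^ 2 := by
    unfold box
    rw [Finset.card_product, Int.card_Icc]
    have h3 : (((2 * N : ℕ) : ℤ) + 1 - -((2 * N : ℕ) : ℤ)).toNat = 4 * N + 1 := by omega
    rw [h3]
    ring
  rw [h2] at h1
  exact_mod_cast h1

private lemma small38 {c₁ B ε : ℝ} (hε : 0 < ε) {W : Set Fr} (hW : volume W ≠ ⊤) (X₀ : ℝ) : ∃ C : ℝ, 0 < C ∧
    ∀ h : ℝ × ℝ → ℝ, Hom c₁ B h → ∀ (X : ℝ) (ν : ℕ), 1 ≤ X → X ≤ X₀ → (2 : ℝ) ^ ν ≤ X →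
      ∫⁻ f in W, ∫⁻ r in Icc (X / 4) (8 * X), ENNReal.ofReal (m12 (sqa (2 ^ ν)) (fun k => ee (r * h (vf f k)))) ≤
        ENNReal.ofReal (C * X ^ (1 + ε) * FF ((2 : ℝ) ^ ν) X) := by
  obtain ⟨Q, hQ⟩ : ∃ Q : ℝ, Q = ((4 * |X₀| + 1) ^ 2) ^ 11 := ⟨_, rfl⟩
  have hQ0 : 0 ≤ Q := by
    rw [hQ]
    positivity
  obtain ⟨w, hw⟩ : ∃ w : ℝ, w = (volume W).toReal := ⟨_, rfl⟩
  have hw0 : 0 ≤ w := by
    rw [hw]
    exact ENNReal.toReal_nonneg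
  refine ⟨8 * Q * w + 1, by positivity, ?_⟩
  intro h hh X ν hX hXX hν
  have hX0 : 0 < X := by linarith
  have hN1 : (1 : ℝ) ≤ 2 ^ ν := one_le_pow₀ (by norm_num)
  have hm : ∀ (f : Fr) (r : ℝ), m12 (sqa (2 ^ ν)) (fun k => ee (r * h (vf f k))) ≤ Q := by
    intro f r
    refine (m12_le_card _ fun k _ => (ee_norm _).le).trans ?_
    rw [hQ]
    refine pow_le_pow_left₀ (by positivity) ((sqa_card38 _).trans ?_) 11
    push_cast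
    have h1 : (2 : ℝ) ^ ν ≤ |X₀| := (hν.trans hXX).trans (le_abs_self _)
    gcongr
  calc ∫⁻ f in W, ∫⁻ r in Icc (X / 4) (8 * X), ENNReal.ofReal (m12 (sqa (2 ^ ν)) (fun k => ee (r * h (vf f k))))
      ≤ ∫⁻ _f in W, ∫⁻ _r in Icc (X / 4) (8 * X), ENNReal.ofReal Q :=
        lintegral_mono fun f => lintegral_mono fun r => ENNReal.ofReal_le_ofReal (hm f r)
    _ = ENNReal.ofReal (Q * (8 * X - X / 4) * w) := by
        have hp : 0 ≤ Q * (8 * X - X / 4) := mul_nonneg hQ0 (by linarith)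
        rw [setLIntegral_const, setLIntegral_const, Real.volume_Icc, ← ENNReal.ofReal_mul hQ0,
          ENNReal.ofReal_mul (p := Q * (8 * X - X / 4)) hp, hw, ENNReal.ofReal_toReal hW]
    _ ≤ _ := by
        refine ENNReal.ofReal_le_ofReal ?_
        have hBB := FF_one38 (H := (2 : ℝ) ^ ν) (G := X) hN1 hX0
        have hXe : X ≤ X ^ (1 + ε) := by
          calc X = X ^ (1 : ℝ) := (Real.rpow_one X).symm
            _ ≤ _ := Real.rpow_le_rpow_of_exponent_le hX (by linarith)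
        have h1 : X ≤ X ^ (1 + ε) * FF ((2 : ℝ) ^ ν) X := by nlinarith
        have h2 : 0 ≤ Q * w := by positivity
        have h3 : 0 ≤ Q * w * X := by positivity
        have h4 : Q * (8 * X - X / 4) * w ≤ 8 * Q * w * X := by nlinarith
        have h5 := mul_le_mul_of_nonneg_left h1 (show 0 ≤ 8 * Q * w + 1 by positivity)
        calc Q * (8 * X - X / 4) * w ≤ 8 * Q * w * X := h4
          _ ≤ (8 * Q * w + 1) * X := by nlinarith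
          _ ≤ (8 * Q * w + 1) * (X ^ (1 + ε) * FF ((2 : ℝ) ^ ν) X) := h5
          _ = _ := by ring

private lemma loc38 {ε c₁ B : ℝ} (hM : MomS c₁ B) (hε : 0 < ε) (hε1 : ε ≤ 1) (hc : 0 < c₁) (hB : 1 ≤ B) {f₀ : Fr}
    (hf₀ : 0 < df f₀) : ∃ W ∈ 𝓝 f₀, ∃ C : ℝ, 0 < C ∧
    ∀ h : ℝ × ℝ → ℝ, Hom c₁ B h → ∀ (X : ℝ) (ν : ℕ), 1 ≤ X → (2 : ℝ) ^ ν ≤ X →
      ∫⁻ f in W, ∫⁻ r in Icc (X / 4) (8 * X), ENNReal.ofReal (m12 (sqa (2 ^ ν)) (fun k => ee (r * h (vf f k)))) ≤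
        ENNReal.ofReal (C * X ^ (1 + ε) * FF ((2 : ℝ) ^ ν) X) := by
  have hk : 0 < k₀ c₁ B := by
    unfold k₀
    positivity
  obtain ⟨V, L, m, n, S, y₀, α, hV, hfV, hL, hpar, hex, hun, hloc⟩ := cover hf₀ (κ₁ := k₀ c₁ B / 3) (by positivity)
  have D : Cov38 (k₀ c₁ B / 3) f₀ V L m n S y₀ α := ⟨hV, hL, hf₀, hpar, hex, hun, hloc⟩
  obtain ⟨Y, hY0, hY⟩ : ∃ Y : ℝ, 0 < Y ∧ ∀ i, y₀ i ≤ Y := by
    refine ⟨1 + ∑ i, y₀ i, ?_, fun i => ?_⟩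
    · have : 0 ≤ ∑ i, y₀ i := Finset.sum_nonneg fun i _ => (hpar i).2.2.2.1.le
      linarith
    · have := Finset.single_le_sum (f := y₀) (fun j _ => (hpar j).2.2.2.1.le) (Finset.mem_univ i)
      linarith
  obtain ⟨s₀, hs0, hs⟩ : ∃ s₀ : ℝ, 0 < s₀ ∧ ∀ i, s₀ ≤ S i := by
    have h0 : 0 ≤ ∑ i, (S i)⁻¹ := Finset.sum_nonneg fun i _ => inv_nonneg.2 (hpar i).2.1.le
    refine ⟨(1 + ∑ i, (S i)⁻¹)⁻¹, inv_pos.2 (by linarith), fun i => ?_⟩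
    have h1 := Finset.single_le_sum (f := fun j => (S j)⁻¹) (fun j _ => inv_nonneg.2 (hpar j).2.1.le)
      (Finset.mem_univ i)
    rw [inv_le_comm₀ (by linarith) (hpar i).2.1]
    linarith
  obtain ⟨C₃, hC₃, hmom⟩ := hM (ε / 4) (32 * L ^ 2) 2 Y s₀ (by positivity) (by linarith) (by nlinarith)
    (by norm_num) hY0 hs0
  obtain ⟨C₁, X₀, hC₁, hX₀, hlarge⟩ := large38 hε (by linarith) D (by linarith) hmom hY hs
  obtain ⟨C₂, hC₂, hsmall⟩ := small38 (c₁ := c₁) (B := B) hε (W := V ∩ Metric.ball f₀ 1)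
    ((measure_mono Set.inter_subset_right).trans_lt Metric.isBounded_ball.measure_lt_top).ne X₀
  refine ⟨V ∩ Metric.ball f₀ 1, Filter.inter_mem (hV.mem_nhds hfV) (Metric.ball_mem_nhds _ one_pos), C₁ + C₂,
    by positivity, ?_⟩
  intro h hh X ν hX hν
  have hX0 : 0 < X := by linarith
  have hZ0 : 0 ≤ X ^ (1 + ε) * FF ((2 : ℝ) ^ ν) X :=
    mul_nonneg (Real.rpow_nonneg hX0.le _) (FF_nonneg38 (by positivity) (by positivity))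
  rcases le_total X X₀ with hXX | hXX
  · refine (hsmall h hh X ν hX hXX hν).trans (ENNReal.ofReal_le_ofReal ?_)
    rw [mul_assoc, mul_assoc]
    exact mul_le_mul_of_nonneg_right (by linarith) hZ0
  · refine ((lintegral_mono_set Set.inter_subset_left).trans (hlarge h hh X ν hXX hν)).trans
      (ENNReal.ofReal_le_ofReal ?_)
    rw [mul_assoc, mul_assoc]
    exact mul_le_mul_of_nonneg_right (by linarith) hZ0

private lemma cpt38 {ε c₁ B : ℝ} (hM : MomS c₁ B) (hε : 0 < ε) (hc : 0 < c₁) (hB : 1 ≤ B) {U : Set Fr} (hU : IsCompact U) (hU0 : ∀ f ∈ U, 0 < df f) :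
    ∃ C : ℝ, 0 < C ∧ ∀ h : ℝ × ℝ → ℝ, Hom c₁ B h → ∀ (X : ℝ) (n : ℕ), 1 ≤ X → (2 : ℝ) ^ n ≤ X →
      ∫⁻ f in U, ∫⁻ r in Icc (X / 4) (8 * X), ENNReal.ofReal (m12 (sqa (2 ^ n)) (fun k => ee (r * h (vf f k)))) ≤
        ENNReal.ofReal (C * X ^ (1 + ε) * FF ((2 : ℝ) ^ n) X) := by
  refine hU.induction_on (p := fun U => ∃ C : ℝ, 0 < C ∧ ∀ h : ℝ × ℝ → ℝ, Hom c₁ B h → ∀ (X : ℝ) (n : ℕ), 1 ≤ X → (2 : ℝ) ^ n ≤ X →
      ∫⁻ f in U, ∫⁻ r in Icc (X / 4) (8 * X), ENNReal.ofReal (m12 (sqa (2 ^ n)) (fun k => ee (r * h (vf f k)))) ≤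
        ENNReal.ofReal (C * X ^ (1 + ε) * FF ((2 : ℝ) ^ n) X)) ?_ ?_ ?_ ?_
  · refine ⟨1, one_pos, fun h hh X n hX hn => ?_⟩
    simp
  · rintro s t hst ⟨C, hC, h1⟩
    exact ⟨C, hC, fun h hh X n hX hn => (lintegral_mono_set hst).trans (h1 h hh X n hX hn)⟩
  · rintro s t ⟨C, hC, h1⟩ ⟨C', hC', h2⟩
    refine ⟨C + C', by positivity, fun h hh X n hX hn => ?_⟩
    have hX0 : 0 < X := by linarith
    have hZ0 : 0 ≤ X ^ (1 + ε) * FF ((2 : ℝ) ^ n) X :=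
      mul_nonneg (Real.rpow_nonneg hX0.le _) (FF_nonneg38 (by positivity) (by positivity))
    refine (lintegral_union_le _ _ _).trans ((add_le_add (h1 h hh X n hX hn) (h2 h hh X n hX hn)).trans ?_)
    rw [← ENNReal.ofReal_add (by rw [mul_assoc]; positivity) (by rw [mul_assoc]; positivity)]
    refine ENNReal.ofReal_le_ofReal (le_of_eq ?_)
    ring
  · intro f hf
    obtain ⟨W, hW, C, hC, h1⟩ := loc38 (ε := min ε 1) hM (lt_min hε one_pos) (min_le_right _ _) hc hB (hU0 f hf)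
    refine ⟨W, mem_nhdsWithin_of_mem_nhds hW, C, hC, fun h hh X n hX hn => ?_⟩
    refine (h1 h hh X n hX hn).trans (ENNReal.ofReal_le_ofReal ?_)
    have hX0 : 0 < X := by linarith
    have h2 : X ^ (1 + min ε 1) ≤ X ^ (1 + ε) :=
      Real.rpow_le_rpow_of_exponent_le hX (by have := min_le_left ε 1; linarith)
    have h3 : 0 ≤ FF ((2 : ℝ) ^ n) X := FF_nonneg38 (by positivity) (by positivity)
    exact mul_le_mul_of_nonneg_right (mul_le_mul_of_nonneg_left h2 hC.le) h3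

private lemma bochner38 {F : Fr → ℝ → ℝ} (hF : Continuous (fun q : Fr × ℝ => F q.1 q.2)) (h0 : ∀ f r, 0 ≤ F f r) (U : Set Fr)
    (a b Z : ℝ) (hZ : 0 ≤ Z) (h : ∫⁻ f in U, ∫⁻ r in Icc a b, ENNReal.ofReal (F f r) ≤ ENNReal.ofReal Z) :
    ∫ f in U, ∫ r in Icc a b, F f r ≤ Z := by
  have hin : Continuous (fun f : Fr => ∫ r in Icc a b, F f r) :=
    continuous_parametric_integral_of_continuous hF isCompact_Icc
  have h2 : ∀ f : Fr, ENNReal.ofReal (∫ r in Icc a b, F f r) = ∫⁻ r in Icc a b, ENNReal.ofReal (F f r) := by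
    intro f
    have hcr : Continuous (fun r : ℝ => F f r) := hF.comp (Continuous.prodMk continuous_const continuous_id)
    exact ofReal_integral_eq_lintegral_ofReal (hcr.continuousOn.integrableOn_compact isCompact_Icc)
      (Eventually.of_forall fun r => h0 f r)
  rw [integral_eq_lintegral_of_nonneg_ae (Eventually.of_forall fun f =>
    setIntegral_nonneg measurableSet_Icc fun r _ => h0 f r) hin.aestronglyMeasurable]
  refine ENNReal.toReal_le_of_le_ofReal hZ ?_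
  rw [lintegral_congr fun f => h2 f]
  exact h

theorem momF12 {c₁ B : ℝ} (hc : 0 < c₁) (hc1 : c₁ ≤ 1) (hB : 1 ≤ B) (h : MomS c₁ B) {ν₂ ν₃ : ℝ} (h3 : ν₃ ≤ 1) :
    Pool.Agent.Helper75.TW.MomF Pool.Agent.Helper92.LA.JJ Pool.Agent.Helper75.TW.F12 (Hom c₁ B) ν₂ ν₃ := by
  intro ε hε U hU hU0
  obtain ⟨C, hC, h1⟩ := cpt38 h hε hc hB hU hU0
  refine ⟨C, fun φ hh X hX n _ hn => ?_⟩
  have hX0 : 0 < X := by linarith
  have hnX : (2 : ℝ) ^ n ≤ X := by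
    refine hn.trans ?_
    calc X ^ ν₃ ≤ X ^ (1 : ℝ) := Real.rpow_le_rpow_of_exponent_le hX h3
      _ = X := Real.rpow_one X
  have hZ0 : 0 ≤ C * X ^ (1 + ε) * FF ((2 : ℝ) ^ n) X :=
    mul_nonneg (mul_nonneg hC.le (Real.rpow_nonneg hX0.le _)) (FF_nonneg38 (by positivity) hX0.le)
  have h2 := bochner38 (F := fun f r => m12 (sqa (2 ^ n)) (fun k => ee (r * φ (vf f k)))) (G_cont38 hh.cont (sqa (2 ^ n)))
    (fun f r => m12_nonneg38 _ _) U _ _ _ hZ0 (h1 φ hh X n hX hnX)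
  have e : C * X ^ (1 + ε) * FF ((2 : ℝ) ^ n) X = C * (X ^ ε * Pool.Agent.Helper75.TW.F12 X (2 ^ n)) := by
    unfold FF Pool.Agent.Helper75.TW.F12
    rw [Real.rpow_add hX0, Real.rpow_one]
    ring
  rw [← e]
  exact h2

end Pool.Agent.Helper86.LK
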