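import Pool.Agent.Helper86.LK.Defs
import Pool.Agent.Helper60.LT.A5
import Pool.Agent.Helper72.VC.Test

/-!
# LK-V: the second derivative test on a state

`T' = Tf f * yf f ^ 2`, `H = K / Tf f`.
-/

open MeasureTheory Real Set Filter Topology

set_option autoImplicit false

namespace Pool.Agent.Helper86.LK

open Pool.Agent.Helper22.AE
open Pool.Agent.Helper92.GC (dt tp Tq uu tt)
open Pool.Agent.Helper92.DT (m12)
open Pool.Agent.Helper60.LT

private theorem int63 {E : Type} [NormedAddCommGroup E] {f : ℝ × ℝ → E} (hf : Continuous f) :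
    Integrable f (volume.restrict Tq) := by
  have h1 : IsCompact Tq := isCompact_Icc.prod isCompact_Icc
  exact hf.continuousOn.integrableOn_compact h1

private theorem dtc63 (k : ℤ × ℤ) : Continuous (fun c : ℝ × ℝ => ee (dt k c)) := by
  refine ee_cont.comp ?_
  unfold dt
  fun_prop

private theorem tq63 : IsProbabilityMeasure ((volume : Measure (ℝ × ℝ)).restrict Tq) := by
  constructor
  unfold Tq
  rw [Measure.restrict_apply_univ, Measure.volume_eq_prod, Measure.prod_prod, Real.volume_Icc,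
    sub_zero, ENNReal.ofReal_one, mul_one]

private theorem l2_63 (S : Finset (ℤ × ℤ)) (b : ℤ × ℤ → ℂ) :
    ∫ c in Tq, ‖tp S b c‖ ^ 2 = ∑ k ∈ S, ‖b k‖ ^ 2 := by
  have := tq63
  have hE : ∀ (z : ℂ) (k : ℤ × ℤ), Integrable (fun c => z * ee (dt k c)) (volume.restrict Tq) :=
    fun z k => int63 (continuous_const.mul (dtc63 k))
  have hneg : ∀ (k : ℤ × ℤ) (c : ℝ × ℝ), dt (-k) c = -dt k c := by
    intro k c
    unfold dt
    rw [Prod.fst_neg, Prod.snd_neg]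
    push_cast
    ring
  have e1 : ∀ c, (((‖tp S b c‖ ^ 2 : ℝ)) : ℂ) =
      ∑ k ∈ S, ∑ k' ∈ S, (b k * (starRingEnd ℂ) (b k')) * ee (dt (k - k') c) := by
    intro c
    rw [← Complex.normSq_eq_norm_sq, ← Complex.mul_conj]
    unfold tp
    rw [map_sum, Finset.sum_mul_sum]
    refine Finset.sum_congr rfl fun k _ => Finset.sum_congr rfl fun k' _ => ?_
    rw [map_mul, sub_eq_add_neg, Pool.Agent.Helper92.GC.dt_add, hneg, ee_add, ee_neg]
    ring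
  have e2 : ((∫ c in Tq, ‖tp S b c‖ ^ 2 : ℝ) : ℂ) = ((∑ k ∈ S, ‖b k‖ ^ 2 : ℝ) : ℂ) := by
    have e0 : ((∫ c in Tq, ‖tp S b c‖ ^ 2 : ℝ) : ℂ) = ∫ c in Tq, ((‖tp S b c‖ ^ 2 : ℝ) : ℂ) :=
      integral_complex_ofReal.symm
    have e3 : ∫ c in Tq, ((‖tp S b c‖ ^ 2 : ℝ) : ℂ) = ∫ c in Tq, (∑ k ∈ S, ∑ k' ∈ S,
        (b k * (starRingEnd ℂ) (b k')) * ee (dt (k - k') c)) :=
      integral_congr_ae (Filter.Eventually.of_forall fun q => e1 q)
    refine e0.trans (e3.trans ?_)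
    rw [integral_finsetSum]
    · rw [Complex.ofReal_sum]
      refine Finset.sum_congr rfl fun k hk => ?_
      rw [integral_finsetSum]
      · rw [Finset.sum_eq_single_of_mem k hk]
        · rw [integral_const_mul, Pool.Agent.Helper92.GC.ee_int, sub_self, if_pos rfl, mul_one, Complex.mul_conj,
            Complex.normSq_eq_norm_sq]
        · intro k' _ hne
          rw [integral_const_mul, Pool.Agent.Helper92.GC.ee_int, if_neg (sub_ne_zero.2 (Ne.symm hne)), mul_zero]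
      · intro k' _
        exact hE _ _
    · intro k _
      exact integrable_finsetSum _ fun k' _ => hE _ _
  exact_mod_cast e2

/-- sup and Parseval -/
private theorem m12_sup63 (S : Finset (ℤ × ℤ)) {a : ℤ × ℤ → ℂ} (ha : ∀ k ∈ S, ‖a k‖ ≤ 1) {M : ℝ} (hM : ∀ c, ‖tp S a c‖ ≤ M) :
    m12 S a ≤ M ^ 10 * S.card := by
  have h1 : ∫ c in Tq, ‖tp S a c‖ ^ 2 ≤ (S.card : ℝ) := by
    rw [l2_63]
    refine (Finset.sum_le_card_nsmul _ _ 1 fun k hk => ?_).trans (by simp)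
    exact pow_le_one₀ (norm_nonneg _) (ha k hk)
  have hint : Integrable (fun c => ‖tp S a c‖ ^ 2) (volume.restrict Tq) :=
    int63 ((Pool.Agent.Helper92.GC.tp_cont S a).norm.pow 2)
  unfold m12
  have h3 : ∫ c in Tq, ‖tp S a c‖ ^ 12 ≤ ∫ c in Tq, M ^ 10 * ‖tp S a c‖ ^ 2 := by
    refine integral_mono_of_nonneg (Filter.Eventually.of_forall fun q => by positivity)
      (hint.const_mul _) (Filter.Eventually.of_forall fun c => ?_)
    have h4 : ‖tp S a c‖ ^ 12 = ‖tp S a c‖ ^ 10 * ‖tp S a c‖ ^ 2 := by ring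
    change ‖tp S a c‖ ^ 12 ≤ _
    rw [h4]
    exact mul_le_mul_of_nonneg_right (pow_le_pow_left₀ (norm_nonneg _) (hM c) 10) (by positivity)
  rw [integral_const_mul] at h3
  refine h3.trans ?_
  have hM0 : 0 ≤ M := (norm_nonneg _).trans (hM 0)
  exact mul_le_mul_of_nonneg_left h1 (by positivity)

/-- the derivatives of `u ↦ T u p(y j / u) + c u + d` -/
private theorem tow63 {c₁ B : ℝ} {p : ℝ → ℝ} (hp : Cv c₁ B p) (hc : 0 < c₁) {T y j c d u₀ N U lo : ℝ} (hT : 0 < T) (hy : 0 < y)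
    (hj : j ≠ 0) (hlo : 0 < lo) (h0 : lo ≤ u₀) (hU : u₀ + N ≤ U) (hτ : y * |j| ≤ lo) {lam h : ℝ} (hl : lam = c₁ * (T * y ^ 2 * j ^ 2) / U ^ 3)
    (hh : B * (T * y ^ 2 * j ^ 2) / lo ^ 3 ≤ h * lam) :
    Pool.Agent.Helper72.VC.Tow 2 (fun i n => if i = 0 then T * ((u₀ + n) * p (y * (j / (u₀ + n)))) + (c * (u₀ + n) + d)
      else if i = 1 then T * (p (y * (j / (u₀ + n))) - y * (j / (u₀ + n)) * deriv p (y * (j / (u₀ + n)))) + c
      else T * (y ^ 2 * j ^ 2 / (u₀ + n) ^ 3 * deriv (deriv p) (y * (j / (u₀ + n))))) N lam h := by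
  have hd1 : ∀ τ, HasDerivAt p (deriv p τ) τ := fun τ =>
    (hp.sm.differentiable (by norm_num)).differentiableAt.hasDerivAt
  have hd2 : ∀ τ, HasDerivAt (deriv p) (deriv (deriv p) τ) τ := fun τ => by
    have h1 : ContDiff ℝ 3 (deriv p) := hp.sm.iterate_deriv' 3 1
    exact (h1.differentiable (by norm_num)).differentiableAt.hasDerivAt
  have hu : ∀ n ∈ Icc (0:ℝ) N, lo ≤ u₀ + n ∧ u₀ + n ≤ U := fun n hn => ⟨by linarith [hn.1], by linarith [hn.2]⟩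
  have htau : ∀ n ∈ Icc (0:ℝ) N, HasDerivAt (fun n => y * (j / (u₀ + n))) (-(y * j / (u₀ + n) ^ 2)) n := by
    intro n hn
    have h1 : u₀ + n ≠ 0 := by
      have := (hu n hn).1
      linarith
    have h2 : HasDerivAt (fun n => u₀ + n) 1 n := (hasDerivAt_id n).const_add u₀
    have h3 := ((hasDerivAt_const n j).div h2 h1).const_mul y
    refine h3.congr_deriv ?_
    field_simp
    ring
  have hab : ∀ n ∈ Icc (0:ℝ) N, |y * (j / (u₀ + n))| ≤ 1 := by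
    intro n hn
    have h1 := (hu n hn).1
    have h2 : 0 < u₀ + n := by linarith
    rw [abs_mul, abs_div, abs_of_pos hy, abs_of_pos h2, ← mul_div_assoc, div_le_one h2]
    linarith
  refine ⟨fun i hi n hn => ?_, fun n hn => ?_, fun n hn => ?_⟩
  · have h1 : 0 < u₀ + n := by have := (hu n hn).1; linarith
    have h2 : HasDerivAt (fun n => u₀ + n) 1 n := (hasDerivAt_id n).const_add u₀
    have h3 := htau n hn
    rcases (by omega : i = 0 ∨ i = 1) with rfl | rfl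
    · have h4 : HasDerivAt (fun n => p (y * (j / (u₀ + n)))) (deriv p (y * (j / (u₀ + n))) * -(y * j / (u₀ + n) ^ 2)) n :=
        (hd1 (y * (j / (u₀ + n)))).comp n h3
      have h5 := ((h2.mul h4).const_mul T).add ((h2.const_mul c).add_const d)
      refine h5.congr_deriv ?_
      show _ = T * (p (y * (j / (u₀ + n))) - y * (j / (u₀ + n)) * deriv p (y * (j / (u₀ + n)))) + c
      field_simp
      ring
    · have h4 : HasDerivAt (fun n => p (y * (j / (u₀ + n)))) (deriv p (y * (j / (u₀ + n))) * -(y * j / (u₀ + n) ^ 2)) n :=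
        (hd1 (y * (j / (u₀ + n)))).comp n h3
      have h5 : HasDerivAt (fun n => deriv p (y * (j / (u₀ + n)))) (deriv (deriv p) (y * (j / (u₀ + n))) * -(y * j / (u₀ + n) ^ 2)) n :=
        HasDerivAt.comp (h₂ := deriv p) (h := fun n => y * (j / (u₀ + n))) n (hd2 (y * (j / (u₀ + n)))) h3
      have h6 := ((h4.sub (h3.mul h5)).const_mul T).add_const c
      refine h6.congr_deriv ?_
      show _ = T * (y ^ 2 * j ^ 2 / (u₀ + n) ^ 3 * deriv (deriv p) (y * (j / (u₀ + n))))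
      field_simp
      ring
  · simp only [OfNat.ofNat_ne_zero, if_false, OfNat.ofNat_ne_one]
    have h1 := hu n hn
    have h2 : 0 < u₀ + n := by linarith
    have h3 := hp.lo _ (hab n hn)
    rw [hl]
    have h4 : c₁ * (T * y ^ 2 * j ^ 2) / U ^ 3 ≤ c₁ * (T * y ^ 2 * j ^ 2) / (u₀ + n) ^ 3 := by
      refine div_le_div_of_nonneg_left (by positivity) (by positivity) (pow_le_pow_left₀ h2.le h1.2 3)
    refine h4.trans ?_
    have h5 : c₁ * (T * y ^ 2 * j ^ 2) / (u₀ + n) ^ 3 = T * (y ^ 2 * j ^ 2 / (u₀ + n) ^ 3 * c₁) := by ring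
    rw [h5]
    refine mul_le_mul_of_nonneg_left (mul_le_mul_of_nonneg_left h3 (by positivity)) hT.le
  · simp only [OfNat.ofNat_ne_zero, if_false, OfNat.ofNat_ne_one]
    have h1 := hu n hn
    have h2 : 0 < u₀ + n := by linarith
    have h3 := (le_abs_self _).trans (hp.d2 _ (hab n hn))
    refine le_trans ?_ hh
    have hB : 0 ≤ B := (abs_nonneg _).trans (hp.d2 _ (hab n hn))
    have h4 : B * (T * y ^ 2 * j ^ 2) / (u₀ + n) ^ 3 ≤ B * (T * y ^ 2 * j ^ 2) / lo ^ 3 := by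
      refine div_le_div_of_nonneg_left (by positivity) (by positivity) (pow_le_pow_left₀ hlo.le h1.1 3)
    refine le_trans ?_ h4
    have h5 : B * (T * y ^ 2 * j ^ 2) / (u₀ + n) ^ 3 = T * (y ^ 2 * j ^ 2 / (u₀ + n) ^ 3 * B) := by ring
    rw [h5]
    refine mul_le_mul_of_nonneg_left (mul_le_mul_of_nonneg_left h3 (by positivity)) hT.le


private theorem k0_le63 {c₁ B : ℝ} (hc : 0 < c₁) (hc1 : c₁ ≤ 1) (hB : 1 ≤ B) : k₀ c₁ B ≤ 1 := by
  unfold k₀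
  rw [div_le_one (by positivity)]
  nlinarith

/-- the row `k₂ = j` of a state is an interval -/
private theorem row63 {L S K T x : ℝ} (hT : 0 < T) (hL : 0 < L) (hK : 0 < K) (hS : 0 ≤ S) (j : ℤ)
    (hne : ((st L S K T x).filter (fun k => k.2 = j)).Nonempty) : ∃ (A : ℤ) (N : ℕ),
    (st L S K T x).filter (fun k => k.2 = j) = (Finset.range (N + 1)).image (fun n : ℕ => (A + n, j)) ∧
    K ≤ L * (T * ((A : ℝ) + x * j)) ∧ T * ((A : ℝ) + x * j + N) ≤ L * K ∧ |(j : ℝ)| ≤ S * ((A : ℝ) + x * j) := by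
  classical
  obtain ⟨F, hF⟩ : ∃ F, F = ((st L S K T x).filter (fun k => k.2 = j)).image Prod.fst := ⟨_, rfl⟩
  have hFne : F.Nonempty := by rw [hF]; exact hne.image _
  have hmem : ∀ i : ℤ, i ∈ F ↔ K ≤ L * (T * ((i : ℝ) + x * j)) ∧ T * ((i : ℝ) + x * j) ≤ L * K ∧ |(j : ℝ)| ≤ S * ((i : ℝ) + x * j) := by
    intro i
    rw [hF, Finset.mem_image]
    constructor
    · rintro ⟨k, hk, rfl⟩
      rw [Finset.mem_filter, mem_st hT hL hK hS] at hk
      obtain ⟨h, h'⟩ := hk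
      unfold uu at h
      rw [h'] at h
      exact h
    · intro h
      refine ⟨(i, j), ?_, rfl⟩
      rw [Finset.mem_filter, mem_st hT hL hK hS]
      exact ⟨h, rfl⟩
  have hA := (hmem _).1 (F.min'_mem hFne)
  have hB := (hmem _).1 (F.max'_mem hFne)
  have hle : F.min' hFne ≤ F.max' hFne := F.min'_le _ (F.max'_mem hFne)
  obtain ⟨N, hN⟩ := Int.eq_ofNat_of_zero_le (sub_nonneg.2 hle)
  refine ⟨F.min' hFne, N, ?_, hA.1, ?_, hA.2.2⟩
  · ext k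
    rw [Finset.mem_image]
    constructor
    · intro hk
      have hk' : k.1 ∈ F := by rw [hF]; exact Finset.mem_image_of_mem _ hk
      have h1 := F.min'_le _ hk'
      have h2 := F.le_max' _ hk'
      obtain ⟨n, hn⟩ := Int.eq_ofNat_of_zero_le (sub_nonneg.2 h1)
      refine ⟨n, ?_, ?_⟩
      · rw [Finset.mem_range]
        omega
      · rw [← hn]
        refine Prod.ext ?_ ?_
        · simp
        · exact (Finset.mem_filter.1 hk).2.symm
    · rintro ⟨n, hn, rfl⟩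
      rw [Finset.mem_range] at hn
      rw [Finset.mem_filter, mem_st hT hL hK hS]
      refine ⟨?_, rfl⟩
      have h1 : ((F.min' hFne : ℤ) : ℝ) ≤ ((F.min' hFne + (n : ℤ) : ℤ) : ℝ) := by
        push_cast
        linarith [(Nat.cast_nonneg n : (0:ℝ) ≤ n)]
      have h2 : ((F.min' hFne + (n : ℤ) : ℤ) : ℝ) ≤ ((F.max' hFne : ℤ) : ℝ) := by
        have : F.min' hFne + (n : ℤ) ≤ F.max' hFne := by omega
        exact_mod_cast this
      unfold uu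
      simp only
      refine ⟨hA.1.trans ?_, le_trans ?_ hB.2.1, hA.2.2.trans ?_⟩
      · gcongr
      · gcongr
      · gcongr
  · have : ((F.max' hFne : ℤ) : ℝ) = ((F.min' hFne : ℤ) : ℝ) + N := by
      have : F.max' hFne = F.min' hFne + (N : ℤ) := by omega
      rw [this]
      push_cast
      ring
    have h3 := hB.2.1
    rw [this] at h3
    linarith

/-- the sum over a row -/
private theorem rowsum63 {c₁ B L : ℝ} (hc : 0 < c₁) (hc1 : c₁ ≤ 1) (hB : 1 ≤ B) (hL : 1 ≤ L) {p : ℝ → ℝ} (hp : Cv c₁ B p)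
    {S K T x y : ℝ} (hT : 0 < T) (hy : 0 < y) (hS : 0 ≤ S) (hyS : y * S ≤ k₀ c₁ B) (hTK : T ≤ K) {j : ℤ} (hj : j ≠ 0)
    {s q : ℝ} (hs : 0 < s) (hs2 : s ^ 2 = T * y ^ 2) (hq : 0 < q) (hq2 : q ^ 2 = K / T) (c : ℝ × ℝ) :
    ‖∑ k ∈ (st L S K T x).filter (fun k => k.2 = j), ee (T * pf p x y k) * ee (dt k c)‖ ≤
      ((5 * (B / c₁ * L ^ 6) + 10) * (L ^ 2 / c₁) + 1) * (s * |(j : ℝ)| / q + q ^ 3 / (s * |(j : ℝ)|)) := by
  have hK : 0 < K := hT.trans_le hTK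
  have hL0 : 0 < L := by linarith
  have hH1 : 1 ≤ q ^ 2 := by rw [hq2, le_div_iff₀ hT]; linarith
  have hj0 : (j : ℝ) ≠ 0 := by exact_mod_cast hj
  have hja : 0 < |(j : ℝ)| := abs_pos.2 hj0
  have hX : 0 < s * |(j : ℝ)| / q := by positivity
  have hY : 0 < q ^ 3 / (s * |(j : ℝ)|) := by positivity
  have hXY : 1 ≤ s * |(j : ℝ)| / q + q ^ 3 / (s * |(j : ℝ)|) := by
    have h1 : s * |(j : ℝ)| / q * (q ^ 3 / (s * |(j : ℝ)|)) = q ^ 2 := by
      field_simp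
    nlinarith [sq_nonneg (s * |(j : ℝ)| / q - q ^ 3 / (s * |(j : ℝ)|))]
  have hh0 : 0 ≤ B / c₁ * L ^ 6 := by positivity
  rcases Finset.eq_empty_or_nonempty ((st L S K T x).filter (fun k => k.2 = j)) with he | hne
  · rw [he, Finset.sum_empty, norm_zero]
    positivity
  obtain ⟨A, N, hrow, h1, h2, h3⟩ := row63 (x := x) hT hL0 hK hS j hne
  obtain ⟨u₀, hu₀⟩ : ∃ u₀ : ℝ, u₀ = (A : ℝ) + x * j := ⟨_, rfl⟩
  rw [← hu₀] at h1 h2 h3
  have hu0 : 0 < u₀ := by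
    have : 0 < L * (T * u₀) := hK.trans_le h1
    exact pos_of_mul_pos_right (pos_of_mul_pos_right this hL0.le) hT.le
  have hτ : y * |(j : ℝ)| ≤ u₀ := by
    have h4 : y * |(j : ℝ)| ≤ y * (S * u₀) := mul_le_mul_of_nonneg_left h3 hy.le
    have h5 : y * (S * u₀) ≤ 1 * u₀ := by
      rw [← mul_assoc]
      exact mul_le_mul_of_nonneg_right (hyS.trans (k0_le63 hc hc1 hB)) hu0.le
    linarith
  have hU : u₀ + N ≤ L * q ^ 2 := by
    rw [hq2, ← mul_div_assoc, le_div_iff₀ hT]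
    linarith
  have hlo : q ^ 2 / L ≤ u₀ := by
    rw [hq2, div_div, div_le_iff₀ (by positivity)]
    linarith
  obtain ⟨lam, hlam⟩ : ∃ lam, lam = c₁ * (T * y ^ 2 * (j : ℝ) ^ 2) / (L * q ^ 2) ^ 3 := ⟨_, rfl⟩
  have hlam0 : 0 < lam := by rw [hlam]; positivity
  have hj2 : |(j : ℝ)| ^ 2 = (j : ℝ) ^ 2 := sq_abs _
  have hT' := tow63 (c := c.1) (d := (j : ℝ) * c.2 - x * j * c.1) hp hc hT hy hj0 hu0 le_rfl hU hτ hlam
    (h := B / c₁ * L ^ 6) (by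
      rw [hlam]
      have e1 : B / c₁ * L ^ 6 * (c₁ * (T * y ^ 2 * (j : ℝ) ^ 2) / (L * q ^ 2) ^ 3) = B * (T * y ^ 2 * (j : ℝ) ^ 2) / (q ^ 2 / L) ^ 3 := by
        field_simp
      rw [e1]
      exact div_le_div_of_nonneg_left (by positivity) (by positivity) (pow_le_pow_left₀ (by positivity) hlo 3))
  have htest := Pool.Agent.Helper72.VC.test2 hh0 hlam0 hT'
  rw [← sqrt_eq_rpow, rpow_neg hlam0.le, ← sqrt_eq_rpow] at htest
  -- the size of `√lam`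
  have r1 : √lam ≤ s * |(j : ℝ)| / q ^ 3 := by
    rw [sqrt_le_left (by positivity), hlam, div_pow (s * _), mul_pow s, hs2, hj2]
    rw [div_le_div_iff₀ (by positivity) (by positivity)]
    have e1 : (L * q ^ 2) ^ 3 = L ^ 3 * (q ^ 3) ^ 2 := by ring
    rw [e1]
    have e2 : 1 ≤ L ^ 3 := one_le_pow₀ hL
    have e3 : 0 ≤ T * y ^ 2 * (j : ℝ) ^ 2 * (q ^ 3) ^ 2 := by positivity
    nlinarith
  have r2 : c₁ / L ^ 2 * (s * |(j : ℝ)| / q ^ 3) ≤ √lam := by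
    apply le_sqrt_of_sq_le
    rw [hlam, mul_pow, div_pow (s * _), mul_pow s, hs2, hj2]
    have e1 : (L * q ^ 2) ^ 3 = L ^ 3 * (q ^ 3) ^ 2 := by ring
    rw [e1]
    have e2 : c₁ * (T * y ^ 2 * (j : ℝ) ^ 2) / (L ^ 3 * (q ^ 3) ^ 2) = c₁ / L ^ 3 * (T * y ^ 2 * (j : ℝ) ^ 2 / (q ^ 3) ^ 2) := by
      field_simp
    rw [e2]
    refine mul_le_mul_of_nonneg_right ?_ (by positivity)
    rw [div_pow, div_le_div_iff₀ (by positivity) (by positivity)]
    have e3 : (L ^ 2) ^ 2 = L ^ 3 * L := by ring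
    rw [e3]
    have e4 : 0 < L ^ 3 := by positivity
    have e5 : c₁ ^ 2 * L ^ 3 ≤ c₁ * L ^ 3 := mul_le_mul_of_nonneg_right (by nlinarith) e4.le
    have e6 : c₁ * L ^ 3 * 1 ≤ c₁ * L ^ 3 * L := mul_le_mul_of_nonneg_left hL (by positivity)
    linarith
  have hNU : (N : ℝ) ≤ L * q ^ 2 := by linarith
  have b1 : (N : ℝ) * √lam ≤ L * (s * |(j : ℝ)| / q) := by
    calc (N : ℝ) * √lam ≤ (L * q ^ 2) * (s * |(j : ℝ)| / q ^ 3) := mul_le_mul hNU r1 (sqrt_nonneg _) (by positivity)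
      _ = L * (s * |(j : ℝ)| / q) := by field_simp
  have b2 : (√lam)⁻¹ ≤ L ^ 2 / c₁ * (q ^ 3 / (s * |(j : ℝ)|)) := by
    have e1 : L ^ 2 / c₁ * (q ^ 3 / (s * |(j : ℝ)|)) = (c₁ / L ^ 2 * (s * |(j : ℝ)| / q ^ 3))⁻¹ := by
      field_simp
    rw [e1]
    exact inv_anti₀ (by positivity) r2
  -- the sum
  have hsum : ∑ k ∈ (st L S K T x).filter (fun k => k.2 = j), ee (T * pf p x y k) * ee (dt k c) =
      ∑ n ∈ Finset.range (N + 1), ee (T * ((u₀ + n) * p (y * (j / (u₀ + n)))) + (c.1 * (u₀ + n) + ((j : ℝ) * c.2 - x * j * c.1))) := by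
    rw [hrow, Finset.sum_image (fun a _ b _ h => by
      simp only [Prod.mk.injEq, and_true] at h
      omega)]
    refine Finset.sum_congr rfl fun n _ => ?_
    rw [← ee_add]
    congr 1
    unfold pf tt uu dt
    simp only
    push_cast
    have e1 : (A : ℝ) + (n : ℝ) + x * j = u₀ + n := by rw [hu₀]; ring
    rw [e1, hu₀]
    ring
  rw [hsum, Finset.sum_range_succ]
  refine (norm_add_le _ _).trans ?_
  rw [ee_norm]
  have hfin : ‖∑ n ∈ Finset.range N, ee (T * ((u₀ + n) * p (y * (j / (u₀ + n)))) + (c.1 * (u₀ + n) + ((j : ℝ) * c.2 - x * j * c.1)))‖ ≤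
      (5 * (B / c₁ * L ^ 6) + 10) * (L ^ 2 / c₁) * (s * |(j : ℝ)| / q + q ^ 3 / (s * |(j : ℝ)|)) := by
    refine htest.trans ?_
    rw [mul_assoc]
    refine mul_le_mul_of_nonneg_left ?_ (by positivity)
    have e1 : L ≤ L ^ 2 / c₁ := by
      rw [le_div_iff₀ hc]
      nlinarith
    have e2 : L * (s * |(j : ℝ)| / q) ≤ L ^ 2 / c₁ * (s * |(j : ℝ)| / q) := mul_le_mul_of_nonneg_right e1 hX.le
    rw [mul_add]
    linarith
  rw [add_mul, one_mul]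
  linarith


/-- the number of points of a row -/
private theorem rowcard63 {L : ℝ} (hL : 1 ≤ L) {S K T x : ℝ} (hT : 0 < T) (hS : 0 ≤ S) (hTK : T ≤ K) (j : ℤ)
    {q : ℝ} (hq2 : q ^ 2 = K / T) :
    (((st L S K T x).filter (fun k => k.2 = j)).card : ℝ) ≤ 2 * (L * q ^ 2) := by
  have hK : 0 < K := hT.trans_le hTK
  have hL0 : 0 < L := by linarith
  have hH1 : 1 ≤ q ^ 2 := by rw [hq2, le_div_iff₀ hT]; linarith
  rcases Finset.eq_empty_or_nonempty ((st L S K T x).filter (fun k => k.2 = j)) with he | hne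
  · rw [he, Finset.card_empty, Nat.cast_zero]
    positivity
  obtain ⟨A, N, hrow, h1, h2, h3⟩ := row63 (x := x) hT hL0 hK hS j hne
  rw [hrow]
  have hu0 : 0 < (A : ℝ) + x * j := by
    have : 0 < L * (T * ((A : ℝ) + x * j)) := hK.trans_le h1
    exact pos_of_mul_pos_right (pos_of_mul_pos_right this hL0.le) hT.le
  have h4 : (N : ℝ) ≤ L * q ^ 2 := by
    have h5 : (A : ℝ) + x * j + N ≤ L * q ^ 2 := by
      rw [hq2, ← mul_div_assoc, le_div_iff₀ hT]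
      linarith
    linarith
  have h5 : ((Finset.range (N + 1)).image (fun n : ℕ => (A + (n : ℤ), j))).card ≤ N + 1 :=
    Finset.card_image_le.trans (by rw [Finset.card_range])
  have h6 : (((Finset.range (N + 1)).image (fun n : ℕ => (A + (n : ℤ), j))).card : ℝ) ≤ (N : ℝ) + 1 := by
    exact_mod_cast h5
  have h7 : 1 ≤ L * q ^ 2 := by nlinarith
  linarith

/-- the rows `j ≠ 0` -/
private noncomputable def rws63 (m : ℕ) : Finset ℤ :=
  (Finset.Icc 1 m).image (fun i : ℕ => (i : ℤ)) ∪ (Finset.Icc 1 m).image (fun i : ℕ => -(i : ℤ))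

private theorem rws_sum63 (m : ℕ) (G : ℝ → ℝ) (hG : ∀ i : ℕ, 1 ≤ i → 0 ≤ G i) :
    ∑ j ∈ rws63 m, G |(j : ℝ)| ≤ 2 * ∑ i ∈ Finset.Icc 1 m, G (i : ℝ) := by
  classical
  unfold rws63
  have h1 := Finset.sum_union_inter (s₁ := (Finset.Icc 1 m).image (fun i : ℕ => (i : ℤ)))
    (s₂ := (Finset.Icc 1 m).image (fun i : ℕ => -(i : ℤ))) (f := fun j : ℤ => G |(j : ℝ)|)
  have h2 : 0 ≤ ∑ j ∈ (Finset.Icc 1 m).image (fun i : ℕ => (i : ℤ)) ∩ (Finset.Icc 1 m).image (fun i : ℕ => -(i : ℤ)), G |(j : ℝ)| := by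
    refine Finset.sum_nonneg fun j hj => ?_
    obtain ⟨i, hi, rfl⟩ := Finset.mem_image.1 (Finset.mem_inter.1 hj).1
    rw [Finset.mem_Icc] at hi
    have : |((i : ℤ) : ℝ)| = i := by
      rw [Int.cast_natCast, abs_of_nonneg (Nat.cast_nonneg _)]
    rw [this]
    exact hG i hi.1
  have h3 : ∑ j ∈ (Finset.Icc 1 m).image (fun i : ℕ => (i : ℤ)), G |(j : ℝ)| = ∑ i ∈ Finset.Icc 1 m, G (i : ℝ) := by
    rw [Finset.sum_image (fun a _ b _ h => by
      simp only [Nat.cast_inj] at h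
      exact h)]
    refine Finset.sum_congr rfl fun i _ => ?_
    rw [Int.cast_natCast, abs_of_nonneg (Nat.cast_nonneg _)]
  have h4 : ∑ j ∈ (Finset.Icc 1 m).image (fun i : ℕ => -(i : ℤ)), G |(j : ℝ)| = ∑ i ∈ Finset.Icc 1 m, G (i : ℝ) := by
    rw [Finset.sum_image (fun a _ b _ h => by
      simp only [neg_inj, Nat.cast_inj] at h
      exact h)]
    refine Finset.sum_congr rfl fun i _ => ?_
    rw [Int.cast_neg, Int.cast_natCast, abs_neg, abs_of_nonneg (Nat.cast_nonneg _)]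
  rw [h3, h4] at h1
  linarith

private theorem alg63 (c l q w D E : ℝ) : (c * (l * (q ^ 3 * w))) ^ 10 * (D * (q ^ 2) ^ 2 * E) =
    c ^ 10 * D * l ^ 10 * (q ^ 2) ^ 17 * E * w ^ 10 := by
  ring

private theorem rws_card63 (m : ℕ) : ((rws63 m).card : ℝ) ≤ 2 * m := by
  have h := rws_sum63 m (fun _ => 1) (fun _ _ => zero_le_one)
  simpa using h

private theorem maps63 {L : ℝ} (hL : 1 ≤ L) {S K T x : ℝ} (hT : 0 < T) (hS : 0 ≤ S) (hK : 0 < K)
    {q : ℝ} (hq2 : q ^ 2 = K / T) : ∀ k ∈ s0 L S K T x, k.2 ∈ rws63 ⌊S * (L * q ^ 2)⌋₊ := by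
  intro k hk
  have hL0 : 0 < L := by linarith
  unfold s0 at hk
  rw [Finset.mem_filter, mem_st hT hL0 hK hS] at hk
  obtain ⟨⟨h1, h2, h3⟩, h4⟩ := hk
  have h5 : uu x k ≤ L * q ^ 2 := by
    rw [hq2, ← mul_div_assoc, le_div_iff₀ hT]
    linarith
  have h6 : |(k.2 : ℝ)| ≤ S * (L * q ^ 2) := h3.trans (mul_le_mul_of_nonneg_left h5 hS)
  have h7 : k.2.natAbs ≤ ⌊S * (L * q ^ 2)⌋₊ := by
    apply Nat.le_floor
    rw [Nat.cast_natAbs]
    exact_mod_cast h6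
  have h8 : 1 ≤ k.2.natAbs := Int.natAbs_pos.2 h4
  unfold rws63
  rw [Finset.mem_union, Finset.mem_image, Finset.mem_image]
  rcases Int.natAbs_eq k.2 with h | h
  · exact Or.inl ⟨k.2.natAbs, Finset.mem_Icc.2 ⟨h8, h7⟩, h.symm⟩
  · exact Or.inr ⟨k.2.natAbs, Finset.mem_Icc.2 ⟨h8, h7⟩, h.symm⟩

private theorem fib63 {L S K T x : ℝ} {j : ℤ} (hj : j ≠ 0) :
    (s0 L S K T x).filter (fun k => k.2 = j) = (st L S K T x).filter (fun k => k.2 = j) := by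
  unfold s0
  ext k
  simp only [Finset.mem_filter]
  constructor
  · rintro ⟨⟨h1, -⟩, h2⟩
    exact ⟨h1, h2⟩
  · rintro ⟨h1, h2⟩
    exact ⟨⟨h1, by rw [h2]; exact hj⟩, h2⟩

private theorem rws_ne63 {m : ℕ} {j : ℤ} (h : j ∈ rws63 m) : j ≠ 0 := by
  unfold rws63 at h
  rw [Finset.mem_union, Finset.mem_image, Finset.mem_image] at h
  rcases h with ⟨i, hi, rfl⟩ | ⟨i, hi, rfl⟩
  · rw [Finset.mem_Icc] at hi
    omega
  · rw [Finset.mem_Icc] at hi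
    omega

private theorem card63 {L : ℝ} (hL : 1 ≤ L) {S K T x : ℝ} (hT : 0 < T) (hS : 0 ≤ S) (hTK : T ≤ K)
    {q : ℝ} (hq2 : q ^ 2 = K / T) : ((s0 L S K T x).card : ℝ) ≤ 4 * L ^ 2 * (q ^ 2) ^ 2 * S := by
  classical
  have hK : 0 < K := hT.trans_le hTK
  have hq0 : 0 ≤ q ^ 2 := sq_nonneg q
  have h1 := Finset.card_eq_sum_card_fiberwise (f := fun k : ℤ × ℤ => k.2) (s := s0 L S K T x)
    (t := rws63 ⌊S * (L * q ^ 2)⌋₊) (maps63 hL hT hS hK hq2)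
  have h2 : ((s0 L S K T x).card : ℝ) ≤ (rws63 ⌊S * (L * q ^ 2)⌋₊).card * (2 * (L * q ^ 2)) := by
    rw [h1]
    push_cast
    have h3 := Finset.sum_le_card_nsmul (rws63 ⌊S * (L * q ^ 2)⌋₊)
      (fun j => (((s0 L S K T x).filter (fun k => k.2 = j)).card : ℝ)) (2 * (L * q ^ 2)) (fun j hj => by
        rw [fib63 (rws_ne63 hj)]
        exact rowcard63 hL hT hS hTK j hq2)
    rw [nsmul_eq_mul] at h3
    exact h3
  have h4 := rws_card63 ⌊S * (L * q ^ 2)⌋₊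
  have h5 : (⌊S * (L * q ^ 2)⌋₊ : ℝ) ≤ S * (L * q ^ 2) := Nat.floor_le (by positivity)
  have h6 : ((rws63 ⌊S * (L * q ^ 2)⌋₊).card : ℝ) * (2 * (L * q ^ 2)) ≤ 2 * (S * (L * q ^ 2)) * (2 * (L * q ^ 2)) :=
    mul_le_mul_of_nonneg_right (by linarith) (by positivity)
  nlinarith

/-- the sup norm of the part with `k₂ ≠ 0` -/
private theorem sup63 {c₁ B L : ℝ} (hc : 0 < c₁) (hc1 : c₁ ≤ 1) (hB : 1 ≤ B) (hL : 1 ≤ L) : ∃ C : ℝ, 0 ≤ C ∧
    ∀ {p : ℝ → ℝ}, Cv c₁ B p → ∀ {S K T x y : ℝ}, 0 < T → 0 < y → 0 ≤ S → S ≤ 3 → y * S ≤ k₀ c₁ B → T ≤ K →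
    ∀ {s q : ℝ}, 0 < s → s ^ 2 = T * y ^ 2 → 0 < q → q ^ 2 = K / T → ∀ c : ℝ × ℝ,
    ‖∑ k ∈ s0 L S K T x, ee (T * pf p x y k) * ee (dt k c)‖ ≤ C * ((1 + log (K / T)) * (q ^ 3 * (S ^ 2 * s + s⁻¹))) := by
  classical
  obtain ⟨C₁, hC₁⟩ : ∃ C₁, C₁ = (5 * (B / c₁ * L ^ 6) + 10) * (L ^ 2 / c₁) + 1 := ⟨_, rfl⟩
  have hC0 : 0 ≤ C₁ := by rw [hC₁]; positivity
  have hl3 : 0 ≤ log (3 * L) := log_nonneg (by linarith)
  refine ⟨2 * C₁ * (L ^ 2 + 1 + log (3 * L)), by positivity, ?_⟩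
  intro p hp S K T x y hT hy hS hS3 hyS hTK s q hs hs2 hq hq2 c
  have hK : 0 < K := hT.trans_le hTK
  have hL0 : 0 < L := by linarith
  have hH1 : 1 ≤ q ^ 2 := by rw [hq2, le_div_iff₀ hT]; linarith
  have hlogH : 0 ≤ log (K / T) := by rw [← hq2]; exact log_nonneg hH1
  obtain ⟨m, hm⟩ : ∃ m, m = ⌊S * (L * q ^ 2)⌋₊ := ⟨_, rfl⟩
  have hmle : (m : ℝ) ≤ S * (L * q ^ 2) := by rw [hm]; exact Nat.floor_le (by positivity)
  have h1 : ∑ k ∈ s0 L S K T x, ee (T * pf p x y k) * ee (dt k c) =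
      ∑ j ∈ rws63 m, ∑ k ∈ (s0 L S K T x).filter (fun k => k.2 = j), ee (T * pf p x y k) * ee (dt k c) := by
    rw [hm]
    exact (Finset.sum_fiberwise_of_maps_to (maps63 hL hT hS hK hq2) _).symm
  rw [h1]
  have h2 : ‖∑ j ∈ rws63 m, ∑ k ∈ (s0 L S K T x).filter (fun k => k.2 = j), ee (T * pf p x y k) * ee (dt k c)‖ ≤
      ∑ j ∈ rws63 m, C₁ * (s * |(j : ℝ)| / q + q ^ 3 / (s * |(j : ℝ)|)) := by
    refine (norm_sum_le _ _).trans (Finset.sum_le_sum fun j hj => ?_)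
    rw [fib63 (rws_ne63 hj), hC₁]
    exact rowsum63 hc hc1 hB hL hp hT hy hS hyS hTK (rws_ne63 hj) hs hs2 hq hq2 c
  refine h2.trans ?_
  rw [← Finset.mul_sum]
  have h3 := rws_sum63 m (fun t => s * t / q + q ^ 3 / (s * t)) (fun i _ => by positivity)
  have h4 : ∑ i ∈ Finset.Icc 1 m, (s * (i : ℝ) / q + q ^ 3 / (s * (i : ℝ))) ≤
      (L ^ 2 + 1 + log (3 * L)) * ((1 + log (K / T)) * (q ^ 3 * (S ^ 2 * s + s⁻¹))) := by
    rw [Finset.sum_add_distrib]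
    have a1 : ∑ i ∈ Finset.Icc 1 m, s * (i : ℝ) / q ≤ s / q * ((m : ℝ) * m) := by
      have : ∀ i ∈ Finset.Icc 1 m, s * (i : ℝ) / q ≤ s / q * m := by
        intro i hi
        have h5 : (i : ℝ) ≤ m := by exact_mod_cast (Finset.mem_Icc.1 hi).2
        have h6 : s * (i : ℝ) / q = s / q * i := by ring
        rw [h6]
        exact mul_le_mul_of_nonneg_left h5 (by positivity)
      refine (Finset.sum_le_card_nsmul _ _ _ this).trans (le_of_eq ?_)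
      rw [Nat.card_Icc, nsmul_eq_mul]
      simp
      ring
    have a2 : ∑ i ∈ Finset.Icc 1 m, q ^ 3 / (s * (i : ℝ)) = q ^ 3 / s * ((harmonic m : ℚ) : ℝ) := by
      rw [harmonic_eq_sum_Icc]
      push_cast
      rw [Finset.mul_sum]
      refine Finset.sum_congr rfl fun i _ => ?_
      rw [div_mul_eq_div_div, div_eq_mul_inv (q ^ 3 / s)]
    rw [a2]
    rcases Nat.eq_zero_or_pos m with h0 | h0
    · rw [h0] at a1 ⊢
      have : ((harmonic 0 : ℚ) : ℝ) = 0 := by simp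
      rw [this, mul_zero, add_zero]
      refine a1.trans ?_
      rw [Nat.cast_zero, mul_zero, mul_zero]
      have : 0 < s⁻¹ := by positivity
      positivity
    · have h5 := harmonic_le_one_add_log m
      have hm1 : (1 : ℝ) ≤ m := by exact_mod_cast h0
      have h6 : log m ≤ log (3 * L) + log (K / T) := by
        rw [← hq2, ← log_mul (by positivity) (by positivity)]
        refine log_le_log (by linarith) ?_
        refine hmle.trans ?_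
        have : S * (L * q ^ 2) ≤ 3 * (L * q ^ 2) := mul_le_mul_of_nonneg_right hS3 (by positivity)
        linarith
      have a3 : s / q * ((m : ℝ) * m) ≤ L ^ 2 * (q ^ 3 * (S ^ 2 * s)) := by
        have b1 : (m : ℝ) * m ≤ (S * (L * q ^ 2)) * (S * (L * q ^ 2)) := mul_le_mul hmle hmle (by positivity) (by positivity)
        refine (mul_le_mul_of_nonneg_left b1 (by positivity)).trans (le_of_eq ?_)
        field_simp
      have a4 : q ^ 3 / s * ((harmonic m : ℚ) : ℝ) ≤ (1 + log (3 * L)) * ((1 + log (K / T)) * (q ^ 3 * s⁻¹)) := by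
        have b1 : ((harmonic m : ℚ) : ℝ) ≤ (1 + log (3 * L)) * (1 + log (K / T)) := by
          nlinarith [mul_nonneg hl3 hlogH]
        refine (mul_le_mul_of_nonneg_left b1 (by positivity)).trans (le_of_eq ?_)
        rw [div_eq_mul_inv]
        ring
      have a5 : L ^ 2 * (q ^ 3 * (S ^ 2 * s)) ≤ L ^ 2 * ((1 + log (K / T)) * (q ^ 3 * (S ^ 2 * s))) := by
        refine mul_le_mul_of_nonneg_left ?_ (by positivity)
        have : 0 ≤ q ^ 3 * (S ^ 2 * s) := by positivity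
        nlinarith
      have a6 : 0 ≤ (1 + log (K / T)) * (q ^ 3 * (S ^ 2 * s)) := by positivity
      have a7 : 0 ≤ (1 + log (K / T)) * (q ^ 3 * s⁻¹) := by positivity
      have e1 : (L ^ 2 + 1 + log (3 * L)) * ((1 + log (K / T)) * (q ^ 3 * (S ^ 2 * s + s⁻¹))) =
          L ^ 2 * ((1 + log (K / T)) * (q ^ 3 * (S ^ 2 * s))) + (1 + log (3 * L)) * ((1 + log (K / T)) * (q ^ 3 * s⁻¹)) +
          (1 + log (3 * L)) * ((1 + log (K / T)) * (q ^ 3 * (S ^ 2 * s))) + L ^ 2 * ((1 + log (K / T)) * (q ^ 3 * s⁻¹)) := by ring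
      rw [e1]
      have a8 : 0 ≤ (1 + log (3 * L)) * ((1 + log (K / T)) * (q ^ 3 * (S ^ 2 * s))) := mul_nonneg (by linarith) a6
      have a9 : 0 ≤ L ^ 2 * ((1 + log (K / T)) * (q ^ 3 * s⁻¹)) := mul_nonneg (by positivity) a7
      linarith
  calc C₁ * ∑ j ∈ rws63 m, (s * |(j : ℝ)| / q + q ^ 3 / (s * |(j : ℝ)|)) ≤
        C₁ * (2 * ((L ^ 2 + 1 + log (3 * L)) * ((1 + log (K / T)) * (q ^ 3 * (S ^ 2 * s + s⁻¹))))) := by
        refine mul_le_mul_of_nonneg_left ?_ hC0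
        linarith
    _ = _ := by ring


theorem PP_base {c₁ B L : ℝ} (hc : 0 < c₁) (hc1 : c₁ ≤ 1) (hB : 1 ≤ B) (hL : 1 ≤ L) : ∃ C : ℝ, 1 ≤ C ∧
    ∀ (h : ℝ × ℝ → ℝ) (S K : ℝ) (f : Fr), Hom c₁ B h → 0 < Tf f → 0 < yf f → 0 ≤ S → S ≤ 3 → yf f * S ≤ k₀ c₁ B → Tf f ≤ K →
      PP h L S K f ≤ ENNReal.ofReal (C * (1 + log (K / Tf f)) ^ 10 * (K / Tf f) ^ 17 *
        ((Tf f * yf f ^ 2) ^ (1 / 2 : ℝ) + (Tf f * yf f ^ 2) ^ (-(1 / 2) : ℝ)) ^ 10) := by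
  classical
  obtain ⟨C₂, hC₂, hsup⟩ := sup63 hc hc1 hB hL
  refine ⟨(2 * L + 9 * C₂) ^ 10 * (14 * L ^ 2), ?_, fun h S K f hh hT hy hS hS3 hyS hTK => ?_⟩
  · have h1 : 1 ≤ 2 * L + 9 * C₂ := by linarith
    have h2 : 1 ≤ (2 * L + 9 * C₂) ^ 10 := one_le_pow₀ h1
    have h3 : 1 ≤ 14 * L ^ 2 := by nlinarith
    nlinarith
  have hK : 0 < K := hT.trans_le hTK
  have hL0 : 0 < L := by linarith
  obtain ⟨θ, -, hθ⟩ := fr_surj hT
  have e0 : PP h L S K f = PP h L S K (fr θ (yf f) (Tf f) (xf f)) := by rw [← hθ]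
  rw [e0, PP_fr hh hT hL0 hK hS]
  obtain ⟨T, hTd⟩ : ∃ T, T = Tf f := ⟨_, rfl⟩
  obtain ⟨y, hyd⟩ : ∃ y, y = yf f := ⟨_, rfl⟩
  obtain ⟨x, hxd⟩ : ∃ x, x = xf f := ⟨_, rfl⟩
  rw [← hTd, ← hyd, ← hxd]
  rw [← hTd] at hT hTK
  rw [← hyd] at hy hyS
  obtain ⟨s, hs⟩ : ∃ s, s = √(T * y ^ 2) := ⟨_, rfl⟩
  have hs0 : 0 < s := by rw [hs]; exact sqrt_pos.2 (by positivity)
  have hs2 : s ^ 2 = T * y ^ 2 := by rw [hs]; exact sq_sqrt (by positivity)
  obtain ⟨q, hq⟩ : ∃ q, q = √(K / T) := ⟨_, rfl⟩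
  have hq0 : 0 < q := by rw [hq]; exact sqrt_pos.2 (by positivity)
  have hq2 : q ^ 2 = K / T := by rw [hq]; exact sq_sqrt (by positivity)
  have hH1 : 1 ≤ q ^ 2 := by rw [hq2, le_div_iff₀ hT]; linarith
  have hq1 : 1 ≤ q := by nlinarith
  have hlogH : 0 ≤ log (K / T) := by rw [← hq2]; exact log_nonneg hH1
  have e1 : (T * y ^ 2) ^ (1 / 2 : ℝ) = s := by rw [hs, sqrt_eq_rpow]
  have e2 : (T * y ^ 2) ^ (-(1 / 2) : ℝ) = s⁻¹ := by rw [rpow_neg (by positivity), e1]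
  rw [e1, e2]
  refine ENNReal.ofReal_le_ofReal ?_
  have hs1 : 1 ≤ s + s⁻¹ := by
    have h1 : s * s⁻¹ = 1 := mul_inv_cancel₀ hs0.ne'
    have h2 : 0 < s⁻¹ := by positivity
    nlinarith [sq_nonneg (s - s⁻¹)]
  -- the splitting
  obtain ⟨R, hR⟩ : ∃ R, R = (st L S K T x).filter (fun k => k.2 = 0) := ⟨_, rfl⟩
  have hRc : (R.card : ℝ) ≤ 2 * (L * q ^ 2) := by
    rw [hR]
    exact rowcard63 hL hT hS hTK 0 hq2
  have hsc : ((s0 L S K T x).card : ℝ) ≤ 4 * L ^ 2 * (q ^ 2) ^ 2 * S := card63 hL hT hS hTK hq2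
  have hsplit : ∀ F : ℤ × ℤ → ℂ, ∑ k ∈ st L S K T x, F k = ∑ k ∈ R, F k + ∑ k ∈ s0 L S K T x, F k := by
    intro F
    rw [hR]
    unfold s0
    exact (Finset.sum_filter_add_sum_filter_not _ _ _).symm
  have hcard : ((st L S K T x).card : ℝ) ≤ 14 * L ^ 2 * (q ^ 2) ^ 2 := by
    have h1 : (st L S K T x).card = R.card + (s0 L S K T x).card := by
      rw [hR]
      unfold s0
      exact (Finset.card_filter_add_card_filter_not _).symm
    rw [h1]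
    push_cast
    have h2 : 4 * L ^ 2 * (q ^ 2) ^ 2 * S ≤ 4 * L ^ 2 * (q ^ 2) ^ 2 * 3 := mul_le_mul_of_nonneg_left hS3 (by positivity)
    have h3 : L * q ^ 2 ≤ L ^ 2 * (q ^ 2) ^ 2 := by
      have : 1 ≤ L * q ^ 2 := by nlinarith
      nlinarith
    linarith
  have hM : ∀ c, ‖tp (st L S K T x) (fun k => 1 * ee (T * pf (sl h θ) x y k)) c‖ ≤
      (2 * L + 9 * C₂) * ((1 + log (K / T)) * (q ^ 3 * (s + s⁻¹))) := by
    intro c
    unfold tp
    simp only [one_mul]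
    rw [hsplit]
    refine (norm_add_le _ _).trans ?_
    have h1 : ‖∑ k ∈ R, ee (T * pf (sl h θ) x y k) * ee (dt k c)‖ ≤ 2 * (L * q ^ 2) := by
      refine (norm_sum_le _ _).trans ?_
      refine le_trans (le_of_eq ?_) hRc
      rw [Finset.card_eq_sum_ones]
      push_cast
      refine Finset.sum_congr rfl fun k _ => ?_
      rw [norm_mul, ee_norm, ee_norm, one_mul]
    have h2 := hsup (hh.cv θ) (x := x) hT hy hS hS3 hyS hTK hs0 hs2 hq0 hq2 c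
    have h3 : C₂ * ((1 + log (K / T)) * (q ^ 3 * (S ^ 2 * s + s⁻¹))) ≤ 9 * C₂ * ((1 + log (K / T)) * (q ^ 3 * (s + s⁻¹))) := by
      have b1 : S ^ 2 * s + s⁻¹ ≤ 9 * (s + s⁻¹) := by
        have b2 : S ^ 2 ≤ 9 := by nlinarith
        have b3 : S ^ 2 * s ≤ 9 * s := mul_le_mul_of_nonneg_right b2 hs0.le
        have b4 : 0 < s⁻¹ := by positivity
        linarith
      calc C₂ * ((1 + log (K / T)) * (q ^ 3 * (S ^ 2 * s + s⁻¹))) ≤ C₂ * ((1 + log (K / T)) * (q ^ 3 * (9 * (s + s⁻¹)))) := by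
            gcongr
        _ = _ := by ring
    have h4 : 2 * (L * q ^ 2) ≤ 2 * L * ((1 + log (K / T)) * (q ^ 3 * (s + s⁻¹))) := by
      rw [mul_assoc]
      refine mul_le_mul_of_nonneg_left (mul_le_mul_of_nonneg_left ?_ hL0.le) (by norm_num)
      have b1 : q ^ 2 ≤ q ^ 3 := pow_le_pow_right₀ hq1 (by norm_num)
      have b2 : q ^ 3 ≤ q ^ 3 * (s + s⁻¹) := le_mul_of_one_le_right (by positivity) hs1
      have b3 : q ^ 3 * (s + s⁻¹) ≤ (1 + log (K / T)) * (q ^ 3 * (s + s⁻¹)) :=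
        le_mul_of_one_le_left (by positivity) (by linarith)
      linarith
    rw [add_mul]
    linarith
  have hm := m12_sup63 (st L S K T x) (a := fun k => 1 * ee (T * pf (sl h θ) x y k)) (fun k _ => by
    rw [one_mul, ee_norm]) hM
  unfold W
  refine hm.trans ?_
  refine (mul_le_mul_of_nonneg_left hcard (by positivity)).trans (le_of_eq ?_)
  rw [← hq2]
  have h9 := alg63 (2 * L + 9 * C₂) (1 + log (q ^ 2)) q (s + s⁻¹) (14 * L ^ 2) 1
  rw [mul_one, mul_one] at h9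
  exact h9

theorem RR_base {c₁ B L : ℝ} (hc : 0 < c₁) (hc1 : c₁ ≤ 1) (hB : 1 ≤ B) (hL : 1 ≤ L) : ∃ C : ℝ, 1 ≤ C ∧
    ∀ (h : ℝ × ℝ → ℝ) (ρ K : ℝ) (f : Fr), Hom c₁ B h → 0 < Tf f → 0 < yf f → 0 ≤ ρ → ρ ≤ 3 → yf f * ρ ≤ k₀ c₁ B → Tf f ≤ K →
      RR h L ρ K f ≤ ENNReal.ofReal (C * (1 + log (K / Tf f)) ^ 10 * (K / Tf f) ^ 17 * ρ *
        (ρ ^ 2 * (Tf f * yf f ^ 2) ^ (1 / 2 : ℝ) + (Tf f * yf f ^ 2) ^ (-(1 / 2) : ℝ)) ^ 10) := by
  classical
  obtain ⟨C₂, hC₂, hsup⟩ := sup63 hc hc1 hB hL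
  refine ⟨(1 + C₂) ^ 10 * (4 * L ^ 2), ?_, fun h S K f hh hT hy hS hS3 hyS hTK => ?_⟩
  · have h2 : 1 ≤ (1 + C₂) ^ 10 := one_le_pow₀ (by linarith)
    have h3 : 1 ≤ 4 * L ^ 2 := by nlinarith
    nlinarith
  have hK : 0 < K := hT.trans_le hTK
  have hL0 : 0 < L := by linarith
  obtain ⟨θ, -, hθ⟩ := fr_surj hT
  have e0 : RR h L S K f = RR h L S K (fr θ (yf f) (Tf f) (xf f)) := by rw [← hθ]
  rw [e0, RR_fr hh hT hL0 hK hS]
  obtain ⟨T, hTd⟩ : ∃ T, T = Tf f := ⟨_, rfl⟩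
  obtain ⟨y, hyd⟩ : ∃ y, y = yf f := ⟨_, rfl⟩
  obtain ⟨x, hxd⟩ : ∃ x, x = xf f := ⟨_, rfl⟩
  rw [← hTd, ← hyd, ← hxd]
  rw [← hTd] at hT hTK
  rw [← hyd] at hy hyS
  obtain ⟨s, hs⟩ : ∃ s, s = √(T * y ^ 2) := ⟨_, rfl⟩
  have hs0 : 0 < s := by rw [hs]; exact sqrt_pos.2 (by positivity)
  have hs2 : s ^ 2 = T * y ^ 2 := by rw [hs]; exact sq_sqrt (by positivity)
  obtain ⟨q, hq⟩ : ∃ q, q = √(K / T) := ⟨_, rfl⟩
  have hq0 : 0 < q := by rw [hq]; exact sqrt_pos.2 (by positivity)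
  have hq2 : q ^ 2 = K / T := by rw [hq]; exact sq_sqrt (by positivity)
  have hH1 : 1 ≤ q ^ 2 := by rw [hq2, le_div_iff₀ hT]; linarith
  have hlogH : 0 ≤ log (K / T) := by rw [← hq2]; exact log_nonneg hH1
  have e1 : (T * y ^ 2) ^ (1 / 2 : ℝ) = s := by rw [hs, sqrt_eq_rpow]
  have e2 : (T * y ^ 2) ^ (-(1 / 2) : ℝ) = s⁻¹ := by rw [rpow_neg (by positivity), e1]
  rw [e1, e2]
  refine ENNReal.ofReal_le_ofReal ?_
  have hM : ∀ c, ‖tp (s0 L S K T x) (fun k => 1 * ee (T * pf (sl h θ) x y k)) c‖ ≤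
      (1 + C₂) * ((1 + log (K / T)) * (q ^ 3 * (S ^ 2 * s + s⁻¹))) := by
    intro c
    unfold tp
    simp only [one_mul]
    have h2 := hsup (hh.cv θ) (x := x) hT hy hS hS3 hyS hTK hs0 hs2 hq0 hq2 c
    refine h2.trans (mul_le_mul_of_nonneg_right (by linarith) (by positivity))
  have hm := m12_sup63 (s0 L S K T x) (a := fun k => 1 * ee (T * pf (sl h θ) x y k)) (fun k _ => by
    rw [one_mul, ee_norm]) hM
  have hcard := card63 (x := x) hL hT hS hTK hq2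
  unfold W
  refine hm.trans ?_
  refine (mul_le_mul_of_nonneg_left hcard (by positivity)).trans (le_of_eq ?_)
  rw [← hq2]
  exact alg63 (1 + C₂) (1 + log (q ^ 2)) q (S ^ 2 * s + s⁻¹) (4 * L ^ 2) S

end Pool.Agent.Helper86.LK
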