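import Pool.Agent.Helper86.LK.DefB
import Pool.Agent.Helper86.LK.V
import Pool.Agent.Helper60.LT.F3

/-!
# LK-BI: base case and last cusp, integrated over the frames

For `f ∈ EE Δ₀ y₀ β`, `T₀ = √(Δ₀/y₀)`: `T₀/β ≤ Tf f ≤ β T₀`, `y₀/β ≤ yf f ≤ β y₀`, so `T' = Tf f yf f ^ 2` satisfies
`T₀'/β³ ≤ T' ≤ β³ T₀'` with `T₀' = T₀ y₀² ≥ 1`; the rest is `PP_base` / `RR_base` (LK/V) and `EE_vol` (LT/F3).
-/

open MeasureTheory Real Set Filter Topology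

set_option autoImplicit false

namespace Pool.Agent.Helper86.LK

open Pool.Agent.Helper60.LT

private theorem geo28 {β Δ₀ y₀ : ℝ} (hβ : 1 ≤ β) (hΔ : 0 < Δ₀) (hy₀ : 0 < y₀) {f : Fr} (hf : f ∈ EE Δ₀ y₀ β) :
    0 < Tf f ∧ 0 < yf f ∧ √(Δ₀ / y₀) ≤ β * Tf f ∧ Tf f ≤ β * √(Δ₀ / y₀) ∧ y₀ ≤ β * yf f ∧ yf f ≤ β * y₀ := by
  obtain ⟨hT, -, -, g1, g2, g3, g4⟩ := hf
  have hβ0 : 0 < β := by linarith
  have hs : 0 < f.1.1 ^ 2 + f.1.2 ^ 2 := by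
    unfold Tf at hT
    exact Real.sqrt_pos.1 hT
  have hT2 : Tf f ^ 2 = f.1.1 ^ 2 + f.1.2 ^ 2 := by
    unfold Tf
    exact Real.sq_sqrt hs.le
  have hyf : yf f * Tf f ^ 2 = df f := by
    rw [hT2]
    unfold yf
    exact div_mul_cancel₀ _ hs.ne'
  have hy : 0 < yf f := by
    by_contra hc
    push Not at hc
    have : β * yf f ≤ 0 := mul_nonpos_of_nonneg_of_nonpos hβ0.le hc
    linarith
  have g5 : √(Δ₀ / y₀) ≤ β * Tf f := by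
    rw [Real.sqrt_le_left (by positivity), div_le_iff₀ hy₀]
    have g6 : yf f * Tf f ^ 2 ≤ β * y₀ * Tf f ^ 2 := mul_le_mul_of_nonneg_right g4 (by positivity)
    have g7 : β * df f ≤ β * (β * y₀ * Tf f ^ 2) := mul_le_mul_of_nonneg_left (by linarith) hβ0.le
    calc Δ₀ ≤ β * df f := g1
      _ ≤ β * (β * y₀ * Tf f ^ 2) := g7
      _ = (β * Tf f) ^ 2 * y₀ := by ring
  have g8 : Tf f ≤ β * √(Δ₀ / y₀) := by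
    have e1 : β * √(Δ₀ / y₀) = √(β ^ 2 * (Δ₀ / y₀)) := by
      rw [Real.sqrt_mul (by positivity), Real.sqrt_sq hβ0.le]
    rw [e1]
    refine Real.le_sqrt_of_sq_le ?_
    rw [mul_div_assoc', le_div_iff₀ hy₀]
    have g6 : Tf f ^ 2 * y₀ ≤ Tf f ^ 2 * (β * yf f) := mul_le_mul_of_nonneg_left g3 (by positivity)
    have g7 : β * df f ≤ β * (β * Δ₀) := mul_le_mul_of_nonneg_left g2 hβ0.le
    calc Tf f ^ 2 * y₀ ≤ Tf f ^ 2 * (β * yf f) := g6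
      _ = β * (yf f * Tf f ^ 2) := by ring
      _ = β * df f := by rw [hyf]
      _ ≤ β * (β * Δ₀) := g7
      _ = β ^ 2 * Δ₀ := by ring
  exact ⟨hT, hy, g5, g8, g3, g4⟩

private theorem T028 {Δ₀ y₀ : ℝ} (hΔ : 0 < Δ₀) (hy₀ : 0 < y₀) : 0 < √(Δ₀ / y₀) := Real.sqrt_pos.2 (by positivity)

private theorem half28 {β a t : ℝ} (hβ : 1 ≤ β) (ha : 0 < a) (ht : 0 < t) (h1 : t ≤ β ^ 3 * a) (h2 : a ≤ β ^ 3 * t) :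
    t ^ (1 / 2 : ℝ) ≤ β ^ 2 * a ^ (1 / 2 : ℝ) ∧ t ^ (-(1 / 2) : ℝ) ≤ β ^ 2 * a ^ (-(1 / 2) : ℝ) := by
  have hβ0 : 0 < β := by linarith
  have e1 : (β ^ 3) ^ (1 / 2 : ℝ) ≤ β ^ 2 := by
    have e2 : (β ^ 3 : ℝ) ≤ (β ^ 2) ^ 2 := by
      calc β ^ 3 = β ^ 3 * 1 := by ring
        _ ≤ β ^ 3 * β := mul_le_mul_of_nonneg_left hβ (by positivity)
        _ = (β ^ 2) ^ 2 := by ring
    rw [← Real.sqrt_eq_rpow]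
    exact Real.sqrt_le_iff.2 ⟨by positivity, e2⟩
  constructor
  · calc t ^ (1 / 2 : ℝ) ≤ (β ^ 3 * a) ^ (1 / 2 : ℝ) := Real.rpow_le_rpow ht.le h1 (by norm_num)
      _ = (β ^ 3) ^ (1 / 2 : ℝ) * a ^ (1 / 2 : ℝ) := Real.mul_rpow (by positivity) ha.le
      _ ≤ β ^ 2 * a ^ (1 / 2 : ℝ) := mul_le_mul_of_nonneg_right e1 (by positivity)
  · have h3 : a / β ^ 3 ≤ t := by
      rw [div_le_iff₀ (by positivity)]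
      linarith
    calc t ^ (-(1 / 2) : ℝ) ≤ (a / β ^ 3) ^ (-(1 / 2) : ℝ) :=
          Real.rpow_le_rpow_of_nonpos (by positivity) h3 (by norm_num)
      _ = a ^ (-(1 / 2) : ℝ) / (β ^ 3) ^ (-(1 / 2) : ℝ) := Real.div_rpow ha.le (by positivity) _
      _ = (β ^ 3) ^ (1 / 2 : ℝ) * a ^ (-(1 / 2) : ℝ) := by
          rw [Real.rpow_neg (show 0 ≤ β ^ 3 by positivity) (1 / 2), div_inv_eq_mul, mul_comm]
      _ ≤ β ^ 2 * a ^ (-(1 / 2) : ℝ) := mul_le_mul_of_nonneg_right e1 (by positivity)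

/-- comparison of `T'` with `T₀'`, of `K/Tf f` with `K/T₀`, and of the logarithms -/
private theorem cmp28 {β Δ₀ y₀ K : ℝ} (hβ : 1 ≤ β) (hΔ : 0 < Δ₀) (hy₀ : 0 < y₀) (hK : 1 ≤ K) (hKT : β ≤ K * √(Δ₀ / y₀))
    (hTK : β * √(Δ₀ / y₀) ≤ K) {f : Fr} (hf : f ∈ EE Δ₀ y₀ β) :
    Tf f ≤ K ∧ (1 + log (K / Tf f)) ^ 10 * (K / Tf f) ^ 17 ≤ 2 ^ 10 * (1 + log K) ^ 10 * (β ^ 17 * (K / √(Δ₀ / y₀)) ^ 17) ∧
      (Tf f * yf f ^ 2) ^ (1 / 2 : ℝ) ≤ β ^ 2 * (√(Δ₀ / y₀) * y₀ ^ 2) ^ (1 / 2 : ℝ) ∧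
      (Tf f * yf f ^ 2) ^ (-(1 / 2) : ℝ) ≤ β ^ 2 * (√(Δ₀ / y₀) * y₀ ^ 2) ^ (-(1 / 2) : ℝ) := by
  obtain ⟨hT, hy, g5, g8, g3, g4⟩ := geo28 hβ hΔ hy₀ hf
  have hT₀ := T028 hΔ hy₀
  have hβ0 : 0 < β := by linarith
  have hK0 : 0 < K := by linarith
  have hTfK : Tf f ≤ K := g8.trans hTK
  have hr1 : 1 ≤ K / Tf f := by rwa [le_div_iff₀ hT, one_mul]
  have hr : K / Tf f ≤ β * (K / √(Δ₀ / y₀)) := by
    rw [div_le_iff₀ hT, mul_div_assoc', div_mul_eq_mul_div, le_div_iff₀ hT₀]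
    calc K * √(Δ₀ / y₀) ≤ K * (β * Tf f) := mul_le_mul_of_nonneg_left g5 hK0.le
      _ = β * K * Tf f := by ring
  have hr2 : K / Tf f ≤ K ^ 2 := by
    refine hr.trans ?_
    rw [mul_div_assoc', div_le_iff₀ hT₀]
    calc β * K ≤ K * √(Δ₀ / y₀) * K := mul_le_mul_of_nonneg_right hKT hK0.le
      _ = K ^ 2 * √(Δ₀ / y₀) := by ring
  have hlog0 : 0 ≤ log K := Real.log_nonneg hK
  have hlog1 : 0 ≤ log (K / Tf f) := Real.log_nonneg hr1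
  have hlog2 : log (K / Tf f) ≤ 2 * log K := by
    calc log (K / Tf f) ≤ log (K ^ 2) := Real.log_le_log (by positivity) hr2
      _ = 2 * log K := by rw [Real.log_pow]; norm_num
  refine ⟨hTfK, ?_, ?_⟩
  · have e1 : (1 + log (K / Tf f)) ^ 10 ≤ 2 ^ 10 * (1 + log K) ^ 10 := by
      rw [← mul_pow]
      exact pow_le_pow_left₀ (by linarith) (by linarith) 10
    have e2 : (K / Tf f) ^ 17 ≤ β ^ 17 * (K / √(Δ₀ / y₀)) ^ 17 := by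
      rw [← mul_pow]
      exact pow_le_pow_left₀ (by linarith) hr 17
    exact mul_le_mul e1 e2 (by positivity) (by positivity)
  · refine half28 hβ (by positivity) (by positivity) ?_ ?_
    · calc Tf f * yf f ^ 2 ≤ (β * √(Δ₀ / y₀)) * (β * y₀) ^ 2 :=
            mul_le_mul g8 (pow_le_pow_left₀ hy.le g4 2) (by positivity) (by positivity)
        _ = β ^ 3 * (√(Δ₀ / y₀) * y₀ ^ 2) := by ring
    · calc √(Δ₀ / y₀) * y₀ ^ 2 ≤ (β * Tf f) * (β * yf f) ^ 2 :=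
            mul_le_mul g5 (pow_le_pow_left₀ hy₀.le g3 2) (by positivity) (by positivity)
        _ = β ^ 3 * (Tf f * yf f ^ 2) := by ring

/-- integration of a pointwise bound -/
private theorem integ28 {β : ℝ} (hβ : 1 ≤ β) : ∃ C : ℝ, 1 ≤ C ∧ ∀ (Δ₀ y₀ M : ℝ) (F : Fr → ENNReal), 0 < Δ₀ → 0 < y₀ → 0 ≤ M →
    (∀ f ∈ EE Δ₀ y₀ β, F f ≤ ENNReal.ofReal M) →
    ∫⁻ f in EE Δ₀ y₀ β, F f ≤ ENNReal.ofReal (M * (C * (Δ₀ ^ 2 / y₀))) := by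
  obtain ⟨Cv, hCv, hvol⟩ := EE_vol hβ
  refine ⟨Cv, hCv, fun Δ₀ y₀ M F hΔ hy₀ hM hF => ?_⟩
  refine (setLIntegral_mono' (EE_meas _ _ _) hF).trans ?_
  rw [setLIntegral_const]
  refine (mul_le_mul_right (hvol Δ₀ y₀ hΔ hy₀) _).trans (le_of_eq ?_)
  rw [← ENNReal.ofReal_mul hM]

theorem base_int {c₁ B L β : ℝ} (hc : 0 < c₁) (hc1 : c₁ ≤ 1) (hB : 1 ≤ B) (hL : 1 ≤ L) (hβ : 1 ≤ β) : ∃ C : ℝ, 1 ≤ C ∧
    ∀ (h : ℝ × ℝ → ℝ) (Δ₀ y₀ K S : ℝ), Hom c₁ B h → 0 < Δ₀ → 0 < y₀ → 0 ≤ S → S ≤ 3 → β * y₀ * S ≤ k₀ c₁ B →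
      β ≤ K * √(Δ₀ / y₀) → β * √(Δ₀ / y₀) ≤ K → 1 ≤ √(Δ₀ / y₀) * y₀ ^ 2 → 1 ≤ K →
      ∫⁻ f in EE Δ₀ y₀ β, PP h L S K f ≤ ENNReal.ofReal (C * (1 + log K) ^ 10 * (Δ₀ ^ 2 / y₀) * (K / √(Δ₀ / y₀)) ^ 17 * (√(Δ₀ / y₀) * y₀ ^ 2) ^ 5) := by
  obtain ⟨Cb, hCb, hbase⟩ := PP_base hc hc1 hB hL
  obtain ⟨Cv, hCv, hint⟩ := integ28 hβ
  have hβ0 : 0 < β := by linarith
  refine ⟨Cb * 2 ^ 10 * β ^ 17 * (2 * β ^ 2) ^ 10 * Cv, ?_, ?_⟩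
  · have h1 : 1 ≤ β ^ 17 := one_le_pow₀ hβ
    have h2 : 1 ≤ (2 * β ^ 2) ^ 10 := one_le_pow₀ (by nlinarith)
    have h3 : (1 : ℝ) ≤ 2 ^ 10 := by norm_num
    exact one_le_mul_of_one_le_of_one_le (one_le_mul_of_one_le_of_one_le (one_le_mul_of_one_le_of_one_le
      (one_le_mul_of_one_le_of_one_le hCb h3) h1) h2) hCv
  intro h Δ₀ y₀ K S hh hΔ hy₀ hS hS3 hk hKT hTK hT1 hK
  have hT₀ := T028 hΔ hy₀
  have hlog0 : 0 ≤ log K := Real.log_nonneg hK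
  have hK0 : 0 < K := by linarith
  obtain ⟨a, ha⟩ : ∃ a : ℝ, a = √(Δ₀ / y₀) * y₀ ^ 2 := ⟨_, rfl⟩
  have ha1 : 1 ≤ a := by rw [ha]; exact hT1
  obtain ⟨s, hs⟩ : ∃ s : ℝ, s = a ^ (1 / 2 : ℝ) := ⟨_, rfl⟩
  have hs1 : 1 ≤ s := by
    rw [hs]
    exact Real.one_le_rpow ha1 (by norm_num)
  have hs10 : s ^ 10 = a ^ 5 := by
    have h2 : s ^ 2 = a := by
      rw [hs, ← Real.sqrt_eq_rpow]
      exact Real.sq_sqrt (by linarith)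
    calc s ^ 10 = (s ^ 2) ^ 5 := by ring
      _ = a ^ 5 := by rw [h2]
  have hpt : ∀ f ∈ EE Δ₀ y₀ β, PP h L S K f ≤ ENNReal.ofReal (Cb * (2 ^ 10 * (1 + log K) ^ 10 * (β ^ 17 * (K / √(Δ₀ / y₀)) ^ 17)) *
      (2 * β ^ 2 * s) ^ 10) := by
    intro f hf
    obtain ⟨hT, hy, g5, g8, g3, g4⟩ := geo28 hβ hΔ hy₀ hf
    obtain ⟨q1, q2, q3, q4⟩ := cmp28 hβ hΔ hy₀ hK hKT hTK hf
    rw [← ha] at q3 q4
    have hyS : yf f * S ≤ k₀ c₁ B := (mul_le_mul_of_nonneg_right g4 hS).trans hk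
    refine (hbase h S K f hh hT hy hS hS3 hyS q1).trans (ENNReal.ofReal_le_ofReal ?_)
    have e1 : (Tf f * yf f ^ 2) ^ (1 / 2 : ℝ) + (Tf f * yf f ^ 2) ^ (-(1 / 2) : ℝ) ≤ 2 * β ^ 2 * s := by
      have e2 : a ^ (-(1 / 2) : ℝ) ≤ s := by
        rw [hs]
        exact Real.rpow_le_rpow_of_exponent_le ha1 (by norm_num)
      have e3 : β ^ 2 * a ^ (-(1 / 2) : ℝ) ≤ β ^ 2 * s := mul_le_mul_of_nonneg_left e2 (by positivity)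
      rw [← hs] at q3
      linarith
    have e4 : ((Tf f * yf f ^ 2) ^ (1 / 2 : ℝ) + (Tf f * yf f ^ 2) ^ (-(1 / 2) : ℝ)) ^ 10 ≤ (2 * β ^ 2 * s) ^ 10 :=
      pow_le_pow_left₀ (by positivity) e1 10
    have e5 : Cb * (1 + log (K / Tf f)) ^ 10 * (K / Tf f) ^ 17 ≤
        Cb * (2 ^ 10 * (1 + log K) ^ 10 * (β ^ 17 * (K / √(Δ₀ / y₀)) ^ 17)) := by
      rw [mul_assoc]
      exact mul_le_mul_of_nonneg_left q2 (by linarith)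
    exact mul_le_mul e5 e4 (by positivity) (by positivity)
  refine (hint Δ₀ y₀ _ _ hΔ hy₀ (by positivity) hpt).trans (ENNReal.ofReal_le_ofReal (le_of_eq ?_))
  rw [← ha, ← hs10]
  ring

theorem cusp_int {c₁ B L β : ℝ} (hc : 0 < c₁) (hc1 : c₁ ≤ 1) (hB : 1 ≤ B) (hL : 1 ≤ L) (hβ : 1 ≤ β) : ∃ C : ℝ, 1 ≤ C ∧
    ∀ (h : ℝ × ℝ → ℝ) (Δ₀ y₀ K κ ρ : ℝ), Hom c₁ B h → 0 < Δ₀ → 0 < y₀ → 0 ≤ ρ → ρ ≤ 1 → β * y₀ * ρ ≤ k₀ c₁ B →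
      β ≤ K * √(Δ₀ / y₀) → β * √(Δ₀ / y₀) ≤ K → 1 ≤ √(Δ₀ / y₀) * y₀ ^ 2 → 1 ≤ K → 1 ≤ κ →
      ρ ≤ κ * (√(Δ₀ / y₀) * y₀ ^ 2) ^ (-(1 / 3) : ℝ) →
      ∫⁻ f in EE Δ₀ y₀ β, RR h L ρ K f ≤ ENNReal.ofReal (C * κ ^ 20 * (1 + log K) ^ 10 * (Δ₀ ^ 2 / y₀) *
        ((K / √(Δ₀ / y₀)) ^ 17 * (√(Δ₀ / y₀) * y₀ ^ 2) ^ (-(5 / 3) : ℝ))) := by
  obtain ⟨Cb, hCb, hbase⟩ := RR_base hc hc1 hB hL
  obtain ⟨Cv, hCv, hint⟩ := integ28 hβ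
  have hβ0 : 0 < β := by linarith
  refine ⟨Cb * 2 ^ 10 * β ^ 17 * (2 * β ^ 2) ^ 10 * Cv, ?_, ?_⟩
  · have h1 : 1 ≤ β ^ 17 := one_le_pow₀ hβ
    have h2 : 1 ≤ (2 * β ^ 2) ^ 10 := one_le_pow₀ (by nlinarith)
    have h3 : (1 : ℝ) ≤ 2 ^ 10 := by norm_num
    exact one_le_mul_of_one_le_of_one_le (one_le_mul_of_one_le_of_one_le (one_le_mul_of_one_le_of_one_le
      (one_le_mul_of_one_le_of_one_le hCb h3) h1) h2) hCv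
  intro h Δ₀ y₀ K κ ρ hh hΔ hy₀ hρ hρ1 hk hKT hTK hT1 hK hκ hρκ
  have hT₀ := T028 hΔ hy₀
  have hlog0 : 0 ≤ log K := Real.log_nonneg hK
  have hK0 : 0 < K := by linarith
  have hκ0 : 0 < κ := by linarith
  obtain ⟨a, ha⟩ : ∃ a : ℝ, a = √(Δ₀ / y₀) * y₀ ^ 2 := ⟨_, rfl⟩
  rw [← ha] at hρκ
  have ha1 : 1 ≤ a := by rw [ha]; exact hT1
  have ha0 : 0 < a := by linarith
  obtain ⟨s, hs⟩ : ∃ s : ℝ, s = a ^ (-(1 / 6) : ℝ) := ⟨_, rfl⟩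
  have hs0 : 0 < s := by
    rw [hs]
    positivity
  have hs10 : s ^ 10 = a ^ (-(5 / 3) : ℝ) := by
    rw [hs, ← Real.rpow_natCast, ← Real.rpow_mul ha0.le]
    norm_num
  have hρ2 : ρ ^ 2 * a ^ (1 / 2 : ℝ) ≤ κ ^ 2 * s := by
    have e1 : ρ ^ 2 ≤ κ ^ 2 * a ^ (-(2 / 3) : ℝ) := by
      have e2 : ρ ^ 2 ≤ (κ * a ^ (-(1 / 3) : ℝ)) ^ 2 := pow_le_pow_left₀ hρ hρκ 2
      have e3 : (a ^ (-(1 / 3) : ℝ)) ^ 2 = a ^ (-(2 / 3) : ℝ) := by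
        rw [← Real.rpow_natCast, ← Real.rpow_mul ha0.le]
        norm_num
      rwa [mul_pow, e3] at e2
    have e4 : a ^ (-(2 / 3) : ℝ) * a ^ (1 / 2 : ℝ) = s := by
      rw [hs, ← Real.rpow_add ha0]
      norm_num
    calc ρ ^ 2 * a ^ (1 / 2 : ℝ) ≤ κ ^ 2 * a ^ (-(2 / 3) : ℝ) * a ^ (1 / 2 : ℝ) :=
          mul_le_mul_of_nonneg_right e1 (by positivity)
      _ = κ ^ 2 * s := by rw [mul_assoc, e4]
  have hm : a ^ (-(1 / 2) : ℝ) ≤ κ ^ 2 * s := by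
    have e1 : a ^ (-(1 / 2) : ℝ) ≤ s := by
      rw [hs]
      exact Real.rpow_le_rpow_of_exponent_le ha1 (by norm_num)
    have e2 : (1 : ℝ) ≤ κ ^ 2 := one_le_pow₀ hκ
    calc a ^ (-(1 / 2) : ℝ) ≤ 1 * s := by rw [one_mul]; exact e1
      _ ≤ κ ^ 2 * s := mul_le_mul_of_nonneg_right e2 hs0.le
  have hpt : ∀ f ∈ EE Δ₀ y₀ β, RR h L ρ K f ≤ ENNReal.ofReal (Cb * (2 ^ 10 * (1 + log K) ^ 10 * (β ^ 17 * (K / √(Δ₀ / y₀)) ^ 17)) *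
      (2 * β ^ 2 * (κ ^ 2 * s)) ^ 10) := by
    intro f hf
    obtain ⟨hT, hy, g5, g8, g3, g4⟩ := geo28 hβ hΔ hy₀ hf
    obtain ⟨q1, q2, q3, q4⟩ := cmp28 hβ hΔ hy₀ hK hKT hTK hf
    rw [← ha] at q3 q4
    have hyS : yf f * ρ ≤ k₀ c₁ B := (mul_le_mul_of_nonneg_right g4 hρ).trans hk
    refine (hbase h ρ K f hh hT hy hρ (by linarith) hyS q1).trans (ENNReal.ofReal_le_ofReal ?_)
    have e1 : ρ ^ 2 * (Tf f * yf f ^ 2) ^ (1 / 2 : ℝ) + (Tf f * yf f ^ 2) ^ (-(1 / 2) : ℝ) ≤ 2 * β ^ 2 * (κ ^ 2 * s) := by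
      have e2 : ρ ^ 2 * (Tf f * yf f ^ 2) ^ (1 / 2 : ℝ) ≤ β ^ 2 * (κ ^ 2 * s) := by
        calc ρ ^ 2 * (Tf f * yf f ^ 2) ^ (1 / 2 : ℝ) ≤ ρ ^ 2 * (β ^ 2 * a ^ (1 / 2 : ℝ)) :=
              mul_le_mul_of_nonneg_left q3 (by positivity)
          _ = β ^ 2 * (ρ ^ 2 * a ^ (1 / 2 : ℝ)) := by ring
          _ ≤ β ^ 2 * (κ ^ 2 * s) := mul_le_mul_of_nonneg_left hρ2 (by positivity)
      have e3 : β ^ 2 * a ^ (-(1 / 2) : ℝ) ≤ β ^ 2 * (κ ^ 2 * s) := mul_le_mul_of_nonneg_left hm (by positivity)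
      linarith
    have e4 : (ρ ^ 2 * (Tf f * yf f ^ 2) ^ (1 / 2 : ℝ) + (Tf f * yf f ^ 2) ^ (-(1 / 2) : ℝ)) ^ 10 ≤ (2 * β ^ 2 * (κ ^ 2 * s)) ^ 10 :=
      pow_le_pow_left₀ (by positivity) e1 10
    have e5 : Cb * (1 + log (K / Tf f)) ^ 10 * (K / Tf f) ^ 17 * ρ ≤
        Cb * (2 ^ 10 * (1 + log K) ^ 10 * (β ^ 17 * (K / √(Δ₀ / y₀)) ^ 17)) := by
      have hlog1 : 0 ≤ log (K / Tf f) := Real.log_nonneg (by rwa [le_div_iff₀ hT, one_mul])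
      have e6 : 0 ≤ Cb * (1 + log (K / Tf f)) ^ 10 * (K / Tf f) ^ 17 := by positivity
      calc Cb * (1 + log (K / Tf f)) ^ 10 * (K / Tf f) ^ 17 * ρ ≤ Cb * (1 + log (K / Tf f)) ^ 10 * (K / Tf f) ^ 17 * 1 :=
            mul_le_mul_of_nonneg_left hρ1 e6
        _ = Cb * ((1 + log (K / Tf f)) ^ 10 * (K / Tf f) ^ 17) := by ring
        _ ≤ _ := mul_le_mul_of_nonneg_left q2 (by linarith)
    exact mul_le_mul e5 e4 (by positivity) (by positivity)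
  refine (hint Δ₀ y₀ _ _ hΔ hy₀ (by positivity) hpt).trans (ENNReal.ofReal_le_ofReal (le_of_eq ?_))
  rw [← ha, ← hs10]
  ring

end Pool.Agent.Helper86.LK
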