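import Pool.Agent.Helper86.LK.W2
import Pool.Agent.Helper60.LT.F2a
import Pool.Agent.Helper60.LT.LI

/-!
# LK-C1: stage C on one window at a fixed `x₀`

As `stageB` (LT-F2), with `windowF` (W2) and the pointwise estimate `ptB` (LT-F2a) at `x = x₀`.
-/

open MeasureTheory Real Set Filter Topology

set_option autoImplicit false

namespace Pool.Agent.Helper86.LK

open Pool.Agent.Helper60.LT
open Pool.Agent.Helper22.AE
open Pool.Agent.Helper92.GC (dt tp Tq uu tt arc gs dd)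
open Pool.Agent.Helper92.DT (m12 IsMul12 m12_nonneg)

private theorem sumlint_c1 {ι : Type} (s : Finset ι) (F : ι → ℝ → ENNReal) (μ : Measure ℝ) :
    ∑ i ∈ s, ∫⁻ T, F i T ∂μ ≤ ∫⁻ T, ∑ i ∈ s, F i T ∂μ := by
  classical
  induction s using Finset.induction_on with
  | empty => simp
  | insert i s hi ih =>
    rw [Finset.sum_insert hi]
    refine (add_le_add le_rfl ih).trans ((le_lintegral_add _ _).trans (le_of_eq ?_))
    refine lintegral_congr fun T => ?_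
    rw [Finset.sum_insert hi]

/-- the family at `x₀` is continuous in `T` -/
theorem Wc_c1 {p : ℝ → ℝ} {x₀ y : ℝ} (hy : y ≠ 0) {S : Finset (ℤ × ℤ)} (a : ℤ × ℤ → ℂ) (hS : ∀ k ∈ S, 0 < uu x₀ k) :
    Continuous fun T => W p y S a T x₀ := by
  obtain ⟨G, hGd⟩ : ∃ G : ℝ → ℝ → ℝ, G = fun R Z => lf p x₀ y S a R Z := ⟨_, rfl⟩
  have hG : Continuous (fun q : ℝ × ℝ => G q.1 q.2) := by
    rw [hGd]
    exact lf_cont a
  have h1 : (fun T => W p y S a T x₀) = fun T => G (y ^ 2 * T) 0 := by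
    funext T
    rw [hGd]
    exact lf_zero hy a hS
  rw [h1]
  exact hG.comp (by fun_prop : Continuous fun T : ℝ => (y ^ 2 * T, (0 : ℝ)))

private theorem ofReal_c1 {f : ℝ → ℝ} (hf : Continuous f) (h0 : ∀ T, 0 ≤ f T) (a b : ℝ) :
    ENNReal.ofReal (∫ T in Icc a b, f T) = ∫⁻ T in Icc a b, ENNReal.ofReal (f T) :=
  ofReal_integral_eq_lintegral_ofReal (hf.continuousOn.integrableOn_compact isCompact_Icc) (Eventually.of_forall fun T => h0 T)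

private lemma fin_c1 {ε C₁ E₁ κ z G K X cd C₄ Mm M κn : ℝ} (hε : 0 < ε) (hε1 : ε ≤ 1) (hz : 1 ≤ z) (hzK : z ≤ K) (hκ0 : 0 < κ) (hκz : κ ≤ z ^ 3) (hG : 1 ≤ G) (hM : 1 ≤ M)
    (hC₁ : 1 ≤ C₁) (hE₁ : 1 ≤ E₁) (hX : 0 < X) (hMm0 : 0 ≤ Mm) (hMm : Mm ≤ 100 * M * z ^ 2) (hcd0 : 0 ≤ cd) (hC₄ : 1 ≤ C₄) (hcd : cd ≤ C₄ * K ^ 4) (hκn : 0 ≤ κn) :
    C₁ * κ * z ^ ε * (z ^ 8 + z ^ 13 / G) * (Mm * (E₁ * X * cd ^ 12 * κn)) ≤ 200 * M * C₁ * E₁ * C₄ ^ 12 * (X * K ^ 200 * κn) := by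
  have hz0 : 0 < z := by linarith
  have hK1 : 1 ≤ K := hz.trans hzK
  have hzε : z ^ ε ≤ z := by
    have := Real.rpow_le_rpow_of_exponent_le hz hε1
    rwa [Real.rpow_one] at this
  have hzε0 : 0 ≤ z ^ ε := Real.rpow_nonneg hz0.le _
  have h1 : z ^ 8 + z ^ 13 / G ≤ 2 * z ^ 13 := by
    have a1 : z ^ 8 ≤ z ^ 13 := pow_le_pow_right₀ hz (by norm_num)
    have a2 : z ^ 13 / G ≤ z ^ 13 := div_le_self (by positivity) hG
    linarith
  have h2 : cd ^ 12 ≤ C₄ ^ 12 * K ^ 48 := by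
    refine (pow_le_pow_left₀ hcd0 hcd 12).trans (le_of_eq ?_)
    ring
  have h3 : z ^ 3 * z * (2 * z ^ 13) * (100 * M * z ^ 2) ≤ 200 * M * K ^ 19 := by
    have : z ^ 19 ≤ K ^ 19 := pow_le_pow_left₀ hz0.le hzK 19
    calc z ^ 3 * z * (2 * z ^ 13) * (100 * M * z ^ 2) = 200 * M * z ^ 19 := by ring
      _ ≤ _ := mul_le_mul_of_nonneg_left this (by positivity)
  have h4 : K ^ 19 * K ^ 48 ≤ K ^ 200 := by
    rw [← pow_add]
    exact pow_le_pow_right₀ hK1 (by norm_num)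
  have h5 : κ * z ^ ε * (z ^ 8 + z ^ 13 / G) * Mm ≤ 200 * M * K ^ 19 := by
    refine le_trans ?_ h3
    have b1 : κ * z ^ ε ≤ z ^ 3 * z := mul_le_mul hκz hzε hzε0 (by positivity)
    have b2 : 0 ≤ z ^ 8 + z ^ 13 / G := by positivity
    have b3 : κ * z ^ ε * (z ^ 8 + z ^ 13 / G) ≤ z ^ 3 * z * (2 * z ^ 13) := mul_le_mul b1 h1 b2 (by positivity)
    exact mul_le_mul b3 hMm hMm0 (by positivity)
  have h6 : 0 ≤ κ * z ^ ε * (z ^ 8 + z ^ 13 / G) * Mm := by positivity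
  calc C₁ * κ * z ^ ε * (z ^ 8 + z ^ 13 / G) * (Mm * (E₁ * X * cd ^ 12 * κn))
      = (C₁ * E₁ * X * κn) * ((κ * z ^ ε * (z ^ 8 + z ^ 13 / G) * Mm) * cd ^ 12) := by ring
    _ ≤ (C₁ * E₁ * X * κn) * ((200 * M * K ^ 19) * (C₄ ^ 12 * K ^ 48)) := by
        refine mul_le_mul_of_nonneg_left (mul_le_mul h5 h2 (by positivity) (by positivity)) (by positivity)
    _ = 200 * M * C₁ * E₁ * C₄ ^ 12 * (X * κn) * (K ^ 19 * K ^ 48) := by ring
    _ ≤ 200 * M * C₁ * E₁ * C₄ ^ 12 * (X * κn) * K ^ 200 := mul_le_mul_of_nonneg_left h4 (by positivity)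
    _ = _ := by ring

theorem stageC {ε c₁ B L : ℝ} (hε : 0 < ε) (hε1 : ε ≤ 1) (hc : 0 < c₁) (hc1 : c₁ ≤ 1) (hB : 1 ≤ B) (hL : 1 ≤ L) (n : ℕ) : ∃ C E : ℝ, 1 ≤ C ∧ 1 ≤ E ∧
    ∀ (h : ℝ × ℝ → ℝ) (θ y T₁ x₀ X K G κ ρ : ℝ), Hom c₁ B h → 0 < ρ → ρ ≤ 1 / 20 → 0 < y → 11 / 10 * (y * ρ) ≤ k₀ c₁ B →
      0 < X → 1 ≤ K * X → X ≤ T₁ → T₁ ≤ 2 * X → G = K * y ^ 2 → C ≤ κ → 2 * κ * ρ ^ 3 ≤ 1 → C * κ ≤ ρ ^ 2 * G → 1 ≤ K * ρ →
      ∫⁻ T in Icc T₁ (T₁ + X / (4 * κ)), QQ h L ρ K (fr θ y T x₀) ≤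
        (∫⁻ T in Icc (T₁ - X / 4) (T₁ + X / 4),
          ENNReal.ofReal (C * κ * (ρ⁻¹ ^ ε * (ρ⁻¹ ^ 8 + ρ⁻¹ ^ 13 / G))) * NS 36 (1 / ρ) (PP h (6 * L) 3 K) (fr θ y T x₀)) +
        ENNReal.ofReal (E * X * K ^ 200 * κ⁻¹ ^ n) := by
  classical
  obtain ⟨M, hM, C₁, E₁, hC₁, hE₁, hwin⟩ := windowF (ε := ε) (lam := 4 * L) hε hε1 hc hc1 hB (by linarith) n
  obtain ⟨C₂, hC₂, hpt⟩ := ptB hc hc1 hB hL hM
  obtain ⟨C₃, hC₃, hcard⟩ := st_card (L := 2 * L) (by linarith)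
  have hMr : (2 : ℝ) ≤ (M : ℝ) := by exact_mod_cast hM
  have hM0 : (0 : ℝ) < (M : ℝ) := by linarith
  have hM1 : (1 : ℝ) ≤ (M : ℝ) := by linarith
  obtain ⟨C₀, hC₀⟩ : ∃ C₀ : ℝ, C₀ = (24 ^ 4 + 24 ^ 6) ^ 12 := ⟨_, rfl⟩
  have hC₀1 : 1 ≤ C₀ := by
    rw [hC₀]
    norm_num
  have hC₀0 : 0 ≤ C₀ := by linarith
  have hC₁0 : 0 < C₁ := by linarith
  have hE₁0 : 0 < E₁ := by linarith
  have hC₂0 : 0 < C₂ := by linarith
  obtain ⟨Cb, hCb⟩ : ∃ Cb : ℝ, Cb = 200 * (M : ℝ) * (2 ^ 14 * C₁) * E₁ * (2 * C₃) ^ 12 := ⟨_, rfl⟩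
  have hCb0 : 0 ≤ Cb := by
    rw [hCb]
    positivity
  have hq2 : 0 ≤ C₀ * (2 ^ 14 * C₁) * C₂ := by positivity
  refine ⟨10 + C₁ + C₀ * (2 ^ 14 * C₁) * C₂, C₀ * Cb + 1, by linarith, by nlinarith [mul_nonneg hC₀0 hCb0], ?_⟩
  intro h θ y T₁ x₀ X K G κ ρ hh hρ hρ1 hy hyρ hX hKX hXT hTX hG hκ hκρ hCG hKρ
  have hκ10 : 10 ≤ κ := by linarith
  have hκ0 : 0 < κ := by linarith
  have hK0 : 0 < K := by
    by_contra hcon
    push Not at hcon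
    have : K * ρ ≤ 0 := mul_nonpos_of_nonpos_of_nonneg hcon hρ.le
    linarith
  obtain ⟨z, hz⟩ : ∃ z, z = ρ⁻¹ := ⟨_, rfl⟩
  have hρz : ρ * z = 1 := by
    rw [hz]
    exact mul_inv_cancel₀ hρ.ne'
  have hz0 : 0 < z := by
    rw [hz]
    positivity
  have hz1 : 1 ≤ z := by
    rw [hz, one_le_inv₀ hρ]
    linarith
  have hzK : z ≤ K := by
    have h1 := mul_le_mul_of_nonneg_right hKρ hz0.le
    have e : K * ρ * z = K * (ρ * z) := by ring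
    rw [e, hρz] at h1
    linarith
  have hK1 : 1 ≤ K := hz1.trans hzK
  have hG0 : 0 < G := by
    rw [hG]
    positivity
  have hL0 : 0 < L := by linarith
  have hT₁ : 0 < T₁ := by linarith
  have hκz : κ ≤ z ^ 3 := by
    have h1 := mul_le_mul_of_nonneg_right hκρ (by positivity : 0 ≤ z ^ 3)
    have e : 2 * κ * ρ ^ 3 * z ^ 3 = 2 * κ * (ρ * z) ^ 3 := by ring
    rw [e, hρz] at h1
    linarith
  have hG1 : 1 ≤ G := by
    have h1 : 10 ≤ ρ ^ 2 * G := by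
      have : 1 * κ ≤ (10 + C₁ + C₀ * (2 ^ 14 * C₁) * C₂) * κ := mul_le_mul_of_nonneg_right (by linarith) hκ0.le
      linarith
    have h2 : ρ ^ 2 * G ≤ 1 * G := mul_le_mul_of_nonneg_right (pow_le_one₀ hρ.le (by linarith)) hG0.le
    linarith
  -- the frequencies
  obtain ⟨Sw, hSw⟩ : ∃ Sw : Finset (ℤ × ℤ), ∀ k, k ∈ Sw ↔ k ∈ st (2 * L) (11 / 10 * ρ) K T₁ x₀ ∧ 2 / 5 * ρ * uu x₀ k < |(k.2 : ℝ)| :=
    ⟨(st (2 * L) (11 / 10 * ρ) K T₁ x₀).filter (fun k => 2 / 5 * ρ * uu x₀ k < |(k.2 : ℝ)|), fun k => Finset.mem_filter⟩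
  have hSw1 : ∀ k ∈ Sw, 0 < uu x₀ k ∧ K / X / (4 * L) ≤ uu x₀ k ∧ uu x₀ k ≤ 4 * L * (K / X) ∧ |tt x₀ k| ≤ 11 / 10 * ρ := by
    intro k hk
    have hk1 := ((hSw k).1 hk).1
    rw [mem_st hT₁ (by linarith) hK0 (by linarith)] at hk1
    obtain ⟨g1, g2, g3⟩ := hk1
    have hu : 0 < uu x₀ k := by
      by_contra hu
      push Not at hu
      have h1 : 2 * L * (T₁ * uu x₀ k) ≤ 0 :=
        mul_nonpos_of_nonneg_of_nonpos (by linarith) (mul_nonpos_of_nonneg_of_nonpos hT₁.le hu)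
      linarith
    refine ⟨hu, ?_, ?_, ?_⟩
    · rw [div_div, div_le_iff₀ (by positivity)]
      have h1 : 2 * L * (T₁ * uu x₀ k) ≤ 2 * L * (2 * X * uu x₀ k) :=
        mul_le_mul_of_nonneg_left (mul_le_mul_of_nonneg_right hTX hu.le) (by linarith)
      have e : uu x₀ k * (X * (4 * L)) = 2 * L * (2 * X * uu x₀ k) := by ring
      linarith
    · rw [← mul_div_assoc, le_div_iff₀ hX]
      have h1 : X * uu x₀ k ≤ T₁ * uu x₀ k := mul_le_mul_of_nonneg_right hXT hu.le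
      have h2 : 0 < L * K := by positivity
      have e1 : uu x₀ k * X = X * uu x₀ k := by ring
      have e2 : 4 * L * K = 2 * (2 * L * K) := by ring
      have e3 : 2 * L * K = 2 * (L * K) := by ring
      linarith
    · unfold tt
      rw [abs_div, abs_of_pos hu, div_le_iff₀ hu]
      exact g3
  obtain ⟨p, hp⟩ : ∃ p, p = sl h θ := ⟨_, rfl⟩
  have hpc : Cv c₁ B p := by
    rw [hp]
    exact hh.cv θ
  have hX4 : X / (4 * κ) ≤ X / 40 := div_le_div_of_nonneg_left hX.le (by norm_num) (by linarith)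
  -- step 1
  have s1 : ∫⁻ T in Icc T₁ (T₁ + X / (4 * κ)), QQ h L ρ K (fr θ y T x₀) ≤
      ENNReal.ofReal C₀ * ENNReal.ofReal (∫ T in Icc T₁ (T₁ + X / (4 * κ)), W p y Sw (fun _ => 1) T x₀) := by
    have h1 : ∫⁻ T in Icc T₁ (T₁ + X / (4 * κ)), QQ h L ρ K (fr θ y T x₀) ≤
        ∫⁻ T in Icc T₁ (T₁ + X / (4 * κ)), ENNReal.ofReal C₀ * ENNReal.ofReal (W p y Sw (fun _ => 1) T x₀) := by
      refine setLIntegral_mono' measurableSet_Icc fun T hT => ?_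
      have hT0 : 0 < T := by linarith [hT.1]
      rw [QQ_fr hh hT0 hL0 hK0 hρ.le, ← ENNReal.ofReal_mul (by linarith), ← hp]
      refine ENNReal.ofReal_le_ofReal ?_
      have hxs : |x₀ - x₀| * ρ ≤ 1 / 40 := by
        rw [sub_self, abs_zero, zero_mul]
        norm_num
      have h2 : sh L ρ K T x₀ ⊆ Sw := fun k hk =>
        (hSw k).2 ((base_sub hL hK0 hρ.le hT₁ hT.1 (by linarith [hT.2]) hxs).2.2 k hk)
      have h3 := m12_cut (sh_cut (x := x₀) hT0 hL0 hK0 hρ.le) h2 (fun k => (1 : ℂ) * ee (T * pf p x₀ y k))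
      rw [← hC₀] at h3
      unfold W
      exact h3
    refine h1.trans (le_of_eq ?_)
    rw [lintegral_const_mul' _ _ ENNReal.ofReal_ne_top, ofReal_c1 (Wc_c1 hy.ne' _ fun k hk => (hSw1 k hk).1) fun T => m12_nonneg _ _]
  -- step 2: decoupling
  obtain ⟨m, hm1, hm2⟩ : ∃ m : ℕ, 100 * ρ⁻¹ ^ 2 ≤ (M : ℝ) ^ m ∧ (M : ℝ) ^ m < 100 * M * ρ⁻¹ ^ 2 := by
    have hex : ∃ m : ℕ, 100 * ρ⁻¹ ^ 2 ≤ (M : ℝ) ^ m := by
      obtain ⟨m, hm⟩ := pow_unbounded_of_one_lt (100 * ρ⁻¹ ^ 2) (by linarith : (1 : ℝ) < M)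
      exact ⟨m, hm.le⟩
    refine ⟨Nat.find hex, Nat.find_spec hex, ?_⟩
    have hz2 : (1 : ℝ) ≤ ρ⁻¹ ^ 2 := by
      rw [← hz]
      exact one_le_pow₀ hz1
    rcases Nat.eq_zero_or_pos (Nat.find hex) with h0 | h0
    · rw [h0, pow_zero]
      have hz3 : (1 : ℝ) ≤ M * ρ⁻¹ ^ 2 := one_le_mul_of_one_le_of_one_le hM1 hz2
      linarith
    · have h1 := Nat.find_min hex (Nat.sub_one_lt (Nat.pos_iff_ne_zero.mp h0))
      push Not at h1
      have e : (M : ℝ) ^ (Nat.find hex) = M * (M : ℝ) ^ (Nat.find hex - 1) := by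
        rw [← pow_succ', Nat.sub_add_cancel h0]
      rw [e]
      have h2 := mul_lt_mul_of_pos_left h1 hM0
      linarith
  have e11 : (11 / 10 * ρ)⁻¹ = 10 / 11 * z := by
    rw [mul_inv, ← hz]
    norm_num
  have hw := hwin m p x₀ y (11 / 10 * ρ) X T₁ (K / X) G κ (fun _ => 1) Sw hpc (fun _ => by simp) hy (by positivity) (by linarith)
    (by linarith) (by positivity) hX (by linarith) (by rw [hG]; field_simp) (by
      have e : κ * (11 / 10 * ρ) ^ 3 = 1331 / 2000 * (2 * κ * ρ ^ 3) := by ring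
      rw [e]
      linarith) (by
      have h1 : C₁ * κ ≤ (10 + C₁ + C₀ * (2 ^ 14 * C₁) * C₂) * κ := mul_le_mul_of_nonneg_right (by linarith) hκ0.le
      have h2 : 0 ≤ ρ ^ 2 * G := by positivity
      have e : (11 / 10 * ρ) ^ 2 * G = 121 / 100 * (ρ ^ 2 * G) := by ring
      rw [e]
      linarith) (fun k hk => (hSw1 k hk).2) (by
      rw [e11]
      rw [← hz] at hm1
      have h1 : 0 ≤ z ^ 2 := by positivity
      have e : 80 * (10 / 11 * z) ^ 2 = 8000 / 121 * z ^ 2 := by ring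
      rw [e]
      linarith) (by
      rw [e11]
      rw [← hz] at hm2
      have h1 : 0 ≤ (M : ℝ) * z ^ 2 := by positivity
      have e : 200 * (M : ℝ) * (10 / 11 * z) ^ 2 = 20000 / 121 * (M * z ^ 2) := by ring
      have e2 : 100 * (M : ℝ) * z ^ 2 = 100 * (M * z ^ 2) := by ring
      rw [e]
      linarith)
  rw [e11] at hw
  obtain ⟨A, hA⟩ : ∃ A : ℝ, A = ∫ T in Icc T₁ (T₁ + X / (4 * κ)), W p y Sw (fun _ => 1) T x₀ := ⟨_, rfl⟩
  rw [← hA] at hw s1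
  obtain ⟨b, hb⟩ : ∃ b : ℕ → ℝ, b = fun r => ∫ T in Icc (T₁ - X / 4) (T₁ + X / 4), W p y (arc x₀ Sw (M ^ m) r) (fun _ => 1) T x₀ := ⟨_, rfl⟩
  have hb0 : ∀ r, 0 ≤ b r := by
    intro r
    rw [hb]
    exact setIntegral_nonneg measurableSet_Icc fun T _ => m12_nonneg _ _
  have hzε0 : 0 ≤ z ^ ε := Real.rpow_nonneg hz0.le _
  have hw2 : A ≤ C₁ * κ * z ^ ε * (z ^ 8 + z ^ 13 / G) * (∑ r ∈ Finset.range (M ^ m), b r + (M : ℝ) ^ m * (E₁ * X * (Sw.card : ℝ) ^ 12 * κ⁻¹ ^ n)) := by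
    refine hw.trans ?_
    have e1 : ∑ r ∈ Finset.range (M ^ m), ((∫ T in Icc (T₁ - X / 4) (T₁ + X / 4), W p y (arc x₀ Sw (M ^ m) r) (fun _ => 1) T x₀) + E₁ * X * (Sw.card : ℝ) ^ 12 * κ⁻¹ ^ n) =
        ∑ r ∈ Finset.range (M ^ m), b r + (M : ℝ) ^ m * (E₁ * X * (Sw.card : ℝ) ^ 12 * κ⁻¹ ^ n) := by
      rw [Finset.sum_add_distrib, Finset.sum_const, Finset.card_range, nsmul_eq_mul, hb]
      push_cast
      rfl
    rw [e1]
    have hSg0 : 0 ≤ ∑ r ∈ Finset.range (M ^ m), b r := Finset.sum_nonneg fun r _ => hb0 r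
    refine mul_le_mul_of_nonneg_right ?_ (by positivity)
    have e2 : (10 / 11 * z) ^ ε ≤ z ^ ε := Real.rpow_le_rpow (by positivity) (by linarith) hε.le
    have e3 : (10 / 11 * z) ^ 8 + (10 / 11 * z) ^ 13 / G ≤ z ^ 8 + z ^ 13 / G := by
      have a1 : (10 / 11 * z) ^ 8 ≤ z ^ 8 := pow_le_pow_left₀ (by positivity) (by linarith) 8
      have a2 : (10 / 11 * z) ^ 13 ≤ z ^ 13 := pow_le_pow_left₀ (by positivity) (by linarith) 13
      exact add_le_add a1 (div_le_div_of_nonneg_right a2 hG0.le)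
    have e4 : 0 ≤ (10 / 11 * z) ^ 8 + (10 / 11 * z) ^ 13 / G := by positivity
    exact mul_le_mul (mul_le_mul_of_nonneg_left e2 (by positivity)) e3 e4 (by positivity)
  have hcc : (Sw.card : ℝ) ≤ 2 * C₃ * K ^ 4 := by
    have h1 : (Sw.card : ℝ) ≤ ((st (2 * L) (11 / 10 * ρ) K T₁ x₀).card : ℝ) := by
      exact_mod_cast Finset.card_le_card fun k hk => ((hSw k).1 hk).1
    have h2 := hcard (11 / 10 * ρ) K T₁ x₀ hT₁ hK0 (by linarith) (by linarith)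
    have h3 : K / T₁ ≤ K ^ 2 := by
      rw [div_le_iff₀ hT₁]
      have a1 : 1 ≤ K * T₁ := hKX.trans (mul_le_mul_of_nonneg_left hXT hK0.le)
      have a2 := mul_le_mul_of_nonneg_left a1 hK0.le
      have a3 : K * (K * T₁) = K ^ 2 * T₁ := by ring
      linarith
    have h30 : 0 ≤ K / T₁ := by positivity
    have h4 : (K / T₁) ^ 2 ≤ K ^ 4 := by
      have := pow_le_pow_left₀ h30 h3 2
      refine this.trans (le_of_eq ?_)
      ring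
    have h5 : K ^ 2 ≤ K ^ 4 := pow_le_pow_right₀ hK1 (by norm_num)
    have h6 : 11 / 10 * ρ * (K / T₁) ^ 2 + K / T₁ ≤ 2 * K ^ 4 := by
      have a1 : 11 / 10 * ρ * (K / T₁) ^ 2 ≤ 1 * K ^ 4 := mul_le_mul (by linarith) h4 (by positivity) (by norm_num)
      linarith
    have h7 := mul_le_mul_of_nonneg_left h6 (by linarith : 0 ≤ C₃)
    linarith
  have hκn : 0 ≤ κ⁻¹ ^ n := by positivity
  have hfin := fin_c1 (ε := ε) (C₁ := C₁) (E₁ := E₁) (κ := κ) (z := z) (G := G) (K := K) (X := X) (cd := Sw.card) (C₄ := 2 * C₃) (Mm := (M : ℝ) ^ m) (M := M) (κn := κ⁻¹ ^ n)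
    hε hε1 hz1 hzK hκ0 hκz hG1 hM1 hC₁ hE₁ hX (by positivity) (by rw [← hz] at hm2; exact hm2.le) (by positivity) (by linarith) hcc hκn
  have hw3 : A ≤ 2 ^ 14 * C₁ * (κ * (z ^ ε * (z ^ 8 + z ^ 13 / G))) * ∑ r ∈ Finset.range (M ^ m), b r + Cb * (X * K ^ 200 * κ⁻¹ ^ n) := by
    refine hw2.trans ?_
    rw [mul_add]
    have hSg0 : 0 ≤ ∑ r ∈ Finset.range (M ^ m), b r := Finset.sum_nonneg fun r _ => hb0 r
    have h0 : 0 ≤ κ * (z ^ ε * (z ^ 8 + z ^ 13 / G)) := by positivity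
    refine add_le_add ?_ (hfin.trans ?_)
    · refine mul_le_mul_of_nonneg_right ?_ hSg0
      have e : C₁ * κ * z ^ ε * (z ^ 8 + z ^ 13 / G) = C₁ * (κ * (z ^ ε * (z ^ 8 + z ^ 13 / G))) := by ring
      rw [e]
      refine mul_le_mul_of_nonneg_right ?_ h0
      linarith
    · rw [hCb]
      have h1 : 0 ≤ X * K ^ 200 * κ⁻¹ ^ n := by positivity
      refine mul_le_mul_of_nonneg_right ?_ h1
      have h2 : 0 ≤ 200 * (M : ℝ) * C₁ * E₁ * (2 * C₃) ^ 12 := by positivity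
      have e : 200 * (M : ℝ) * (2 ^ 14 * C₁) * E₁ * (2 * C₃) ^ 12 = 2 ^ 14 * (200 * (M : ℝ) * C₁ * E₁ * (2 * C₃) ^ 12) := by ring
      rw [e]
      linarith
  -- step 3: the sum over the arcs
  have s3 : ENNReal.ofReal (∑ r ∈ Finset.range (M ^ m), b r) ≤ ENNReal.ofReal C₂ *
      ∫⁻ T in Icc (T₁ - X / 4) (T₁ + X / 4), NS 36 (1 / ρ) (PP h (6 * L) 3 K) (fr θ y T x₀) := by
    rw [ENNReal.ofReal_sum_of_nonneg fun r _ => hb0 r]
    have hsubS : ∀ r, arc x₀ Sw (M ^ m) r ⊆ Sw := fun r => by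
      unfold arc
      exact Finset.filter_subset _ _
    have h8 : ∀ r ∈ Finset.range (M ^ m), ENNReal.ofReal (b r) = ∫⁻ T in Icc (T₁ - X / 4) (T₁ + X / 4),
        ENNReal.ofReal (W p y (arc x₀ Sw (M ^ m) r) (fun _ => 1) T x₀) := by
      intro r _
      rw [hb]
      simp only
      exact ofReal_c1 (Wc_c1 hy.ne' _ fun k hk => (hSw1 k (hsubS r hk)).1) (fun T => m12_nonneg _ _) _ _
    rw [Finset.sum_congr rfl h8]
    refine (sumlint_c1 _ _ _).trans ?_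
    rw [← lintegral_const_mul' _ _ ENNReal.ofReal_ne_top]
    refine setLIntegral_mono' measurableSet_Icc fun T hT => ?_
    have hT0 : 0 < T := by linarith [hT.1]
    have hTT : |T - T₁| ≤ T₁ / 4 := by
      rw [abs_le]
      constructor <;> linarith [hT.1, hT.2]
    have h9 := hpt h θ y T₁ x₀ K ρ T x₀ m Sw hh hρ hρ1 hy hyρ hT₁ hK0 hSw hm1 hm2 hTT (by rw [sub_self, abs_zero]; norm_num)
    refine le_trans (le_of_eq ?_) h9
    refine Finset.sum_congr rfl fun r _ => ?_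
    congr 1
    unfold W
    refine Pool.Agent.Helper92.DT.m12_congr fun k hk => ?_
    have hkS : k ∈ Sw := hsubS r hk
    rw [one_mul, vf_fr hh hT0 (hSw1 k hkS).1, hp]
  -- assembly
  have hSg0 : 0 ≤ ∑ r ∈ Finset.range (M ^ m), b r := Finset.sum_nonneg fun r _ => hb0 r
  have hKn : 0 ≤ X * K ^ 200 * κ⁻¹ ^ n := by positivity
  obtain ⟨wt, hwt⟩ : ∃ wt, wt = z ^ ε * (z ^ 8 + z ^ 13 / G) := ⟨_, rfl⟩
  have hwt0 : 0 ≤ wt := by
    rw [hwt]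
    positivity
  rw [← hz, ← hwt]
  rw [← hwt] at hw3
  calc ∫⁻ T in Icc T₁ (T₁ + X / (4 * κ)), QQ h L ρ K (fr θ y T x₀)
      ≤ ENNReal.ofReal C₀ * ENNReal.ofReal A := s1
    _ ≤ ENNReal.ofReal C₀ * ENNReal.ofReal (2 ^ 14 * C₁ * (κ * wt) * ∑ r ∈ Finset.range (M ^ m), b r + Cb * (X * K ^ 200 * κ⁻¹ ^ n)) := by
        gcongr
    _ = ENNReal.ofReal (C₀ * (2 ^ 14 * C₁ * (κ * wt))) * ENNReal.ofReal (∑ r ∈ Finset.range (M ^ m), b r) +
          ENNReal.ofReal (C₀ * (Cb * (X * K ^ 200 * κ⁻¹ ^ n))) := by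
        rw [← ENNReal.ofReal_mul hC₀0, ← ENNReal.ofReal_mul (by positivity), ← ENNReal.ofReal_add (by positivity) (by positivity)]
        congr 1
        ring
    _ ≤ ENNReal.ofReal (C₀ * (2 ^ 14 * C₁ * (κ * wt))) * (ENNReal.ofReal C₂ *
          ∫⁻ T in Icc (T₁ - X / 4) (T₁ + X / 4), NS 36 (1 / ρ) (PP h (6 * L) 3 K) (fr θ y T x₀)) +
          ENNReal.ofReal ((C₀ * Cb + 1) * X * K ^ 200 * κ⁻¹ ^ n) := by
        refine add_le_add (by gcongr) (ENNReal.ofReal_le_ofReal ?_)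
        have e : (C₀ * Cb + 1) * X * K ^ 200 * κ⁻¹ ^ n = C₀ * (Cb * (X * K ^ 200 * κ⁻¹ ^ n)) + X * K ^ 200 * κ⁻¹ ^ n := by ring
        rw [e]
        linarith
    _ ≤ _ := by
        refine add_le_add ?_ le_rfl
        rw [lintegral_const_mul' _ _ ENNReal.ofReal_ne_top, ← mul_assoc, ← ENNReal.ofReal_mul (by positivity)]
        refine mul_le_mul_left ?_ _
        refine ENNReal.ofReal_le_ofReal ?_
        have e : C₀ * (2 ^ 14 * C₁ * (κ * wt)) * C₂ = C₀ * (2 ^ 14 * C₁) * C₂ * (κ * wt) := by ring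
        have e2 : (10 + C₁ + C₀ * (2 ^ 14 * C₁) * C₂) * κ * wt = (10 + C₁ + C₀ * (2 ^ 14 * C₁) * C₂) * (κ * wt) := by ring
        rw [e, e2]
        exact mul_le_mul_of_nonneg_right (by linarith) (by positivity)

end Pool.Agent.Helper86.LK
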