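import Pool.Agent.Helper86.LK.DefB
import Pool.Agent.Helper86.LK.C1
import Pool.Agent.Helper60.LT.F4

/-!
# LK-C2: the new shells for frames

`stageC` (C1) at every fixed `x`, integrated over `x` (interchange of the integrals), `grid` (D3) with `ξ₁ = 1/(16 κ)`, `lift` (D1), `unf` (D2) with `D = 1/ρ`, as in `shell96` of LT/F4.
-/

open MeasureTheory Real Set Filter Topology

set_option autoImplicit false

namespace Pool.Agent.Helper86.LK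

open Pool.Agent.Helper60.LT

private theorem wC_le {ε ρ G G₀ b : ℝ} (hρ : 0 < ρ) (hG : 0 < G) (hG₀ : 0 < G₀) (hb : 1 ≤ b) (h : G₀ ≤ b * G) :
    ρ⁻¹ ^ ε * (ρ⁻¹ ^ 8 + ρ⁻¹ ^ 13 / G) ≤ b * (ρ ^ (-(8 + ε)) + ρ ^ (-(13 + ε)) / G₀) := by
  have e1 : ∀ m : ℕ, ρ⁻¹ ^ ε * ρ⁻¹ ^ m = ρ ^ (-((m : ℝ) + ε)) := by
    intro m
    rw [← Real.rpow_natCast ρ⁻¹ m, ← Real.rpow_add (by positivity), Real.inv_rpow hρ.le, ← Real.rpow_neg hρ.le]
    congr 1
    ring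
  have e8 := e1 8
  have e13 := e1 13
  push_cast at e8 e13
  have p8 : 0 < ρ ^ (-(8 + ε)) := Real.rpow_pos_of_pos hρ _
  have p13 : 0 < ρ ^ (-(13 + ε)) := Real.rpow_pos_of_pos hρ _
  have e2 : ρ⁻¹ ^ ε * (ρ⁻¹ ^ 8 + ρ⁻¹ ^ 13 / G) = ρ ^ (-(8 + ε)) + ρ ^ (-(13 + ε)) / G := by
    rw [← e8, ← e13]
    ring
  have h1 : ρ ^ (-(13 + ε)) / G ≤ b * (ρ ^ (-(13 + ε)) / G₀) := by
    rw [mul_div_assoc', div_le_div_iff₀ hG hG₀]
    nlinarith
  have h2 : ρ ^ (-(8 + ε)) ≤ b * ρ ^ (-(8 + ε)) := le_mul_of_one_le_left p8.le hb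
  rw [e2, mul_add]
  exact add_le_add h2 h1

theorem shellC {ε c₁ B L β : ℝ} (hε : 0 < ε) (hε1 : ε ≤ 1) (hc : 0 < c₁) (hc1 : c₁ ≤ 1) (hB : 1 ≤ B) (hL : 1 ≤ L)
    (hβ : 1 ≤ β) (n : ℕ) : ∃ C β' E : ℝ, 1 ≤ C ∧ 1 ≤ β' ∧ 1 ≤ E ∧
    ∀ (h : ℝ × ℝ → ℝ) (Δ₀ y₀ K κ ρ : ℝ), Hom c₁ B h → 0 < Δ₀ → 0 < y₀ → 0 < ρ → ρ ≤ 1 / 20 →
      11 / 10 * (β * y₀ * ρ) ≤ k₀ c₁ B → β * y₀ ≤ K → β ≤ K * √(Δ₀ / y₀) → β * √(Δ₀ / y₀) ≤ K → C ≤ κ →
      2 * κ * ρ ^ 3 ≤ 1 → C * κ ≤ ρ ^ 2 * (K * y₀ ^ 2) → 1 ≤ K * ρ →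
      ∫⁻ f in EE Δ₀ y₀ β, QQ h L ρ K f ≤ ENNReal.ofReal (C * κ ^ 3 * (ρ ^ (-(8 + ε)) + ρ ^ (-(13 + ε)) / (K * y₀ ^ 2))) *
        (∫⁻ f in EE Δ₀ (y₀ * ρ ^ 2) β', PP h (6 * L) 3 K f) +
        ENNReal.ofReal (E * κ * (Δ₀ ^ 2 / y₀) * K ^ 200 * κ⁻¹ ^ n) := by
  obtain ⟨C₂, E₂, hC₂, hE₂, hst⟩ := stageC hε hε1 hc hc1 hB hL n
  obtain ⟨Cl, hCl, hlift⟩ := lift hβ
  obtain ⟨βu, hβu⟩ : ∃ βu : ℝ, βu = max 36 (16 * β ^ 3) := ⟨_, rfl⟩
  have hβu1 : 1 ≤ βu := by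
    rw [hβu]
    exact le_trans (by norm_num) (le_max_left _ _)
  obtain ⟨Cu, β', hCu, hβ', hunf⟩ := unf hβu1
  have hβ0 : 0 < β := by linarith
  have hβ2 : 1 ≤ β ^ 2 := one_le_pow₀ hβ
  have hC0 : 1 ≤ C₂ * β ^ 2 := one_le_mul_of_one_le_of_one_le hC₂ hβ2
  have hC₂le : C₂ ≤ C₂ * β ^ 2 := le_mul_of_one_le_right (by linarith) hβ2
  refine ⟨max (4 + C₂ * β ^ 2) (Cl * 100 * (C₂ * β ^ 2) * Cu), β', Cl * 10 * E₂, le_trans (by linarith) (le_max_left _ _), hβ', ?_, ?_⟩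
  · nlinarith
  intro h Δ₀ y₀ K κ ρ hh hΔ hy₀ hρ hρ1 hk hyK hKT hTK hκC hκρ hCκ hKρ
  have hT₀ : 0 < √(Δ₀ / y₀) := Real.sqrt_pos.2 (by positivity)
  have hK : 0 < K := lt_of_lt_of_le (by positivity) hyK
  have hκ' : 4 + C₂ * β ^ 2 ≤ κ := le_trans (le_max_left _ _) hκC
  have hκ4 : 4 ≤ κ := by linarith
  have hκ0 : 0 < κ := by linarith
  have hC₂0 : 0 < C₂ := by linarith
  have hE₂0 : 0 < E₂ := by linarith
  have hCl0 : 0 < Cl := by linarith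
  have hCu0 : 0 < Cu := by linarith
  have hL6 : 0 < 6 * L := by linarith
  have hG₀ : 0 < K * y₀ ^ 2 := by positivity
  obtain ⟨w, hw⟩ : ∃ w : ℝ, w = ρ ^ (-(8 + ε)) + ρ ^ (-(13 + ε)) / (K * y₀ ^ 2) := ⟨_, rfl⟩
  have hw0 : 0 < w := by
    rw [hw]
    have p8 : 0 < ρ ^ (-(8 + ε)) := Real.rpow_pos_of_pos hρ _
    have p13 : 0 < ρ ^ (-(13 + ε)) := Real.rpow_pos_of_pos hρ _
    positivity
  rw [← hw]
  have hPm : Measurable (PP h (6 * L) 3 K) := PP_meas hh.cont _ _ _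
  have hNm : Measurable (NS 36 (1 / ρ) (PP h (6 * L) 3 K)) := NS_meas hPm _ _
  have hfm : ∀ θ y : ℝ, Measurable (fun z : ℝ × ℝ => fr θ y z.1 z.2) := fun θ y =>
    fr_meas.comp (measurable_const.prodMk (measurable_const.prodMk measurable_id))
  have h1 := hlift (QQ h L ρ K) (fun f => ENNReal.ofReal (100 * κ ^ 2) *
      (ENNReal.ofReal (C₂ * κ * (β ^ 2 * w)) * NS 36 (1 / ρ) (PP h (6 * L) 3 K) f))
    (ENNReal.ofReal (10 * E₂ * κ * K ^ 200 * κ⁻¹ ^ n)) Δ₀ y₀ (QQ_meas hh.cont L ρ K)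
    ((hNm.const_mul _).const_mul _) hΔ hy₀ (by
      intro θ y X e1 e2 e3 e4
      have hy : 0 < y := by
        by_contra hcon
        have : β * y ≤ 0 := mul_nonpos_of_nonneg_of_nonpos hβ0.le (not_lt.1 hcon)
        linarith
      have hX : 0 < X := by
        by_contra hcon
        have : β * X ≤ 0 := mul_nonpos_of_nonneg_of_nonpos hβ0.le (not_lt.1 hcon)
        linarith
      have hKX : 1 ≤ K * X := by
        have g1 : K * √(Δ₀ / y₀) ≤ K * (β * X) := mul_le_mul_of_nonneg_left e3 hK.le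
        have g2 : β * 1 ≤ β * (K * X) := by linarith
        exact le_of_mul_le_mul_left g2 hβ0
      have hG : 0 < K * y ^ 2 := by positivity
      have hG0 : K * y₀ ^ 2 ≤ β ^ 2 * (K * y ^ 2) := by
        have g1 : y₀ ^ 2 ≤ (β * y) ^ 2 := pow_le_pow_left₀ hy₀.le e1 2
        have g2 := mul_le_mul_of_nonneg_left g1 hK.le
        linarith
      have hC₂κ : C₂ * κ ≤ ρ ^ 2 * (K * y ^ 2) := by
        have g1 : C₂ * β ^ 2 * κ ≤ ρ ^ 2 * (β ^ 2 * (K * y ^ 2)) := by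
          refine le_trans ?_ (mul_le_mul_of_nonneg_left hG0 (by positivity))
          refine le_trans (mul_le_mul_of_nonneg_right ?_ hκ0.le) hCκ
          exact le_trans (by linarith) (le_max_left _ _)
        have g2 : β ^ 2 * (C₂ * κ) ≤ β ^ 2 * (ρ ^ 2 * (K * y ^ 2)) := by linarith
        exact le_of_mul_le_mul_left g2 (by positivity)
      obtain ⟨ξ₁, hξ⟩ : ∃ ξ₁ : ℝ, ξ₁ = 1 / (16 * κ) := ⟨_, rfl⟩
      have hξ0 : 0 < ξ₁ := by
        rw [hξ]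
        positivity
      have hκξ : 16 * κ * ξ₁ = 1 := by
        rw [hξ]
        field_simp
      have hwle : C₂ * κ * (ρ⁻¹ ^ ε * (ρ⁻¹ ^ 8 + ρ⁻¹ ^ 13 / (K * y ^ 2))) ≤ C₂ * κ * (β ^ 2 * w) := by
        refine mul_le_mul_of_nonneg_left ?_ (by positivity)
        rw [hw]
        exact wC_le hρ hG hG₀ hβ2 hG0
      have hFm : Measurable (fun z : ℝ × ℝ => QQ h L ρ K (fr θ y z.1 z.2)) := (QQ_meas hh.cont L ρ K).comp (hfm θ y)
      have hGm : Measurable (fun z : ℝ × ℝ => ENNReal.ofReal (C₂ * κ * (β ^ 2 * w)) *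
          NS 36 (1 / ρ) (PP h (6 * L) 3 K) (fr θ y z.1 z.2)) := (hNm.comp (hfm θ y)).const_mul _
      have hg := grid (F := fun T x => QQ h L ρ K (fr θ y T x))
        (G := fun T x => ENNReal.ofReal (C₂ * κ * (β ^ 2 * w)) * NS 36 (1 / ρ) (PP h (6 * L) 3 K) (fr θ y T x))
        hFm hGm hX hκ4 hξ0 hκξ.le
        (A := ENNReal.ofReal (E₂ * X * K ^ 200 * κ⁻¹ ^ n * ξ₁)) (fun T₁ x₀ t1 t2 _ _ => by
          rw [lintegral_lintegral_swap hFm.aemeasurable]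
          have s1 : ∀ x : ℝ, ∫⁻ T in Icc T₁ (T₁ + X / (4 * κ)), QQ h L ρ K (fr θ y T x) ≤
              (∫⁻ T in Icc (T₁ - X / 4) (T₁ + X / 4), ENNReal.ofReal (C₂ * κ * (β ^ 2 * w)) *
                NS 36 (1 / ρ) (PP h (6 * L) 3 K) (fr θ y T x)) + ENNReal.ofReal (E₂ * X * K ^ 200 * κ⁻¹ ^ n) := by
            intro x
            refine (hst h θ y T₁ x X K (K * y ^ 2) κ ρ hh hρ hρ1 hy (by
              refine le_trans ?_ hk
              have : y * ρ ≤ β * y₀ * ρ := mul_le_mul_of_nonneg_right e2 hρ.le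
              linarith) hX hKX t1 t2 rfl (by linarith) hκρ hC₂κ hKρ).trans ?_
            refine add_le_add (lintegral_mono fun T => ?_) le_rfl
            exact mul_le_mul' (ENNReal.ofReal_le_ofReal hwle) le_rfl
          have hsec : Measurable (fun x : ℝ => ∫⁻ T in Icc (T₁ - X / 4) (T₁ + X / 4), ENNReal.ofReal (C₂ * κ * (β ^ 2 * w)) *
                NS 36 (1 / ρ) (PP h (6 * L) 3 K) (fr θ y T x)) := hGm.lintegral_prod_left'
          refine (lintegral_mono fun x => s1 x).trans ?_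
          rw [lintegral_add_left hsec, setLIntegral_const, Real.volume_Icc, ← ENNReal.ofReal_mul (by positivity)]
          have e5 : x₀ + ξ₁ - x₀ = ξ₁ := by ring
          rw [e5]
          refine add_le_add ?_ le_rfl
          rw [← lintegral_lintegral_swap hGm.aemeasurable]
          refine lintegral_mono fun T => lintegral_mono_set (Icc_subset_Icc ?_ ?_)
          · have : 0 < 8 * κ * ξ₁ := by positivity
            linarith
          · have : ξ₁ ≤ 8 * κ * ξ₁ := le_mul_of_one_le_left hξ0.le (by linarith)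
            linarith)
      refine hg.trans (le_of_eq ?_)
      congr 1
      · rw [← lintegral_const_mul' _ _ ENNReal.ofReal_ne_top]
        refine lintegral_congr fun T => ?_
        rw [← lintegral_const_mul' _ _ ENNReal.ofReal_ne_top]
      · rw [← ENNReal.ofReal_mul (by positivity), ← ENNReal.ofReal_mul hX.le]
        congr 1
        field_simp)
  refine h1.trans ?_
  have h2 : ∫⁻ f in EX Δ₀ y₀ (16 * β ^ 3), ENNReal.ofReal (100 * κ ^ 2) *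
      (ENNReal.ofReal (C₂ * κ * (β ^ 2 * w)) * NS 36 (1 / ρ) (PP h (6 * L) 3 K) f) ≤
      ENNReal.ofReal (100 * κ ^ 2) * (ENNReal.ofReal (C₂ * κ * (β ^ 2 * w)) *
        (ENNReal.ofReal Cu * ∫⁻ f in EE Δ₀ (y₀ * ρ ^ 2) β', PP h (6 * L) 3 K f)) := by
    rw [lintegral_const_mul' _ _ ENNReal.ofReal_ne_top, lintegral_const_mul' _ _ ENNReal.ofReal_ne_top]
    refine mul_le_mul_right ?_ _
    refine mul_le_mul_right ?_ _
    have h3 := hunf (PP h (6 * L) 3 K) Δ₀ y₀ (1 / ρ) hPm (fun f hf => PP_shear hL6 hK (by norm_num) f hf) hΔ hy₀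
      (by positivity)
    have h4 : y₀ / (1 / ρ) ^ 2 = y₀ * ρ ^ 2 := by
      field_simp
    rw [h4] at h3
    refine le_trans ?_ h3
    refine (lintegral_mono_set (EX_mono (hβu ▸ le_max_right _ _) (by positivity) hΔ.le hy₀.le)).trans ?_
    exact lintegral_mono fun f => NS_mono (hβu ▸ le_max_left _ _) (by positivity) _ f
  rw [mul_add]
  refine add_le_add ((mul_le_mul_right h2 _).trans ?_) (le_of_eq ?_)
  · rw [← mul_assoc, ← mul_assoc, ← mul_assoc, ← ENNReal.ofReal_mul hCl0.le, ← ENNReal.ofReal_mul (by positivity),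
      ← ENNReal.ofReal_mul (by positivity)]
    refine mul_le_mul_left (ENNReal.ofReal_le_ofReal ?_) _
    have h5 : Cl * (100 * κ ^ 2) * (C₂ * κ * (β ^ 2 * w)) * Cu =
        Cl * 100 * (C₂ * β ^ 2) * Cu * (κ ^ 3 * w) := by ring
    rw [h5, mul_assoc (max _ _)]
    exact mul_le_mul_of_nonneg_right (le_max_right _ _) (by positivity)
  · rw [← ENNReal.ofReal_mul (by positivity), ← ENNReal.ofReal_mul hCl0.le]
    congr 1
    ring

end Pool.Agent.Helper86.LK
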