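import Pool.Agent.Helper86.LK.Defs

/-!
# LK-DefB: the weights of the shells in the high end of the twelfth moment

`wB ε κ G ρ` is the cost of the shell `ρ` for frames with `G = K y₀²`: for `ρ > κ G^(-1/8)` the shells of LT/F4 (cost `ρ^(-(5+ε))`), below that
the new shells of LK/C2 (cost `ρ^(-(8+ε)) + ρ^(-(13+ε))/G`).
-/

open MeasureTheory Real Set Filter Topology

set_option autoImplicit false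

namespace Pool.Agent.Helper86.LK

open Pool.Agent.Helper60.LT

open Classical in
/-- the weight of a shell -/
noncomputable def wB (ε κ G ρ : ℝ) : ℝ :=
  if κ * G ^ (-(1 / 8) : ℝ) < ρ then ρ ^ (-(5 + ε)) else ρ ^ (-(8 + ε)) + ρ ^ (-(13 + ε)) / G

/-- the bound for all states with `1 ≤ T₀'` (`T₀' = √(Δ₀/y₀) y₀²`) and `H₀ ≤ K^b` -/
def BndF (c₁ B a e b : ℝ) : Prop :=
  ∀ L β Y s₀ : ℝ, 1 ≤ L → 1 ≤ β → 0 < Y → 0 < s₀ → ∃ C : ℝ, 1 ≤ C ∧ ∀ (h : ℝ × ℝ → ℝ) (Δ₀ y₀ K S : ℝ), Hom c₁ B h → 0 < Δ₀ → 0 < y₀ → y₀ ≤ Y →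
    1 ≤ √(Δ₀ / y₀) → 1 ≤ √(Δ₀ / y₀) * y₀ ^ 2 → s₀ ≤ S → S ≤ 3 → 11 / 10 * (β * y₀ * S) ≤ k₀ c₁ B → 1 ≤ K → K / √(Δ₀ / y₀) ≤ K ^ b →
      ∫⁻ f in EE Δ₀ y₀ β, PP h L S K f ≤ ENNReal.ofReal (C * K ^ a * (K / √(Δ₀ / y₀)) ^ e * (Δ₀ ^ 2 / y₀) * FF (K / √(Δ₀ / y₀)) (√(Δ₀ / y₀) * y₀ ^ 2))

end Pool.Agent.Helper86.LK
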