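import Pool.Agent.Helper60.LT.Defs

/-!
# Project LK (MP_fb29e9_nt): the high end of the twelfth moment, exponent 5/3. Definitions

State: `T₀ = √(Δ₀/y₀)`, `H = K/T₀`, `T = T₀ y₀²` (so `G = K y₀² = H T`). Invariant: `FF (H/D) (T/D³) = FF H T / D^12`.
-/

open MeasureTheory Real Set Filter Topology

set_option autoImplicit false

namespace Pool.Agent.Helper86.LK

open Pool.Agent.Helper60.LT

/-- the final bound: `H` the number of frequencies in one direction, `T` the size of the phase divided by `H` -/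
noncomputable def FF (H T : ℝ) : ℝ := H ^ 12 + H ^ 17 * T ^ (-(5 / 3) : ℝ)

/-- the moment bound for all states (output of the induction) -/
def MomS (c₁ B : ℝ) : Prop :=
  ∀ ε L β Y s₀ : ℝ, 0 < ε → ε ≤ 1 → 1 ≤ L → 1 ≤ β → 0 < Y → 0 < s₀ → ∃ C : ℝ, 1 ≤ C ∧
    ∀ (h : ℝ × ℝ → ℝ) (Δ₀ y₀ K S : ℝ), Hom c₁ B h → 0 < Δ₀ → 0 < y₀ → y₀ ≤ Y → 1 ≤ √(Δ₀ / y₀) → 1 ≤ √(Δ₀ / y₀) * y₀ ^ 2 →
      s₀ ≤ S → S ≤ 3 → 11 / 10 * (β * y₀ * S) ≤ k₀ c₁ B → 1 ≤ K →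
      ∫⁻ f in EE Δ₀ y₀ β, PP h L S K f ≤ ENNReal.ofReal (C * K ^ ε * (Δ₀ ^ 2 / y₀) * FF (K / √(Δ₀ / y₀)) (√(Δ₀ / y₀) * y₀ ^ 2))

end Pool.Agent.Helper86.LK
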