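import Pool.Agent.Helper86.LK.IND
import Pool.Agent.Helper86.LK.IND1

/-!
# LK-IND2: the moment bound for all states
-/

set_option autoImplicit false

namespace Pool.Agent.Helper86.LK

theorem momS {c₁ B : ℝ} (hc : 0 < c₁) (hc1 : c₁ ≤ 1) (hB : 1 ≤ B) : MomS c₁ B :=
  momS_of_step fun he he1 hδ hδ1 hη ha hb h => bndF_step hc hc1 hB he he1 hδ hδ1 hη ha hb h

end Pool.Agent.Helper86.LK
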