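import Pool.Agent.Helper86.LK.C2
import Pool.Agent.Helper86.LK.BI

/-!
# LK-SB: stage B for frames with the new shells

`N` = the least natural number with `S/2^N ≤ κ T₀'^(-1/3)`, `T₀' = √(Δ₀/y₀) y₀² ≥ 1`. `cusp_split` (LT/A5) for this `N`.
`G₀ = K y₀² ≥ T₀'`, `T₀' ≤ K³`, so `2^(N-1) ≤ K`, `N ≤ 2 (1 + log K)`. For `j < N`, `ρ = S/2^j > κ T₀'^(-1/3)`: `T₀' ρ³ ≥ κ³ ≥ 1`.
If `κ G₀^(-1/8) < ρ`: the shells of LT/F4 (`shellO` is a copy of the private theorem `shell96` of this file), else `shellC` (LK/C2).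
The last cusp: `cusp_int` (LK/BI); the line `k₂ = 0`: `lineO` (copy of `line96`, LT/F4).
-/

open MeasureTheory Real Set Filter Topology

set_option autoImplicit false

namespace Pool.Agent.Helper86.LK

open Pool.Agent.Helper60.LT

private theorem T0_pos86 {Δ₀ y₀ : ℝ} (hΔ : 0 < Δ₀) (hy : 0 < y₀) : 0 < √(Δ₀ / y₀) := Real.sqrt_pos.2 (by positivity)

/-- A shell. -/
private theorem shellO {ε c₁ B L β : ℝ} (hε : 0 < ε) (hε1 : ε ≤ 1) (hc : 0 < c₁) (hc1 : c₁ ≤ 1) (hB : 1 ≤ B) (hL : 1 ≤ L)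
    (hβ : 1 ≤ β) (n : ℕ) : ∃ C β' E : ℝ, 1 ≤ C ∧ 1 ≤ β' ∧ 1 ≤ E ∧
    ∀ (h : ℝ × ℝ → ℝ) (Δ₀ y₀ K κ ρ : ℝ), Hom c₁ B h → 0 < Δ₀ → 0 < y₀ → 0 < ρ → ρ ≤ 1 / 20 →
      11 / 10 * (β * y₀ * ρ) ≤ k₀ c₁ B → β * y₀ ≤ K → β ≤ K * √(Δ₀ / y₀) → β * √(Δ₀ / y₀) ≤ K → 10 ≤ κ →
      C * κ ≤ ρ ^ 4 * √(K * y₀ ^ 2) →
      ∫⁻ f in EE Δ₀ y₀ β, QQ h L ρ K f ≤ ENNReal.ofReal (C * κ ^ 2 * ρ ^ (-(5 + ε))) *
        (∫⁻ f in EE Δ₀ (y₀ * ρ ^ 2) β', PP h (6 * L) 3 K f) +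
        ENNReal.ofReal (E * κ * (Δ₀ ^ 2 / y₀) * K ^ 200 * κ⁻¹ ^ n) := by
  obtain ⟨C₂, β₂, E₂, hC₂, hβ₂, hE₂, hst⟩ := stageB hε hε1 hc hc1 hB hL n
  obtain ⟨Cl, hCl, hlift⟩ := lift hβ
  obtain ⟨βu, hβu⟩ : ∃ βu : ℝ, βu = max β₂ (16 * β ^ 3) := ⟨_, rfl⟩
  have hβu1 : 1 ≤ βu := by
    rw [hβu]
    exact le_trans hβ₂ (le_max_left _ _)
  obtain ⟨Cu, β', hCu, hβ', hunf⟩ := unf hβu1
  have hC0 : 1 ≤ C₂ * β := one_le_mul_of_one_le_of_one_le hC₂ hβ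
  refine ⟨max (C₂ * β) (Cl * 100 * C₂ * Cu), β', Cl * 10 * E₂, le_trans hC0 (le_max_left _ _), hβ', ?_, ?_⟩
  · nlinarith
  intro h Δ₀ y₀ K κ ρ hh hΔ hy₀ hρ hρ1 hk hyK hKT hTK hκ hCκ
  have hT₀ := T0_pos86 hΔ hy₀
  have hβ0 : 0 < β := by linarith
  have hK : 0 < K := lt_of_lt_of_le (by positivity) hyK
  have hκ0 : 0 < κ := by linarith
  have hC₂0 : 0 < C₂ := by linarith
  have hE₂0 : 0 < E₂ := by linarith
  have hCl0 : 0 < Cl := by linarith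
  have hCu0 : 0 < Cu := by linarith
  have hL6 : 0 < 6 * L := by linarith
  have hρe : 0 < ρ ^ (-(5 + ε)) := Real.rpow_pos_of_pos hρ _
  have hPm : Measurable (PP h (6 * L) 3 K) := PP_meas hh.cont _ _ _
  have hNm : Measurable (NS β₂ (1 / ρ) (PP h (6 * L) 3 K)) := NS_meas hPm _ _
  have hfm : ∀ θ y : ℝ, Measurable (fun z : ℝ × ℝ => fr θ y z.1 z.2) := fun θ y =>
    fr_meas.comp (measurable_const.prodMk (measurable_const.prodMk measurable_id))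
  have h1 := hlift (QQ h L ρ K) (fun f => ENNReal.ofReal (100 * κ ^ 2) *
      (ENNReal.ofReal (C₂ * ρ ^ (-(5 + ε))) * NS β₂ (1 / ρ) (PP h (6 * L) 3 K) f))
    (ENNReal.ofReal (10 * E₂ * κ * K ^ 200 * κ⁻¹ ^ n)) Δ₀ y₀ (QQ_meas hh.cont L ρ K)
    ((hNm.const_mul _).const_mul _) hΔ hy₀ (by
      intro θ y X e1 e2 e3 e4
      have hy : 0 < y := by
        by_contra hcon
        have : β * y ≤ 0 := mul_nonpos_of_nonneg_of_nonpos hβ0.le (not_lt.1 hcon)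
        linarith
      have hX : 0 < X := by
        by_contra hcon
        have : β * X ≤ 0 := mul_nonpos_of_nonneg_of_nonpos hβ0.le (not_lt.1 hcon)
        linarith
      have hKX : 1 ≤ K * X := by
        have g1 : K * √(Δ₀ / y₀) ≤ K * (β * X) := mul_le_mul_of_nonneg_left e3 hK.le
        have g2 : β * 1 ≤ β * (K * X) := by linarith
        exact le_of_mul_le_mul_left g2 hβ0
      -- `√G`
      have hG0 : √(K * y₀ ^ 2) ≤ β * √(K * y ^ 2) := by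
        rw [Real.sqrt_mul hK.le, Real.sqrt_mul hK.le, Real.sqrt_sq hy₀.le, Real.sqrt_sq hy.le]
        have g1 : √K * y₀ ≤ √K * (β * y) := mul_le_mul_of_nonneg_left e1 (Real.sqrt_nonneg K)
        linarith
      have hC₂κ : C₂ * κ ≤ ρ ^ 4 * √(K * y ^ 2) := by
        have g1 : C₂ * β * κ ≤ ρ ^ 4 * (β * √(K * y ^ 2)) := by
          refine le_trans ?_ (mul_le_mul_of_nonneg_left hG0 (by positivity))
          exact le_trans (mul_le_mul_of_nonneg_right (le_max_left _ _) hκ0.le) hCκ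
        have g2 : β * (C₂ * κ) ≤ β * (ρ ^ 4 * √(K * y ^ 2)) := by linarith
        exact le_of_mul_le_mul_left g2 hβ0
      have hsG : 0 < √(K * y ^ 2) := Real.sqrt_pos.2 (by positivity)
      obtain ⟨ξ₁, hξ⟩ : ∃ ξ₁ : ℝ, ξ₁ = 1 / (16 * κ * (11 / 10 * ρ) ^ 2 * √(K * y ^ 2)) := ⟨_, rfl⟩
      have hξ0 : 0 < ξ₁ := by
        rw [hξ]
        positivity
      have hκξ : 16 * κ * ξ₁ ≤ 1 := by
        have g0 : 1 ≤ C₂ * κ := one_le_mul_of_one_le_of_one_le hC₂ (by linarith)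
        have g1 : ρ ^ 4 ≤ ρ ^ 2 := pow_le_pow_of_le_one hρ.le (by linarith) (by norm_num)
        have g2 : ρ ^ 4 * √(K * y ^ 2) ≤ ρ ^ 2 * √(K * y ^ 2) := mul_le_mul_of_nonneg_right g1 hsG.le
        have g3 : 1 ≤ (11 / 10 * ρ) ^ 2 * √(K * y ^ 2) := by linarith [mul_pos (pow_pos hρ 2) hsG]
        have g4 : 16 * κ * ξ₁ = 1 / ((11 / 10 * ρ) ^ 2 * √(K * y ^ 2)) := by
          rw [hξ]
          field_simp
        rw [g4, div_le_one (by positivity)]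
        exact g3
      have hg := grid (F := fun T x => QQ h L ρ K (fr θ y T x))
        (G := fun T x => ENNReal.ofReal (C₂ * ρ ^ (-(5 + ε))) * NS β₂ (1 / ρ) (PP h (6 * L) 3 K) (fr θ y T x))
        ((QQ_meas hh.cont L ρ K).comp (hfm θ y)) ((hNm.comp (hfm θ y)).const_mul _) hX (by linarith) hξ0 hκξ
        (A := ENNReal.ofReal (E₂ * X * ξ₁ * K ^ 200 * κ⁻¹ ^ n)) (fun T₁ x₀ t1 t2 _ _ =>
          hst h θ y T₁ x₀ X K (K * y ^ 2) κ ξ₁ ρ hh hρ hρ1 hy (e2.trans hyK) (by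
            refine le_trans ?_ hk
            have : y * ρ ≤ β * y₀ * ρ := mul_le_mul_of_nonneg_right e2 hρ.le
            linarith) hX hKX (e4.trans hTK) t1 t2 rfl hκ hξ hC₂κ)
      refine hg.trans (le_of_eq ?_)
      congr 1
      · rw [← lintegral_const_mul' _ _ ENNReal.ofReal_ne_top]
        refine lintegral_congr fun T => ?_
        rw [← lintegral_const_mul' _ _ ENNReal.ofReal_ne_top]
      · rw [← ENNReal.ofReal_mul (by positivity), ← ENNReal.ofReal_mul hX.le]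
        congr 1
        field_simp)
  refine h1.trans ?_
  have h2 : ∫⁻ f in EX Δ₀ y₀ (16 * β ^ 3), ENNReal.ofReal (100 * κ ^ 2) *
      (ENNReal.ofReal (C₂ * ρ ^ (-(5 + ε))) * NS β₂ (1 / ρ) (PP h (6 * L) 3 K) f) ≤
      ENNReal.ofReal (100 * κ ^ 2) * (ENNReal.ofReal (C₂ * ρ ^ (-(5 + ε))) *
        (ENNReal.ofReal Cu * ∫⁻ f in EE Δ₀ (y₀ * ρ ^ 2) β', PP h (6 * L) 3 K f)) := by
    rw [lintegral_const_mul' _ _ ENNReal.ofReal_ne_top, lintegral_const_mul' _ _ ENNReal.ofReal_ne_top]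
    refine mul_le_mul_right ?_ _
    refine mul_le_mul_right ?_ _
    have h3 := hunf (PP h (6 * L) 3 K) Δ₀ y₀ (1 / ρ) hPm (fun f hf => PP_shear hL6 hK (by norm_num) f hf) hΔ hy₀
      (by positivity)
    have h4 : y₀ / (1 / ρ) ^ 2 = y₀ * ρ ^ 2 := by
      field_simp
    rw [h4] at h3
    refine le_trans ?_ h3
    refine (lintegral_mono_set (EX_mono (hβu ▸ le_max_right _ _) (by positivity) hΔ.le hy₀.le)).trans ?_
    exact lintegral_mono fun f => NS_mono (hβu ▸ le_max_left _ _) (by positivity) _ f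
  rw [mul_add]
  refine add_le_add ((mul_le_mul_right h2 _).trans ?_) (le_of_eq ?_)
  · rw [← mul_assoc, ← mul_assoc, ← mul_assoc, ← ENNReal.ofReal_mul hCl0.le, ← ENNReal.ofReal_mul (by positivity),
      ← ENNReal.ofReal_mul (by positivity)]
    refine mul_le_mul_left (ENNReal.ofReal_le_ofReal ?_) _
    have h5 : Cl * (100 * κ ^ 2) * (C₂ * ρ ^ (-(5 + ε))) * Cu =
        Cl * 100 * C₂ * Cu * (κ ^ 2 * ρ ^ (-(5 + ε))) := by ring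
    rw [h5, mul_assoc (max (C₂ * β) (Cl * 100 * C₂ * Cu))]
    exact mul_le_mul_of_nonneg_right (le_max_right _ _) (by positivity)
  · rw [← ENNReal.ofReal_mul (by positivity), ← ENNReal.ofReal_mul hCl0.le]
    congr 1
    ring

/-- The frequencies with `k.2 = 0`. -/
private theorem lineO {L β : ℝ} (hL : 1 ≤ L) (hβ : 1 ≤ β) : ∃ C : ℝ, 1 ≤ C ∧
    ∀ Δ₀ y₀ K : ℝ, 0 < Δ₀ → 0 < y₀ → 0 < K →
      ∫⁻ f in EE Δ₀ y₀ β, ENNReal.ofReal ((L * (K / Tf f)) ^ 11) ≤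
        ENNReal.ofReal (C * (Δ₀ ^ 2 / y₀) * (K / √(Δ₀ / y₀)) ^ 11) := by
  obtain ⟨Cv, hCv, hvol⟩ := EE_vol hβ
  have hβ0 : 0 < β := by linarith
  have hL0 : 0 < L := by linarith
  refine ⟨(L * β) ^ 11 * Cv, one_le_mul_of_one_le_of_one_le
    (one_le_pow₀ (one_le_mul_of_one_le_of_one_le hL hβ)) hCv, fun Δ₀ y₀ K hΔ hy₀ hK => ?_⟩
  have hT₀ := T0_pos86 hΔ hy₀
  have h1 : ∀ f ∈ EE Δ₀ y₀ β, ENNReal.ofReal ((L * (K / Tf f)) ^ 11) ≤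
      ENNReal.ofReal ((L * (β * (K / √(Δ₀ / y₀)))) ^ 11) := by
    intro f hf
    obtain ⟨hT, -, -, g1, g2, g3, g4⟩ := hf
    have hs : 0 < f.1.1 ^ 2 + f.1.2 ^ 2 := by
      unfold Tf at hT
      exact Real.sqrt_pos.1 hT
    have hT2 : Tf f ^ 2 = f.1.1 ^ 2 + f.1.2 ^ 2 := by
      unfold Tf
      exact Real.sq_sqrt hs.le
    have hyf : yf f * Tf f ^ 2 = df f := by
      rw [hT2]
      unfold yf
      exact div_mul_cancel₀ _ hs.ne'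
    have g5 : √(Δ₀ / y₀) ≤ β * Tf f := by
      rw [Real.sqrt_le_left (by positivity), div_le_iff₀ hy₀]
      have g6 : yf f * Tf f ^ 2 ≤ β * y₀ * Tf f ^ 2 := mul_le_mul_of_nonneg_right g4 (by positivity)
      have g7 : β * df f ≤ β * (β * y₀ * Tf f ^ 2) := mul_le_mul_of_nonneg_left (by linarith) hβ0.le
      calc Δ₀ ≤ β * df f := g1
        _ ≤ β * (β * y₀ * Tf f ^ 2) := g7
        _ = (β * Tf f) ^ 2 * y₀ := by ring
    refine ENNReal.ofReal_le_ofReal (pow_le_pow_left₀ (by positivity) ?_ 11)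
    refine mul_le_mul_of_nonneg_left ?_ hL0.le
    rw [div_le_iff₀ hT, mul_comm β, mul_assoc, div_mul_eq_mul_div, le_div_iff₀ hT₀]
    exact mul_le_mul_of_nonneg_left g5 hK.le
  refine (setLIntegral_mono' (EE_meas _ _ _) h1).trans ?_
  rw [setLIntegral_const]
  refine (mul_le_mul_right (hvol Δ₀ y₀ hΔ hy₀) _).trans (le_of_eq ?_)
  rw [← ENNReal.ofReal_mul (by positivity)]
  congr 1
  ring

private theorem EE_mono86 {Δ₀ y₀ β₁ β₂ : ℝ} (hΔ : 0 < Δ₀) (hy : 0 < y₀) (h1 : 1 ≤ β₁) (h : β₁ ≤ β₂) : EE Δ₀ y₀ β₁ ⊆ EE Δ₀ y₀ β₂ := by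
  rintro f ⟨g0, g1, g2, g3, g4, g5, g6⟩
  have hβ : 0 < β₁ := by linarith
  have d0 : 0 < df f := by
    by_contra hcon
    have : β₁ * df f ≤ 0 := mul_nonpos_of_nonneg_of_nonpos hβ.le (not_lt.1 hcon)
    linarith
  have y0 : 0 < yf f := by
    by_contra hcon
    have : β₁ * yf f ≤ 0 := mul_nonpos_of_nonneg_of_nonpos hβ.le (not_lt.1 hcon)
    linarith
  refine ⟨g0, g1, g2, ?_, ?_, ?_, ?_⟩
  · exact g3.trans (mul_le_mul_of_nonneg_right h d0.le)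
  · exact g4.trans (mul_le_mul_of_nonneg_right h hΔ.le)
  · exact g5.trans (mul_le_mul_of_nonneg_right h y0.le)
  · exact g6.trans (mul_le_mul_of_nonneg_right h hy.le)

private theorem wB_pos {ε κ G ρ : ℝ} (hG : 0 < G) (hρ : 0 < ρ) : 0 < wB ε κ G ρ := by
  unfold wB
  split_ifs
  · exact Real.rpow_pos_of_pos hρ _
  · have p8 : 0 < ρ ^ (-(8 + ε)) := Real.rpow_pos_of_pos hρ _
    have p13 : 0 < ρ ^ (-(13 + ε)) := Real.rpow_pos_of_pos hρ _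
    positivity

theorem stepB' {ε c₁ B L β : ℝ} (hε : 0 < ε) (hε1 : ε ≤ 1) (hc : 0 < c₁) (hc1 : c₁ ≤ 1) (hB : 1 ≤ B) (hL : 1 ≤ L) (hβ : 1 ≤ β) (n : ℕ) : ∃ C β' E : ℝ, 1 ≤ C ∧ 1 ≤ β' ∧ 1 ≤ E ∧
    ∀ (h : ℝ × ℝ → ℝ) (Δ₀ y₀ K κ S : ℝ), Hom c₁ B h → 0 < Δ₀ → 0 < y₀ → 0 < S → S ≤ 1 / 20 → 11 / 10 * (β * y₀ * S) ≤ k₀ c₁ B → β * y₀ ≤ K → 20 ≤ K →
      β ≤ K * √(Δ₀ / y₀) → β * √(Δ₀ / y₀) ≤ K → C ≤ κ → C * κ ^ 11 ≤ K * y₀ ^ 2 → 1 ≤ √(Δ₀ / y₀) * y₀ ^ 2 →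
      ∃ N : ℕ, (N : ℝ) ≤ C * (1 + log K) ∧ (∀ j < N, 1 ≤ √(Δ₀ / y₀) * y₀ ^ 2 * (S / 2 ^ j) ^ 3) ∧
      ∫⁻ f in EE Δ₀ y₀ β, PP h L S K f ≤ ENNReal.ofReal (C * κ ^ 3 * (1 + log K) ^ 11) *
        (∑ j ∈ Finset.range N, ENNReal.ofReal (wB ε κ (K * y₀ ^ 2) (S / 2 ^ j)) * ∫⁻ f in EE Δ₀ (y₀ * (S / 2 ^ j) ^ 2) β', PP h (6 * L) 3 K f) +
        ENNReal.ofReal (C * κ ^ 20 * (1 + log K) ^ 21 * (Δ₀ ^ 2 / y₀) * FF (K / √(Δ₀ / y₀)) (√(Δ₀ / y₀) * y₀ ^ 2)) +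
        ENNReal.ofReal (E * κ * (1 + log K) ^ 12 * (Δ₀ ^ 2 / y₀) * K ^ 200 * κ⁻¹ ^ n) := by
  classical
  obtain ⟨Cs, βs, Es, hCs, hβs, hEs, hshell⟩ := shellO hε hε1 hc hc1 hB hL hβ n
  obtain ⟨Cn, βn, En, hCn, hβn, hEn, hshn⟩ := shellC hε hε1 hc hc1 hB hL hβ n
  obtain ⟨Cc, hCc, hcusp⟩ := cusp_int (L := L) hc hc1 hB hL hβ
  obtain ⟨Cv, hCv, hline⟩ := lineO hL hβ
  have hβ0 : 0 < β := by linarith
  obtain ⟨β', hβ'⟩ : ∃ β' : ℝ, β' = max βs βn := ⟨_, rfl⟩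
  have hβs' : βs ≤ β' := by rw [hβ']; exact le_max_left _ _
  have hβn' : βn ≤ β' := by rw [hβ']; exact le_max_right _ _
  obtain ⟨C, hC⟩ : ∃ C : ℝ, C = 4 ^ 11 * (Cs + Cn + Cc + Cv) + 10 := ⟨_, rfl⟩
  have c1 : 4 ^ 11 * (Cs + Cn) ≤ C := by linarith
  have c2 : 4 ^ 11 * (Cc + Cv) ≤ C := by linarith
  have c3 : 10 ≤ C := by linarith
  have c4 : Cs ≤ C := by linarith
  have c5 : Cn ≤ C := by linarith
  refine ⟨C, β', 2 * 4 ^ 11 * (Es + En), by linarith, hβs.trans hβs', by linarith, ?_⟩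
  intro h Δ₀ y₀ K κ S hh hΔ hy₀ hS hS1 hk hyK hK20 hKT hTK hCκ hG₀C hT1
  have hT₀ := T0_pos86 hΔ hy₀
  have hK : 0 < K := by linarith
  have hκ10 : 10 ≤ κ := by linarith
  have hκ0 : 0 < κ := by linarith
  have hκ1 : 1 ≤ κ := by linarith
  have hG₀ : 0 < K * y₀ ^ 2 := by positivity
  have hlog : 0 ≤ log K := Real.log_nonneg (by linarith)
  -- `T`
  obtain ⟨T, hTd⟩ : ∃ T : ℝ, T = √(Δ₀ / y₀) * y₀ ^ 2 := ⟨_, rfl⟩
  rw [← hTd] at hT1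
  have hT0 : 0 < T := by linarith
  have hT₀K : √(Δ₀ / y₀) ≤ K := (le_mul_of_one_le_left hT₀.le hβ).trans hTK
  have hy₀K : y₀ ≤ K := (le_mul_of_one_le_left hy₀.le hβ).trans hyK
  have hTG : T ≤ K * y₀ ^ 2 := by
    rw [hTd]
    exact mul_le_mul_of_nonneg_right hT₀K (by positivity)
  have hTK3 : T ≤ K ^ 3 := by
    refine hTG.trans ?_
    calc K * y₀ ^ 2 ≤ K * K ^ 2 := mul_le_mul_of_nonneg_left (pow_le_pow_left₀ hy₀.le hy₀K 2) hK.le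
      _ = K ^ 3 := by ring
  -- `τ = T^(-1/3)`, `g = G₀^(-1/8)`
  obtain ⟨τ, hτ⟩ : ∃ τ : ℝ, τ = T ^ (-(1 / 3) : ℝ) := ⟨_, rfl⟩
  have hτ0 : 0 < τ := by
    rw [hτ]
    exact Real.rpow_pos_of_pos hT0 _
  have hτ3 : T * τ ^ 3 = 1 := by
    rw [hτ, ← Real.rpow_natCast (T ^ (-(1 / 3) : ℝ)) 3, ← Real.rpow_mul hT0.le]
    have e1 : (-(1 / 3) : ℝ) * ((3 : ℕ) : ℝ) = -1 := by norm_num
    rw [e1, Real.rpow_neg_one]
    exact mul_inv_cancel₀ hT0.ne'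
  have hτ1 : τ ≤ 1 := by
    by_contra hcon
    rw [not_le] at hcon
    have h1 : 1 < τ ^ 3 := one_lt_pow₀ hcon (by norm_num)
    have h2 : τ ^ 3 ≤ T * τ ^ 3 := le_mul_of_one_le_left (by positivity) hT1
    linarith
  have hKτ : 1 ≤ K * τ := by
    by_contra hcon
    rw [not_le] at hcon
    have h1 : (K * τ) ^ 3 < 1 := pow_lt_one₀ (by positivity) hcon (by norm_num)
    have h2 : T * τ ^ 3 ≤ K ^ 3 * τ ^ 3 := mul_le_mul_of_nonneg_right hTK3 (by positivity)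
    rw [mul_pow] at h1
    linarith
  obtain ⟨g, hg⟩ : ∃ g : ℝ, g = (K * y₀ ^ 2) ^ (-(1 / 8) : ℝ) := ⟨_, rfl⟩
  have hg0 : 0 < g := by
    rw [hg]
    exact Real.rpow_pos_of_pos hG₀ _
  have hg8 : (K * y₀ ^ 2) * g ^ 8 = 1 := by
    rw [hg, ← Real.rpow_natCast ((K * y₀ ^ 2) ^ (-(1 / 8) : ℝ)) 8, ← Real.rpow_mul hG₀.le]
    have e1 : (-(1 / 8) : ℝ) * ((8 : ℕ) : ℝ) = -1 := by norm_num
    rw [e1, Real.rpow_neg_one]
    exact mul_inv_cancel₀ hG₀.ne'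
  -- the number of shells
  obtain ⟨b, hb⟩ : ∃ b : ℝ, b = κ * τ := ⟨_, rfl⟩
  have hb0 : 0 < b := by
    rw [hb]
    positivity
  have hex : ∃ N : ℕ, S / 2 ^ N ≤ b := by
    obtain ⟨N, hN⟩ := exists_pow_lt_of_lt_one (show 0 < b / S by positivity) (show (1 / 2 : ℝ) < 1 by norm_num)
    refine ⟨N, ?_⟩
    rw [lt_div_iff₀ hS] at hN
    have e1 : S / 2 ^ N = (1 / 2) ^ N * S := by
      rw [div_pow, one_pow]
      ring
    rw [e1]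
    exact hN.le
  obtain ⟨N, hN1, hN2⟩ : ∃ N : ℕ, S / 2 ^ N ≤ b ∧ ∀ j < N, b < S / 2 ^ j :=
    ⟨Nat.find hex, Nat.find_spec hex, fun j hj => not_le.1 (Nat.find_min hex hj)⟩
  obtain ⟨Λ, hΛ⟩ : ∃ Λ : ℝ, Λ = 1 + log K := ⟨_, rfl⟩
  have hΛ1 : 1 ≤ Λ := by linarith
  have hΛ0 : 0 < Λ := by linarith
  have hNlog : (N : ℝ) ≤ 2 * Λ := by
    rcases Nat.eq_zero_or_pos N with h0 | h0
    · rw [h0]
      push_cast
      linarith
    · have g1 := hN2 (N - 1) (by omega)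
      have g4 : (0 : ℝ) < 2 ^ (N - 1) := by positivity
      have g3 : (2 : ℝ) ^ (N - 1) ≤ K := by
        rw [lt_div_iff₀ g4] at g1
        have g5 : 1 ≤ K * b := by
          rw [hb]
          have : K * (κ * τ) = κ * (K * τ) := by ring
          rw [this]
          exact one_le_mul_of_one_le_of_one_le hκ1 hKτ
        have g6 : K * b * 2 ^ (N - 1) ≤ K * 1 := by
          have : K * b * 2 ^ (N - 1) = K * (b * 2 ^ (N - 1)) := by ring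
          rw [this]
          exact mul_le_mul_of_nonneg_left (by linarith) hK.le
        have g7 : 1 * (2 : ℝ) ^ (N - 1) ≤ K * b * 2 ^ (N - 1) := mul_le_mul_of_nonneg_right g5 g4.le
        linarith
      have g5 := Real.log_le_log (by positivity) g3
      rw [Real.log_pow] at g5
      have g6 : ((N - 1 : ℕ) : ℝ) = N - 1 := by
        rw [Nat.cast_sub h0]
        push_cast
        ring
      rw [g6] at g5
      have g7 := Real.log_two_gt_d9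
      have g8 : (1 : ℝ) ≤ N := by exact_mod_cast h0
      rw [hΛ]
      have g9 : ((N : ℝ) - 1) * (1 / 2) ≤ (N - 1) * log 2 := mul_le_mul_of_nonneg_left (by linarith) (by linarith)
      linarith
  have hN3 : ((N : ℝ) + 2) ^ 11 ≤ 4 ^ 11 * Λ ^ 11 := by
    rw [← mul_pow]
    refine pow_le_pow_left₀ (by positivity) ?_ 11
    linarith
  refine ⟨N, ?_, ?_, ?_⟩
  · rw [← hΛ]
    refine hNlog.trans (mul_le_mul_of_nonneg_right (by linarith) hΛ0.le)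
  · intro j hj
    rw [← hTd]
    have g1 : b ^ 3 ≤ (S / 2 ^ j) ^ 3 := pow_le_pow_left₀ hb0.le (hN2 j hj).le 3
    have g2 : T * b ^ 3 = κ ^ 3 := by
      rw [hb]
      calc T * (κ * τ) ^ 3 = κ ^ 3 * (T * τ ^ 3) := by ring
        _ = κ ^ 3 := by rw [hτ3, mul_one]
    have g3 : T * b ^ 3 ≤ T * (S / 2 ^ j) ^ 3 := mul_le_mul_of_nonneg_left g1 hT0.le
    have g4 : 1 ≤ κ ^ 3 := one_le_pow₀ hκ1
    linarith
  obtain ⟨D, hD⟩ : ∃ D : ℝ, D = Δ₀ ^ 2 / y₀ := ⟨_, rfl⟩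
  have hD0 : 0 < D := by
    rw [hD]
    positivity
  obtain ⟨H₀, hH₀⟩ : ∃ H₀ : ℝ, H₀ = K / √(Δ₀ / y₀) := ⟨_, rfl⟩
  have hH₀1 : 1 ≤ H₀ := by
    rw [hH₀, one_le_div hT₀]
    exact hT₀K
  obtain ⟨Bd, hBd⟩ : ∃ Bd : ℝ, Bd = FF H₀ T := ⟨_, rfl⟩
  have hq : 0 < T ^ (-(5 / 3) : ℝ) := Real.rpow_pos_of_pos hT0 _
  have hBd0 : H₀ ^ 11 ≤ Bd := by
    rw [hBd]
    unfold FF
    have g1 : H₀ ^ 11 ≤ H₀ ^ 12 := pow_le_pow_right₀ hH₀1 (by norm_num)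
    have g2 : 0 ≤ H₀ ^ 17 * T ^ (-(5 / 3) : ℝ) := by positivity
    linarith
  have hBd2 : H₀ ^ 17 * T ^ (-(5 / 3) : ℝ) ≤ Bd := by
    rw [hBd]
    unfold FF
    have g1 : 0 ≤ H₀ ^ 12 := by positivity
    linarith
  have hBd1 : 0 ≤ Bd := le_trans (by positivity) hBd0
  -- the splitting
  have hsplit : ∫⁻ f in EE Δ₀ y₀ β, PP h L S K f ≤ ENNReal.ofReal (((N : ℝ) + 2) ^ 11) *
      ((∫⁻ f in EE Δ₀ y₀ β, ENNReal.ofReal ((L * (K / Tf f)) ^ 11)) +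
        (∑ j ∈ Finset.range N, ∫⁻ f in EE Δ₀ y₀ β, QQ h L (S / 2 ^ j) K f) +
        ∫⁻ f in EE Δ₀ y₀ β, RR h L (S / 2 ^ N) K f) := by
    refine (setLIntegral_mono' (EE_meas Δ₀ y₀ β) (fun f hf => cusp_split hL hK hS f hf.1 N)).trans (le_of_eq ?_)
    rw [lintegral_const_mul' _ _ ENNReal.ofReal_ne_top, lintegral_add_right _ (RR_meas hh.cont _ _ _),
      lintegral_add_right _ (Finset.measurable_fun_sum _ fun j _ => QQ_meas hh.cont _ _ _),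
      lintegral_finset_sum _ fun j _ => QQ_meas hh.cont _ _ _]
  have t1 := hline Δ₀ y₀ K hΔ hy₀ hK
  have hNS : S / 2 ^ N ≤ S := div_le_self hS.le (one_le_pow₀ (by norm_num))
  have hNS0 : 0 < S / 2 ^ N := by positivity
  have t3 := hcusp h Δ₀ y₀ K κ (S / 2 ^ N) hh hΔ hy₀ hNS0.le (by linarith) (by
    have g1 : β * y₀ * (S / 2 ^ N) ≤ β * y₀ * S := mul_le_mul_of_nonneg_left hNS (by positivity)
    have g2 : 0 ≤ β * y₀ * S := by positivity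
    linarith) hKT hTK (hTd ▸ hT1) (by linarith) hκ1 (by
    rw [← hTd, ← hτ, ← hb]
    exact hN1)
  have t2 : ∀ j ∈ Finset.range N, ∫⁻ f in EE Δ₀ y₀ β, QQ h L (S / 2 ^ j) K f ≤
      ENNReal.ofReal ((Cs + Cn) * κ ^ 3 * wB ε κ (K * y₀ ^ 2) (S / 2 ^ j)) *
        (∫⁻ f in EE Δ₀ (y₀ * (S / 2 ^ j) ^ 2) β', PP h (6 * L) 3 K f) +
        ENNReal.ofReal ((Es + En) * κ * (Δ₀ ^ 2 / y₀) * K ^ 200 * κ⁻¹ ^ n) := by
    intro j hj
    have hj' := hN2 j (Finset.mem_range.1 hj)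
    have hρ0 : 0 < S / 2 ^ j := by positivity
    have hρS : S / 2 ^ j ≤ S := div_le_self hS.le (one_le_pow₀ (by norm_num))
    have hkρ : 11 / 10 * (β * y₀ * (S / 2 ^ j)) ≤ k₀ c₁ B := by
      refine le_trans ?_ hk
      have : β * y₀ * (S / 2 ^ j) ≤ β * y₀ * S := mul_le_mul_of_nonneg_left hρS (by positivity)
      linarith
    obtain ⟨ρ, hρ⟩ : ∃ ρ : ℝ, ρ = S / 2 ^ j := ⟨_, rfl⟩
    rw [← hρ] at hj' hρ0 hρS hkρ ⊢
    have hyρ : 0 < y₀ * ρ ^ 2 := by positivity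
    have hV : 0 < Δ₀ ^ 2 / y₀ := by positivity
    have hKκ : 0 ≤ K ^ 200 * κ⁻¹ ^ n := by positivity
    by_cases hcase : κ * (K * y₀ ^ 2) ^ (-(1 / 8) : ℝ) < ρ
    · have hw : wB ε κ (K * y₀ ^ 2) ρ = ρ ^ (-(5 + ε)) := by
        unfold wB
        rw [if_pos hcase]
      rw [← hg] at hcase
      have hcond : Cs * κ ≤ ρ ^ 4 * √(K * y₀ ^ 2) := by
        have g1 : (κ * g) ^ 4 ≤ ρ ^ 4 := pow_le_pow_left₀ (by positivity) hcase.le 4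
        have g2 : √(K * y₀ ^ 2) * g ^ 4 = 1 := by
          have g3 : (√(K * y₀ ^ 2) * g ^ 4) ^ 2 = 1 := by
            rw [mul_pow, Real.sq_sqrt hG₀.le, ← pow_mul]
            exact hg8
          have g4 : 0 ≤ √(K * y₀ ^ 2) * g ^ 4 := by positivity
          exact (pow_eq_one_iff_of_nonneg g4 (by norm_num)).1 g3
        have g3 : (κ * g) ^ 4 * √(K * y₀ ^ 2) = κ ^ 4 := by
          calc (κ * g) ^ 4 * √(K * y₀ ^ 2) = κ ^ 4 * (√(K * y₀ ^ 2) * g ^ 4) := by ring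
            _ = κ ^ 4 := by rw [g2, mul_one]
        have g4 : κ ^ 4 ≤ ρ ^ 4 * √(K * y₀ ^ 2) := by
          rw [← g3]
          exact mul_le_mul_of_nonneg_right g1 (Real.sqrt_nonneg _)
        refine le_trans ?_ g4
        have g5 : κ * κ ≤ κ ^ 4 := by
          calc κ * κ = κ ^ 2 := by ring
            _ ≤ κ ^ 4 := pow_le_pow_right₀ hκ1 (by norm_num)
        have g6 : Cs ≤ κ := c4.trans hCκ
        exact (mul_le_mul_of_nonneg_right g6 hκ0.le).trans g5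
      have h1 := hshell h Δ₀ y₀ K κ ρ hh hΔ hy₀ hρ0 (hρS.trans hS1) hkρ hyK hKT hTK hκ10 hcond
      refine h1.trans (add_le_add (mul_le_mul' (ENNReal.ofReal_le_ofReal ?_)
        (lintegral_mono_set (EE_mono86 hΔ hyρ hβs hβs'))) (ENNReal.ofReal_le_ofReal ?_))
      · rw [hw]
        have p5 : 0 < ρ ^ (-(5 + ε)) := Real.rpow_pos_of_pos hρ0 _
        have g1 : κ ^ 2 ≤ κ ^ 3 := pow_le_pow_right₀ hκ1 (by norm_num)
        gcongr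
        linarith
      · have g1 : Es * (κ * (Δ₀ ^ 2 / y₀) * (K ^ 200 * κ⁻¹ ^ n)) ≤ (Es + En) * (κ * (Δ₀ ^ 2 / y₀) * (K ^ 200 * κ⁻¹ ^ n)) :=
          mul_le_mul_of_nonneg_right (by linarith) (by positivity)
        linarith
    · have hw : wB ε κ (K * y₀ ^ 2) ρ = ρ ^ (-(8 + ε)) + ρ ^ (-(13 + ε)) / (K * y₀ ^ 2) := by
        unfold wB
        rw [if_neg hcase]
      rw [not_lt, ← hg] at hcase
      have h2κ : 2 * κ * ρ ^ 3 ≤ 1 := by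
        have g1 : ρ ^ 3 ≤ (κ * g) ^ 3 := pow_le_pow_left₀ hρ0.le hcase 3
        have g2 : 2 * κ * (κ * g) ^ 3 ≤ 1 := by
          have g3 : (2 * κ * (κ * g) ^ 3) ^ 8 ≤ 1 := by
            have e1 : (2 * κ * (κ * g) ^ 3) ^ 8 = 256 * κ ^ 32 * (g ^ 8) ^ 3 := by ring
            have e2 : (K * y₀ ^ 2) ^ 3 * (g ^ 8) ^ 3 = 1 := by
              rw [← mul_pow, hg8, one_pow]
            have g4 : 256 * κ ^ 32 ≤ (K * y₀ ^ 2) ^ 3 := by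
              have g5 : (7 * κ ^ 11) ^ 3 ≤ (K * y₀ ^ 2) ^ 3 := by
                refine pow_le_pow_left₀ (by positivity) ?_ 3
                refine le_trans (mul_le_mul_of_nonneg_right (by linarith) (by positivity)) hG₀C
              refine le_trans ?_ g5
              have g6 : κ ^ 32 ≤ κ ^ 33 := pow_le_pow_right₀ hκ1 (by norm_num)
              have e3 : (7 * κ ^ 11) ^ 3 = 343 * κ ^ 33 := by ring
              rw [e3]
              have g7 : 0 ≤ κ ^ 33 := by positivity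
              linarith
            rw [e1]
            calc 256 * κ ^ 32 * (g ^ 8) ^ 3 ≤ (K * y₀ ^ 2) ^ 3 * (g ^ 8) ^ 3 := mul_le_mul_of_nonneg_right g4 (by positivity)
              _ = 1 := e2
          by_contra hcon
          rw [not_le] at hcon
          have g4 : 1 < (2 * κ * (κ * g) ^ 3) ^ 8 := one_lt_pow₀ hcon (by norm_num)
          linarith
        have g3 : 2 * κ * ρ ^ 3 ≤ 2 * κ * (κ * g) ^ 3 := mul_le_mul_of_nonneg_left g1 (by positivity)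
        linarith
      have hρτ : κ * τ ≤ ρ := by
        rw [← hb]
        exact hj'.le
      have hcond : Cn * κ ≤ ρ ^ 2 * (K * y₀ ^ 2) := by
        have g1 : (κ * τ) ^ 2 ≤ ρ ^ 2 := pow_le_pow_left₀ (by positivity) hρτ 2
        have g2 : 1 ≤ τ ^ 2 * T := by
          have g3 : τ ^ 2 * T * τ ≤ τ ^ 2 * T * 1 := mul_le_mul_of_nonneg_left hτ1 (by positivity)
          have e1 : τ ^ 2 * T * τ = T * τ ^ 3 := by ring
          rw [e1, hτ3, mul_one] at g3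
          exact g3
        have g3 : κ ^ 2 ≤ ρ ^ 2 * (K * y₀ ^ 2) := by
          calc κ ^ 2 = κ ^ 2 * 1 := (mul_one _).symm
            _ ≤ κ ^ 2 * (τ ^ 2 * T) := mul_le_mul_of_nonneg_left g2 (by positivity)
            _ = (κ * τ) ^ 2 * T := by ring
            _ ≤ ρ ^ 2 * (K * y₀ ^ 2) := mul_le_mul g1 hTG hT0.le (by positivity)
        refine le_trans ?_ g3
        have g4 : Cn ≤ κ := c5.trans hCκ
        have e1 : κ ^ 2 = κ * κ := by ring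
        rw [e1]
        exact mul_le_mul_of_nonneg_right g4 hκ0.le
      have hKρ : 1 ≤ K * ρ := by
        have g1 : K * (κ * τ) ≤ K * ρ := mul_le_mul_of_nonneg_left hρτ hK.le
        have g2 : 1 ≤ κ * (K * τ) := one_le_mul_of_one_le_of_one_le hκ1 hKτ
        have e1 : K * (κ * τ) = κ * (K * τ) := by ring
        linarith
      have h1 := hshn h Δ₀ y₀ K κ ρ hh hΔ hy₀ hρ0 (hρS.trans hS1) hkρ hyK hKT hTK (c5.trans hCκ) h2κ hcond hKρ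
      refine h1.trans (add_le_add (mul_le_mul' (ENNReal.ofReal_le_ofReal ?_)
        (lintegral_mono_set (EE_mono86 hΔ hyρ hβn hβn'))) (ENNReal.ofReal_le_ofReal ?_))
      · rw [← hw]
        have p5 : 0 < wB ε κ (K * y₀ ^ 2) ρ := wB_pos hG₀ hρ0
        gcongr
        linarith
      · have g1 : En * (κ * (Δ₀ ^ 2 / y₀) * (K ^ 200 * κ⁻¹ ^ n)) ≤ (Es + En) * (κ * (Δ₀ ^ 2 / y₀) * (K ^ 200 * κ⁻¹ ^ n)) :=
          mul_le_mul_of_nonneg_right (by linarith) (by positivity)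
        linarith
  have t2' := Finset.sum_le_sum t2
  rw [Finset.sum_add_distrib, Finset.sum_const, Finset.card_range, nsmul_eq_mul] at t2'
  rw [← hD, ← hH₀] at t1
  rw [← hD, ← hH₀, ← hTd, ← hΛ] at t3
  rw [← hD] at t2'
  rw [← hD, ← hH₀, ← hTd, ← hBd, ← hΛ]
  have hK200 : (0 : ℝ) ≤ K ^ 200 := by positivity
  have hκ20 : 1 ≤ κ ^ 20 := one_le_pow₀ hκ1
  have hΛ10 : 1 ≤ Λ ^ 10 := one_le_pow₀ hΛ1
  refine hsplit.trans ((mul_le_mul' (ENNReal.ofReal_le_ofReal hN3) (add_le_add (add_le_add t1 t2') t3)).trans ?_)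
  -- collecting the terms
  have e1 : ENNReal.ofReal (4 ^ 11 * Λ ^ 11) * (ENNReal.ofReal (Cv * D * H₀ ^ 11) +
      ((∑ j ∈ Finset.range N, ENNReal.ofReal ((Cs + Cn) * κ ^ 3 * wB ε κ (K * y₀ ^ 2) (S / 2 ^ j)) *
        (∫⁻ f in EE Δ₀ (y₀ * (S / 2 ^ j) ^ 2) β', PP h (6 * L) 3 K f)) +
        (N : ENNReal) * ENNReal.ofReal ((Es + En) * κ * D * K ^ 200 * κ⁻¹ ^ n)) +
      ENNReal.ofReal (Cc * κ ^ 20 * Λ ^ 10 * D * (H₀ ^ 17 * T ^ (-(5 / 3) : ℝ)))) =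
      ENNReal.ofReal (4 ^ 11 * Λ ^ 11) * (∑ j ∈ Finset.range N, ENNReal.ofReal ((Cs + Cn) * κ ^ 3 * wB ε κ (K * y₀ ^ 2) (S / 2 ^ j)) *
        (∫⁻ f in EE Δ₀ (y₀ * (S / 2 ^ j) ^ 2) β', PP h (6 * L) 3 K f)) +
      ENNReal.ofReal (4 ^ 11 * Λ ^ 11) * (ENNReal.ofReal (Cv * D * H₀ ^ 11) +
        ENNReal.ofReal (Cc * κ ^ 20 * Λ ^ 10 * D * (H₀ ^ 17 * T ^ (-(5 / 3) : ℝ)))) +
      ENNReal.ofReal (4 ^ 11 * Λ ^ 11) * ((N : ENNReal) * ENNReal.ofReal ((Es + En) * κ * D * K ^ 200 * κ⁻¹ ^ n)) := by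
    ring
  rw [e1]
  refine add_le_add (add_le_add ?_ ?_) ?_
  · rw [Finset.mul_sum, Finset.mul_sum]
    refine Finset.sum_le_sum fun j _ => ?_
    rw [← mul_assoc, ← mul_assoc]
    refine mul_le_mul_left ?_ _
    have hρe : 0 ≤ wB ε κ (K * y₀ ^ 2) (S / 2 ^ j) := (wB_pos hG₀ (by positivity)).le
    rw [← ENNReal.ofReal_mul (by positivity), ← ENNReal.ofReal_mul (by positivity)]
    refine ENNReal.ofReal_le_ofReal ?_
    calc 4 ^ 11 * Λ ^ 11 * ((Cs + Cn) * κ ^ 3 * wB ε κ (K * y₀ ^ 2) (S / 2 ^ j)) =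
          4 ^ 11 * (Cs + Cn) * (κ ^ 3 * Λ ^ 11 * wB ε κ (K * y₀ ^ 2) (S / 2 ^ j)) := by ring
      _ ≤ C * (κ ^ 3 * Λ ^ 11 * wB ε κ (K * y₀ ^ 2) (S / 2 ^ j)) := mul_le_mul_of_nonneg_right c1 (by positivity)
      _ = _ := by ring
  · rw [← ENNReal.ofReal_add (by positivity) (by positivity), ← ENNReal.ofReal_mul (by positivity)]
    refine ENNReal.ofReal_le_ofReal ?_
    have g1 : Cv * D * H₀ ^ 11 ≤ Cv * (κ ^ 20 * Λ ^ 10 * D * Bd) := by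
      have g2 : 1 ≤ κ ^ 20 * Λ ^ 10 := one_le_mul_of_one_le_of_one_le hκ20 hΛ10
      have g3 : D * H₀ ^ 11 ≤ D * Bd := mul_le_mul_of_nonneg_left hBd0 hD0.le
      have g4 : D * Bd ≤ κ ^ 20 * Λ ^ 10 * (D * Bd) := le_mul_of_one_le_left (by positivity) g2
      calc Cv * D * H₀ ^ 11 = Cv * (D * H₀ ^ 11) := by ring
        _ ≤ Cv * (κ ^ 20 * Λ ^ 10 * (D * Bd)) := mul_le_mul_of_nonneg_left (g3.trans g4) (by linarith)
        _ = _ := by ring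
    have g2 : Cc * κ ^ 20 * Λ ^ 10 * D * (H₀ ^ 17 * T ^ (-(5 / 3) : ℝ)) ≤ Cc * (κ ^ 20 * Λ ^ 10 * D * Bd) := by
      calc Cc * κ ^ 20 * Λ ^ 10 * D * (H₀ ^ 17 * T ^ (-(5 / 3) : ℝ)) ≤ Cc * κ ^ 20 * Λ ^ 10 * D * Bd :=
            mul_le_mul_of_nonneg_left hBd2 (by positivity)
        _ = _ := by ring
    calc 4 ^ 11 * Λ ^ 11 * (Cv * D * H₀ ^ 11 + Cc * κ ^ 20 * Λ ^ 10 * D * (H₀ ^ 17 * T ^ (-(5 / 3) : ℝ))) ≤
          4 ^ 11 * Λ ^ 11 * (Cv * (κ ^ 20 * Λ ^ 10 * D * Bd) + Cc * (κ ^ 20 * Λ ^ 10 * D * Bd)) :=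
          mul_le_mul_of_nonneg_left (add_le_add g1 g2) (by positivity)
      _ = 4 ^ 11 * (Cc + Cv) * (κ ^ 20 * Λ ^ 21 * D * Bd) := by ring
      _ ≤ C * (κ ^ 20 * Λ ^ 21 * D * Bd) := mul_le_mul_of_nonneg_right c2 (by positivity)
      _ = _ := by ring
  · rw [← ENNReal.ofReal_natCast N, ← ENNReal.ofReal_mul (by positivity), ← ENNReal.ofReal_mul (by positivity)]
    refine ENNReal.ofReal_le_ofReal ?_
    have g0 : (0 : ℝ) ≤ (Es + En) * κ * D * K ^ 200 * κ⁻¹ ^ n := by positivity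
    calc 4 ^ 11 * Λ ^ 11 * ((N : ℝ) * ((Es + En) * κ * D * K ^ 200 * κ⁻¹ ^ n)) ≤
          4 ^ 11 * Λ ^ 11 * (2 * Λ * ((Es + En) * κ * D * K ^ 200 * κ⁻¹ ^ n)) :=
          mul_le_mul_of_nonneg_left (mul_le_mul_of_nonneg_right hNlog g0) (by positivity)
      _ = _ := by ring

end Pool.Agent.Helper86.LK
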