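import Pool.Agent.Helper86.LK.Defs
import Pool.Agent.Helper60.LT.B4

/-!
# LK-W1: the linearised family at a fixed `x₀`, tools

`lf_zero`: `W p y S a T x₀ = lf p x₀ y S a (y² T) 0`. `lfZ`: on an interval of slopes where the ratio `r = g''/f''` is nearly constant `r₀` the term `Z g` is a bounded multiplier times `r₀ Z f`.
`lowF`, `upF`: weights in `(R, Z)` with a fictitious second variable.
-/

open MeasureTheory Real Set Filter Topology

set_option autoImplicit false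

namespace Pool.Agent.Helper86.LK

open Pool.Agent.Helper60.LT
open Pool.Agent.Helper22.AE
open Pool.Agent.Helper92.GC (dt tp Tq uu tt arc gs dd IsDw)
open Pool.Agent.Helper92.DT (m12 IsMul12 m12_nonneg)
open Pool.Agent.Helper22.AC (IsWt)
open Pool.Agent.Helper78.CG (ff Crv)

private lemma ee_add_w1 (x y : ℝ) : ee (x + y) = ee x * ee y := by
  unfold ee
  rw [← Complex.exp_add]
  congr 1
  push_cast
  ring

/-- the family at `x₀` is the linearised family with `Z = 0` -/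
theorem lf_zero {p : ℝ → ℝ} {x₀ y T : ℝ} (hy : y ≠ 0) {S : Finset (ℤ × ℤ)} (a : ℤ × ℤ → ℂ) (hS : ∀ k ∈ S, 0 < uu x₀ k) :
    W p y S a T x₀ = lf p x₀ y S a (y ^ 2 * T) 0 := by
  obtain ⟨c, hcd⟩ : ∃ c : ℝ × ℝ, c = (T * p 0, T * (p 0 * x₀ + deriv p 0 * y)) := ⟨_, rfl⟩
  have hph : ∀ k ∈ S, T * pf p x₀ y k = dt k c + (y ^ 2 * T * (uu x₀ k * fy p y (tt x₀ k)) + 0 * (uu x₀ k * gy p y (tt x₀ k))) := by
    intro k hk
    have h1 := phase_expand (p := p) (T := T) (x₀ := x₀) (ξ := 0) (y := y) hy (hS k hk) (by simp)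
    have h2 : ch p y 0 (tt x₀ k) = 0 := by
      unfold ch
      simp
    rw [h2, mul_zero, mul_zero, neg_zero, mul_zero, add_zero, ← hcd, add_zero] at h1
    exact h1
  have e1 : lf p x₀ y S a (y ^ 2 * T) 0 = m12 S (fun k => ee (dt k c) *
      (a k * ee (y ^ 2 * T * (uu x₀ k * fy p y (tt x₀ k)) + 0 * (uu x₀ k * gy p y (tt x₀ k))))) := by
    rw [Pool.Agent.Helper92.DT.m12_shift S _ c]
    rfl
  rw [e1]
  unfold W
  refine Pool.Agent.Helper92.DT.m12_congr fun k hk => ?_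
  rw [hph k hk, ee_add_w1]
  ring

/-- the term `Z g` on an interval of slopes where `r` is nearly constant -/
theorem lfZ {c C₀ ρ : ℝ} {p : ℝ → ℝ} {y : ℝ} (hc : 0 < c) (hcrv : Crv c C₀ ρ (fy p y) (gy p y) (ry p y)) {x₀ t₁ t₂ r₀ δ A U : ℝ}
    {S : Finset (ℤ × ℤ)} (h12 : t₁ ≤ t₂) (ht1 : -ρ ≤ t₁) (ht2 : t₂ ≤ ρ) (hU : 0 < U) (hδ : 0 ≤ δ)
    (hS : ∀ k ∈ S, 0 < uu x₀ k ∧ uu x₀ k ≤ U ∧ t₁ ≤ tt x₀ k ∧ tt x₀ k ≤ t₂) (hr : ∀ t ∈ Icc t₁ t₂, |ry p y t - r₀| ≤ δ)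
    {Z : ℝ} (hA : U * |Z| * (δ * C₀ * (t₂ - t₁) ^ 2) ≤ A) (a : ℤ × ℤ → ℂ) (R : ℝ) :
    lf p x₀ y S a R Z ≤ exp (3800 * A) ^ 12 * lf p x₀ y S a (R + r₀ * Z) 0 ∧
    lf p x₀ y S a (R + r₀ * Z) 0 ≤ exp (3800 * A) ^ 12 * lf p x₀ y S a R Z := by
  obtain ⟨f1, g1, φ, hex⟩ := hcrv.ex
  have hab : ∀ t ∈ Icc t₁ t₂, |t| ≤ ρ := fun t ht => abs_le.2 ⟨by linarith [ht.1], by linarith [ht.2]⟩
  have hd : 0 ≤ t₂ - t₁ := by linarith
  have hC₀ : 0 ≤ C₀ := by
    have := hex t₁ (hab t₁ ⟨le_rfl, h12⟩)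
    linarith [this.2.2.2.2.1, this.2.2.2.2.2]
  -- the normalised function
  obtain ⟨β, hβ⟩ : ∃ β, β = g1 t₁ - r₀ * f1 t₁ := ⟨_, rfl⟩
  obtain ⟨α, hα⟩ : ∃ α, α = gy p y t₁ - r₀ * fy p y t₁ := ⟨_, rfl⟩
  obtain ⟨G, hG⟩ : ∃ G : ℝ → ℝ, G = fun t => gy p y t - r₀ * fy p y t - α - (t - t₁) * β := ⟨_, rfl⟩
  have hG1 : ∀ t ∈ Icc t₁ t₂, HasDerivAt G (g1 t - r₀ * f1 t - β) t := by
    intro t ht
    obtain ⟨a1, a2, a3, a4, a5, a6⟩ := hex t (hab t ht)
    rw [hG]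
    have := ((a3.sub (a1.const_mul r₀)).sub_const α).sub (((hasDerivAt_id t).sub_const t₁).mul_const β)
    refine this.congr_deriv ?_
    simp
  have hG2 : ∀ t ∈ Icc t₁ t₂, HasDerivAt (fun t => g1 t - r₀ * f1 t - β) ((ry p y t - r₀) * φ t) t := by
    intro t ht
    obtain ⟨a1, a2, a3, a4, a5, a6⟩ := hex t (hab t ht)
    have := (a4.sub (a2.const_mul r₀)).sub_const β
    refine this.congr_deriv ?_
    ring
  have hb2 : ∀ t ∈ Icc t₁ t₂, ‖(ry p y t - r₀) * φ t‖ ≤ δ * C₀ := by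
    intro t ht
    obtain ⟨a1, a2, a3, a4, a5, a6⟩ := hex t (hab t ht)
    rw [norm_mul, norm_eq_abs, norm_eq_abs, abs_of_pos (by linarith : 0 < φ t)]
    exact mul_le_mul (hr t ht) a6 (by linarith) hδ
  have hδC : 0 ≤ δ * C₀ := by positivity
  have hb1 : ∀ t ∈ Icc t₁ t₂, ‖g1 t - r₀ * f1 t - β‖ ≤ δ * C₀ * (t₂ - t₁) := by
    intro t ht
    have h1 := (convex_Icc t₁ t₂).norm_image_sub_le_of_norm_hasDerivWithin_le (f := fun t => g1 t - r₀ * f1 t - β)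
      (fun x hx => (hG2 x hx).hasDerivWithinAt) hb2 ⟨le_rfl, h12⟩ ht
    have e : g1 t₁ - r₀ * f1 t₁ - β = 0 := by
      rw [hβ]
      ring
    rw [e, sub_zero] at h1
    refine h1.trans (mul_le_mul_of_nonneg_left ?_ hδC)
    rw [norm_eq_abs, abs_of_nonneg (by linarith [ht.1])]
    linarith [ht.2]
  have hlip : ∀ s ∈ Icc t₁ t₂, ∀ t ∈ Icc t₁ t₂, |G s - G t| ≤ δ * C₀ * (t₂ - t₁) * |s - t| := by
    intro s hs t ht
    have h1 := (convex_Icc t₁ t₂).norm_image_sub_le_of_norm_hasDerivWithin_le (f := G)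
      (fun x hx => (hG1 x hx).hasDerivWithinAt) hb1 ht hs
    simpa only [norm_eq_abs] using h1
  have hG0 : G t₁ = 0 := by
    rw [hG, hα]
    simp
  have hbd : ∀ t ∈ Icc t₁ t₂, |G t| ≤ δ * C₀ * (t₂ - t₁) ^ 2 := by
    intro t ht
    have h1 := hlip t ht t₁ ⟨le_rfl, h12⟩
    rw [hG0, sub_zero] at h1
    refine h1.trans ?_
    rw [abs_of_nonneg (by linarith [ht.1]), pow_two, ← mul_assoc]
    exact mul_le_mul_of_nonneg_left (by linarith [ht.2]) (by positivity)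
  have hχ : ∀ s : ℝ, |s| ≤ 1 → ∀ t ∈ Icc t₁ t₂, |s * (Z * G t)| ≤ A / U := by
    intro s hs t ht
    rw [le_div_iff₀ hU, abs_mul, abs_mul]
    have h1 : |Z| * |G t| ≤ |Z| * (δ * C₀ * (t₂ - t₁) ^ 2) := mul_le_mul_of_nonneg_left (hbd t ht) (abs_nonneg _)
    have h2 : |s| * (|Z| * |G t|) ≤ 1 * (|Z| * (δ * C₀ * (t₂ - t₁) ^ 2)) :=
      mul_le_mul hs h1 (by positivity) (by norm_num)
    calc |s| * (|Z| * |G t|) * U ≤ 1 * (|Z| * (δ * C₀ * (t₂ - t₁) ^ 2)) * U := mul_le_mul_of_nonneg_right h2 hU.le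
      _ = U * |Z| * (δ * C₀ * (t₂ - t₁) ^ 2) := by ring
      _ ≤ A := hA
  have hχ2 : ∀ s : ℝ, |s| ≤ 1 → ∀ x ∈ Icc t₁ t₂, ∀ x' ∈ Icc t₁ t₂,
      |s * (Z * G x) - s * (Z * G x')| * (t₂ - t₁) ≤ A / U * |x - x'| := by
    intro s hs x hx x' hx'
    rw [div_mul_eq_mul_div, le_div_iff₀ hU]
    have e : s * (Z * G x) - s * (Z * G x') = s * (Z * (G x - G x')) := by ring
    rw [e, abs_mul, abs_mul]
    have h1 : |Z| * |G x - G x'| ≤ |Z| * (δ * C₀ * (t₂ - t₁) * |x - x'|) :=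
      mul_le_mul_of_nonneg_left (hlip x hx x' hx') (abs_nonneg _)
    have h2 : |s| * (|Z| * |G x - G x'|) ≤ 1 * (|Z| * (δ * C₀ * (t₂ - t₁) * |x - x'|)) :=
      mul_le_mul hs h1 (by positivity) (by norm_num)
    calc |s| * (|Z| * |G x - G x'|) * (t₂ - t₁) * U
        ≤ 1 * (|Z| * (δ * C₀ * (t₂ - t₁) * |x - x'|)) * (t₂ - t₁) * U :=
          mul_le_mul_of_nonneg_right (mul_le_mul_of_nonneg_right h2 hd) hU.le
      _ = (U * |Z| * (δ * C₀ * (t₂ - t₁) ^ 2)) * |x - x'| := by ring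
      _ ≤ A * |x - x'| := mul_le_mul_of_nonneg_right hA (abs_nonneg _)
  have hm1 := Pool.Agent.Helper92.DT.mul12_exp (S := S) (β := x₀) hU h12 hS
    (χ := fun t => 1 * (Z * G t)) (B := A) (hχ 1 (by norm_num)) (hχ2 1 (by norm_num))
  have hm2 := Pool.Agent.Helper92.DT.mul12_exp (S := S) (β := x₀) hU h12 hS
    (χ := fun t => -1 * (Z * G t)) (B := A) (hχ (-1) (by norm_num)) (hχ2 (-1) (by norm_num))
  -- the phases
  obtain ⟨cc, hcd⟩ : ∃ cc : ℝ × ℝ, cc = (Z * (α - β * t₁), Z * ((α - β * t₁) * x₀ + β)) := ⟨_, rfl⟩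
  have hph : ∀ k ∈ S, R * (uu x₀ k * fy p y (tt x₀ k)) + Z * (uu x₀ k * gy p y (tt x₀ k)) =
      dt k cc + ((R + r₀ * Z) * (uu x₀ k * fy p y (tt x₀ k)) + 0 * (uu x₀ k * gy p y (tt x₀ k))) +
        uu x₀ k * (1 * (Z * G (tt x₀ k))) := by
    intro k hk
    have hu := (hS k hk).1
    have ht : (k.2 : ℝ) = uu x₀ k * tt x₀ k := by
      unfold tt
      rw [mul_div_cancel₀ _ hu.ne']
    have hk1 : (k.1 : ℝ) = uu x₀ k - x₀ * (uu x₀ k * tt x₀ k) := by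
      rw [← ht]
      unfold uu
      ring
    unfold dt
    rw [hk1, ht, hcd, hG]
    ring
  have hneg : ∀ k : ℤ × ℤ, dt k (-cc) = -dt k cc := by
    intro k
    unfold dt
    rw [Prod.fst_neg, Prod.snd_neg]
    ring
  constructor
  · have e1 : lf p x₀ y S a R Z = m12 S (fun k => ee (uu x₀ k * (1 * (Z * G (tt x₀ k)))) *
        (a k * ee ((R + r₀ * Z) * (uu x₀ k * fy p y (tt x₀ k)) + 0 * (uu x₀ k * gy p y (tt x₀ k))))) := by
      rw [← Pool.Agent.Helper92.DT.m12_shift S _ cc]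
      unfold lf
      refine Pool.Agent.Helper92.DT.m12_congr fun k hk => ?_
      rw [hph k hk, ee_add_w1, ee_add_w1]
      ring
    rw [e1]
    exact hm1.2 _
  · have e1 : lf p x₀ y S a (R + r₀ * Z) 0 = m12 S (fun k => ee (uu x₀ k * (-1 * (Z * G (tt x₀ k)))) *
        (a k * ee (R * (uu x₀ k * fy p y (tt x₀ k)) + Z * (uu x₀ k * gy p y (tt x₀ k))))) := by
      rw [← Pool.Agent.Helper92.DT.m12_shift S _ (-cc)]
      unfold lf
      refine Pool.Agent.Helper92.DT.m12_congr fun k hk => ?_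
      have e2 : (R + r₀ * Z) * (uu x₀ k * fy p y (tt x₀ k)) + 0 * (uu x₀ k * gy p y (tt x₀ k)) =
          dt k (-cc) + (R * (uu x₀ k * fy p y (tt x₀ k)) + Z * (uu x₀ k * gy p y (tt x₀ k))) +
            uu x₀ k * (-1 * (Z * G (tt x₀ k))) := by
        rw [hph k hk, hneg]
        ring
      rw [e2, ee_add_w1, ee_add_w1]
      ring
    rw [e1]
    exact hm2.2 _

/-! ### one dimensional tools -/

private theorem wint_w1 {v : ℝ → ℝ} (h1 : ∫ R, v R = 1) : Integrable v := by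
  by_contra hcon
  rw [integral_undef hcon] at h1
  exact zero_ne_one h1

private lemma sub_w1 {c : ℝ} (hc : 0 < c) {a b : ℝ} (hab : a ≤ b) (F : ℝ → ℝ) :
    ∫ T in Icc a b, F (c * T) = c⁻¹ * ∫ R in Icc (c * a) (c * b), F R := by
  rw [integral_Icc_eq_integral_Ioc, integral_Icc_eq_integral_Ioc, ← intervalIntegral.integral_of_le hab,
    ← intervalIntegral.integral_of_le (mul_le_mul_of_nonneg_left hab hc.le),
    intervalIntegral.integral_comp_mul_left _ hc.ne', smul_eq_mul]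

private lemma shift_w1 {c : ℝ} {a b : ℝ} (hab : a ≤ b) (F : ℝ → ℝ) :
    ∫ T in Icc a b, F (T + c) = ∫ R in Icc (a + c) (b + c), F R := by
  rw [integral_Icc_eq_integral_Ioc, integral_Icc_eq_integral_Ioc, ← intervalIntegral.integral_of_le hab,
    ← intervalIntegral.integral_of_le (by linarith), intervalIntegral.integral_comp_add_right]

theorem vG_w1 {v : ℝ → ℝ} (hvi : Integrable v) {f : ℝ → ℝ} {D : ℝ} (hf : Continuous f)
    (h0 : ∀ t, 0 ≤ f t) (hD : ∀ t, f t ≤ D) : Integrable (fun t => v t * f t) := by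
  refine hvi.mul_bdd (c := D) hf.aestronglyMeasurable (Filter.Eventually.of_forall fun t => ?_)
  rw [Real.norm_of_nonneg (h0 t)]
  exact hD t

private theorem contI_w1 {w : ℝ → ℝ} (hwi : Integrable w) (hw0 : ∀ g, 0 ≤ w g) {G : ℝ → ℝ → ℝ} {D : ℝ}
    (hwc : Continuous w)
    (hG : Continuous (fun q : ℝ × ℝ => G q.1 q.2)) (h0 : ∀ t g, 0 ≤ G t g) (hD : ∀ t g, G t g ≤ D) :
    Continuous (fun t => ∫ g, w g * G t g) := by
  refine continuous_of_dominated (bound := fun g => w g * D) ?_ ?_ (hwi.mul_const D) ?_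
  · intro t
    have : Continuous fun g => w g * G t g := hwc.mul (hG.comp (by fun_prop : Continuous fun g : ℝ => (t, g)))
    exact this.aestronglyMeasurable
  · intro t
    refine Filter.Eventually.of_forall fun g => ?_
    rw [Real.norm_of_nonneg (mul_nonneg (hw0 g) (h0 t g))]
    exact mul_le_mul_of_nonneg_left (hD t g) (hw0 g)
  · refine Filter.Eventually.of_forall fun g => ?_
    exact continuous_const.mul (hG.comp (by fun_prop : Continuous fun t : ℝ => (t, g)))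

/-- the weight is at least `c₀/X` on its core -/
private lemma low_w1 {X R₁ c₀ : ℝ} {v : ℝ → ℝ} {Cd : ℕ → ℝ} (hX : 0 < X) (hc : 0 < c₀) (hv : IsDw X R₁ v c₀ Cd)
    {F : ℝ → ℝ} (hF : Continuous F) (h0 : ∀ t, 0 ≤ F t) (hi : Integrable (fun t => v t * F t)) :
    ∫ t in Icc R₁ (R₁ + X), F t ≤ (X / c₀) * ∫ t, v t * F t := by
  have hk : 0 < X / c₀ := by positivity
  have h1 : ∫ t in Icc R₁ (R₁ + X), F t ≤ ∫ t in Icc R₁ (R₁ + X), (X / c₀) * (v t * F t) := by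
    refine setIntegral_mono_on (hF.continuousOn.integrableOn_compact isCompact_Icc)
      (hi.const_mul _).integrableOn measurableSet_Icc fun t ht => ?_
    have h2 := hv.low t ht
    have h3 : 1 ≤ (X / c₀) * v t := by
      calc (1 : ℝ) = (X / c₀) * (c₀ / X) := by field_simp
        _ ≤ _ := mul_le_mul_of_nonneg_left h2 hk.le
    calc F t = 1 * F t := (one_mul _).symm
      _ ≤ ((X / c₀) * v t) * F t := mul_le_mul_of_nonneg_right h3 (h0 t)
      _ = _ := by ring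
  refine h1.trans ?_
  rw [integral_const_mul]
  exact mul_le_mul_of_nonneg_left (setIntegral_le_integral hi (Filter.Eventually.of_forall fun t =>
    mul_nonneg (hv.wt.nonneg t) (h0 t))) hk.le

private lemma setmono_w1 {F : ℝ → ℝ} (hF : Continuous F) (h0 : ∀ t, 0 ≤ F t) {a b a' b' : ℝ} (h1 : a' ≤ a) (h2 : b ≤ b') :
    ∫ t in Icc a b, F t ≤ ∫ t in Icc a' b', F t := by
  refine setIntegral_mono_set (hF.continuousOn.integrableOn_compact isCompact_Icc) ?_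
    (Icc_subset_Icc h1 h2).eventuallyLE
  exact Filter.Eventually.of_forall h0

/-- tails of the weights -/
private theorem tail_w1 {X R₁ κ c₀ : ℝ} {v : ℝ → ℝ} {Cd : ℕ → ℝ} (hX : 0 < X) (hκ : 0 < κ)
    (hv : IsDw X R₁ v c₀ Cd) (n : ℕ) :
    ∫ t in (Icc (R₁ - κ * X) (R₁ + κ * X))ᶜ, v t ≤ κ⁻¹ ^ n * (π * (Cd n + Cd (n + 2))) := by
  have hfar : ∀ t ∈ (Icc (R₁ - κ * X) (R₁ + κ * X))ᶜ, κ * X ≤ |t - R₁| := by
    intro t ht
    rw [mem_compl_iff, mem_Icc, not_and_or, not_le, not_le] at ht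
    have e1 : 0 < κ * X := by positivity
    rcases ht with ht | ht
    · rw [abs_of_neg (by linarith)]
      linarith
    · rw [abs_of_pos (by linarith)]
      linarith
  obtain ⟨h1, h2⟩ := Pool.Agent.Helper92.GC.dw_tail hX hv n
  have hvi := wint_w1 hv.wt.int_one
  have h3 : ∫ t in (Icc (R₁ - κ * X) (R₁ + κ * X))ᶜ, v t ≤
      ∫ t in (Icc (R₁ - κ * X) (R₁ + κ * X))ᶜ, κ⁻¹ ^ n * (v t * (|t - R₁| / X) ^ n) := by
    refine setIntegral_mono_on hvi.integrableOn (h1.const_mul _).integrableOn measurableSet_Icc.compl fun t ht => ?_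
    have hone : 1 ≤ κ⁻¹ * (|t - R₁| / X) := by
      rw [inv_mul_eq_div, le_div_iff₀ hκ, one_mul, le_div_iff₀ hX]
      exact hfar t ht
    have hpow : 1 ≤ κ⁻¹ ^ n * (|t - R₁| / X) ^ n := by
      rw [← mul_pow]
      exact one_le_pow₀ hone
    calc v t = v t * 1 := (mul_one _).symm
      _ ≤ v t * (κ⁻¹ ^ n * (|t - R₁| / X) ^ n) := mul_le_mul_of_nonneg_left hpow (hv.wt.nonneg t)
      _ = _ := by ring
  refine h3.trans ?_
  have h4 : ∫ t in (Icc (R₁ - κ * X) (R₁ + κ * X))ᶜ, κ⁻¹ ^ n * (v t * (|t - R₁| / X) ^ n) ≤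
      ∫ t, κ⁻¹ ^ n * (v t * (|t - R₁| / X) ^ n) :=
    setIntegral_le_integral (h1.const_mul _) (Filter.Eventually.of_forall fun t => by
      have := hv.wt.nonneg t
      positivity)
  refine h4.trans ?_
  rw [integral_const_mul]
  exact mul_le_mul_of_nonneg_left h2 (by positivity)

/-- the iterated form of `LL` -/
theorem LL_iter (v w : ℝ → ℝ) (p : ℝ → ℝ) (x₀ y : ℝ) (S : Finset (ℤ × ℤ)) (a : ℤ × ℤ → ℂ) :
    LL v w p x₀ y S a = ∫ R, v R * ∫ Z, w Z * lf p x₀ y S a R Z := by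
  unfold LL
  refine integral_congr_ae (Filter.Eventually.of_forall fun t => ?_)
  simp only
  rw [← integral_const_mul]
  refine integral_congr_ae (Filter.Eventually.of_forall fun g => ?_)
  simp only
  ring

private theorem lf0_w1 (p : ℝ → ℝ) (x₀ y : ℝ) (S : Finset (ℤ × ℤ)) (a : ℤ × ℤ → ℂ) (R Z : ℝ) :
    0 ≤ lf p x₀ y S a R Z := m12_nonneg _ _

/-- the inner integral -/
theorem Jg_w1 {c₀ Z₁ Z₂ D : ℝ} {Cd : ℕ → ℝ} {w : ℝ → ℝ} (hw : IsDw Z₁ Z₂ w c₀ Cd) {G : ℝ → ℝ → ℝ}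
    (hG : Continuous (fun q : ℝ × ℝ => G q.1 q.2)) (h0 : ∀ t g, 0 ≤ G t g) (hD : ∀ t g, G t g ≤ D) :
    Continuous (fun R => ∫ Z, w Z * G R Z) ∧ (∀ R, 0 ≤ ∫ Z, w Z * G R Z) ∧
    (∀ R, ∫ Z, w Z * G R Z ≤ D) ∧ (∀ R, Integrable (fun Z => w Z * G R Z)) := by
  have hwi := wint_w1 hw.wt.int_one
  have hw0 := hw.wt.nonneg
  have hGt : ∀ t, Continuous fun g => G t g := fun t => hG.comp (by fun_prop : Continuous fun g : ℝ => (t, g))
  have hwG : ∀ t, Integrable (fun g => w g * G t g) :=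
    fun t => vG_w1 hwi (hGt t) (h0 t) (hD t)
  refine ⟨contI_w1 hwi hw0 hw.wt.cont hG h0 hD,
    fun t => integral_nonneg fun g => mul_nonneg (hw0 g) (h0 t g), fun t => ?_, hwG⟩
  have h1 : ∫ g, w g * G t g ≤ ∫ g, w g * D :=
    integral_mono (hwG t) (hwi.mul_const _) fun g => mul_le_mul_of_nonneg_left (hD t g) (hw0 g)
  rwa [integral_mul_const, hw.wt.int_one, one_mul] at h1

/-- from the family at `x₀` to the weights: `A` bounds the multiplier for `0 ≤ Z ≤ Z₀` -/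
theorem lowF {c₀ : ℝ} {Cd : ℕ → ℝ} (hc : 0 < c₀) {p : ℝ → ℝ} {S : Finset (ℤ × ℤ)} {a : ℤ × ℤ → ℂ} {x₀ y T₁ X₁ Z₀ Z₁ A : ℝ} {v w : ℝ → ℝ}
    (hy : 0 < y) (hX : 0 < X₁) (hZ0 : 0 < Z₀) (hZ01 : Z₀ ≤ Z₁) (hA : 0 ≤ A) (ha : ∀ k, ‖a k‖ ≤ 1)
    (hv : IsDw (y ^ 2 * X₁) (y ^ 2 * T₁) v c₀ Cd) (hw : IsDw Z₁ 0 w c₀ Cd)
    (hm : ∀ R, ∀ Z ∈ Icc 0 Z₀, lf p x₀ y S a R 0 ≤ A * lf p x₀ y S a R Z) :
    ∫ T in Icc T₁ (T₁ + X₁), lf p x₀ y S a (y ^ 2 * T) 0 ≤ A / c₀ ^ 2 * (X₁ * (Z₁ / Z₀)) * LL v w p x₀ y S a := by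
  have hy2 : 0 < y ^ 2 := by positivity
  have hZ1 : 0 < Z₁ := hZ0.trans_le hZ01
  obtain ⟨G, hGd⟩ : ∃ G : ℝ → ℝ → ℝ, G = fun R Z => lf p x₀ y S a R Z := ⟨_, rfl⟩
  have hG : Continuous (fun q : ℝ × ℝ => G q.1 q.2) := by
    rw [hGd]
    exact lf_cont a
  have h0 : ∀ R Z, 0 ≤ G R Z := by
    intro R Z
    rw [hGd]
    exact lf0_w1 _ _ _ _ _ _ _
  have hDG : ∀ R Z, G R Z ≤ (S.card : ℝ) ^ 12 := by
    intro R Z
    rw [hGd]
    exact lf_le ha R Z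
  have hm' : ∀ R, ∀ Z ∈ Icc 0 Z₀, G R 0 ≤ A * G R Z := by
    rw [hGd]
    exact hm
  have hLLG : LL v w p x₀ y S a = ∫ R, v R * ∫ Z, w Z * G R Z := by
    rw [LL_iter, hGd]
  have hgoal : ∫ T in Icc T₁ (T₁ + X₁), lf p x₀ y S a (y ^ 2 * T) 0 = ∫ T in Icc T₁ (T₁ + X₁), G (y ^ 2 * T) 0 := by
    rw [hGd]
  rw [hgoal]
  clear hm hgoal hGd
  obtain ⟨hJc, hJ0, hJD, hwG⟩ := Jg_w1 hw hG h0 hDG
  have hGt : ∀ t, Continuous fun g => G t g := fun t => hG.comp (by fun_prop : Continuous fun g : ℝ => (t, g))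
  have hG0 : Continuous fun R => G R 0 := hG.comp (by fun_prop : Continuous fun R : ℝ => (R, (0 : ℝ)))
  obtain ⟨J, hJ⟩ : ∃ J : ℝ → ℝ, J = fun R => ∫ Z, w Z * G R Z := ⟨_, rfl⟩
  have hLL : LL v w p x₀ y S a = ∫ R, v R * J R := by
    rw [hLLG, hJ]
  have hJc' : Continuous J := by rw [hJ]; exact hJc
  have hJ0' : ∀ t, 0 ≤ J t := by rw [hJ]; exact hJ0
  have hJD' : ∀ t, J t ≤ (S.card : ℝ) ^ 12 := by rw [hJ]; exact hJD
  have hvi := wint_w1 hv.wt.int_one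
  have h1 : ∀ R, G R 0 ≤ A * (Z₁ / (c₀ * Z₀)) * J R := by
    intro R
    have h2 : ∫ Z in Icc 0 Z₀, G R 0 ≤ ∫ Z in Icc 0 Z₀, A * G R Z :=
      setIntegral_mono_on (continuous_const.continuousOn.integrableOn_compact isCompact_Icc)
        (((hGt R).const_smul A).continuousOn.integrableOn_compact isCompact_Icc) measurableSet_Icc fun Z hZ => hm' R Z hZ
    rw [setIntegral_const, measureReal_def, Real.volume_Icc, sub_zero, ENNReal.toReal_ofReal hZ0.le, smul_eq_mul, integral_const_mul] at h2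
    have h3 : ∫ Z in Icc 0 Z₀, G R Z ≤ ∫ Z in Icc 0 (0 + Z₁), G R Z :=
      setmono_w1 (hGt R) (h0 R) le_rfl (by linarith)
    have h4 := low_w1 hZ1 hc hw (hGt R) (h0 R) (hwG R)
    have h5 : ∫ Z in Icc 0 Z₀, G R Z ≤ Z₁ / c₀ * J R := by
      rw [hJ]
      exact h3.trans h4
    have h6 : Z₀ * G R 0 ≤ A * (Z₁ / c₀ * J R) := h2.trans (mul_le_mul_of_nonneg_left h5 hA)
    calc G R 0 = Z₀⁻¹ * (Z₀ * G R 0) := by rw [inv_mul_cancel_left₀ hZ0.ne']
      _ ≤ Z₀⁻¹ * (A * (Z₁ / c₀ * J R)) := mul_le_mul_of_nonneg_left h6 (by positivity)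
      _ = _ := by field_simp
  have h2 : ∫ T in Icc T₁ (T₁ + X₁), G (y ^ 2 * T) 0 ≤ ∫ T in Icc T₁ (T₁ + X₁), A * (Z₁ / (c₀ * Z₀)) * J (y ^ 2 * T) := by
    refine setIntegral_mono_on ((hG0.comp (by fun_prop : Continuous fun T : ℝ => y ^ 2 * T)).continuousOn.integrableOn_compact isCompact_Icc)
      ((by fun_prop : Continuous fun T => A * (Z₁ / (c₀ * Z₀)) * J (y ^ 2 * T)).continuousOn.integrableOn_compact isCompact_Icc)
      measurableSet_Icc fun T _ => h1 _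
  rw [integral_const_mul, sub_w1 hy2 (by linarith) J] at h2
  have h3 := low_w1 (by positivity : 0 < y ^ 2 * X₁) hc hv hJc' hJ0' (vG_w1 hvi hJc' hJ0' hJD')
  rw [← mul_add, ← hLL] at h3
  refine h2.trans ?_
  have h4 : 0 ≤ A * (Z₁ / (c₀ * Z₀)) := by positivity
  calc A * (Z₁ / (c₀ * Z₀)) * ((y ^ 2)⁻¹ * ∫ R in Icc (y ^ 2 * T₁) (y ^ 2 * (T₁ + X₁)), J R)
      ≤ A * (Z₁ / (c₀ * Z₀)) * ((y ^ 2)⁻¹ * (y ^ 2 * X₁ / c₀ * LL v w p x₀ y S a)) :=
        mul_le_mul_of_nonneg_left (mul_le_mul_of_nonneg_left h3 (by positivity)) h4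
    _ = _ := by field_simp

/-- from the weights to the family at `x₀`: `r₀ Z` is a shift of `R` up to a multiplier for `|Z| ≤ κ Z₁` -/
theorem upF {c₀ : ℝ} {Cd : ℕ → ℝ} {p : ℝ → ℝ} {S : Finset (ℤ × ℤ)} {a : ℤ × ℤ → ℂ} {x₀ y T₁ X₁ Y Z₁ A r₀ κ D : ℝ} {v w : ℝ → ℝ}
    (hy : 0 < y) (hX : 0 < X₁) (hZ1 : 0 < Z₁) (hκ : 0 < κ) (hA : 0 ≤ A) (n : ℕ)
    (hv : IsDw (y ^ 2 * X₁) (y ^ 2 * T₁) v c₀ Cd) (hw : IsDw Z₁ 0 w c₀ Cd)
    (hm : ∀ R, ∀ Z ∈ Icc (-(κ * Z₁)) (κ * Z₁), lf p x₀ y S a R Z ≤ A * lf p x₀ y S a (R + r₀ * Z) 0)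
    (hY : κ * (y ^ 2 * X₁) + |r₀| * (κ * Z₁) ≤ y ^ 2 * Y) (hD : ∀ R Z, lf p x₀ y S a R Z ≤ D) :
    LL v w p x₀ y S a ≤ A * (Cd 0 / X₁) * (∫ T in Icc (T₁ - Y) (T₁ + Y), lf p x₀ y S a (y ^ 2 * T) 0) +
      (A + 1) * D * (κ⁻¹ ^ n * (π * (Cd n + Cd (n + 2)))) := by
  have hy2 : 0 < y ^ 2 := by positivity
  obtain ⟨τ, hτ⟩ : ∃ τ, τ = κ⁻¹ ^ n * (π * (Cd n + Cd (n + 2))) := ⟨_, rfl⟩
  have hτv : ∫ t in (Icc (y ^ 2 * T₁ - κ * (y ^ 2 * X₁)) (y ^ 2 * T₁ + κ * (y ^ 2 * X₁)))ᶜ, v t ≤ τ := by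
    rw [hτ]
    exact tail_w1 (by positivity) hκ hv n
  have hτw : ∫ t in (Icc (-(κ * Z₁)) (κ * Z₁))ᶜ, w t ≤ τ := by
    have := tail_w1 hZ1 hκ hw n
    rwa [zero_sub, zero_add, ← hτ] at this
  obtain ⟨N, hN⟩ : ∃ N : Set ℝ, N = Icc (-(κ * Z₁)) (κ * Z₁) := ⟨_, rfl⟩
  obtain ⟨M, hM⟩ : ∃ M : Set ℝ, M = Icc (y ^ 2 * T₁ - κ * (y ^ 2 * X₁)) (y ^ 2 * T₁ + κ * (y ^ 2 * X₁)) := ⟨_, rfl⟩
  rw [← hN] at hm hτw
  rw [← hM] at hτv
  have hNm : MeasurableSet N := by rw [hN]; exact measurableSet_Icc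
  have hMm : MeasurableSet M := by rw [hM]; exact measurableSet_Icc
  have hvi := wint_w1 hv.wt.int_one
  have hwi := wint_w1 hw.wt.int_one
  have hv0 := hv.wt.nonneg
  have hw0 := hw.wt.nonneg
  obtain ⟨G, hGd⟩ : ∃ G : ℝ → ℝ → ℝ, G = fun R Z => lf p x₀ y S a R Z := ⟨_, rfl⟩
  have hG : Continuous (fun q : ℝ × ℝ => G q.1 q.2) := by
    rw [hGd]
    exact lf_cont a
  have h0 : ∀ R Z, 0 ≤ G R Z := by
    intro R Z
    rw [hGd]
    exact lf0_w1 _ _ _ _ _ _ _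
  have hDG : ∀ R Z, G R Z ≤ D := by
    intro R Z
    rw [hGd]
    exact hD R Z
  have hD0 : 0 ≤ D := (h0 0 0).trans (hDG 0 0)
  have hGt : ∀ t, Continuous fun g => G t g := fun t => hG.comp (by fun_prop : Continuous fun g : ℝ => (t, g))
  have hwG : ∀ t, Integrable (fun g => w g * G t g) := fun t => vG_w1 hwi (hGt t) (h0 t) (hDG t)
  obtain ⟨g₀, hg₀⟩ : ∃ g₀ : ℝ → ℝ, g₀ = fun R => G R 0 := ⟨_, rfl⟩
  have hgc : Continuous g₀ := by
    rw [hg₀]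
    exact hG.comp (by fun_prop : Continuous fun R : ℝ => (R, (0 : ℝ)))
  have hg0 : ∀ R, 0 ≤ g₀ R := fun R => by rw [hg₀]; exact h0 _ _
  have hgD : ∀ R, g₀ R ≤ D := fun R => by rw [hg₀]; exact hDG _ _
  have hsh : ∀ R : ℝ, Continuous fun Z => g₀ (R + r₀ * Z) := fun R => hgc.comp (by fun_prop)
  have hsh' : ∀ Z : ℝ, Continuous fun R => g₀ (R + r₀ * Z) := fun R => hgc.comp (by fun_prop)
  have hwg : ∀ R, Integrable (fun Z => w Z * g₀ (R + r₀ * Z)) := fun R => vG_w1 hwi (hsh R) (fun _ => hg0 _) (fun _ => hgD _)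
  have hτ0 : 0 ≤ τ := le_trans (setIntegral_nonneg hNm.compl fun g _ => hw0 g) hτw
  -- the inner integral
  have hI : ∀ R, ∫ Z, w Z * G R Z ≤ A * (∫ Z in N, w Z * g₀ (R + r₀ * Z)) + D * τ := by
    intro R
    rw [← integral_add_compl hNm (hwG R)]
    refine add_le_add ?_ ?_
    · rw [← integral_const_mul]
      refine setIntegral_mono_on (hwG R).integrableOn ((hwg R).integrableOn.const_mul A) hNm fun Z hZ => ?_
      have h1 := hm R Z hZ
      have h2 : G R Z ≤ A * g₀ (R + r₀ * Z) := by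
        rw [hg₀, hGd]
        exact h1
      calc w Z * G R Z ≤ w Z * (A * g₀ (R + r₀ * Z)) := mul_le_mul_of_nonneg_left h2 (hw0 Z)
        _ = _ := by ring
    · have h1 : ∫ g in Nᶜ, w g * G R g ≤ ∫ g in Nᶜ, w g * D :=
        setIntegral_mono_on (hwG R).integrableOn (hwi.mul_const D).integrableOn hNm.compl
          fun g _ => mul_le_mul_of_nonneg_left (hDG R g) (hw0 g)
      rw [integral_mul_const] at h1
      refine h1.trans ?_
      rw [mul_comm]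
      exact mul_le_mul_of_nonneg_left hτw hD0
  have hLL : LL v w p x₀ y S a = ∫ R, v R * ∫ Z, w Z * G R Z := by
    rw [LL_iter, hGd]
  have hJc : Continuous (fun R => ∫ Z, w Z * G R Z) := contI_w1 hwi hw0 hw.wt.cont hG h0 hDG
  have hJD : ∀ R, ∫ Z, w Z * G R Z ≤ D := by
    intro R
    have h1 : ∫ g, w g * G R g ≤ ∫ g, w g * D :=
      integral_mono (hwG R) (hwi.mul_const _) fun g => mul_le_mul_of_nonneg_left (hDG R g) (hw0 g)
    rwa [integral_mul_const, hw.wt.int_one, one_mul] at h1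
  have hJ0 : ∀ R, 0 ≤ ∫ Z, w Z * G R Z := fun R => integral_nonneg fun Z => mul_nonneg (hw0 Z) (h0 R Z)
  -- the function on the product
  have hprod : Integrable (fun q : ℝ × ℝ => v q.1 * w q.2 * g₀ (q.1 + r₀ * q.2)) ((volume : Measure ℝ).prod (volume.restrict N)) := by
    have h1 : Integrable (fun q : ℝ × ℝ => v q.1 * w q.2) ((volume : Measure ℝ).prod (volume.restrict N)) :=
      hvi.mul_prod (hwi.restrict (s := N))
    refine h1.mul_bdd (c := D) ((hgc.comp (by fun_prop : Continuous fun q : ℝ × ℝ => q.1 + r₀ * q.2)).aestronglyMeasurable)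
      (Filter.Eventually.of_forall fun q => ?_)
    rw [Real.norm_of_nonneg (hg0 _)]
    exact hgD _
  have hswap := integral_integral_swap (f := fun R Z => v R * w Z * g₀ (R + r₀ * Z)) (μ := volume) (ν := volume.restrict N) hprod
  have e1 : ∫ R, ∫ Z in N, v R * w Z * g₀ (R + r₀ * Z) = ∫ R, v R * ∫ Z in N, w Z * g₀ (R + r₀ * Z) := by
    refine integral_congr_ae (Filter.Eventually.of_forall fun R => ?_)
    simp only
    rw [← integral_const_mul]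
    refine integral_congr_ae (Filter.Eventually.of_forall fun Z => ?_)
    simp only
    ring
  have e2 : ∫ Z in N, ∫ R, v R * w Z * g₀ (R + r₀ * Z) = ∫ Z in N, w Z * ∫ R, v R * g₀ (R + r₀ * Z) := by
    refine integral_congr_ae (Filter.Eventually.of_forall fun Z => ?_)
    simp only
    rw [← integral_const_mul]
    refine integral_congr_ae (Filter.Eventually.of_forall fun R => ?_)
    simp only
    ring
  have hintR : Integrable (fun R => v R * ∫ Z in N, w Z * g₀ (R + r₀ * Z)) := by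
    have h1 := hprod.integral_prod_left
    refine h1.congr (Filter.Eventually.of_forall fun R => ?_)
    simp only
    rw [← integral_const_mul]
    refine integral_congr_ae (Filter.Eventually.of_forall fun Z => ?_)
    simp only
    ring
  obtain ⟨Ib, hIb⟩ : ∃ Ib, Ib = ∫ R in Icc (y ^ 2 * (T₁ - Y)) (y ^ 2 * (T₁ + Y)), g₀ R := ⟨_, rfl⟩
  have hIb0 : 0 ≤ Ib := by
    rw [hIb]
    exact setIntegral_nonneg measurableSet_Icc fun R _ => hg0 R
  obtain ⟨kv, hkv⟩ : ∃ kv, kv = Cd 0 / (y ^ 2 * X₁) := ⟨_, rfl⟩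
  have hvle : ∀ t, v t ≤ kv := fun t => by rw [hkv]; have := hv.dec 0 t; simpa using this
  have hkv0 : 0 ≤ kv := (hv0 0).trans (hvle 0)
  have hZint : ∀ Z ∈ N, ∫ R, v R * g₀ (R + r₀ * Z) ≤ kv * Ib + D * τ := by
    intro Z hZ
    have hi : Integrable (fun R => v R * g₀ (R + r₀ * Z)) := vG_w1 hvi (hsh' Z) (fun _ => hg0 _) (fun _ => hgD _)
    rw [← integral_add_compl hMm hi]
    refine add_le_add ?_ ?_
    · have h1 : ∫ R in M, v R * g₀ (R + r₀ * Z) ≤ ∫ R in M, kv * g₀ (R + r₀ * Z) := by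
        refine setIntegral_mono_on hi.integrableOn ?_ hMm fun R _ => mul_le_mul_of_nonneg_right (hvle R) (hg0 _)
        rw [hM]
        exact ((hsh' Z).const_smul kv).continuousOn.integrableOn_compact isCompact_Icc
      refine h1.trans ?_
      rw [integral_const_mul]
      refine mul_le_mul_of_nonneg_left ?_ hkv0
      have hκX : 0 < κ * (y ^ 2 * X₁) := by positivity
      rw [hM, shift_w1 (by linarith) g₀, hIb]
      have h2 : |r₀ * Z| ≤ |r₀| * (κ * Z₁) := by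
        rw [abs_mul]
        refine mul_le_mul_of_nonneg_left ?_ (abs_nonneg _)
        rw [hN] at hZ
        exact abs_le.2 hZ
      have h3 := abs_le.1 h2
      refine setmono_w1 hgc hg0 ?_ ?_
      · rw [mul_sub]
        linarith [h3.1]
      · rw [mul_add]
        linarith [h3.2]
    · have h1 : ∫ R in Mᶜ, v R * g₀ (R + r₀ * Z) ≤ ∫ R in Mᶜ, v R * D :=
        setIntegral_mono_on hi.integrableOn (hvi.mul_const D).integrableOn hMm.compl
          fun R _ => mul_le_mul_of_nonneg_left (hgD _) (hv0 R)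
      rw [integral_mul_const] at h1
      refine h1.trans ?_
      rw [mul_comm]
      exact mul_le_mul_of_nonneg_left hτv hD0
  have hK0 : 0 ≤ kv * Ib + D * τ := by positivity
  have hmain : ∫ R, v R * ∫ Z in N, w Z * g₀ (R + r₀ * Z) ≤ kv * Ib + D * τ := by
    rw [← e1, hswap, e2]
    have h1 : ∫ Z in N, w Z * ∫ R, v R * g₀ (R + r₀ * Z) ≤ ∫ Z in N, w Z * (kv * Ib + D * τ) := by
      refine setIntegral_mono_on ?_ (hwi.mul_const _).integrableOn hNm fun Z hZ => mul_le_mul_of_nonneg_left (hZint Z hZ) (hw0 Z)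
      have h2 := hprod.integral_prod_right
      refine h2.congr (Filter.Eventually.of_forall fun Z => ?_)
      simp only
      rw [← integral_const_mul]
      refine integral_congr_ae (Filter.Eventually.of_forall fun R => ?_)
      simp only
      ring
    refine h1.trans ?_
    rw [integral_mul_const]
    have h2 : ∫ Z in N, w Z ≤ 1 := by
      rw [← hw.wt.int_one]
      exact setIntegral_le_integral hwi (Filter.Eventually.of_forall hw0)
    calc (∫ Z in N, w Z) * (kv * Ib + D * τ) ≤ 1 * (kv * Ib + D * τ) := mul_le_mul_of_nonneg_right h2 hK0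
      _ = _ := one_mul _
  have htot : LL v w p x₀ y S a ≤ A * (kv * Ib + D * τ) + D * τ := by
    rw [hLL]
    have h1 : ∫ R, v R * ∫ Z, w Z * G R Z ≤ ∫ R, (A * (v R * ∫ Z in N, w Z * g₀ (R + r₀ * Z)) + v R * (D * τ)) := by
      refine integral_mono (vG_w1 hvi hJc hJ0 hJD) ((hintR.const_mul A).add (hvi.mul_const _)) fun R => ?_
      calc v R * ∫ Z, w Z * G R Z ≤ v R * (A * (∫ Z in N, w Z * g₀ (R + r₀ * Z)) + D * τ) :=
            mul_le_mul_of_nonneg_left (hI R) (hv0 R)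
        _ = _ := by ring
    refine h1.trans ?_
    rw [integral_add (hintR.const_mul A) (hvi.mul_const _), integral_const_mul, integral_mul_const, hv.wt.int_one, one_mul]
    exact add_le_add (mul_le_mul_of_nonneg_left hmain hA) le_rfl
  refine htot.trans ?_
  rw [← hτ]
  have e3 : Ib = y ^ 2 * ∫ T in Icc (T₁ - Y) (T₁ + Y), lf p x₀ y S a (y ^ 2 * T) 0 := by
    have hYT : T₁ - Y ≤ T₁ + Y := by
      have h1 : 0 ≤ κ * (y ^ 2 * X₁) + |r₀| * (κ * Z₁) := by positivity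
      have h2 : 0 ≤ y ^ 2 * Y := h1.trans hY
      have h3 : 0 ≤ Y := by
        by_contra hcon
        push Not at hcon
        have := mul_neg_of_pos_of_neg hy2 hcon
        linarith
      linarith
    have h1 := sub_w1 hy2 hYT g₀
    rw [hIb]
    have h2 : ∫ T in Icc (T₁ - Y) (T₁ + Y), lf p x₀ y S a (y ^ 2 * T) 0 = ∫ T in Icc (T₁ - Y) (T₁ + Y), g₀ (y ^ 2 * T) := by
      rw [hg₀, hGd]
    rw [h2, h1, mul_inv_cancel_left₀ hy2.ne']
  rw [e3, hkv]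
  refine le_of_eq ?_
  field_simp
  ring

end Pool.Agent.Helper86.LK
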