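import Pool.Agent.Helper86.LK.W1

/-!
# LK-W2: decoupling on one window at a fixed `x₀`

Window `T ∈ [T₁, T₁ + X/(4κ)]`. Fictitious variable `Z` of scale `Z₁ = θ/H`, `θ = min (z⁶/κ) (c_g G z/κ)`, `z = 1/ρ`. Decoupling into arcs of level `m'` with `M^(3m') ≈ θ`, then the triangle inequality into arcs of level `m`, `M^m ≈ z²`.
Cost: `(Z₁/Z₀) (ρ M^m')⁵ M^(11 (m - m')) = z¹⁴/θ`, `Z₀ = z³/H`.
-/

open MeasureTheory Real Set Filter Topology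

set_option autoImplicit false

namespace Pool.Agent.Helper86.LK

open Pool.Agent.Helper60.LT
open Pool.Agent.Helper22.AE
open Pool.Agent.Helper92.GC (dt tp Tq uu tt arc gs dd IsDw exists_dw)
open Pool.Agent.Helper92.DT (m12 IsMul12 m12_nonneg)
open Pool.Agent.Helper22.AC (IsWt)
open Pool.Agent.Helper78.CG (ff Crv)

private theorem lk_add_le {a b c : ℝ} (hc : 1 ≤ c) (ha : 0 ≤ a) (hb : 0 ≤ b) : a ≤ c * (a + b) :=
  (le_add_of_nonneg_right hb).trans (le_mul_of_one_le_left (add_nonneg ha hb) hc)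

private theorem wint_w2 {v : ℝ → ℝ} (h1 : ∫ R, v R = 1) : Integrable v := by
  by_contra hcon
  rw [integral_undef hcon] at h1
  exact zero_ne_one h1

/-- the weighted integral of a sum -/
private theorem LLs_w2 {ι : Type} {c₀ X R₁ Z₁ Z₂ : ℝ} {Cd : ℕ → ℝ} {v w : ℝ → ℝ} (hv : IsDw X R₁ v c₀ Cd) (hw : IsDw Z₁ Z₂ w c₀ Cd)
    {G : ℝ → ℝ → ℝ} {F : ι → ℝ → ℝ → ℝ} {D A : ℝ} (s : Finset ι)
    (hG : Continuous (fun q : ℝ × ℝ => G q.1 q.2)) (h0 : ∀ t g, 0 ≤ G t g) (hD : ∀ t g, G t g ≤ D)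
    (hF : ∀ i, Continuous (fun q : ℝ × ℝ => F i q.1 q.2)) (hF0 : ∀ i t g, 0 ≤ F i t g) (hFD : ∀ i t g, F i t g ≤ D)
    (h : ∀ t g, G t g ≤ A * ∑ i ∈ s, F i t g) :
    ∫ R, v R * ∫ Z, w Z * G R Z ≤ A * ∑ i ∈ s, ∫ R, v R * ∫ Z, w Z * F i R Z := by
  have hvi := wint_w2 hv.wt.int_one
  have hv0 := hv.wt.nonneg
  have hw0 := hw.wt.nonneg
  obtain ⟨a1, a2, a3, a4⟩ := Jg_w1 hw hG h0 hD
  have hFf := fun i => Jg_w1 hw (hF i) (hF0 i) (hFD i)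
  have h1 : ∀ R, ∫ Z, w Z * G R Z ≤ A * ∑ i ∈ s, ∫ Z, w Z * F i R Z := by
    intro R
    have h2 : ∫ Z, w Z * G R Z ≤ ∫ Z, A * ∑ i ∈ s, w Z * F i R Z := by
      refine integral_mono (a4 R) ((integrable_finsetSum _ fun i _ => (hFf i).2.2.2 R).const_mul A) fun Z => ?_
      calc w Z * G R Z ≤ w Z * (A * ∑ i ∈ s, F i R Z) := mul_le_mul_of_nonneg_left (h R Z) (hw0 Z)
        _ = _ := by
          rw [← Finset.mul_sum]
          ring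
    rw [integral_const_mul, integral_finsetSum _ fun i _ => (hFf i).2.2.2 R] at h2
    exact h2
  have hvF : ∀ i, Integrable (fun R => v R * ∫ Z, w Z * F i R Z) :=
    fun i => vG_w1 hvi (hFf i).1 (hFf i).2.1 (hFf i).2.2.1
  have h2 : ∫ R, v R * ∫ Z, w Z * G R Z ≤ ∫ R, A * ∑ i ∈ s, v R * ∫ Z, w Z * F i R Z := by
    refine integral_mono (vG_w1 hvi a1 a2 a3) ((integrable_finsetSum _ fun i _ => hvF i).const_mul A) fun R => ?_
    calc v R * ∫ Z, w Z * G R Z ≤ v R * (A * ∑ i ∈ s, ∫ Z, w Z * F i R Z) := mul_le_mul_of_nonneg_left (h1 R) (hv0 R)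
      _ = _ := by
        rw [← Finset.mul_sum]
        ring
  rw [integral_const_mul, integral_finsetSum _ fun i _ => hvF i] at h2
  exact h2

/-- arcs of level `N'` are unions of arcs of level `q N'` -/
private theorem arc_un_w2 {x₀ : ℝ} {N' q j : ℕ} (hq : 0 < q) (hN' : 0 < N') {S : Finset (ℤ × ℤ)} (hS : ∀ k ∈ S, |tt x₀ k| ≤ 1) (a : ℤ × ℤ → ℂ) :
    m12 (arc x₀ S N' j) a ≤ (q : ℝ) ^ 11 * ∑ r ∈ (Finset.range (q * N')).filter (fun r => r / q = j), m12 (arc x₀ S (q * N') r) a := by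
  classical
  have hfl : ∀ k : ℤ × ℤ, ⌊(N' : ℝ) * ((tt x₀ k + 6) / 12)⌋₊ = ⌊((q * N' : ℕ) : ℝ) * ((tt x₀ k + 6) / 12)⌋₊ / q := by
    intro k
    rw [← Nat.floor_div_natCast]
    congr 1
    have : (q : ℝ) ≠ 0 := by exact_mod_cast hq.ne'
    push_cast
    field_simp
  have h0 : 0 < q * N' := Nat.mul_pos hq hN'
  have h1 := m12_union ((Finset.range (q * N')).filter (fun r => r / q = j)) (fun r => arc x₀ S (q * N') r) (arc x₀ S N' j) a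
    (fun i _ l _ hil => by
      rw [Finset.disjoint_left]
      intro k hk hk'
      unfold arc at hk hk'
      rw [Finset.mem_filter] at hk hk'
      exact hil (hk.2.symm.trans hk'.2))
    (fun k => by
      unfold arc
      constructor
      · intro hk
        rw [Finset.mem_filter] at hk
        obtain ⟨hk1, hk2⟩ := hk
        have ht := abs_le.1 (hS k hk1)
        refine ⟨⌊((q * N' : ℕ) : ℝ) * ((tt x₀ k + 6) / 12)⌋₊, ?_, Finset.mem_filter.2 ⟨hk1, rfl⟩⟩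
        rw [Finset.mem_filter, Finset.mem_range]
        refine ⟨?_, by rw [← hfl k, hk2]⟩
        rw [Nat.floor_lt' h0.ne']
        have h2 : (0 : ℝ) < ((q * N' : ℕ) : ℝ) := by exact_mod_cast h0
        have h3 : (tt x₀ k + 6) / 12 < 1 := by linarith only [ht.2]
        calc ((q * N' : ℕ) : ℝ) * ((tt x₀ k + 6) / 12) < ((q * N' : ℕ) : ℝ) * 1 := mul_lt_mul_of_pos_left h3 h2
          _ = _ := mul_one _
      · rintro ⟨r, hr, hk⟩
        rw [Finset.mem_filter] at hr hk ⊢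
        refine ⟨hk.1, ?_⟩
        rw [hfl k, hk.2, hr.2])
  refine h1.trans (mul_le_mul_of_nonneg_right ?_ (Finset.sum_nonneg fun r _ => m12_nonneg _ _))
  refine pow_le_pow_left₀ (by positivity) ?_ 11
  have hsub : (Finset.range (q * N')).filter (fun r => r / q = j) ⊆ Finset.Ico (j * q) (j * q + q) := by
    intro r hr
    rw [Finset.mem_filter] at hr
    rw [Finset.mem_Ico]
    have e1 := Nat.div_add_mod r q
    have e2 := Nat.mod_lt r hq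
    rw [hr.2] at e1
    constructor
    · rw [← e1, mul_comm]
      omega
    · rw [← e1, mul_comm j q]
      omega
  have h2 := Finset.card_le_card hsub
  rw [Nat.card_Ico] at h2
  have h3 : ((Finset.range (q * N')).filter (fun r => r / q = j)).card ≤ q := by omega
  exact_mod_cast h3

/-- the sum over the arcs of level `N'` -/
private theorem LLarc_w2 {c₀ X R₁ Z₁ Z₂ : ℝ} {Cd : ℕ → ℝ} {v w : ℝ → ℝ} (hv : IsDw X R₁ v c₀ Cd) (hw : IsDw Z₁ Z₂ w c₀ Cd)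
    {p : ℝ → ℝ} {x₀ y : ℝ} {N' q : ℕ} (hq : 0 < q) (hN' : 0 < N') {S : Finset (ℤ × ℤ)} (hS : ∀ k ∈ S, |tt x₀ k| ≤ 1) {a : ℤ × ℤ → ℂ} (ha : ∀ k, ‖a k‖ ≤ 1) :
    ∑ j ∈ Finset.range N', LL v w p x₀ y (arc x₀ S N' j) a ≤ (q : ℝ) ^ 11 * ∑ r ∈ Finset.range (q * N'), LL v w p x₀ y (arc x₀ S (q * N') r) a := by
  classical
  have hsub : ∀ N j : ℕ, arc x₀ S N j ⊆ S := fun N j => by
    unfold arc
    exact Finset.filter_subset _ _
  have hle : ∀ N j : ℕ, ∀ R Z, lf p x₀ y (arc x₀ S N j) a R Z ≤ (S.card : ℝ) ^ 12 := fun N j R Z =>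
    (lf_le ha R Z).trans (pow_le_pow_left₀ (by positivity) (by exact_mod_cast Finset.card_le_card (hsub N j)) 12)
  have h1 : ∀ j ∈ Finset.range N', LL v w p x₀ y (arc x₀ S N' j) a ≤ (q : ℝ) ^ 11 *
      ∑ r ∈ (Finset.range (q * N')).filter (fun r => r / q = j), LL v w p x₀ y (arc x₀ S (q * N') r) a := by
    intro j _
    have h2 := LLs_w2 hv hw (G := fun R Z => lf p x₀ y (arc x₀ S N' j) a R Z) (F := fun r R Z => lf p x₀ y (arc x₀ S (q * N') r) a R Z)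
      (D := (S.card : ℝ) ^ 12) (A := (q : ℝ) ^ 11) ((Finset.range (q * N')).filter (fun r => r / q = j))
      (lf_cont a) (fun _ _ => m12_nonneg _ _) (hle N' j) (fun r => lf_cont a) (fun _ _ _ => m12_nonneg _ _) (fun r => hle (q * N') r)
      (fun R Z => arc_un_w2 hq hN' hS _)
    rw [LL_iter]
    refine h2.trans (le_of_eq ?_)
    congr 1
    exact Finset.sum_congr rfl fun r _ => (LL_iter _ _ _ _ _ _ _).symm
  refine (Finset.sum_le_sum h1).trans (le_of_eq ?_)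
  rw [← Finset.mul_sum]
  congr 1
  refine Finset.sum_fiberwise_of_maps_to (g := fun r => r / q) (fun r hr => ?_) _
  rw [Finset.mem_range] at hr ⊢
  exact Nat.div_lt_of_lt_mul hr

private lemma sixth_w2 {ι : Type} (s R : Finset ι) (hR : R ⊆ s) {A D : ℝ} {b : ι → ℝ} (hA : 0 ≤ A) (hb : ∀ r, 0 ≤ b r)
    (hb0 : ∀ r ∈ s, r ∉ R → b r = 0) (h : A ^ (1 / 6 : ℝ) ≤ D * ∑ r ∈ s, b r ^ (1 / 6 : ℝ)) :
    A ≤ D ^ 6 * ((R.card : ℝ) ^ 5 * ∑ r ∈ s, b r) := by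
  classical
  have hp : ∀ a : ℝ, 0 ≤ a → (a ^ (1 / 6 : ℝ)) ^ 6 = a := by
    intro a ha
    rw [← Real.rpow_natCast, ← Real.rpow_mul ha]
    norm_num
  have hx0 : ∀ r, 0 ≤ b r ^ (1 / 6 : ℝ) := fun r => Real.rpow_nonneg (hb r) _
  have h1 : A ≤ (D * ∑ r ∈ s, b r ^ (1 / 6 : ℝ)) ^ 6 := by
    have h2 := pow_le_pow_left₀ (Real.rpow_nonneg hA _) h 6
    rwa [hp A hA] at h2
  have h2 : ∑ r ∈ s, b r ^ (1 / 6 : ℝ) = ∑ r ∈ R, b r ^ (1 / 6 : ℝ) := by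
    refine (Finset.sum_subset hR fun r hr hrR => ?_).symm
    rw [hb0 r hr hrR]
    norm_num
  rw [mul_pow, h2] at h1
  refine h1.trans (mul_le_mul_of_nonneg_left ?_ (by positivity))
  have h5 := pow_sum_div_card_le_sum_pow (s := R) (f := fun r => b r ^ (1 / 6 : ℝ)) (n := 5) (fun r _ => hx0 r)
  rcases R.eq_empty_or_nonempty with hs | hs
  · subst hs
    simp
  · have h6 : (0 : ℝ) < (R.card : ℝ) ^ 5 := by
      have : 0 < R.card := hs.card_pos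
      positivity
    rw [div_le_iff₀ h6] at h5
    have h7 : ∑ r ∈ R, (b r ^ (1 / 6 : ℝ)) ^ (5 + 1) ≤ ∑ r ∈ s, b r := by
      have e1 : ∑ r ∈ R, (b r ^ (1 / 6 : ℝ)) ^ (5 + 1) = ∑ r ∈ R, b r := Finset.sum_congr rfl fun r _ => hp _ (hb r)
      rw [e1]
      exact Finset.sum_le_sum_of_subset_of_nonneg hR fun r _ _ => hb r
    refine h5.trans ?_
    rw [mul_comm]
    exact mul_le_mul_of_nonneg_left h7 h6.le

private lemma arcs_w2 {x₀ ρ' : ℝ} {N : ℕ} {S : Finset (ℤ × ℤ)} (hρ0 : 0 ≤ ρ') (hS : ∀ k ∈ S, |tt x₀ k| ≤ ρ')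
    (R : Finset ℕ) (hR : ∀ r ∈ R, (arc x₀ S N r).Nonempty) : (R.card : ℝ) ≤ N * ρ' / 6 + 2 := by
  have hN : (0 : ℝ) ≤ N := Nat.cast_nonneg _
  have h1 : R ⊆ Finset.Icc ⌊(N : ℝ) * ((-ρ' + 6) / 12)⌋₊ ⌊(N : ℝ) * ((ρ' + 6) / 12)⌋₊ := by
    intro r hr
    obtain ⟨k, hk⟩ := hR r hr
    unfold arc at hk
    rw [Finset.mem_filter] at hk
    obtain ⟨h2, h3⟩ := hk
    have h4 := abs_le.1 (hS k h2)
    rw [Finset.mem_Icc, ← h3]
    exact ⟨Nat.floor_le_floor (mul_le_mul_of_nonneg_left (by linarith only [h4.1]) hN), Nat.floor_le_floor (mul_le_mul_of_nonneg_left (by linarith [h4.2]) hN)⟩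
  have h2 := Finset.card_le_card h1
  rw [Nat.card_Icc] at h2
  have h3 : ⌊(N : ℝ) * ((-ρ' + 6) / 12)⌋₊ ≤ ⌊(N : ℝ) * ((ρ' + 6) / 12)⌋₊ :=
    Nat.floor_le_floor (mul_le_mul_of_nonneg_left (by linarith only [hρ0]) hN)
  have h4 : (R.card : ℝ) ≤ (⌊(N : ℝ) * ((ρ' + 6) / 12)⌋₊ : ℝ) + 1 - (⌊(N : ℝ) * ((-ρ' + 6) / 12)⌋₊ : ℝ) := by
    have h5 : R.card + ⌊(N : ℝ) * ((-ρ' + 6) / 12)⌋₊ ≤ ⌊(N : ℝ) * ((ρ' + 6) / 12)⌋₊ + 1 := by omega
    have h6 : ((R.card + ⌊(N : ℝ) * ((-ρ' + 6) / 12)⌋₊ : ℕ) : ℝ) ≤ ((⌊(N : ℝ) * ((ρ' + 6) / 12)⌋₊ + 1 : ℕ) : ℝ) := Nat.cast_le.2 h5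
    push_cast at h6
    linarith only [h6]
  have h5 := Nat.floor_le (a := (N : ℝ) * ((ρ' + 6) / 12)) (mul_nonneg hN (by linarith only [hρ0]))
  have h6 := Nat.lt_floor_add_one ((N : ℝ) * ((-ρ' + 6) / 12))
  linarith only [h4, h5, h6]

/-- one arc of level `N`, `N ≥ 80 z²` -/
private theorem upArc_w2 {c₁ B lam c₀ : ℝ} {Cd : ℕ → ℝ} (hc : 0 < c₁) (hc1 : c₁ ≤ 1) (hB : 1 ≤ B) (hl : 1 ≤ lam) (n : ℕ) {p : ℝ → ℝ} (hp : Cv c₁ B p)
    {x₀ y ρ z X T₁ H G κ θ : ℝ} {a : ℤ × ℤ → ℂ} {S : Finset (ℤ × ℤ)} {v w : ℝ → ℝ} (ha : ∀ k, ‖a k‖ ≤ 1) (hy : 0 < y) (hρ : 0 < ρ) (hρ1 : ρ ≤ 1)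
    (hyρ : y * ρ ≤ k₀ c₁ B) (hH : 0 < H) (hX : 0 < X) (hκ : 4 ≤ κ) (hG : G = y ^ 2 * X * H) (hz : z = ρ⁻¹) (hθ0 : 0 < θ)
    (hθ1 : κ * θ ≤ z ^ 6) (hθ2 : 4 * (B + 4) * κ * θ ≤ G * z)
    (hS : ∀ k ∈ S, H / lam ≤ uu x₀ k ∧ uu x₀ k ≤ lam * H ∧ |tt x₀ k| ≤ ρ) {N : ℕ} (hN : 80 * z ^ 2 ≤ N) (r : ℕ)
    (hv : IsDw (y ^ 2 * (X / (4 * κ))) (y ^ 2 * T₁) v c₀ Cd) (hw : IsDw (θ / H) 0 w c₀ Cd) :
    LL v w p x₀ y (arc x₀ S N r) a ≤ exp (3800 * (lam * (B + 4) ^ 2)) ^ 12 * (Cd 0 / (X / (4 * κ))) *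
        (∫ T in Icc (T₁ - X / 4) (T₁ + X / 4), W p y (arc x₀ S N r) a T x₀) +
      (exp (3800 * (lam * (B + 4) ^ 2)) ^ 12 + 1) * (S.card : ℝ) ^ 12 * ((κ / 2)⁻¹ ^ n * (π * (Cd n + Cd (n + 2)))) := by
  obtain ⟨S', hS'⟩ : ∃ S', S' = arc x₀ S N r := ⟨_, rfl⟩
  rw [← hS']
  have hsub : S' ⊆ S := by
    rw [hS']
    unfold arc
    exact Finset.filter_subset _ _
  have hl0 : 0 < lam := by linarith
  have hz0 : 0 < z := by
    rw [hz]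
    positivity
  have hρz : ρ * z = 1 := by
    rw [hz]
    exact mul_inv_cancel₀ hρ.ne'
  have hN0 : (0 : ℝ) < N := lt_of_lt_of_le (by positivity) hN
  have hHl : 0 < H / lam := by positivity
  have hu : ∀ k ∈ S', 0 < uu x₀ k := fun k hk => hHl.trans_le (hS k (hsub hk)).1
  have hW : ∀ T, W p y S' a T x₀ = lf p x₀ y S' a (y ^ 2 * T) 0 := fun T => lf_zero hy.ne' a hu
  simp only [hW]
  obtain ⟨A, hA⟩ : ∃ A, A = exp (3800 * (lam * (B + 4) ^ 2)) ^ 12 := ⟨_, rfl⟩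
  have hA0 : 0 ≤ A := by
    rw [hA]
    positivity
  have hcrv := crv_fy hc hc1 hB hp hy hρ hyρ
  -- the interval of slopes
  obtain ⟨t₁, ht₁⟩ : ∃ t₁, t₁ = max (-ρ) (12 * (r : ℝ) / N - 6) := ⟨_, rfl⟩
  obtain ⟨t₂, ht₂⟩ : ∃ t₂, t₂ = min ρ (12 * ((r : ℝ) + 1) / N - 6) := ⟨_, rfl⟩
  rw [← hA]
  have hup : ∀ r₀ : ℝ, |r₀| ≤ (B + 4) * ρ → (∀ R, ∀ Z ∈ Icc (-(κ / 2 * (θ / H))) (κ / 2 * (θ / H)), lf p x₀ y S' a R Z ≤ A * lf p x₀ y S' a (R + r₀ * Z) 0) →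
      LL v w p x₀ y S' a ≤ A * (Cd 0 / (X / (4 * κ))) * (∫ T in Icc (T₁ - X / 4) (T₁ + X / 4), lf p x₀ y S' a (y ^ 2 * T) 0) +
      (A + 1) * (S.card : ℝ) ^ 12 * ((κ / 2)⁻¹ ^ n * (π * (Cd n + Cd (n + 2)))) := by
    intro r₀ hr₀ hm
    refine upF hy (by positivity) (by positivity) (by positivity) hA0 n hv hw hm ?_ (fun R Z => (lf_le ha R Z).trans
        (pow_le_pow_left₀ (by positivity) (by exact_mod_cast Finset.card_le_card hsub) 12))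
    have e1 : κ / 2 * (y ^ 2 * (X / (4 * κ))) = y ^ 2 * X / 8 := by
      field_simp
      norm_num
    have e2 : |r₀| * (κ / 2 * (θ / H)) ≤ y ^ 2 * X / 8 := by
      have e3 : |r₀| * (κ / 2 * (θ / H)) ≤ (B + 4) * ρ * (κ / 2 * (θ / H)) := mul_le_mul_of_nonneg_right hr₀ (by positivity)
      refine e3.trans ?_
      have e4 : (B + 4) * ρ * (κ / 2 * (θ / H)) = (4 * (B + 4) * κ * θ) * ρ / (8 * H) := by
        field_simp
        norm_num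
      rw [e4, div_le_div_iff₀ (by positivity) (by norm_num)]
      have e5 : 4 * (B + 4) * κ * θ * ρ ≤ G := by
        have := mul_le_mul_of_nonneg_right hθ2 hρ.le
        calc 4 * (B + 4) * κ * θ * ρ ≤ G * z * ρ := this
          _ = G * (ρ * z) := by ring
          _ = G := by rw [hρz, mul_one]
      rw [hG] at e5
      linarith only [e5]
    rw [e1]
    calc y ^ 2 * X / 8 + |r₀| * (κ / 2 * (θ / H)) ≤ y ^ 2 * X / 8 + y ^ 2 * X / 8 := add_le_add le_rfl e2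
      _ = y ^ 2 * (X / 4) := by ring
  -- the empty arc
  rcases lt_or_ge t₂ t₁ with h21 | h12
  · have hempty : S' = ∅ := by
      by_contra hne
      obtain ⟨k, hk⟩ := Finset.nonempty_iff_ne_empty.2 hne
      have hkS := hsub hk
      rw [hS'] at hk
      unfold arc at hk
      rw [Finset.mem_filter] at hk
      have hab := abs_le.1 (hS k hkS).2.2
      have h7 : 0 ≤ (N : ℝ) * ((tt x₀ k + 6) / 12) := mul_nonneg hN0.le (by linarith only [hρ1, hab])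
      have h8 := (Nat.floor_eq_iff h7).1 hk.2
      have e1 : 12 * (r : ℝ) / N - 6 ≤ tt x₀ k := by
        rw [sub_le_iff_le_add, div_le_iff₀ hN0]
        linarith only [h8.1]
      have e2 : tt x₀ k < 12 * ((r : ℝ) + 1) / N - 6 := by
        rw [lt_sub_iff_add_lt, lt_div_iff₀ hN0]
        linarith only [h8.2]
      have e3 : t₁ ≤ tt x₀ k := by
        rw [ht₁]
        exact max_le hab.1 e1
      have e4 : tt x₀ k ≤ t₂ := by
        rw [ht₂]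
        exact le_min hab.2 e2.le
      linarith only [h21, e3, e4]
    refine hup 0 (by rw [abs_zero]; positivity) fun R Z _ => ?_
    have h9 : ∀ R Z, lf p x₀ y S' a R Z = 0 := by
      intro R Z
      rw [hempty]
      unfold lf m12 tp
      simp
    rw [h9, h9, mul_zero]
  · have hmem1 : -ρ ≤ t₁ := by
      rw [ht₁]
      exact le_max_left _ _
    have hmem2 : t₂ ≤ ρ := by
      rw [ht₂]
      exact min_le_left _ _
    have hd : t₂ - t₁ ≤ 12 / N := by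
      have e1 : t₂ ≤ 12 * ((r : ℝ) + 1) / N - 6 := by
        rw [ht₂]
        exact min_le_right _ _
      have e2 : 12 * (r : ℝ) / N - 6 ≤ t₁ := by
        rw [ht₁]
        exact le_max_right _ _
      have e3 : 12 * ((r : ℝ) + 1) / N = 12 * (r : ℝ) / N + 12 / N := by ring
      linarith only [e1, e2, e3]
    have hd0 : 0 ≤ t₂ - t₁ := by linarith
    have habs : ∀ t ∈ Icc t₁ t₂, |t| ≤ ρ := fun t ht => abs_le.2 ⟨by linarith [ht.1], by linarith [ht.2]⟩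
    refine hup (ry p y t₁) (hcrv.rb t₁ (habs t₁ ⟨le_rfl, h12⟩)) fun R Z hZ => ?_
    have hB4 : 0 < B + 4 := by linarith
    have hN' : 12 / (N : ℝ) ≤ 3 / 20 * ρ ^ 2 := by
      rw [div_le_iff₀ hN0]
      have e1 : 3 / 20 * ρ ^ 2 * (80 * z ^ 2) = 12 * (ρ * z) ^ 2 := by ring
      rw [hρz] at e1
      have e2 := mul_le_mul_of_nonneg_left hN (by positivity : 0 ≤ 3 / 20 * ρ ^ 2)
      linarith only [e1, e2]
    have hres := lfZ (p := p) (y := y) hc hcrv (x₀ := x₀) (t₁ := t₁) (t₂ := t₂) (r₀ := ry p y t₁) (δ := (B + 4) * (12 / N)) (A := lam * (B + 4) ^ 2)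
      (U := lam * H) (S := S') h12 hmem1 hmem2 (by positivity) (by positivity) (fun k hk => by
        have hkS := hsub hk
        have hk' := hk
        rw [hS'] at hk'
        unfold arc at hk'
        rw [Finset.mem_filter] at hk'
        have hab := abs_le.1 (hS k hkS).2.2
        have h7 : 0 ≤ (N : ℝ) * ((tt x₀ k + 6) / 12) := mul_nonneg hN0.le (by linarith only [hρ1, hab])
        have h8 := (Nat.floor_eq_iff h7).1 hk'.2
        have e1 : 12 * (r : ℝ) / N - 6 ≤ tt x₀ k := by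
          rw [sub_le_iff_le_add, div_le_iff₀ hN0]
          linarith only [h8.1]
        have e2 : tt x₀ k < 12 * ((r : ℝ) + 1) / N - 6 := by
          rw [lt_sub_iff_add_lt, lt_div_iff₀ hN0]
          linarith only [h8.2]
        refine ⟨hu k hk, (hS k hkS).2.1, ?_, ?_⟩
        · rw [ht₁]
          exact max_le hab.1 e1
        · rw [ht₂]
          exact le_min hab.2 e2.le) (fun t ht => by
        have e1 := hcrv.mono t t₁ (habs t ht) (habs t₁ ⟨le_rfl, h12⟩) ht.1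
        have e2 : 0 ≤ c₁ * (t - t₁) := mul_nonneg hc.le (by linarith only [ht.1])
        rw [abs_of_nonneg (by linarith only [e2, e1.1])]
        refine e1.2.trans (mul_le_mul_of_nonneg_left ?_ hB4.le)
        linarith only [hd, ht.2]) (Z := Z) (by
        have hZ' : |Z| ≤ κ / 2 * (θ / H) := abs_le.2 hZ
        have e1 : lam * H * |Z| ≤ lam * (κ * θ) / 2 := by
          calc lam * H * |Z| ≤ lam * H * (κ / 2 * (θ / H)) := mul_le_mul_of_nonneg_left hZ' (by positivity)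
            _ = lam * (κ * θ) / 2 := by field_simp
        have e2 : (B + 4) * (12 / N) * (B + 4) * (t₂ - t₁) ^ 2 ≤ (B + 4) ^ 2 * (3 / 20 * ρ ^ 2) ^ 3 := by
          have e3 : (t₂ - t₁) ^ 2 ≤ (3 / 20 * ρ ^ 2) ^ 2 := pow_le_pow_left₀ hd0 (hd.trans hN') 2
          calc (B + 4) * (12 / N) * (B + 4) * (t₂ - t₁) ^ 2 ≤ (B + 4) * (3 / 20 * ρ ^ 2) * (B + 4) * (3 / 20 * ρ ^ 2) ^ 2 := by (clear * - hN' hB e3 hρ; gcongr)
            _ = _ := by ring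
        have e3 : 0 ≤ lam * (κ * θ) / 2 := by positivity
        calc lam * H * |Z| * ((B + 4) * (12 / N) * (B + 4) * (t₂ - t₁) ^ 2)
            ≤ lam * (κ * θ) / 2 * ((B + 4) ^ 2 * (3 / 20 * ρ ^ 2) ^ 3) := mul_le_mul e1 e2 (by positivity) e3
          _ ≤ lam * z ^ 6 / 2 * ((B + 4) ^ 2 * (3 / 20 * ρ ^ 2) ^ 3) := by gcongr
          _ = lam * (B + 4) ^ 2 * ((3 / 20) ^ 3 / 2 * (ρ * z) ^ 6) := by ring
          _ ≤ lam * (B + 4) ^ 2 * 1 := by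
            refine mul_le_mul_of_nonneg_left ?_ (by positivity)
            rw [hρz]
            norm_num
          _ = _ := mul_one _) a R
    rw [← hA] at hres
    exact hres.1

/-- the numbers of the cost -/
private lemma cost_w2 {κ z G θ Mp Mm M C₁ C₀ ρ : ℝ} (hκ : 1 ≤ κ) (hz : 1 ≤ z) (hG : 0 < G) (hρz : ρ * z = 1) (hρ : 0 < ρ) (hM : 1 ≤ M) (hC₁ : 1 ≤ C₁) (hC₀ : 1 ≤ C₀)
    (hθ0 : 0 < θ) (hθ : θ = min (z ^ 6 / κ) (G * z / (4 * C₀ * κ))) (hMp : 0 < Mp) (hMp2 : θ < 5 * C₁ * (M * Mp) ^ 3) (hMm0 : 0 ≤ Mm) (hMm : Mm ≤ 200 * M * z ^ 2) :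
    θ / z ^ 3 * ((Mp * ρ) ^ 5 * (Mm / Mp) ^ 11) ≤ 4 * C₀ * (5 * C₁ * M ^ 3) ^ 2 * (200 * M) ^ 11 * (κ * (z ^ 8 + z ^ 13 / G)) := by
  have hz0 : 0 < z := by linarith
  have hκ0 : 0 < κ := by linarith
  have hC₁0 : 0 < C₁ := by linarith
  have hC₀0 : 0 < C₀ := by linarith
  have hM0 : 0 < M := by linarith
  obtain ⟨Q, hQ⟩ : ∃ Q, Q = 5 * C₁ * M ^ 3 := ⟨_, rfl⟩
  have hQ0 : 0 < Q := by
    rw [hQ]
    positivity
  have h1 : θ < Q * Mp ^ 3 := by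
    have : 5 * C₁ * (M * Mp) ^ 3 = Q * Mp ^ 3 := by
      rw [hQ]
      ring
    rwa [this] at hMp2
  -- `1/θ`
  have hinv : θ⁻¹ ≤ 4 * C₀ * (κ * (z ^ 6)⁻¹ + κ / (G * z)) := by
    have a1 : 0 ≤ κ * (z ^ 6)⁻¹ := by positivity
    have a2 : 0 ≤ κ / (G * z) := by positivity
    rcases le_total (z ^ 6 / κ) (G * z / (4 * C₀ * κ)) with h | h
    · rw [min_eq_left h] at hθ
      rw [hθ, inv_div]
      have : κ / z ^ 6 = κ * (z ^ 6)⁻¹ := div_eq_mul_inv _ _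
      rw [this]
      exact lk_add_le (by linarith) a1 a2
    · rw [min_eq_right h] at hθ
      rw [hθ, inv_div]
      have : 4 * C₀ * κ / (G * z) = 4 * C₀ * (κ / (G * z)) := by ring
      rw [this]
      linarith only [hC₀, a1, mul_nonneg (show 0 ≤ 4 * C₀ by positivity) a1]
  have h2 : θ / z ^ 3 * ((Mp * ρ) ^ 5 * (Mm / Mp) ^ 11) ≤ θ / z ^ 3 * (ρ ^ 5 * (200 * M * z ^ 2) ^ 11 * (Q ^ 2 / θ ^ 2)) := by
    refine mul_le_mul_of_nonneg_left ?_ (by positivity)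
    have e1 : (Mp * ρ) ^ 5 * (Mm / Mp) ^ 11 = ρ ^ 5 * Mm ^ 11 * (1 / (Mp ^ 3) ^ 2) := by
      field_simp
    rw [e1]
    have e2 : 1 / (Mp ^ 3) ^ 2 ≤ Q ^ 2 / θ ^ 2 := by
      rw [div_le_div_iff₀ (by positivity) (by positivity), one_mul, ← mul_pow]
      exact pow_le_pow_left₀ hθ0.le h1.le 2
    have e3 : Mm ^ 11 ≤ (200 * M * z ^ 2) ^ 11 := pow_le_pow_left₀ hMm0 hMm 11
    gcongr
  refine h2.trans ?_
  have e4 : θ / z ^ 3 * (ρ ^ 5 * (200 * M * z ^ 2) ^ 11 * (Q ^ 2 / θ ^ 2)) = Q ^ 2 * (200 * M) ^ 11 * (z ^ 14 * θ⁻¹) * (ρ * z) ^ 5 := by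
    field_simp
  rw [e4, hρz, one_pow, mul_one, ← hQ]
  have e5 : z ^ 14 * θ⁻¹ ≤ z ^ 14 * (4 * C₀ * (κ * (z ^ 6)⁻¹ + κ / (G * z))) := mul_le_mul_of_nonneg_left hinv (by positivity)
  have e6 : z ^ 14 * (4 * C₀ * (κ * (z ^ 6)⁻¹ + κ / (G * z))) = 4 * C₀ * (κ * (z ^ 8 + z ^ 13 / G)) := by
    field_simp
  rw [e6] at e5
  calc Q ^ 2 * (200 * M) ^ 11 * (z ^ 14 * θ⁻¹) ≤ Q ^ 2 * (200 * M) ^ 11 * (4 * C₀ * (κ * (z ^ 8 + z ^ 13 / G))) :=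
        mul_le_mul_of_nonneg_left e5 (by positivity)
    _ = _ := by ring

theorem windowF {ε c₁ B lam : ℝ} (hε : 0 < ε) (hε1 : ε ≤ 1) (hc : 0 < c₁) (hc1 : c₁ ≤ 1) (hB : 1 ≤ B) (hl : 1 ≤ lam) (n : ℕ) : ∃ M : ℕ, 2 ≤ M ∧ ∃ C E : ℝ, 1 ≤ C ∧ 1 ≤ E ∧
    ∀ (m : ℕ) (p : ℝ → ℝ) (x₀ y ρ X T₁ H G κ : ℝ) (a : ℤ × ℤ → ℂ) (S : Finset (ℤ × ℤ)), Cv c₁ B p → (∀ k, ‖a k‖ ≤ 1) → 0 < y → 0 < ρ → ρ ≤ 1 → y * ρ ≤ k₀ c₁ B →
      0 < H → 0 < X → C ≤ κ → G = y ^ 2 * X * H → κ * ρ ^ 3 ≤ 1 → C * κ ≤ ρ ^ 2 * G →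
      (∀ k ∈ S, H / lam ≤ uu x₀ k ∧ uu x₀ k ≤ lam * H ∧ |tt x₀ k| ≤ ρ) → 80 * ρ⁻¹ ^ 2 ≤ (M : ℝ) ^ m → (M : ℝ) ^ m ≤ 200 * M * ρ⁻¹ ^ 2 →
      ∫ T in Icc T₁ (T₁ + X / (4 * κ)), W p y S a T x₀ ≤ C * κ * ρ⁻¹ ^ ε * (ρ⁻¹ ^ 8 + ρ⁻¹ ^ 13 / G) *
        ∑ r ∈ Finset.range (M ^ m), ((∫ T in Icc (T₁ - X / 4) (T₁ + X / 4), W p y (arc x₀ S (M ^ m) r) a T x₀) + E * X * (S.card : ℝ) ^ 12 * κ⁻¹ ^ n) := by
  classical
  obtain ⟨c₀, hc₀, Cd, hdw⟩ := exists_dw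
  obtain ⟨M, hM, C12, hC12, hdec⟩ := Pool.Agent.Helper78.CG.dec12 (ε := ε / 12) (c := c₁) (C₀ := B + 4) (lam := lam) (by positivity) hc hl
  have hMr : (2 : ℝ) ≤ (M : ℝ) := by exact_mod_cast hM
  have hM1 : (1 : ℝ) ≤ (M : ℝ) := by linarith
  have hM0 : (0 : ℝ) < (M : ℝ) := by linarith
  have hCd0 : 0 ≤ Cd 0 := by
    obtain ⟨v, hv⟩ := hdw 1 one_pos 0
    have h1 := hv.dec 0 0
    have h2 := hv.wt.nonneg 0
    simp at h1
    linarith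
  -- constants
  obtain ⟨A₁, hA₁⟩ : ∃ A₁, A₁ = exp (3800 * (4 * lam * (B + 4) ^ 2)) ^ 12 := ⟨_, rfl⟩
  obtain ⟨A₂, hA₂⟩ : ∃ A₂, A₂ = exp (3800 * (lam * (B + 4) ^ 2)) ^ 12 := ⟨_, rfl⟩
  have hA₁0 : 0 < A₁ := by
    rw [hA₁]
    positivity
  have hA₂0 : 0 < A₂ := by
    rw [hA₂]
    positivity
  obtain ⟨Q, hQ⟩ : ∃ Q : ℝ, Q = 1 + 10 * C12 * (M : ℝ) ^ 3 := ⟨_, rfl⟩
  have hC120 : 0 < C12 := by linarith
  have hQ0 : 0 < Q := by
    rw [hQ]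
    positivity
  obtain ⟨P, hP⟩ : ∃ P : ℝ, P = 4 * (B + 4) * (5 * C12 * (M : ℝ) ^ 3) ^ 2 * (200 * (M : ℝ)) ^ 11 := ⟨_, rfl⟩
  have hP0 : 0 < P := by
    rw [hP]
    positivity
  obtain ⟨En, hEn⟩ : ∃ En : ℝ, En = 2 ^ n * (π * (|Cd n| + |Cd (n + 2)|)) := ⟨_, rfl⟩
  have hEn0 : 0 ≤ En := by
    rw [hEn]
    positivity
  obtain ⟨K₁, hK₁⟩ : ∃ K₁ : ℝ, K₁ = A₁ / c₀ ^ 2 * (C12 ^ 6 * Q ^ 5 * P) := ⟨_, rfl⟩
  have hK₁0 : 0 < K₁ := by
    rw [hK₁]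
    positivity
  refine ⟨M, hM, 4 + 5 * C12 + 4 * (B + 4) + K₁ * (A₂ * Cd 0 + 1), 1 + (A₂ + 1) * En, ?_, ?_, ?_⟩
  · have : 0 ≤ K₁ * (A₂ * Cd 0 + 1) := by positivity
    linarith
  · have : 0 ≤ (A₂ + 1) * En := by positivity
    linarith
  intro m p x₀ y ρ X T₁ H G κ a S hp ha hy hρ hρ1 hyρ hH hX hCκ hG hκρ hCG hS hm1 hm2
  have hKp : 0 ≤ K₁ * (A₂ * Cd 0 + 1) := by positivity
  have hκ4 : 4 ≤ κ := by linarith only [hB, hC12, hCκ, hKp]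
  have hκ0 : 0 < κ := by linarith only [hB, hC12, hCκ, hKp]
  obtain ⟨z, hz⟩ : ∃ z, z = ρ⁻¹ := ⟨_, rfl⟩
  rw [← hz] at hm1 hm2 ⊢
  have hρz : ρ * z = 1 := by
    rw [hz]
    exact mul_inv_cancel₀ hρ.ne'
  have hz0 : 0 < z := by
    rw [hz]
    positivity
  have hz1 : 1 ≤ z := by
    rw [hz, one_le_inv₀ hρ]
    exact hρ1
  have hG0 : 0 < G := by
    rw [hG]
    positivity
  have hB4 : 1 ≤ B + 4 := by linarith
  have hκz : κ ≤ z ^ 3 := by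
    have h1 := mul_le_mul_of_nonneg_right hκρ (by positivity : 0 ≤ z ^ 3)
    have e : κ * ρ ^ 3 * z ^ 3 = κ * (ρ * z) ^ 3 := by ring
    rw [e, hρz] at h1
    linarith
  have hGz : 4 * (B + 4) * κ * z ^ 2 ≤ G := by
    have h1 : 4 * (B + 4) * κ ≤ ρ ^ 2 * G := by
      refine le_trans ?_ hCG
      refine mul_le_mul_of_nonneg_right ?_ hκ0.le
      linarith only [hC12, hKp]
    have h2 := mul_le_mul_of_nonneg_right h1 (by positivity : 0 ≤ z ^ 2)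
    have e : ρ ^ 2 * G * z ^ 2 = G * (ρ * z) ^ 2 := by ring
    rw [e, hρz] at h2
    linarith only [h2]
  obtain ⟨θ, hθ⟩ : ∃ θ, θ = min (z ^ 6 / κ) (G * z / (4 * (B + 4) * κ)) := ⟨_, rfl⟩
  have hθ0 : 0 < θ := by
    rw [hθ]
    exact lt_min (by positivity) (by positivity)
  have hθ1 : κ * θ ≤ z ^ 6 := by
    have h1 : θ ≤ z ^ 6 / κ := by
      rw [hθ]
      exact min_le_left _ _
    rw [le_div_iff₀ hκ0] at h1
    linarith only [h1]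
  have hθ2 : 4 * (B + 4) * κ * θ ≤ G * z := by
    have h1 : θ ≤ G * z / (4 * (B + 4) * κ) := by
      rw [hθ]
      exact min_le_right _ _
    rw [le_div_iff₀ (by positivity)] at h1
    linarith only [h1]
  have hθz : z ^ 3 ≤ θ := by
    rw [hθ]
    refine le_min ?_ ?_
    · rw [le_div_iff₀ hκ0]
      calc z ^ 3 * κ ≤ z ^ 3 * z ^ 3 := mul_le_mul_of_nonneg_left hκz (by positivity)
        _ = z ^ 6 := by ring
    · rw [le_div_iff₀ (by positivity)]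
      calc z ^ 3 * (4 * (B + 4) * κ) = (4 * (B + 4) * κ * z ^ 2) * z := by ring
        _ ≤ G * z := mul_le_mul_of_nonneg_right hGz hz0.le
  -- the level `m'`
  have h5θ : 5 * C12 ≤ θ := by
    have : 5 * C12 ≤ κ := by linarith only [hB, hCκ, hKp]
    linarith only [hB, hCκ, hKp, hκz, hθz]
  obtain ⟨m', hm'1, hm'2⟩ : ∃ m' : ℕ, 5 * C12 * ((M : ℝ) ^ m') ^ 3 ≤ θ ∧ θ < 5 * C12 * ((M : ℝ) * (M : ℝ) ^ m') ^ 3 := by
    have hex : ∃ j : ℕ, θ < 5 * C12 * ((M : ℝ) * (M : ℝ) ^ j) ^ 3 := by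
      obtain ⟨j, hj⟩ := pow_unbounded_of_one_lt θ (by linarith only [hMr] : (1 : ℝ) < M)
      refine ⟨j, hj.trans_le ?_⟩
      have h1 : (1 : ℝ) ≤ (M : ℝ) ^ j := one_le_pow₀ hM1
      have h2 : (M : ℝ) ^ j ≤ (M : ℝ) * (M : ℝ) ^ j := le_mul_of_one_le_left (by positivity) hM1
      have h3 : (M : ℝ) * (M : ℝ) ^ j ≤ ((M : ℝ) * (M : ℝ) ^ j) ^ 3 := le_self_pow₀ (h1.trans h2) (by norm_num)
      have h4 : 0 ≤ ((M : ℝ) * (M : ℝ) ^ j) ^ 3 := by positivity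
      exact (h2.trans h3).trans (le_mul_of_one_le_left h4 (by linarith only [hC12]))
    refine ⟨Nat.find hex, ?_, Nat.find_spec hex⟩
    rcases Nat.eq_zero_or_pos (Nat.find hex) with h0 | h0
    · rw [h0, pow_zero, one_pow, mul_one]
      exact h5θ
    · have h1 := Nat.find_min hex (Nat.sub_one_lt (Nat.pos_iff_ne_zero.mp h0))
      push Not at h1
      have e : (M : ℝ) * (M : ℝ) ^ (Nat.find hex - 1) = (M : ℝ) ^ (Nat.find hex) := by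
        rw [← pow_succ', Nat.sub_add_cancel h0]
      rwa [e] at h1
  obtain ⟨Mp, hMp⟩ : ∃ Mp : ℝ, Mp = (M : ℝ) ^ m' := ⟨_, rfl⟩
  have hMp0 : 0 < Mp := by
    rw [hMp]
    positivity
  have hMp1 : 1 ≤ Mp := by
    rw [hMp]
    exact one_le_pow₀ hM1
  rw [← hMp] at hm'1 hm'2
  have hMpz : Mp ≤ z ^ 2 := by
    have h1 : Mp ^ 3 ≤ (z ^ 2) ^ 3 := by
      have h2 : θ ≤ z ^ 6 := (le_mul_of_one_le_left hθ0.le (by linarith only [hB, hC12, hCκ, hKp])).trans hθ1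
      have h3 : Mp ^ 3 ≤ 5 * C12 * Mp ^ 3 := le_mul_of_one_le_left (by positivity) (by linarith only [hC12])
      have e : (z ^ 2) ^ 3 = z ^ 6 := by ring
      rw [e]
      linarith only [hm'1, h2, h3]
    exact le_of_pow_le_pow_left₀ (by norm_num) (by positivity) h1
  have hmm : m' ≤ m := by
    by_contra hcon
    push Not at hcon
    have h1 : (M : ℝ) ^ m < (M : ℝ) ^ m' := pow_lt_pow_right₀ (by linarith only [hMr]) hcon
    rw [← hMp] at h1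
    have h2 : z ^ 2 ≤ 80 * z ^ 2 := by linarith only [hm1, hMp0, hMpz, h1, sq_nonneg z]
    linarith only [hm1, hMp0, hMpz, h1]
  obtain ⟨q, hq⟩ : ∃ q : ℕ, q = M ^ (m - m') := ⟨_, rfl⟩
  have hMn : 0 < M := by omega
  have hq0 : 0 < q := by
    rw [hq]
    positivity
  have hqN : q * M ^ m' = M ^ m := by
    rw [hq, ← pow_add, Nat.sub_add_cancel hmm]
  have hqr : (q : ℝ) = (M : ℝ) ^ m / Mp := by
    rw [eq_div_iff hMp0.ne', hMp]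
    exact_mod_cast hqN
  -- the weights
  have hX1 : 0 < X / (4 * κ) := by positivity
  obtain ⟨v, hv⟩ := hdw (y ^ 2 * (X / (4 * κ))) (by positivity) (y ^ 2 * T₁)
  obtain ⟨w, hw⟩ := hdw (θ / H) (by positivity) 0
  have hHl : 0 < H / lam := by positivity
  have hu : ∀ k ∈ S, 0 < uu x₀ k := fun k hk => hHl.trans_le (hS k hk).1
  have hl0 : 0 < lam := by linarith only [hl]
  have hcrv := crv_fy hc hc1 hB hp hy hρ hyρ
  have hS1 : ∀ k ∈ S, |tt x₀ k| ≤ 1 := fun k hk => (hS k hk).2.2.trans hρ1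
  -- step 1
  have s1 : ∫ T in Icc T₁ (T₁ + X / (4 * κ)), W p y S a T x₀ ≤ A₁ / c₀ ^ 2 * (X / (4 * κ) * (θ / z ^ 3)) * LL v w p x₀ y S a := by
    have h1 : ∫ T in Icc T₁ (T₁ + X / (4 * κ)), W p y S a T x₀ = ∫ T in Icc T₁ (T₁ + X / (4 * κ)), lf p x₀ y S a (y ^ 2 * T) 0 := by
      congr 1
      funext T
      exact lf_zero hy.ne' a hu
    rw [h1]
    have h2 := lowF (p := p) (S := S) (a := a) (x₀ := x₀) (y := y) (T₁ := T₁) (X₁ := X / (4 * κ)) (Z₀ := z ^ 3 / H) (Z₁ := θ / H) (A := A₁) hc₀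
      hy hX1 (by positivity) (div_le_div_of_nonneg_right hθz hH.le) hA₁0.le ha hv hw (fun R Z hZ => by
        have h3 := lfZ (p := p) (y := y) hc hcrv (x₀ := x₀) (t₁ := -ρ) (t₂ := ρ) (r₀ := 0) (δ := (B + 4) * ρ) (A := 4 * lam * (B + 4) ^ 2)
          (U := lam * H) (S := S) (by linarith only [hρ]) le_rfl le_rfl (by positivity) (by positivity)
          (fun k hk => ⟨hu k hk, (hS k hk).2.1, (abs_le.1 (hS k hk).2.2).1, (abs_le.1 (hS k hk).2.2).2⟩)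
          (fun t ht => by
            rw [sub_zero]
            exact hcrv.rb t (abs_le.2 ht)) (Z := Z) (by
            rw [abs_of_nonneg hZ.1]
            have e1 : ρ - -ρ = 2 * ρ := by ring
            rw [e1]
            calc lam * H * Z * ((B + 4) * ρ * (B + 4) * (2 * ρ) ^ 2) ≤ lam * H * (z ^ 3 / H) * ((B + 4) * ρ * (B + 4) * (2 * ρ) ^ 2) := by
                  gcongr
                  exact hZ.2
              _ = 4 * lam * (B + 4) ^ 2 * (ρ * z) ^ 3 := by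
                  field_simp
                  ring
              _ = _ := by rw [hρz]; ring) a R
        rw [zero_mul, add_zero, ← hA₁] at h3
        exact h3.2)
    refine h2.trans (le_of_eq ?_)
    have e : θ / H / (z ^ 3 / H) = θ / z ^ 3 := by field_simp
    rw [e]
  -- step 2: decoupling
  have hcond : C12 * (1 / (θ / H) + ρ / (y ^ 2 * (X / (4 * κ)))) ≤ H * (1 / (M : ℝ) ^ m') ^ 3 := by
    have e1 : ρ / (y ^ 2 * (X / (4 * κ))) = 4 * κ * ρ * H / G := by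
      rw [hG]
      field_simp
    have e2 : 4 * κ * ρ * H / G ≤ H / θ := by
      rw [div_le_div_iff₀ hG0 hθ0]
      have e3 : 4 * κ * ρ * θ ≤ G := by
        have h1 : 4 * κ * θ ≤ G * z := by
          refine le_trans ?_ hθ2
          have : 0 ≤ κ * θ := by positivity
          have h5 : κ * θ ≤ (B + 4) * (κ * θ) := le_mul_of_one_le_left this (by linarith only [hB])
          linarith only [h5]
        have h2 := mul_le_mul_of_nonneg_right h1 hρ.le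
        calc 4 * κ * ρ * θ = 4 * κ * θ * ρ := by ring
          _ ≤ G * z * ρ := h2
          _ = G * (ρ * z) := by ring
          _ = G := by rw [hρz, mul_one]
      have h6 := mul_le_mul_of_nonneg_right e3 hH.le
      linarith only [h6]
    rw [e1]
    have e4 : 1 / (θ / H) = H / θ := by rw [one_div_div]
    rw [e4, ← hMp]
    calc C12 * (H / θ + 4 * κ * ρ * H / G) ≤ C12 * (H / θ + H / θ) := by gcongr
      _ = 2 * C12 * H / θ := by ring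
      _ ≤ 5 * C12 * H / θ := by
        refine div_le_div_of_nonneg_right ?_ hθ0.le
        have : 0 ≤ C12 * H := by positivity
        linarith only [this]
      _ ≤ H * (1 / Mp) ^ 3 := by
        rw [div_pow, one_pow, mul_one_div, div_le_div_iff₀ hθ0 (by positivity)]
        calc 5 * C12 * H * Mp ^ 3 = H * (5 * C12 * Mp ^ 3) := by ring
          _ ≤ H * θ := mul_le_mul_of_nonneg_left hm'1 hH.le
  have hd := hdec m' x₀ H ρ (y ^ 2 * (X / (4 * κ))) (θ / H) (fy p y) (gy p y) (ry p y) v w a S hH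
    (by positivity) (by positivity) hρ (by linarith only [hρ1]) hS hcrv hv.wt hw.wt hcond
  rw [LL_eq hv.wt hw.wt] at hd
  simp only [LL_eq hv.wt hw.wt] at hd
  have hLL0 : ∀ S', 0 ≤ LL v w p x₀ y S' a := fun S' => LL_nonneg hv.wt hw.wt _ _ _ _ _
  obtain ⟨Rn, hRn⟩ : ∃ Rn : Finset ℕ, ∀ r, r ∈ Rn ↔ r ∈ Finset.range (M ^ m') ∧ (arc x₀ S (M ^ m') r).Nonempty :=
    ⟨(Finset.range (M ^ m')).filter (fun r => (arc x₀ S (M ^ m') r).Nonempty), fun r => Finset.mem_filter⟩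
  have h6 := sixth_w2 (Finset.range (M ^ m')) Rn (fun r hr => ((hRn r).1 hr).1) (hLL0 S) (fun r => hLL0 (arc x₀ S (M ^ m') r)) (fun r hr hrR => by
    have he : arc x₀ S (M ^ m') r = ∅ := by
      by_contra hne
      exact hrR ((hRn r).2 ⟨hr, Finset.nonempty_iff_ne_empty.2 hne⟩)
    rw [he]
    unfold LL lf m12 tp
    simp) hd
  have hRc : (Rn.card : ℝ) ≤ Q * (Mp * ρ) := by
    have h1 := arcs_w2 (x₀ := x₀) (ρ' := ρ) (N := M ^ m') (S := S) hρ.le (fun k hk => (hS k hk).2.2) Rn (fun r hr => ((hRn r).1 hr).2)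
    push_cast at h1
    rw [← hMp] at h1
    have h2 : 1 ≤ 5 * C12 * (M : ℝ) ^ 3 * (Mp * ρ) := by
      have h3 : 1 < 5 * C12 * (M : ℝ) ^ 3 * (Mp * ρ) ^ 3 := by
        have h4 : z ^ 3 < 5 * C12 * ((M : ℝ) * Mp) ^ 3 := lt_of_le_of_lt hθz hm'2
        have h5 := mul_lt_mul_of_pos_right h4 (by positivity : 0 < ρ ^ 3)
        have e1 : z ^ 3 * ρ ^ 3 = (ρ * z) ^ 3 := by ring
        rw [e1, hρz, one_pow] at h5
        calc (1 : ℝ) < 5 * C12 * ((M : ℝ) * Mp) ^ 3 * ρ ^ 3 := h5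
          _ = _ := by ring
      by_contra hcon
      push Not at hcon
      have h6 : 0 < Mp * ρ := by positivity
      have h7 : (1 : ℝ) ≤ 5 * C12 * (M : ℝ) ^ 3 := by
        have : (1 : ℝ) ≤ (M : ℝ) ^ 3 := one_le_pow₀ hM1
        exact one_le_mul_of_one_le_of_one_le (by linarith only [hC12]) this
      have h8 : Mp * ρ < 1 := by
        have : Mp * ρ ≤ 5 * C12 * (M : ℝ) ^ 3 * (Mp * ρ) := le_mul_of_one_le_left h6.le h7
        linarith only [hcon, this]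
      have h9 : (Mp * ρ) ^ 3 ≤ Mp * ρ := pow_le_of_le_one h6.le h8.le (by norm_num)
      have h10 : 5 * C12 * (M : ℝ) ^ 3 * (Mp * ρ) ^ 3 ≤ 5 * C12 * (M : ℝ) ^ 3 * (Mp * ρ) := mul_le_mul_of_nonneg_left h9 (by positivity)
      linarith only [h3, hcon, h10]
    have h3 : 0 ≤ Mp * ρ := by positivity
    rw [hQ, add_mul, one_mul]
    have e : 10 * C12 * (M : ℝ) ^ 3 * (Mp * ρ) = 2 * (5 * C12 * (M : ℝ) ^ 3 * (Mp * ρ)) := by ring
    rw [e]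
    linarith only [h1, h2, h3]
  -- step 3: finer arcs
  have h7 := LLarc_w2 hv hw (p := p) (x₀ := x₀) (y := y) (N' := M ^ m') (q := q) hq0 (by positivity) hS1 ha
  rw [hqN] at h7
  -- step 4: the arcs
  have h8 : ∀ r ∈ Finset.range (M ^ m), LL v w p x₀ y (arc x₀ S (M ^ m) r) a ≤ (A₂ * Cd 0 + 1) / (X / (4 * κ)) *
      ((∫ T in Icc (T₁ - X / 4) (T₁ + X / 4), W p y (arc x₀ S (M ^ m) r) a T x₀) + (1 + (A₂ + 1) * En) * X * (S.card : ℝ) ^ 12 * κ⁻¹ ^ n) := by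
    intro r _
    have h9 := upArc_w2 hc hc1 hB hl n hp (x₀ := x₀) (y := y) (ρ := ρ) (z := z) (X := X) (T₁ := T₁) (H := H) (G := G) (κ := κ) (θ := θ) (a := a) (S := S)
      ha hy hρ hρ1 hyρ hH hX hκ4 hG hz hθ0 hθ1 hθ2 hS (N := M ^ m) (by push_cast; exact hm1) r hv hw
    rw [← hA₂] at h9
    refine h9.trans ?_
    obtain ⟨I, hI⟩ : ∃ I, I = ∫ T in Icc (T₁ - X / 4) (T₁ + X / 4), W p y (arc x₀ S (M ^ m) r) a T x₀ := ⟨_, rfl⟩
    have hI0 : 0 ≤ I := by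
      rw [hI]
      exact setIntegral_nonneg measurableSet_Icc fun T _ => m12_nonneg _ _
    rw [← hI]
    have e1 : (κ / 2)⁻¹ ^ n * (π * (Cd n + Cd (n + 2))) ≤ En * κ⁻¹ ^ n := by
      have e2 : (κ / 2)⁻¹ ^ n = 2 ^ n * κ⁻¹ ^ n := by
        rw [← mul_pow]
        congr 1
        field_simp
      rw [e2, hEn]
      have e3 : Cd n + Cd (n + 2) ≤ |Cd n| + |Cd (n + 2)| := add_le_add (le_abs_self _) (le_abs_self _)
      have e4 : 0 ≤ (2 : ℝ) ^ n * κ⁻¹ ^ n := by positivity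
      calc 2 ^ n * κ⁻¹ ^ n * (π * (Cd n + Cd (n + 2))) ≤ 2 ^ n * κ⁻¹ ^ n * (π * (|Cd n| + |Cd (n + 2)|)) :=
            mul_le_mul_of_nonneg_left (mul_le_mul_of_nonneg_left e3 Real.pi_pos.le) e4
        _ = _ := by ring
    have hD0 : 0 ≤ (S.card : ℝ) ^ 12 := by (clear * -; positivity)
    have hκn : 0 ≤ κ⁻¹ ^ n := by positivity
    have e5 : (A₂ + 1) * (S.card : ℝ) ^ 12 * ((κ / 2)⁻¹ ^ n * (π * (Cd n + Cd (n + 2)))) ≤ (A₂ + 1) * (S.card : ℝ) ^ 12 * (En * κ⁻¹ ^ n) :=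
      mul_le_mul_of_nonneg_left e1 (by (clear * - hA₂0; positivity))
    have e6 : A₂ * (Cd 0 / (X / (4 * κ))) * I ≤ (A₂ * Cd 0 + 1) / (X / (4 * κ)) * I := by
      refine mul_le_mul_of_nonneg_right ?_ hI0
      rw [← mul_div_assoc]
      exact div_le_div_of_nonneg_right (by linarith only []) hX1.le
    have e7 : (A₂ + 1) * (S.card : ℝ) ^ 12 * (En * κ⁻¹ ^ n) ≤ (A₂ * Cd 0 + 1) / (X / (4 * κ)) * ((1 + (A₂ + 1) * En) * X * (S.card : ℝ) ^ 12 * κ⁻¹ ^ n) := by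
      have e8 : 1 ≤ (A₂ * Cd 0 + 1) / (X / (4 * κ)) * X := by
        rw [div_mul_eq_mul_div, le_div_iff₀ hX1, one_mul]
        have e9 : X / (4 * κ) ≤ X := div_le_self hX.le (by linarith only [hB, hC12, hCκ, hKp])
        have e10 : 0 ≤ A₂ * Cd 0 * X := by positivity
        linarith only [e9, e10]
      calc (A₂ + 1) * (S.card : ℝ) ^ 12 * (En * κ⁻¹ ^ n) = ((A₂ + 1) * En) * ((S.card : ℝ) ^ 12 * κ⁻¹ ^ n) := by ring
        _ ≤ (1 + (A₂ + 1) * En) * ((S.card : ℝ) ^ 12 * κ⁻¹ ^ n) := mul_le_mul_of_nonneg_right (by linarith only []) (by (clear * - hκ4; positivity))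
        _ = 1 * ((1 + (A₂ + 1) * En) * ((S.card : ℝ) ^ 12 * κ⁻¹ ^ n)) := (one_mul _).symm
        _ ≤ ((A₂ * Cd 0 + 1) / (X / (4 * κ)) * X) * ((1 + (A₂ + 1) * En) * ((S.card : ℝ) ^ 12 * κ⁻¹ ^ n)) :=
          mul_le_mul_of_nonneg_right e8 (by (clear * - hA₂0 hEn0 hκ4; positivity))
        _ = _ := by ring
    rw [mul_add]
    linarith only [e5, e6, e7]
  -- combination
  obtain ⟨Sg, hSg⟩ : ∃ Sg, Sg = ∑ r ∈ Finset.range (M ^ m), ((∫ T in Icc (T₁ - X / 4) (T₁ + X / 4), W p y (arc x₀ S (M ^ m) r) a T x₀) +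
      (1 + (A₂ + 1) * En) * X * (S.card : ℝ) ^ 12 * κ⁻¹ ^ n) := ⟨_, rfl⟩
  have hSg0 : 0 ≤ Sg := by
    rw [hSg]
    refine Finset.sum_nonneg fun r _ => add_nonneg (setIntegral_nonneg measurableSet_Icc fun T _ => m12_nonneg _ _) (by (clear * - hA₂0 hEn0 hX hκ4; positivity))
  rw [← hSg]
  have h9 : ∑ r ∈ Finset.range (M ^ m), LL v w p x₀ y (arc x₀ S (M ^ m) r) a ≤ (A₂ * Cd 0 + 1) / (X / (4 * κ)) * Sg := by
    rw [hSg, Finset.mul_sum]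
    exact Finset.sum_le_sum h8
  have hpw : ((M : ℝ) ^ (ε / 12 * (m' : ℝ))) ^ 6 ≤ z ^ ε := by
    have e1 : ((M : ℝ) ^ (ε / 12 * (m' : ℝ))) ^ 6 = Mp ^ (ε / 2) := by
      rw [hMp, ← Real.rpow_natCast (M : ℝ) m', ← Real.rpow_mul hM0.le, ← Real.rpow_natCast, ← Real.rpow_mul hM0.le]
      congr 1
      push_cast
      ring
    rw [e1]
    calc Mp ^ (ε / 2) ≤ (z ^ 2) ^ (ε / 2) := Real.rpow_le_rpow hMp0.le hMpz (by positivity)
      _ = z ^ ε := by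
        rw [← Real.rpow_natCast z 2, ← Real.rpow_mul hz0.le]
        congr 1
        push_cast
        ring
  have hRc5 : (Rn.card : ℝ) ^ 5 ≤ (Q * (Mp * ρ)) ^ 5 := pow_le_pow_left₀ (by (clear * -; positivity)) hRc 5
  have hLLS : LL v w p x₀ y S a ≤ C12 ^ 6 * z ^ ε * (Q ^ 5 * (Mp * ρ) ^ 5) * (((M : ℝ) ^ m / Mp) ^ 11 * ((A₂ * Cd 0 + 1) / (X / (4 * κ)) * Sg)) := by
    refine h6.trans ?_
    have a1 : (C12 * (M : ℝ) ^ (ε / 12 * (m' : ℝ))) ^ 6 ≤ C12 ^ 6 * z ^ ε := by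
      rw [mul_pow]
      exact mul_le_mul_of_nonneg_left hpw (by positivity)
    have a2 : ∑ r ∈ Finset.range (M ^ m'), LL v w p x₀ y (arc x₀ S (M ^ m') r) a ≤ ((M : ℝ) ^ m / Mp) ^ 11 * ((A₂ * Cd 0 + 1) / (X / (4 * κ)) * Sg) := by
      rw [← hqr]
      exact h7.trans (mul_le_mul_of_nonneg_left h9 (by positivity))
    have a3 : 0 ≤ ∑ r ∈ Finset.range (M ^ m'), LL v w p x₀ y (arc x₀ S (M ^ m') r) a := Finset.sum_nonneg fun r _ => hLL0 _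
    calc (C12 * (M : ℝ) ^ (ε / 12 * (m' : ℝ))) ^ 6 * ((Rn.card : ℝ) ^ 5 * ∑ r ∈ Finset.range (M ^ m'), LL v w p x₀ y (arc x₀ S (M ^ m') r) a)
        ≤ (C12 ^ 6 * z ^ ε) * ((Q * (Mp * ρ)) ^ 5 * (((M : ℝ) ^ m / Mp) ^ 11 * ((A₂ * Cd 0 + 1) / (X / (4 * κ)) * Sg))) := by
          (clear * - a1 hRc5 a2 a3 hQ0 hMp0 hρ hC12 hz0; gcongr)
      _ = _ := by ring
  have hcost := cost_w2 (κ := κ) (z := z) (G := G) (θ := θ) (Mp := Mp) (Mm := (M : ℝ) ^ m) (M := (M : ℝ)) (C₁ := C12) (C₀ := B + 4) (ρ := ρ) (by linarith only [hB, hC12, hCκ, hKp]) hz1 hG0 hρz hρ hM1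
    hC12 hB4 hθ0 hθ hMp0 hm'2 (by positivity) hm2
  rw [← hP] at hcost
  refine s1.trans ?_
  have hzε : 0 ≤ z ^ ε := Real.rpow_nonneg hz0.le _
  calc A₁ / c₀ ^ 2 * (X / (4 * κ) * (θ / z ^ 3)) * LL v w p x₀ y S a
      ≤ A₁ / c₀ ^ 2 * (X / (4 * κ) * (θ / z ^ 3)) * (C12 ^ 6 * z ^ ε * (Q ^ 5 * (Mp * ρ) ^ 5) * (((M : ℝ) ^ m / Mp) ^ 11 * ((A₂ * Cd 0 + 1) / (X / (4 * κ)) * Sg))) :=
        mul_le_mul_of_nonneg_left hLLS (by positivity)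
    _ = A₁ / c₀ ^ 2 * (C12 ^ 6 * Q ^ 5) * (A₂ * Cd 0 + 1) * z ^ ε * Sg * (θ / z ^ 3 * ((Mp * ρ) ^ 5 * ((M : ℝ) ^ m / Mp) ^ 11)) := by
        have e1 : ∀ U : ℝ, U ≠ 0 → A₁ / c₀ ^ 2 * (U * (θ / z ^ 3)) * (C12 ^ 6 * z ^ ε * (Q ^ 5 * (Mp * ρ) ^ 5) * (((M : ℝ) ^ m / Mp) ^ 11 * ((A₂ * Cd 0 + 1) / U * Sg))) =
            A₁ / c₀ ^ 2 * (C12 ^ 6 * Q ^ 5) * (A₂ * Cd 0 + 1) * z ^ ε * Sg * (θ / z ^ 3 * ((Mp * ρ) ^ 5 * ((M : ℝ) ^ m / Mp) ^ 11)) := by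
          intro U hU
          field_simp
        exact e1 _ hX1.ne'
    _ ≤ A₁ / c₀ ^ 2 * (C12 ^ 6 * Q ^ 5) * (A₂ * Cd 0 + 1) * z ^ ε * Sg * (P * (κ * (z ^ 8 + z ^ 13 / G))) :=
        mul_le_mul_of_nonneg_left hcost (by positivity)
    _ = K₁ * (A₂ * Cd 0 + 1) * κ * z ^ ε * (z ^ 8 + z ^ 13 / G) * Sg := by
        rw [hK₁]
        ring
    _ ≤ _ := by
        have e2 : 0 ≤ z ^ 8 + z ^ 13 / G := by positivity
        gcongr
        linarith only [hB, hC12]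

end Pool.Agent.Helper86.LK
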